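import Pool.Agent.Q131.Snk.Ker

/-! The vertical monotonicity lemma and the morphs for triangulations in which an edge may pass
over a pole. -/

namespace Pool.Agent.Q131.Snk

open Set Helper479.Sink Topology

variable {n : ℕ} {G : SimpleGraph (Fin n)} {p : Fin n → Fin 3 → ℝ}

/-- triangulation without polar vertices in which the side faces are small -/
structure Base (G : SimpleGraph (Fin n)) (p : Fin n → Fin 3 → ℝ) : Prop where
  tri : TriC G p
  deg : ∀ i, ∃ j, G.Adj i j
  side_pos' : ∀ a b c, Fc G p a b c → Side p a b c → 0 < det3 (p a) (p b) (p c)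
  u_ne : ∀ i, ¬ (p i 0 = 0 ∧ p i 1 = 0)

lemma Base.side_pos (H : Base G p) {a b c : Fin n} (hf : Fc G p a b c) (hs : Side p a b c) :
    0 < det3 (p a) (p b) (p c) := H.side_pos' a b c hf hs

/-- between two points of the skeleton on the same longitude, everything is covered by the closed
side faces -/
lemma Base.cover (J2a : Job2a) (H : Base G p) {w : ℝ × ℝ} (hw : w ≠ 0) {z1 z2 : ℝ}
    (h1 : pt w z1 ∈ SkC G p) (h2 : pt w z2 ∈ SkC G p) :
    ∀ z ∈ Ioc z1 z2, ∃ a b c, Fc G p a b c ∧ Side p a b c ∧ pt w z ∈ CC (p a) (p b) (p c) := by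
  classical
  -- the union of the closed side faces
  set T : Set ℝ := ⋃ f : {f : Fin n × Fin n × Fin n // Fc G p f.1 f.2.1 f.2.2 ∧
    Side p f.1 f.2.1 f.2.2}, {z : ℝ | pt w z ∈ CC (p f.1.1) (p f.1.2.1) (p f.1.2.2)} with hT
  have hTc : IsClosed T := isClosed_iUnion_of_finite fun f => CC_closed f.2.1.det_ne w
  have hmem : ∀ z, z ∈ T → ∃ a b c, Fc G p a b c ∧ Side p a b c ∧
      pt w z ∈ CC (p a) (p b) (p c) := by
    intro z hz
    obtain ⟨f, hf⟩ := mem_iUnion.mp hz
    exact ⟨_, _, _, f.2.1, f.2.2, hf⟩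
  have hmem' : ∀ z a b c, Fc G p a b c → Side p a b c → pt w z ∈ CC (p a) (p b) (p c) →
      z ∈ T := by
    intro z a b c h1 h2 h3
    exact mem_iUnion.mpr ⟨⟨(a, b, c), h1, h2⟩, h3⟩
  have hopen : ∀ z ∈ Ioo z1 z2,
      z ∉ {z : ℝ | ∃ i j, G.Adj i j ∧ hA (p i) (p j) ≠ 0 ∧ pt w z ∈ EC (p i) (p j)} → z ∈ T := by
    intro z hz hzS
    by_cases hsk : pt w z ∈ SkC G p
    · obtain ⟨-, i, j, hij, hE⟩ := hsk
      have h0 : hA (p i) (p j) = 0 := by
        by_contra hne
        exact hzS ⟨i, j, hij, hne, hE⟩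
      obtain ⟨c, hc⟩ := J2a n G p H.tri i j hij
      refine hmem' z i j c hc ⟨fun h => ?_, fun h => ?_⟩ ?_
      · exact absurd h.2.2 (by rw [h0]; exact lt_irrefl _)
      · exact absurd h.2.2 (by rw [h0]; exact lt_irrefl _)
      · obtain ⟨s, t, hs, ht, e⟩ := hE
        exact ⟨s, t, 0, hs, ht, le_refl _, by rw [e]; simp⟩
    · obtain ⟨a, b, c, hf, hx⟩ := H.tri.cover _ (pt_ne hw z) hsk
      have hside : Side p a b c := by
        constructor
        · rintro ⟨q1, q2, q3⟩
          have hz2 : 0 ≤ z2 - z := by linarith [hz.2]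
          have := reg_shift (τ := z2 - z) (mul_nonneg hz2 q1.le) (mul_nonneg hz2 q2.le)
            (mul_nonneg hz2 q3.le) hx
          rw [pt_add] at this
          have e : z + (z2 - z) = z2 := by ring
          rw [e] at this
          exact hf.empty _ this h2
        · rintro ⟨q1, q2, q3⟩
          have hz2 : z1 - z ≤ 0 := by linarith [hz.1]
          have := reg_shift (τ := z1 - z) (mul_nonneg_of_nonpos_of_nonpos hz2 q1.le)
            (mul_nonneg_of_nonpos_of_nonpos hz2 q2.le)
            (mul_nonneg_of_nonpos_of_nonpos hz2 q3.le) hx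
          rw [pt_add] at this
          have e : z + (z1 - z) = z1 := by ring
          rw [e] at this
          exact hf.empty _ this h1
      have hd := H.side_pos hf hside
      apply hmem' z a b c hf hside
      obtain ⟨-, ⟨-, α, β, γ, hα, hβ, hγ, e⟩ | ⟨h, -⟩⟩ := hx
      · exact ⟨α, β, γ, hα.le, hβ.le, hγ.le, e⟩
      · exact absurd hd (not_lt.mpr h.le)
  intro z hz
  apply hmem
  by_contra hzT
  have hev : Tᶜ ∈ 𝓝 z := hTc.isOpen_compl.mem_nhds hzT
  have hev2 : Tᶜ ∩ Ioo z1 z ∈ 𝓝[<] z :=
    Filter.inter_mem (nhdsWithin_le_nhds hev) (Ioo_mem_nhdsLT hz.1)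
  obtain ⟨l, hl, hsub⟩ := mem_nhdsLT_iff_exists_Ioo_subset.mp hev2
  have hinf : (Ioo l z).Infinite := Ioo_infinite hl
  apply hinf
  apply (sk_finite G p w).subset
  intro y hy
  by_contra hyS
  have h3 := hsub hy
  exact h3.1 (hopen y ⟨h3.2.1, h3.2.2.trans_le hz.2⟩ hyS)

/-- two representations of the value agree -/
lemma Base.fval_eq (J2c : Job2c) (H : Base G p) {a b c a' b' c' : Fin n}
    (hf : Fc G p a b c) (hs : Side p a b c) (hf' : Fc G p a' b' c') (hs' : Side p a' b' c')
    {x : Fin 3 → ℝ} (hx0 : x ≠ 0) (hx : x ∈ CC (p a) (p b) (p c))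
    (hx' : x ∈ CC (p a') (p b') (p c')) (h : Fin n → ℝ) :
    fval p h (a, b, c) x = fval p h (a', b', c') x := by
  have hd := H.side_pos hf hs
  have hd' := H.side_pos hf' hs'
  by_cases hsk : x ∈ SkC G p
  · obtain ⟨-, i, j, hij, s, t, hs, ht, rfl⟩ := hsk
    rw [face_val H.tri.emb hf hd hij hs ht hx0 hx h, face_val H.tri.emb hf' hd' hij hs ht hx0 hx' h]
  · have key : ∀ {a b c : Fin n}, Fc G p a b c → 0 < det3 (p a) (p b) (p c) →
        x ∈ CC (p a) (p b) (p c) → x ∈ Reg (p a) (p b) (p c) := by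
      intro a b c hf hd hx
      refine ⟨hx0, Or.inl ⟨hd, ?_⟩⟩
      by_contra hno
      rcases CC_boundary hx hno with h | h | h
      · exact hsk (EC_sk hf.ab hx0 h)
      · exact hsk (EC_sk hf.bc hx0 h)
      · exact hsk (EC_sk hf.ca hx0 h)
    rcases J2c n G p H.tri a b c a' b' c' x hf hf' (key hf hd hx) (key hf' hd' hx') with
      ⟨rfl, rfl, rfl⟩ | ⟨rfl, rfl, rfl⟩ | ⟨rfl, rfl, rfl⟩
    · rfl
    · exact (fval_rot x).symm
    · exact fval_rot x

/-- THE VERTICAL MONOTONICITY LEMMA -/
lemma Base.vml (J2a : Job2a) (J2c : Job2c) (H : Base G p) {h : Fin n → ℝ}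
    (hh : ∀ a b c, Fc G p a b c → Side p a b c → 0 < Dh p h a b c)
    {i j k l : Fin n} (hij : G.Adj i j) (hkl : G.Adj k l) {s t s' t' : ℝ} (hs : 0 ≤ s)
    (ht : 0 ≤ t) (hs' : 0 ≤ s') (ht' : 0 ≤ t')
    (e0 : s * p i 0 + t * p j 0 = s' * p k 0 + t' * p l 0)
    (e1 : s * p i 1 + t * p j 1 = s' * p k 1 + t' * p l 1)
    (hw : ¬ (s * p i 0 + t * p j 0 = 0 ∧ s * p i 1 + t * p j 1 = 0))
    (hz : s * p i 2 + t * p j 2 < s' * p k 2 + t' * p l 2) :
    s * h i + t * h j < s' * h k + t' * h l := by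
  classical
  set w : ℝ × ℝ := (s * p i 0 + t * p j 0, s * p i 1 + t * p j 1) with hwdef
  have hw0 : w ≠ 0 := by
    intro h0
    apply hw
    exact ⟨congrArg Prod.fst h0, congrArg Prod.snd h0⟩
  set z1 := s * p i 2 + t * p j 2 with hz1
  set z2 := s' * p k 2 + t' * p l 2 with hz2
  have E1 : pt w z1 = s • p i + t • p j := by
    ext m; fin_cases m <;> simp [pt, hwdef, hz1]
  have E2 : pt w z2 = s' • p k + t' • p l := by
    ext m; fin_cases m <;> simp [pt, hwdef, hz2, e0, e1]
  have S1 : pt w z1 ∈ SkC G p := ⟨pt_ne hw0 _, i, j, hij, s, t, hs, ht, E1⟩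
  have S2' : pt w z2 ∈ SkC G p := ⟨pt_ne hw0 _, k, l, hkl, s', t', hs', ht', E2⟩
  have hcov := H.cover J2a hw0 S1 S2'
  let F : Finset (Fin n × Fin n × Fin n) :=
    Finset.univ.filter fun f => Fc G p f.1 f.2.1 f.2.2 ∧ Side p f.1 f.2.1 f.2.2
  have hF : ∀ f, f ∈ F ↔ Fc G p f.1 f.2.1 f.2.2 ∧ Side p f.1 f.2.1 f.2.2 := fun f => by
    simp [F]
  obtain ⟨f, hfF, hf1, hf2⟩ := mono_cover
    (fun f : Fin n × Fin n × Fin n => {z : ℝ | pt w z ∈ CC (p f.1) (p f.2.1) (p f.2.2)})
    (fun f z => fval p h f (pt w z)) F.card F rfl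
    (fun f hf => CC_closed ((hF f).mp hf).1.det_ne w)
    (fun f hf z _ z' _ hlt => by
      obtain ⟨q1, q2⟩ := (hF f).mp hf
      have hd := H.side_pos q1 q2
      have hD := hh _ _ _ q1 q2
      have := fval_pt (p := p) (h := h) (a := f.1) (b := f.2.1) (c := f.2.2) w z z'
      have h3 : 0 < (z' - z) * (Dh p h f.1 f.2.1 f.2.2 / det3 (p f.1) (p f.2.1) (p f.2.2)) :=
        mul_pos (by linarith) (div_pos hD hd)
      show fval p h (f.1, f.2.1, f.2.2) (pt w z) < fval p h (f.1, f.2.1, f.2.2) (pt w z')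
      linarith)
    (fun f hf g hg z hz hz' => by
      obtain ⟨q1, q2⟩ := (hF f).mp hf
      obtain ⟨r1, r2⟩ := (hF g).mp hg
      exact H.fval_eq J2c q1 q2 r1 r2 (pt_ne hw0 z) hz hz' h)
    z1 z2 hz (by
      intro z hz
      obtain ⟨a, b, c, q1, q2, q3⟩ := hcov z hz
      exact ⟨(a, b, c), (hF _).mpr ⟨q1, q2⟩, q3⟩)
  obtain ⟨a, b, c, q1, q2, q3⟩ := hcov z2 ⟨hz, le_refl _⟩
  have hlt := hf2 (a, b, c) ((hF _).mpr ⟨q1, q2⟩) q3
  obtain ⟨r1, r2⟩ := (hF f).mp hfF
  have v1 : fval p h f (pt w z1) = s * h i + t * h j := by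
    rw [E1]
    apply face_val H.tri.emb r1 (H.side_pos r1 r2) hij hs ht
    · rw [← E1]; exact pt_ne hw0 _
    · rw [← E1]; exact hf1
  have v2 : fval p h (a, b, c) (pt w z2) = s' * h k + t' * h l := by
    rw [E2]
    apply face_val H.tri.emb q1 (H.side_pos q1 q2) hkl hs' ht'
    · rw [← E2]; exact pt_ne hw0 _
    · rw [← E2]; exact q3
  rw [v1, v2] at hlt
  exact hlt


/-- over a pole, an edge keeps its side -/
lemma Base.pole_sign (J2a : Job2a) (H : Base G p) {h : Fin n → ℝ}
    (hh : ∀ a b c, Fc G p a b c → Side p a b c → 0 < Dh p h a b c) {i j : Fin n}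
    (hij : G.Adj i j) {s t : ℝ} (hst : ¬ (s = 0 ∧ t = 0))
    (e0 : s * p i 0 + t * p j 0 = 0) (e1 : s * p i 1 + t * p j 1 = 0) :
    0 < (s * p i 2 + t * p j 2) * (s * h i + t * h j) := by
  have ht : t ≠ 0 := by
    rintro rfl
    have hs : s ≠ 0 := fun h => hst ⟨h, rfl⟩
    apply H.u_ne i
    constructor
    · have : s * p i 0 = 0 := by linarith
      exact (mul_eq_zero.mp this).resolve_left hs
    · have : s * p i 1 = 0 := by linarith
      exact (mul_eq_zero.mp this).resolve_left hs
  have hA0 : hA (p i) (p j) = 0 := by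
    have : t * hA (p i) (p j) = 0 := by
      unfold hA
      have h1 : t * p j 1 = -(s * p i 1) := by linarith
      have h0 : t * p j 0 = -(s * p i 0) := by linarith
      have : t * (p i 0 * p j 1 - p i 1 * p j 0) = p i 0 * (t * p j 1) - p i 1 * (t * p j 0) := by
        ring
      rw [this, h0, h1]; ring
    exact (mul_eq_zero.mp this).resolve_left ht
  obtain ⟨c, hc⟩ := J2a n G p H.tri i j hij
  have hside : Side p i j c :=
    ⟨fun h' => absurd h'.2.2 (by rw [hA0]; exact lt_irrefl _),
      fun h' => absurd h'.2.2 (by rw [hA0]; exact lt_irrefl _)⟩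
  have d1 := H.side_pos hc hside
  have d2 := hh i j c hc hside
  have key : ∀ k : Fin n → ℝ, t * Dh p k i j c = hA (p c) (p i) * (s * k i + t * k j) := by
    intro k
    unfold Dh
    rw [hA0]
    have h1 : t * hA (p j) (p c) = s * hA (p c) (p i) := by
      unfold hA
      have h1 : t * p j 1 = -(s * p i 1) := by linarith
      have h0 : t * p j 0 = -(s * p i 0) := by linarith
      have : t * (p j 0 * p c 1 - p j 1 * p c 0) = (t * p j 0) * p c 1 - (t * p j 1) * p c 0 := by
        ring
      rw [this, h0, h1]; ring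
    have : t * (k i * hA (p j) (p c) + k j * hA (p c) (p i) + k c * 0) =
      k i * (t * hA (p j) (p c)) + t * k j * hA (p c) (p i) := by ring
    rw [this, h1]; ring
  have k1 := key (fun i => p i 2)
  have k2 := key h
  rw [Dh_z] at k1
  have hprod : 0 < (t * det3 (p i) (p j) (p c)) * (t * Dh p h i j c) := by
    have : (t * det3 (p i) (p j) (p c)) * (t * Dh p h i j c) =
      t ^ 2 * (det3 (p i) (p j) (p c) * Dh p h i j c) := by ring
    rw [this]
    have := mul_pos d1 d2
    positivity
  rw [k1, k2] at hprod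
  have : hA (p c) (p i) * (s * p i 2 + t * p j 2) * (hA (p c) (p i) * (s * h i + t * h j)) =
    (hA (p c) (p i)) ^ 2 * ((s * p i 2 + t * p j 2) * (s * h i + t * h j)) := by ring
  rw [this] at hprod
  exact (pos_iff_pos_of_mul_pos hprod).mp (by
    have h0 : hA (p c) (p i) ≠ 0 := by
      intro h0; rw [h0] at hprod; simp at hprod
    positivity)

/-- lifted drawings are embeddings -/
lemma Base.lift_emb (J2a : Job2a) (J2c : Job2c) (H : Base G p) {h : Fin n → ℝ}
    (hh : ∀ a b c, Fc G p a b c → Side p a b c → 0 < Dh p h a b c) : EmbC G (lift p h) := by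
  have hE := H.tri.emb
  constructor
  · intro i h0
    have a0 := congrFun h0 0
    have a1 := congrFun h0 1
    exact H.u_ne i ⟨a0, a1⟩
  · intro i j c hc he
    obtain ⟨i', hi'⟩ := H.deg i
    obtain ⟨j', hj'⟩ := H.deg j
    have a0 := congrFun he 0
    have a1 := congrFun he 1
    have a2 := congrFun he 2
    simp only [lift0, lift1, lift2, Pi.smul_apply, smul_eq_mul] at a0 a1 a2
    by_contra hne
    rcases lt_trichotomy (p i 2) (c * p j 2) with hz | hz | hz
    · have := H.vml J2a J2c hh hi' hj' (s := 1) (t := 0) (s' := c) (t' := 0) zero_le_one le_rfl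
        hc.le le_rfl (by linarith) (by linarith) (by
          simpa using H.u_ne i) (by linarith)
      linarith
    · apply hne
      apply hE.inj i j c hc
      ext m; fin_cases m
      · exact a0
      · exact a1
      · exact hz
    · have := H.vml J2a J2c hh hj' hi' (s := c) (t := 0) (s' := 1) (t' := 0) hc.le le_rfl
        zero_le_one le_rfl (by linarith) (by linarith) (by
          have := H.u_ne j
          rintro ⟨b0, b1⟩
          apply this
          constructor
          · have : c * p j 0 = 0 := by linarith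
            exact (mul_eq_zero.mp this).resolve_left hc.ne'
          · have : c * p j 1 = 0 := by linarith
            exact (mul_eq_zero.mp this).resolve_left hc.ne') (by linarith)
      linarith
  · intro i j c hij hc he
    have a0 := congrFun he 0
    have a1 := congrFun he 1
    have a2 := congrFun he 2
    simp only [lift0, lift1, lift2, Pi.neg_apply, Pi.smul_apply, smul_eq_mul] at a0 a1 a2
    have := H.pole_sign J2a hh hij (s := 1) (t := c) (fun h => one_ne_zero h.1) (by linarith)
      (by linarith)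
    have e : 1 * h i + c * h j = 0 := by linarith
    rw [e] at this
    simp at this
  · rintro i j k l x hij hkl hne hx0 ⟨s, t, hs, ht, e⟩ ⟨s', t', hs', ht', e'⟩
    have a0 := congrFun e 0
    have a1 := congrFun e 1
    have a2 := congrFun e 2
    have b0 := congrFun e' 0
    have b1 := congrFun e' 1
    have b2 := congrFun e' 2
    simp only [Pi.add_apply, lift0, lift1, lift2, Pi.smul_apply, smul_eq_mul] at a0 a1 a2 b0 b1 b2
    by_cases hw : (s * p i 0 + t * p j 0 = 0 ∧ s * p i 1 + t * p j 1 = 0)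
    · exfalso
      have hst : ¬ (s = 0 ∧ t = 0) := by
        rintro ⟨rfl, rfl⟩; apply hx0; rw [e]; simp
      have hst' : ¬ (s' = 0 ∧ t' = 0) := by
        rintro ⟨rfl, rfl⟩; apply hx0; rw [e']; simp
      have hw' : (s' * p k 0 + t' * p l 0 = 0 ∧ s' * p k 1 + t' * p l 1 = 0) := by
        rw [← b0, ← b1, a0, a1]; exact hw
      have q1 := H.pole_sign J2a hh hij hst hw.1 hw.2
      have q2 := H.pole_sign J2a hh hkl hst' hw'.1 hw'.2
      rw [← a2] at q1
      rw [← b2] at q2
      set z1 := s * p i 2 + t * p j 2 with hz1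
      set z2 := s' * p k 2 + t' * p l 2 with hz2
      have hx2 : x 2 ≠ 0 := by intro h0; rw [h0] at q1; simp at q1
      have hz10 : z1 ≠ 0 := by intro h0; rw [h0] at q1; simp at q1
      have hz20 : z2 ≠ 0 := by intro h0; rw [h0] at q2; simp at q2
      have hr : 0 < z1 / z2 := by
        have h1 : 0 < (z1 * x 2) * (z2 * x 2) := mul_pos q1 q2
        have h2 : (z1 * x 2) * (z2 * x 2) = (x 2) ^ 2 * z2 ^ 2 * (z1 / z2) := by
          field_simp
        rw [h2] at h1
        exact (pos_iff_pos_of_mul_pos h1).mp (by positivity)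
      have hpt : s • p i + t • p j = (z1 / z2 * s') • p k + (z1 / z2 * t') • p l := by
        ext m; fin_cases m
        · show s * p i 0 + t * p j 0 = z1 / z2 * s' * p k 0 + z1 / z2 * t' * p l 0
          have : z1 / z2 * s' * p k 0 + z1 / z2 * t' * p l 0 =
            z1 / z2 * (s' * p k 0 + t' * p l 0) := by ring
          rw [this, hw.1, hw'.1, mul_zero]
        · show s * p i 1 + t * p j 1 = z1 / z2 * s' * p k 1 + z1 / z2 * t' * p l 1
          have : z1 / z2 * s' * p k 1 + z1 / z2 * t' * p l 1 =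
            z1 / z2 * (s' * p k 1 + t' * p l 1) := by ring
          rw [this, hw.2, hw'.2, mul_zero]
        · show s * p i 2 + t * p j 2 = z1 / z2 * s' * p k 2 + z1 / z2 * t' * p l 2
          have : z1 / z2 * s' * p k 2 + z1 / z2 * t' * p l 2 = z1 / z2 * z2 := by rw [hz2]; ring
          rw [this, div_mul_cancel₀ _ hz20]
      have hne0 : s • p i + t • p j ≠ 0 := by
        intro h0
        apply hz10
        rw [hz1]; simpa using congrFun h0 2
      obtain ⟨m, -, -, c, hc, hm⟩ := hE.meet i j k l _ hij hkl hne hne0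
        ⟨s, t, hs, ht, rfl⟩ ⟨_, _, mul_nonneg hr.le hs', mul_nonneg hr.le ht', hpt⟩
      have m0 := congrFun hm 0
      have m1 := congrFun hm 1
      simp only [Pi.add_apply, Pi.smul_apply, smul_eq_mul] at m0 m1
      apply H.u_ne m
      constructor
      · have : c * p m 0 = 0 := by rw [← m0]; exact hw.1
        exact (mul_eq_zero.mp this).resolve_left hc.ne'
      · have : c * p m 1 = 0 := by rw [← m1]; exact hw.2
        exact (mul_eq_zero.mp this).resolve_left hc.ne'
    · have hw' : ¬ (s' * p k 0 + t' * p l 0 = 0 ∧ s' * p k 1 + t' * p l 1 = 0) := by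
        rw [← b0, ← b1, a0, a1]; exact hw
      rcases lt_trichotomy (s * p i 2 + t * p j 2) (s' * p k 2 + t' * p l 2) with hz | hz | hz
      · have := H.vml J2a J2c hh hij hkl hs ht hs' ht' (by linarith) (by linarith) hw hz
        linarith
      · have hpt : s • p i + t • p j = s' • p k + t' • p l := by
          ext m; fin_cases m
          · simp only [Fin.reduceFinMk, Pi.add_apply, Pi.smul_apply, smul_eq_mul]; 
            show s * p i 0 + t * p j 0 = s' * p k 0 + t' * p l 0
            linarith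
          · show s * p i 1 + t * p j 1 = s' * p k 1 + t' * p l 1
            linarith
          · exact hz
        have hne0 : s • p i + t • p j ≠ 0 := by
          intro h0
          apply hw
          exact ⟨by simpa using congrFun h0 0, by simpa using congrFun h0 1⟩
        obtain ⟨m, m1, m2, c, hc, hm⟩ := hE.meet i j k l _ hij hkl hne hne0
          ⟨s, t, hs, ht, rfl⟩ ⟨s', t', hs', ht', hpt⟩
        refine ⟨m, m1, m2, c, hc, ?_⟩
        have hv := edge_m hE hij m1 hm h
        have m0 := congrFun hm 0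
        have m1' := congrFun hm 1
        simp only [Pi.add_apply, Pi.smul_apply, smul_eq_mul] at m0 m1'
        ext r; fin_cases r
        · show x 0 = c * p m 0
          linarith
        · show x 1 = c * p m 1
          linarith
        · show x 2 = c * h m
          linarith
      · have := H.vml J2a J2c hh hkl hij hs' ht' hs ht (by linarith) (by linarith) hw' hz
        linarith
  · rintro i j m hij ⟨s, t, hs, ht, e⟩
    have a0 := congrFun e 0
    have a1 := congrFun e 1
    have a2 := congrFun e 2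
    simp only [Pi.add_apply, lift0, lift1, lift2, Pi.smul_apply, smul_eq_mul] at a0 a1 a2
    obtain ⟨m', hm'⟩ := H.deg m
    have hum := H.u_ne m
    have hw : ¬ (s * p i 0 + t * p j 0 = 0 ∧ s * p i 1 + t * p j 1 = 0) := by
      rw [← a0, ← a1]; exact hum
    have hw' : ¬ (1 * p m 0 + 0 * p m' 0 = 0 ∧ 1 * p m 1 + 0 * p m' 1 = 0) := by
      simpa using hum
    rcases lt_trichotomy (s * p i 2 + t * p j 2) (p m 2) with hz | hz | hz
    · have := H.vml J2a J2c hh hij hm' hs ht (s' := 1) (t' := 0) zero_le_one le_rfl (by linarith)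
        (by linarith) hw (by linarith)
      linarith
    · apply hE.vert i j m hij
      refine ⟨s, t, hs, ht, ?_⟩
      ext r; fin_cases r
      · exact a0
      · exact a1
      · exact hz.symm
    · have := H.vml J2a J2c hh hm' hij (s := 1) (t := 0) zero_le_one le_rfl hs ht (by linarith)
        (by linarith) hw' (by linarith)
      linarith

/-- heights that keep the side faces positive are reached by a longitudinal morph -/
lemma Base.morph (J2a : Job2a) (J2c : Job2c) (H : Base G p) (hsph : ∀ i, p i ∈ S2)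
    {h : Fin n → ℝ} (hh : ∀ a b c, Fc G p a b c → Side p a b c → 0 < Dh p h a b c) :
    ∃ γ : ℝ → Fin n → Fin 3 → ℝ, IsLongMorph G γ ∧ γ 0 = p ∧
      ∀ i, ∃ c : ℝ, 0 < c ∧ γ 1 i 2 = c * h i := by
  refine ⟨hpath p h, morph_of_emb hsph H.u_ne fun t ht => ?_⟩
  apply H.lift_emb J2a J2c
  intro a b c hf hs
  rw [Dh_comb]
  have h1 := H.side_pos hf hs
  have h2 := hh a b c hf hs
  have e : Dh p (fun i => p i 2) a b c = det3 (p a) (p b) (p c) := rfl
  rw [e]
  rcases eq_or_lt_of_le ht.1 with h0 | h0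
  · rw [← h0]; linarith
  · have := mul_pos h0 h2
    have := mul_nonneg (sub_nonneg.mpr ht.2) h1.le
    linarith

end Pool.Agent.Q131.Snk
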