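import Pool.Agent.Q131.Snk.Opp
import Pool.Agent.Q198.Snk.J1

/-! Large faces, linear shears, and the symmetry theorem in the language of cones. -/

namespace Pool.Agent.Q131.Snk

open Set Helper479.Sink

variable {n : ℕ} {G : SimpleGraph (Fin n)} {p : Fin n → Fin 3 → ℝ}

/-- separation of a polar direction from a cone -/
lemma sep_lin {a b c : Fin 3 → ℝ} (hd : det3 a b c ≠ 0) {σ : ℝ}
    (hx : σ • north ∉ CC a b c) :
    ∃ M : Fin 3 → ℝ, 0 < σ * M 2 ∧ a 0 * M 0 + a 1 * M 1 + a 2 * M 2 < 0 ∧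
      b 0 * M 0 + b 1 * M 1 + b 2 * M 2 < 0 ∧ c 0 * M 0 + c 1 * M 1 + c 2 * M 2 < 0 := by
  rcases Pool.Agent.Q61.Snk.job4 3 4 ![-a, -b, -c, σ • north] with ⟨h, hh⟩ | ⟨lam, l1, ⟨i, hi⟩, l3⟩
  · refine ⟨h, ?_, ?_, ?_, ?_⟩
    · have := hh 3
      simp [Fin.sum_univ_three, north] at this
      linarith
    · have := hh 0
      simp [Fin.sum_univ_three] at this
      linarith
    · have := hh 1
      simp [Fin.sum_univ_three] at this
      linarith
    · have := hh 2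
      simp [Fin.sum_univ_three] at this
      linarith
  · exfalso
    have hrel : lam 0 • a + lam 1 • b + lam 2 • c = lam 3 • (σ • north) := by
      ext m
      have := l3 m
      simp only [Fin.sum_univ_four, Matrix.cons_val, Pi.neg_apply] at this
      simp only [Pi.add_apply, Pi.smul_apply, smul_eq_mul] at this ⊢
      linarith
    rcases (l1 3).eq_or_lt with h3 | h3
    · rw [← h3, zero_smul] at hrel
      have h' : lam 0 • a + lam 1 • b + lam 2 • c = (0:ℝ) • a + (0:ℝ) • b + (0:ℝ) • c := by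
        rw [hrel]; simp
      obtain ⟨e0, e1, e2⟩ := indep3 hd h'
      apply hi
      fin_cases i
      · exact e0
      · exact e1
      · exact e2
      · exact h3.symm
    · apply hx
      refine ⟨lam 0 / lam 3, lam 1 / lam 3, lam 2 / lam 3, div_nonneg (l1 0) h3.le,
        div_nonneg (l1 1) h3.le, div_nonneg (l1 2) h3.le, ?_⟩
      have := congrArg (fun x => (lam 3)⁻¹ • x) hrel
      simp only [smul_add, smul_smul] at this
      have e5 : (lam 3)⁻¹ * (lam 3 * σ) = σ := by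
        rw [← mul_assoc, inv_mul_cancel₀ h3.ne', one_mul]
      rw [e5] at this
      rw [← this]
      simp only [div_eq_inv_mul]

/-- all vertices are in the closed cone over a large face -/
lemma vert_CC (hE : EmbC G p) (hdeg : ∀ i, ∃ j, G.Adj i j) {a b c : Fin n} (hf : Fc G p a b c)
    (hd : det3 (p a) (p b) (p c) < 0) (v : Fin n) : p v ∈ CC (p a) (p b) (p c) := by
  obtain ⟨w, hw⟩ := hdeg v
  by_contra hno
  exact hf.empty (p v) ⟨hE.ne0 v, Or.inr ⟨hd, hno⟩⟩ (Pool.Agent.Q198.Snk.vertex_SkC hE hw)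

/-- a large face that contains a pole: a shear brings all the vertices to the other side -/
lemma large_shear (hE : EmbC G p) (hdeg : ∀ i, ∃ j, G.Adj i j) {a b c : Fin n}
    (hf : Fc G p a b c) (hd : det3 (p a) (p b) (p c) < 0) {σ : ℝ} (hσ : σ = 1 ∨ σ = -1)
    (hx : σ • north ∉ CC (p a) (p b) (p c)) :
    ∃ s t : ℝ, ∀ v, σ * (p v 2 + (s * p v 0 + t * p v 1)) < 0 := by
  obtain ⟨M, m0, m1, m2, m3⟩ := sep_lin hd.ne hx
  have hM : M 2 ≠ 0 := by intro h; rw [h] at m0; simp at m0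
  refine ⟨M 0 / M 2, M 1 / M 2, fun v => ?_⟩
  obtain ⟨α, β, γ, hα, hβ, hγ, e⟩ := vert_CC hE hdeg hf hd v
  have hneg : p v 0 * M 0 + p v 1 * M 1 + p v 2 * M 2 < 0 := by
    rw [e]
    simp only [Pi.add_apply, Pi.smul_apply, smul_eq_mul]
    have hsum : (α * p a 0 + β * p b 0 + γ * p c 0) * M 0 + (α * p a 1 + β * p b 1 + γ * p c 1) * M 1 +
        (α * p a 2 + β * p b 2 + γ * p c 2) * M 2 =
        α * (p a 0 * M 0 + p a 1 * M 1 + p a 2 * M 2) +
        β * (p b 0 * M 0 + p b 1 * M 1 + p b 2 * M 2) +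
        γ * (p c 0 * M 0 + p c 1 * M 1 + p c 2 * M 2) := by ring
    rw [hsum]
    have w1 := mul_nonpos_of_nonneg_of_nonpos hα m1.le
    have w2 := mul_nonpos_of_nonneg_of_nonpos hβ m2.le
    have w3 := mul_nonpos_of_nonneg_of_nonpos hγ m3.le
    rcases hα.eq_or_lt with q1 | q1
    · rcases hβ.eq_or_lt with q2 | q2
      · rcases hγ.eq_or_lt with q3 | q3
        · exfalso
          apply hE.ne0 v
          rw [e, ← q1, ← q2, ← q3]; simp
        · have := mul_neg_of_pos_of_neg q3 m3; linarith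
      · have := mul_neg_of_pos_of_neg q2 m2; linarith
    · have := mul_neg_of_pos_of_neg q1 m1; linarith
  have e2 : σ * (p v 2 + (M 0 / M 2 * p v 0 + M 1 / M 2 * p v 1)) =
      (σ / M 2) * (p v 0 * M 0 + p v 1 * M 1 + p v 2 * M 2) := by
    field_simp; ring
  rw [e2]
  have hσM : 0 < σ / M 2 := by
    have : σ / M 2 = (σ * M 2) / (M 2) ^ 2 := by field_simp
    rw [this]; positivity
  exact mul_neg_of_pos_of_neg hσM hneg

/-! ### shears -/

/-- vertical shear -/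
def sh (s t : ℝ) (x : Fin 3 → ℝ) : Fin 3 → ℝ := ![x 0, x 1, x 2 + (s * x 0 + t * x 1)]

lemma sh_comb2 (s t : ℝ) (α β : ℝ) (x y : Fin 3 → ℝ) :
    sh s t (α • x + β • y) = α • sh s t x + β • sh s t y := by
  ext m; fin_cases m
  · simp [sh]
  · simp [sh]
  · simp [sh]; ring

lemma sh_comb3 (s t : ℝ) (α β γ : ℝ) (x y z : Fin 3 → ℝ) :
    sh s t (α • x + β • y + γ • z) = α • sh s t x + β • sh s t y + γ • sh s t z := by
  ext m; fin_cases m
  · simp [sh]
  · simp [sh]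
  · simp [sh]; ring

lemma sh_smul (s t : ℝ) (α : ℝ) (x : Fin 3 → ℝ) : sh s t (α • x) = α • sh s t x := by
  ext m; fin_cases m
  · simp [sh]
  · simp [sh]
  · simp [sh]; ring

lemma sh_inv (s t : ℝ) (x : Fin 3 → ℝ) : sh s t (sh (-s) (-t) x) = x := by
  ext m; fin_cases m
  · simp [sh]
  · simp [sh]
  · simp [sh]; ring

lemma sh_inv' (s t : ℝ) (x : Fin 3 → ℝ) : sh (-s) (-t) (sh s t x) = x := by
  ext m; fin_cases m
  · simp [sh]
  · simp [sh]
  · simp [sh]; ring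

lemma sh_inj {s t : ℝ} {x y : Fin 3 → ℝ} (h : sh s t x = sh s t y) : x = y := by
  rw [← sh_inv' s t x, h, sh_inv']

lemma sh_zero (s t : ℝ) : sh s t 0 = 0 := by
  ext m; fin_cases m <;> simp [sh]

lemma sh_EC {s t : ℝ} {a b x : Fin 3 → ℝ} : sh s t x ∈ EC (sh s t a) (sh s t b) ↔ x ∈ EC a b := by
  constructor
  · rintro ⟨α, β, hα, hβ, e⟩
    exact ⟨α, β, hα, hβ, sh_inj (s := s) (t := t) (by rw [e, sh_comb2])⟩
  · rintro ⟨α, β, hα, hβ, e⟩
    exact ⟨α, β, hα, hβ, by rw [e, sh_comb2]⟩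

lemma sh_OC {s t : ℝ} {a b c x : Fin 3 → ℝ} :
    sh s t x ∈ OC (sh s t a) (sh s t b) (sh s t c) ↔ x ∈ OC a b c := by
  constructor
  · rintro ⟨α, β, γ, hα, hβ, hγ, e⟩
    exact ⟨α, β, γ, hα, hβ, hγ, sh_inj (s := s) (t := t) (by rw [e, sh_comb3])⟩
  · rintro ⟨α, β, γ, hα, hβ, hγ, e⟩
    exact ⟨α, β, γ, hα, hβ, hγ, by rw [e, sh_comb3]⟩

lemma sh_CC {s t : ℝ} {a b c x : Fin 3 → ℝ} :
    sh s t x ∈ CC (sh s t a) (sh s t b) (sh s t c) ↔ x ∈ CC a b c := by
  constructor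
  · rintro ⟨α, β, γ, hα, hβ, hγ, e⟩
    exact ⟨α, β, γ, hα, hβ, hγ, sh_inj (s := s) (t := t) (by rw [e, sh_comb3])⟩
  · rintro ⟨α, β, γ, hα, hβ, hγ, e⟩
    exact ⟨α, β, γ, hα, hβ, hγ, by rw [e, sh_comb3]⟩

lemma sh_hA (s t : ℝ) (a b : Fin 3 → ℝ) : hA (sh s t a) (sh s t b) = hA a b := by
  simp [hA, sh]

lemma sh_det (s t : ℝ) (a b c : Fin 3 → ℝ) :
    det3 (sh s t a) (sh s t b) (sh s t c) = det3 a b c := by
  unfold det3
  rw [sh_hA, sh_hA, sh_hA]
  simp only [sh, Matrix.cons_val]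
  unfold hA; ring

lemma sh_ne {s t : ℝ} {x : Fin 3 → ℝ} : sh s t x ≠ 0 ↔ x ≠ 0 := by
  constructor
  · rintro h rfl; exact h (sh_zero s t)
  · intro h h'
    apply h
    apply sh_inj (s := s) (t := t)
    rw [h', sh_zero]

lemma sh_Reg {s t : ℝ} {a b c x : Fin 3 → ℝ} :
    sh s t x ∈ Reg (sh s t a) (sh s t b) (sh s t c) ↔ x ∈ Reg a b c := by
  show (sh s t x ≠ 0 ∧ _) ↔ (x ≠ 0 ∧ _)
  rw [sh_ne, sh_det, sh_OC, sh_CC]

lemma sh_Sk {s t : ℝ} {x : Fin 3 → ℝ} :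
    sh s t x ∈ SkC G (fun i => sh s t (p i)) ↔ x ∈ SkC G p := by
  show (sh s t x ≠ 0 ∧ ∃ i j, G.Adj i j ∧ sh s t x ∈ EC (sh s t (p i)) (sh s t (p j))) ↔
    (x ≠ 0 ∧ ∃ i j, G.Adj i j ∧ x ∈ EC (p i) (p j))
  rw [sh_ne]
  simp only [sh_EC]

lemma sh_emb (s t : ℝ) (hE : EmbC G p) : EmbC G (fun i => sh s t (p i)) := by
  constructor
  · exact fun i => sh_ne.mpr (hE.ne0 i)
  · intro i j c hc h
    exact hE.inj i j c hc (sh_inj (s := s) (t := t) (by rw [h, sh_smul]))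
  · intro i j c hij hc h
    apply hE.anti i j c hij hc
    apply sh_inj (s := s) (t := t)
    have : -(c • p j) = (-c) • p j := by rw [neg_smul]
    rw [h, this, sh_smul, neg_smul]
  · intro i j k l x hij hkl hne hx0 h1 h2
    obtain ⟨y, rfl⟩ : ∃ y, sh s t y = x := ⟨_, sh_inv s t x⟩
    rw [sh_EC] at h1 h2
    obtain ⟨m, m1, m2, c, hc, e⟩ := hE.meet i j k l y hij hkl hne (sh_ne.mp hx0) h1 h2
    exact ⟨m, m1, m2, c, hc, by rw [e, sh_smul]⟩
  · intro i j m hij h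
    exact hE.vert i j m hij (sh_EC.mp h)

lemma sh_Fc {s t : ℝ} {a b c : Fin n} :
    Fc G (fun i => sh s t (p i)) a b c ↔ Fc G p a b c := by
  constructor
  · intro h
    refine ⟨h.ab, h.bc, h.ca, ?_, ?_⟩
    · have := h.det_ne
      rwa [sh_det] at this
    · intro x hx hsk
      exact h.empty (sh s t x) (sh_Reg.mpr hx) (sh_Sk.mpr hsk)
  · intro h
    refine ⟨h.ab, h.bc, h.ca, ?_, ?_⟩
    · rw [sh_det]; exact h.det_ne
    · intro x hx hsk
      obtain ⟨y, rfl⟩ : ∃ y, sh s t y = x := ⟨_, sh_inv s t x⟩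
      exact h.empty y (sh_Reg.mp hx) (sh_Sk.mp hsk)

lemma sh_tri (s t : ℝ) (hT : TriC G p) : TriC G (fun i => sh s t (p i)) := by
  refine ⟨hT.four, sh_emb s t hT.emb, ?_, hT.card⟩
  intro x hx0 hsk
  obtain ⟨y, rfl⟩ : ∃ y, sh s t y = x := ⟨_, sh_inv s t x⟩
  obtain ⟨a, b, c, h1, h2⟩ := hT.cover y (sh_ne.mp hx0) (fun h => hsk (sh_Sk.mpr h))
  exact ⟨a, b, c, sh_Fc.mpr h1, sh_Reg.mpr h2⟩

/-- the morph by shears -/
lemma shear_morph (hE : EmbC G p) (hsph : ∀ i, p i ∈ S2)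
    (hu : ∀ i, ¬ (p i 0 = 0 ∧ p i 1 = 0)) (s t : ℝ) :
    ∃ γ : ℝ → Fin n → Fin 3 → ℝ, IsLongMorph G γ ∧ γ 0 = p ∧
      ∀ i, ∃ c : ℝ, 0 < c ∧ γ 1 i 2 = c * (p i 2 + (s * p i 0 + t * p i 1)) := by
  refine ⟨hpath p (fun i => p i 2 + (s * p i 0 + t * p i 1)), morph_of_emb hsph hu ?_⟩
  intro τ _
  have : (lift p fun i => (1 - τ) * p i 2 + τ * (p i 2 + (s * p i 0 + t * p i 1))) =
      fun i => sh (τ * s) (τ * t) (p i) := by
    ext i m; fin_cases m
    · rfl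
    · rfl
    · show (1 - τ) * p i 2 + τ * (p i 2 + (s * p i 0 + t * p i 1)) =
        p i 2 + (τ * s * p i 0 + τ * t * p i 1)
      ring
  rw [this]
  exact sh_emb _ _ hE

/-! ### the symmetry theorem -/

/-- extraction of the heights at the end of a morph -/
lemma heights_of_morph {γ : ℝ → Fin n → Fin 3 → ℝ} (hm : IsLongMorph G γ) (hγ : γ 0 = p) :
    ∃ (c h : Fin n → ℝ), (∀ i, 0 < c i) ∧ (∀ i, γ 1 i 2 = c i * h i) ∧
      ∀ i j k, det3 (γ 1 i) (γ 1 j) (γ 1 k) = c i * c j * c k * Dh p h i j k := by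
  have h1 : (1:ℝ) ∈ Icc (0:ℝ) 1 := ⟨zero_le_one, le_rfl⟩
  have hex : ∀ i, ∃ c : ℝ, 0 < c ∧ γ 1 i 0 = c * p i 0 ∧ γ 1 i 1 = c * p i 1 := by
    intro i
    obtain ⟨-, c, hc, e0, e1⟩ := hm.stays 1 h1 i
    rw [hγ] at e0 e1
    exact ⟨c, hc, e0, e1⟩
  choose c hc e0 e1 using hex
  have e2 : ∀ i, γ 1 i 2 = c i * (γ 1 i 2 / c i) := fun i => by
    rw [mul_div_cancel₀ _ (hc i).ne']
  refine ⟨c, fun i => γ 1 i 2 / c i, hc, e2, ?_⟩
  intro i j k
  have e : ∀ a b, hA (γ 1 a) (γ 1 b) = c a * c b * hA (p a) (p b) := by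
    intro a b; unfold hA; rw [e0, e0, e1, e1]; ring
  unfold det3 Dh
  rw [e, e, e]
  have := e2 i; have := e2 j; have := e2 k
  have f : ∀ i, c i * (γ 1 i 2 / c i) = γ 1 i 2 := fun i => (e2 i).symm
  calc γ 1 i 2 * (c j * c k * hA (p j) (p k)) + γ 1 j 2 * (c k * c i * hA (p k) (p i)) +
        γ 1 k 2 * (c i * c j * hA (p i) (p j))
      = (c i * (γ 1 i 2 / c i)) * (c j * c k * hA (p j) (p k)) +
        (c j * (γ 1 j 2 / c j)) * (c k * c i * hA (p k) (p i)) +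
        (c k * (γ 1 k 2 / c k)) * (c i * c j * hA (p i) (p j)) := by rw [f, f, f]
    _ = _ := by ring

/-- heights of a given sign at the end of a longitudinal morph -/
def Reaches (G : SimpleGraph (Fin n)) (v : Fin n → Fin 3 → ℝ) (σ : ℝ) : Prop :=
  ∃ γ : ℝ → Fin n → Fin 3 → ℝ, IsLongMorph G γ ∧ γ 0 = v ∧ ∀ i, 0 < σ * γ 1 i 2

lemma sinkable_iff {v : Fin n → Fin 3 → ℝ} : Sinkable G v ↔ Reaches G v (-1) := by
  constructor
  · rintro ⟨γ, h1, h2, h3⟩
    exact ⟨γ, h1, h2, fun i => by have := h3 i; linarith⟩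
  · rintro ⟨γ, h1, h2, h3⟩
    exact ⟨γ, h1, h2, fun i => by have := h3 i; linarith⟩

lemma floatable_iff {v : Fin n → Fin 3 → ℝ} : Floatable G v ↔ Reaches G v 1 := by
  constructor
  · rintro ⟨γ, h1, h2, h3⟩
    exact ⟨γ, h1, h2, fun i => by have := h3 i; linarith⟩
  · rintro ⟨γ, h1, h2, h3⟩
    exact ⟨γ, h1, h2, fun i => by have := h3 i; linarith⟩

/-- the drawing reaches one side if it reaches the other -/
theorem reach_opp (hT : TriC G p) (hdeg : ∀ i, ∃ j, G.Adj i j) (hsph : ∀ i, p i ∈ S2)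
    (gen : ∀ a b, G.Adj a b → hA (p a) (p b) ≠ 0) {σ : ℝ} (hσ : σ = 1 ∨ σ = -1)
    (hr : Reaches G p (-σ)) : Reaches G p σ := by
  have hE := hT.emb
  have hpole : ∀ {τ : ℝ} {x : Fin 3 → ℝ}, x ≠ 0 → x = τ • north → x ∉ SkC G p := by
    rintro τ x hx0 rfl ⟨-, i, j, hij, s, t, hs, ht, e⟩
    have a0 := congrFun e 0
    have a1 := congrFun e 1
    simp [north] at a0 a1
    have g := gen i j hij
    have hAe : hA (p i) (p j) = p i 0 * p j 1 - p i 1 * p j 0 := rfl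
    have s0 : s * hA (p i) (p j) = 0 := by
      rw [hAe]
      have : s * (p i 0 * p j 1 - p i 1 * p j 0) = (s * p i 0 + t * p j 0) * p j 1 -
        (s * p i 1 + t * p j 1) * p j 0 := by ring
      rw [this, ← a0, ← a1]; ring
    have t0 : t * hA (p i) (p j) = 0 := by
      rw [hAe]
      have : t * (p i 0 * p j 1 - p i 1 * p j 0) = p i 0 * (s * p i 1 + t * p j 1) -
        p i 1 * (s * p i 0 + t * p j 0) := by ring
      rw [this, ← a0, ← a1]; ring
    apply hx0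
    rw [e, (mul_eq_zero.mp s0).resolve_right g, (mul_eq_zero.mp t0).resolve_right g]
    simp
  have hN : north ∉ SkC G p := hpole north_ne (one_smul ℝ north).symm
  have hS : south ∉ SkC G p := hpole south_ne (by rw [south_eq, neg_smul, one_smul])
  have hu : ∀ i, ¬ (p i 0 = 0 ∧ p i 1 = 0) := by
    rintro i ⟨h0, h1⟩
    obtain ⟨j, hij⟩ := hdeg i
    apply gen i j hij
    unfold hA; rw [h0, h1]; ring
  by_cases hsep : ∀ a b c, Fc G p a b c →
      ¬ (north ∈ Reg (p a) (p b) (p c) ∧ south ∈ Reg (p a) (p b) (p c))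
  · have H : Stand G p := ⟨hT, hdeg, hN, hS, hsep⟩
    obtain ⟨γ, hm, hγ, hz⟩ := hr
    obtain ⟨c, h, hc, e2, ed⟩ := heights_of_morph hm hγ
    have hneg : ∀ v, σ * h v < 0 := by
      intro v
      have := hz v
      rw [e2 v] at this
      have h3 : -σ * (c v * h v) = c v * (-(σ * h v)) := by ring
      rw [h3] at this
      have := (pos_iff_pos_of_mul_pos this).mp (hc v)
      linarith
    have hD : ∀ a b c, Fc G p a b c → Side p a b c → 0 < Dh p h a b c := by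
      intro i j k hf hs
      have hd := H.side_pos hf hs
      have := flip hm hf.ab hf.bc hf.ca (by rw [hγ]; exact hd) (by rw [hγ]; exact hs.1)
        (by rw [hγ]; exact hs.2)
      rw [ed] at this
      exact (pos_iff_pos_of_mul_pos this).mp (mul_pos (mul_pos (hc i) (hc j)) (hc k))
    obtain ⟨h2, h2pos, h2D⟩ := H.opp gen hσ hneg hD
    obtain ⟨γ', m1, m2, m3⟩ := H.morph Pool.Agent.Q198.Snk.job2a Pool.Agent.Q198.Snk.job2c hsph h2D
    refine ⟨γ', m1, m2, fun i => ?_⟩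
    obtain ⟨c', hc', e'⟩ := m3 i
    rw [e']
    have := mul_pos hc' (h2pos i)
    linarith
  · push Not at hsep
    obtain ⟨a, b, c, hf, hNR, hSR⟩ := hsep
    have hd : det3 (p a) (p b) (p c) < 0 := by
      rcases lt_or_gt_of_ne hf.det_ne with hd | hd
      · exact hd
      · exfalso
        rw [Pool.Agent.Q198.Snk.Reg_pos hd] at hNR hSR
        obtain ⟨α, β, γ, hα, hβ, hγ, e⟩ := hNR
        obtain ⟨α', β', γ', hα', hβ', hγ', e'⟩ := hSR
        have : (α + α') • p a + (β + β') • p b + (γ + γ') • p c =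
            (0:ℝ) • p a + (0:ℝ) • p b + (0:ℝ) • p c := by
          have h1 : (α + α') • p a + (β + β') • p b + (γ + γ') • p c =
            (α • p a + β • p b + γ • p c) + (α' • p a + β' • p b + γ' • p c) := by
            simp only [add_smul]; abel
          rw [h1, ← e, ← e', south_eq]; simp
        have := (indep3 hd.ne' this).1
        linarith
    rw [Pool.Agent.Q198.Snk.Reg_neg hd] at hNR hSR
    have hx : (-σ) • north ∉ CC (p a) (p b) (p c) := by
      rcases hσ with rfl | rfl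
      · have : (-1 : ℝ) • north = south := by rw [south_eq, neg_smul, one_smul]
        rw [this]; exact hSR
      · have : (- -1 : ℝ) • north = north := by simp
        rw [this]; exact hNR
    have hσ' : -σ = 1 ∨ -σ = -1 := by rcases hσ with rfl | rfl <;> simp
    obtain ⟨s, t, hst⟩ := large_shear hE hdeg hf hd hσ' hx
    obtain ⟨γ', m1, m2, m3⟩ := shear_morph hE hsph hu s t
    refine ⟨γ', m1, m2, fun i => ?_⟩
    obtain ⟨c', hc', e'⟩ := m3 i
    rw [e']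
    have h1 := hst i
    have h2 : 0 < σ * (p i 2 + (s * p i 0 + t * p i 1)) := by linarith
    have := mul_pos hc' h2
    linarith

end Pool.Agent.Q131.Snk
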