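import Pool.Agent.Q131.Snk.Stm

/-! Further statements for MP_e680c3_co. -/

namespace Pool.Agent.Q131.Snk

open Set Helper479.Sink

/-- JOB 5: the Lagrangian lemma without the hypothesis that no edge is vertical -/
def Job5 : Prop := ∀ (n : ℕ) (G : SimpleGraph (Fin n)) (F : Fin n → Fin n → Fin n → Prop)
  (x y : Fin n → ℝ), 4 ≤ n → Nat.card G.edgeSet = 3 * n - 6 →
  (∀ a b c, F a b c → F b c a) → (∀ a b c, F a b c → G.Adj a b) →
  (∀ a b, G.Adj a b → ∃ c, F a b c) → (∀ a b c c', F a b c → F a b c' → c = c') →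
  (∃ a b, x a * y b - y a * x b ≠ 0) →
  (∀ h : Fin n → ℝ, (∀ a b c, F a b c → h a * (x b * y c - y b * x c) +
      h b * (x c * y a - y c * x a) + h c * (x a * y b - y a * x b) = 0) →
    ∃ s t : ℝ, ∀ v, h v = s * x v + t * y v) →
  ∀ ρ : Fin n → Fin n → Fin n → ℝ, (∀ a b c, F a b c → ρ a b c = ρ b c a) →
  (∀ a b c, ¬ F a b c → ρ a b c = 0) →
  (∀ h : Fin n → ℝ, ∑ a, ∑ b, ∑ c, ρ a b c * (h a * (x b * y c - y b * x c) +
      h b * (x c * y a - y c * x a) + h c * (x a * y b - y a * x b)) = 0) →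
  ∃ g : Fin n → ℝ, ∀ a b c, F a b c → g a * (x b * y c - y b * x c) +
      g b * (x c * y a - y c * x a) + g c * (x a * y b - y a * x b) =
    ρ a b c * ((x b * y c - y b * x c) * (x c * y a - y c * x a) * (x a * y b - y a * x b))

/-- the piecewise linear map that is the identity above the equator and a horizontal shear below -/
def PLs (d0 d1 : ℝ) (x : Fin 3 → ℝ) : Fin 3 → ℝ :=
  ![x 0 + min (x 2) 0 * d0, x 1 + min (x 2) 0 * d1, x 2]

/-- JOB 6: if no edge crosses the equator and no face is large, the piecewise linear shear takes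
the triangulation to a triangulation -/
def Job6 : Prop := ∀ (n : ℕ) (G : SimpleGraph (Fin n)) (p : Fin n → Fin 3 → ℝ), TriC G p →
  (∀ i j, G.Adj i j → 0 ≤ p i 2 * p j 2) →
  (∀ a b c, Fc G p a b c → 0 < det3 (p a) (p b) (p c)) → ∀ d0 d1 : ℝ,
  TriC G (fun i => PLs d0 d1 (p i)) ∧
  (∀ a b c, Fc G p a b c ↔ Fc G (fun i => PLs d0 d1 (p i)) a b c) ∧
  (∀ a b c, Fc G p a b c →
    det3 (PLs d0 d1 (p a)) (PLs d0 d1 (p b)) (PLs d0 d1 (p c)) = det3 (p a) (p b) (p c)) ∧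
  ∀ x, x ∈ SkC G p ↔ PLs d0 d1 x ∈ SkC G (fun i => PLs d0 d1 (p i))

/-- JOB 7: an octahedron with the north pole on an edge -/
def Job7 : Prop := ∃ (G : SimpleGraph (Fin 6)) (v : Fin 6 → Fin 3 → ℝ), IsSPT G v ∧
  G.Connected ∧ (∀ i, NonPolar (v i)) ∧
  (∀ U, IsFace G v U → ∃ i j k, IsTriangularFace G v U i j k ∧ det3 (v i) (v j) (v k) ≠ 0) ∧
  (∀ i j, G.Adj i j → 0 ≤ v i 0 * v j 0) ∧
  ∃ i j, G.Adj i j ∧ north ∈ arc (v i) (v j)

end Pool.Agent.Q131.Snk
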