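import Pool.Agent.Q131.Snk.Base
import Pool.Agent.Q131.Snk.Large
import Pool.Agent.Q131.Snk.Stm2

/-! Drawings with an uncrossed great circle: the main steps. -/

namespace Pool.Agent.Q131.Snk

open Set Helper479.Sink

variable {n : ℕ} {G : SimpleGraph (Fin n)} {p : Fin n → Fin 3 → ℝ}

lemma exists_big {ι : Type*} [Finite ι] (A B : ι → ℝ) (P : ι → Prop) (hA : ∀ i, P i → 0 < A i) :
    ∃ K : ℝ, 0 < K ∧ ∀ i, P i → 0 < K * A i + B i := by
  classical
  obtain ⟨M, hM⟩ := Finite.exists_le (fun i => if P i then (|B i| + 1) / A i else 0)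
  refine ⟨max M 1, lt_of_lt_of_le one_pos (le_max_right _ _), fun i hi => ?_⟩
  have h1 := hM i
  simp only [hi, if_true] at h1
  have h2 : (|B i| + 1) / A i ≤ max M 1 := h1.trans (le_max_left _ _)
  rw [div_le_iff₀ (hA i hi)] at h2
  have := neg_abs_le (B i)
  linarith

lemma Dh_shear (s t : ℝ) (h : Fin n → ℝ) (a b c : Fin n) :
    Dh p (fun v => h v + (s * p v 0 + t * p v 1)) a b c = Dh p h a b c := by
  unfold Dh hA; ring

/-- the ratio argument -/
lemma Stand.ratio (H : Stand G p) {k zz : Fin n → ℝ} {ρ : Fin n → Fin n → Fin n → ℝ}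
    {P : Fin n → Prop} {s0 t0 : ℝ} (hzz : ∀ v, zz v = p v 2 + (s0 * p v 0 + t0 * p v 1))
    (hkD : ∀ a b c, Fc G p a b c → Dh p k a b c =
      ρ a b c * (hA (p b) (p c) * hA (p c) (p a) * hA (p a) (p b)))
    (h1 : ∀ v, ¬ P v → 0 < zz v)
    (h2 : ∀ v w, ¬ P v → G.Adj v w → P w → 0 ≤ k w ∧ 0 ≤ zz w)
    (h3 : ∀ v a c, ¬ P v → Fc G p v a c → Side p v a c → 0 ≤ ρ v a c)
    (h4 : ∀ v a c, ¬ P v → Fc G p v a c → ¬ SLike p v a c) :
    ∀ v, ¬ P v → 0 ≤ k v := by
  classical
  by_contra hcon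
  push Not at hcon
  obtain ⟨v0, hPv0, hv0⟩ := hcon
  obtain ⟨v, hvm, hmin⟩ := Finset.exists_min_image (Finset.univ.filter fun v => ¬ P v)
    (fun v => k v / zz v) ⟨v0, by simp [hPv0]⟩
  have hPv : ¬ P v := (Finset.mem_filter.mp hvm).2
  set m := k v / zz v with hm
  have hm0 : m < 0 := lt_of_le_of_lt (hmin v0 (by simp [hPv0])) (div_neg_of_neg_of_pos hv0
    (h1 v0 hPv0))
  have hkv : k v = m * zz v := by rw [hm, div_mul_cancel₀ _ (h1 v hPv).ne']
  have hge : ∀ w, G.Adj v w → m * zz w ≤ k w := by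
    intro w hw
    by_cases hPw : P w
    · obtain ⟨q1, q2⟩ := h2 v w hPv hw hPw
      have := mul_nonpos_of_nonpos_of_nonneg hm0.le q2
      linarith
    · have := hmin w (by simp [hPw])
      rw [le_div_iff₀ (h1 w hPw)] at this
      exact this
  have hzzD : ∀ a b c, Dh p zz a b c = det3 (p a) (p b) (p c) := by
    intro a b c
    have : zz = fun v => p v 2 + (s0 * p v 0 + t0 * p v 1) := funext hzz
    rw [this, Dh_shear]; rfl
  rcases H.ray (σ := -1) (Or.inr rfl) v with ⟨a, c, hf, r1, r2⟩ | ⟨b, hvb, r, hr, b0, b1, b2⟩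
  · have r3 : 0 ≤ hA (p a) (p c) := by
      by_contra hc
      exact h4 v a c hPv hf ⟨not_le.mp hc, by linarith, by linarith⟩
    have hside : Side p v a c :=
      ⟨fun w => by have := w.2.1; linarith, fun w => absurd w.1 (not_lt.mpr r3)⟩
    have d1 := hkD v a c hf
    have d2 := h3 v a c hPv hf hside
    have d3 := H.side_pos hf hside
    rw [← hzzD] at d3
    have e1 : 0 ≤ hA (p a) (p c) * hA (p c) (p v) * hA (p v) (p a) := by
      have q1 : 0 ≤ hA (p c) (p v) * hA (p v) (p a) :=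
        mul_nonneg_of_nonpos_of_nonpos (by linarith) (by linarith)
      rw [mul_assoc]
      exact mul_nonneg r3 q1
    have e2 : 0 ≤ Dh p k v a c := by rw [d1]; exact mul_nonneg d2 e1
    have ga := hge a hf.ab
    have gc := hge c hf.ca.symm
    have f1 : k a * hA (p c) (p v) ≤ m * zz a * hA (p c) (p v) :=
      mul_le_mul_of_nonpos_right ga (by linarith)
    have f2 : k c * hA (p v) (p a) ≤ m * zz c * hA (p v) (p a) :=
      mul_le_mul_of_nonpos_right gc (by linarith)
    have f3 : Dh p k v a c ≤ m * Dh p zz v a c := by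
      unfold Dh
      rw [hkv]
      nlinarith
    have := mul_neg_of_neg_of_pos hm0 d3
    linarith
  · obtain ⟨c, hc⟩ := Pool.Agent.Q198.Snk.job2a n G p H.tri v b hvb
    have hvb0 : hA (p v) (p b) = 0 := by unfold hA; rw [b0, b1]; ring
    have hbc : hA (p b) (p c) = - r * hA (p c) (p v) := by unfold hA; rw [b0, b1]; ring
    have hne : hA (p c) (p v) ≠ 0 := by
      intro h0
      apply hc.det_ne
      unfold det3
      rw [hvb0, hbc, h0]; ring
    have d1 := hkD v b c hc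
    rw [hvb0, mul_zero, mul_zero] at d1
    unfold Dh at d1
    rw [hvb0, hbc] at d1
    have d2 : (k b - r * k v) * hA (p c) (p v) = 0 := by linarith
    have d3 := (mul_eq_zero.mp d2).resolve_right hne
    have g := hge b hvb
    have z1 : zz b - r * zz v < 0 := by
      rw [hzz, hzz, b0, b1]; linarith
    have z2 : 0 < m * (zz b - r * zz v) := mul_pos_of_neg_of_neg hm0 z1
    have : m * (zz b - r * zz v) = m * zz b - r * (m * zz v) := by ring
    rw [this, ← hkv] at z2
    linarith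

/-- a large face around the south pole -/
lemma Stand.core1 (H : Stand G p) (hL : LagProp G p) {a1 b1 c1 : Fin n} (hf : Fc G p a1 b1 c1)
    (hd : det3 (p a1) (p b1) (p c1) < 0) (hS : SLike p a1 b1 c1) :
    ∃ h : Fin n → ℝ, (∀ v, h v < 0) ∧ ∀ a b c, Fc G p a b c → Side p a b c → 0 < Dh p h a b c := by
  obtain ⟨aT, bT, cT, hT, hTN⟩ := H.exN
  have hTP : PLike 1 p aT bT cT := plike_one.mpr hTN
  have hSP : PLike (-1) p a1 b1 c1 := plike_neg.mpr hS
  rcases dual hL (F := fun a b c => Fc G p a b c ∧ Side p a b c)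
    (fun _ _ _ h => h.1) (fun _ _ _ h => ⟨h.1.rot, h.2.rot⟩) hT
    (fun h => h.2.1 hTN) (h1 := fun v => p v 2) (fun a b c h => H.side_pos h.1 h.2) with
    ⟨h2, q1, q2⟩ | ⟨g, ρ, q1, q2, q3, q4⟩
  · obtain ⟨s, t, hst⟩ := H.sign (Or.inl rfl) hT hTP (fun a b c h h' => q1 a b c ⟨h, h'⟩) q2
    refine ⟨fun v => h2 v + (s * p v 0 + t * p v 1), fun v => ?_, fun a b c h h' => ?_⟩
    · have := hst v
      linarith
    · rw [Dh_shear]
      exact q1 a b c ⟨h, h'⟩
  · exfalso
    have hx : (-1 : ℝ) • north ∉ CC (p a1) (p b1) (p c1) := by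
      have e : (-1 : ℝ) • north = south := by rw [south_eq, neg_smul, one_smul]
      rw [e]
      have := H.slike_south hf hS
      rw [Pool.Agent.Q198.Snk.Reg_neg hd] at this
      exact this
    obtain ⟨s0, t0, hz⟩ := large_shear H.tri.emb H.deg hf hd (Or.inr rfl) hx
    have hnotN : ∀ {a b c : Fin n}, NLike p a b c → SLike p a b c → False := by
      intro a b c h h'
      have := h.1; have := h'.1; linarith
    have hρ : ρ a1 b1 c1 = 0 := by
      apply q4 _ _ _ (fun h => h.2.2 hS)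
      · rintro ⟨rfl, rfl, rfl⟩; exact hnotN hTN hS
      · rintro ⟨rfl, rfl, rfl⟩
        exact hnotN hTN (plike_neg.mp hSP.rot)
      · rintro ⟨rfl, rfl, rfl⟩
        exact hnotN hTN (plike_neg.mp hSP.rot.rot)
    have hg1 : Dh p g a1 b1 c1 = 0 := by rw [q1 _ _ _ hf, hρ, zero_mul]
    obtain ⟨s, t, e1, e2, e3⟩ := fit0 hSP hg1
    set k : Fin n → ℝ := fun v => g v + ((-s) * p v 0 + (-t) * p v 1) with hk
    have kA : k a1 = 0 := by simp only [hk]; linarith
    have kB : k b1 = 0 := by simp only [hk]; linarith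
    have kC : k c1 = 0 := by simp only [hk]; linarith
    have hkD : ∀ a b c, Dh p k a b c = Dh p g a b c := fun a b c => by rw [hk, Dh_shear]
    have key := H.ratio (k := k) (zz := fun v => p v 2 + (s0 * p v 0 + t0 * p v 1)) (ρ := ρ)
      (P := fun v => v = a1 ∨ v = b1 ∨ v = c1) (fun v => rfl)
      (fun a b c h => by rw [hkD]; exact q1 a b c h)
      (fun v _ => by have := hz v; linarith)
      (fun v w _ _ hw => by
        refine ⟨?_, by have := hz w; linarith⟩
        rcases hw with rfl | rfl | rfl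
        · exact kA.ge
        · exact kB.ge
        · exact kC.ge)
      (fun v a c _ h h' => q2 v a c ⟨h, h'⟩)
      (fun v a c hv h h' => by
        rcases H.uniqP (Or.inr rfl) hf hSP h (plike_neg.mpr h') with ⟨rfl, -, -⟩ | ⟨rfl, -, -⟩ |
          ⟨rfl, -, -⟩
        · exact hv (Or.inl rfl)
        · exact hv (Or.inr (Or.inl rfl))
        · exact hv (Or.inr (Or.inr rfl)))
    have hk0 : ∀ v, 0 ≤ k v := by
      intro v
      by_cases hv : v = a1 ∨ v = b1 ∨ v = c1
      · rcases hv with rfl | rfl | rfl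
        · exact kA.ge
        · exact kB.ge
        · exact kC.ge
      · exact key v hv
    have e4 : 0 ≤ Dh p k aT bT cT :=
      add_nonneg (add_nonneg (mul_nonneg (hk0 _) hTN.1.le) (mul_nonneg (hk0 _) hTN.2.1.le))
        (mul_nonneg (hk0 _) hTN.2.2.le)
    rw [hkD, q1 _ _ _ hT] at e4
    have := mul_neg_of_neg_of_pos q3 (mul_pos (mul_pos hTN.1 hTN.2.1) hTN.2.2)
    linarith

/-- some corner is above the equator -/
def Up (p : Fin n → Fin 3 → ℝ) (a b c : Fin n) : Prop := 0 < p a 2 ∨ 0 < p b 2 ∨ 0 < p c 2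

lemma Up.rot {a b c : Fin n} (h : Up p a b c) : Up p b c a := by
  rcases h with h | h | h
  · exact Or.inr (Or.inr h)
  · exact Or.inl h
  · exact Or.inr (Or.inl h)

lemma nonneg_of_prod {x y : ℝ} (h : 0 ≤ x * y) (hx : 0 < x) : 0 ≤ y := by
  by_contra hc
  have := mul_neg_of_pos_of_neg hx (not_le.mp hc)
  linarith

lemma up_nonneg (hun : ∀ i j, G.Adj i j → 0 ≤ p i 2 * p j 2) {a b c : Fin n}
    (hf : Fc G p a b c) (hu : Up p a b c) : 0 ≤ p a 2 ∧ 0 ≤ p b 2 ∧ 0 ≤ p c 2 := by
  rcases hu with h | h | h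
  · exact ⟨h.le, nonneg_of_prod (hun _ _ hf.ab) h, nonneg_of_prod (hun _ _ hf.ca.symm) h⟩
  · exact ⟨nonneg_of_prod (hun _ _ hf.ab.symm) h, h.le, nonneg_of_prod (hun _ _ hf.bc) h⟩
  · exact ⟨nonneg_of_prod (hun _ _ hf.ca) h, nonneg_of_prod (hun _ _ hf.bc.symm) h, h.le⟩

lemma not_up {a b c : Fin n} (hu : ¬ Up p a b c) : p a 2 ≤ 0 ∧ p b 2 ≤ 0 ∧ p c 2 ≤ 0 := by
  unfold Up at hu
  push Not at hu
  exact hu

/-- the upper disc -/
lemma Stand.core2 (H : Stand G p) (hL : LagProp G p)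
    (hsmall : ∀ a b c, Fc G p a b c → 0 < det3 (p a) (p b) (p c))
    (hun : ∀ i j, G.Adj i j → 0 ≤ p i 2 * p j 2) :
    ∃ h : Fin n → ℝ, (∀ v, 0 ≤ p v 2 → h v < 0) ∧
      ∀ a b c, Fc G p a b c → Side p a b c → Up p a b c → 0 < Dh p h a b c := by
  classical
  obtain ⟨aT, bT, cT, hT, hTN⟩ := H.exN
  have hTP : PLike 1 p aT bT cT := plike_one.mpr hTN
  have hTup : Up p aT bT cT := by
    have := H.nlike_north hT hTN
    rw [Pool.Agent.Q198.Snk.Reg_pos (hsmall _ _ _ hT)] at this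
    obtain ⟨α, β, γ, hα, hβ, hγ, e⟩ := this
    have e2 := congrFun e 2
    simp only [Pi.add_apply, Pi.smul_apply, smul_eq_mul, north, Matrix.cons_val] at e2
    by_contra hno
    obtain ⟨w1, w2, w3⟩ := not_up hno
    have := mul_nonpos_of_nonneg_of_nonpos hα.le w1
    have := mul_nonpos_of_nonneg_of_nonpos hβ.le w2
    have := mul_nonpos_of_nonneg_of_nonpos hγ.le w3
    linarith
  have hTnn := up_nonneg hun hT hTup
  rcases dual hL (F := fun a b c => Fc G p a b c ∧ Side p a b c ∧ Up p a b c)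
    (fun _ _ _ h => h.1) (fun _ _ _ h => ⟨h.1.rot, h.2.1.rot, h.2.2.rot⟩) hT
    (fun h => h.2.1.1 hTN) (h1 := fun v => p v 2) (fun a b c h => H.side_pos h.1 h.2.1) with
    ⟨h2, q1, q2⟩ | ⟨g, ρ, q1, q2, q3, q4⟩
  · set χ : Fin n → ℝ := fun v => if p v 2 < 0 then p v 2 else 0 with hχ
    set ψ : Fin n → ℝ := fun v => if p v 2 < 0 then 0 else h2 v with hψ
    have hχz : ∀ v, p v 2 ≤ 0 → χ v = p v 2 := by
      intro v hv
      simp only [hχ]
      split_ifs with h
      · rfl
      · linarith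
    have hχ0 : ∀ v, 0 ≤ p v 2 → χ v = 0 := by
      intro v hv
      simp only [hχ]
      rw [if_neg (not_lt.mpr hv)]
    have hψ0 : ∀ v, 0 ≤ p v 2 → ψ v = h2 v := by
      intro v hv
      simp only [hψ]
      rw [if_neg (not_lt.mpr hv)]
    obtain ⟨K, hK, hKb⟩ := exists_big (ι := Fin n × Fin n × Fin n)
      (fun f => Dh p χ f.1 f.2.1 f.2.2) (fun f => Dh p ψ f.1 f.2.1 f.2.2)
      (fun f => Fc G p f.1 f.2.1 f.2.2 ∧ ¬ Up p f.1 f.2.1 f.2.2) (by
        rintro ⟨a, b, c⟩ ⟨hf, hu⟩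
        obtain ⟨w1, w2, w3⟩ := not_up hu
        show 0 < Dh p χ a b c
        have : Dh p χ a b c = det3 (p a) (p b) (p c) := by
          unfold Dh det3
          rw [hχz _ w1, hχz _ w2, hχz _ w3]
        rw [this]
        exact hsmall _ _ _ hf)
    set H2 : Fin n → ℝ := fun v => K * χ v + 1 * ψ v with hH2
    have hH2D : ∀ a b c, Dh p H2 a b c = K * Dh p χ a b c + Dh p ψ a b c := by
      intro a b c
      rw [hH2, Dh_comb, one_mul]
    have hH2n : ∀ v, 0 ≤ p v 2 → H2 v = h2 v := by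
      intro v hv
      simp only [hH2]
      rw [hχ0 v hv, hψ0 v hv]; ring
    have hH2u : ∀ a b c, Fc G p a b c → Up p a b c → Dh p H2 a b c = Dh p h2 a b c := by
      intro a b c hf hu
      obtain ⟨w1, w2, w3⟩ := up_nonneg hun hf hu
      unfold Dh
      rw [hH2n _ w1, hH2n _ w2, hH2n _ w3]
    have hside : ∀ a b c, Fc G p a b c → Side p a b c → 0 < Dh p H2 a b c := by
      intro a b c hf hs
      by_cases hu : Up p a b c
      · rw [hH2u a b c hf hu]
        exact q1 a b c ⟨hf, hs, hu⟩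
      · rw [hH2D]
        exact hKb (a, b, c) ⟨hf, hu⟩
    obtain ⟨s, t, hst⟩ := H.sign (Or.inl rfl) hT hTP hside (by rw [hH2u _ _ _ hT hTup]; exact q2)
    refine ⟨fun v => h2 v + (s * p v 0 + t * p v 1), fun v hv => ?_, fun a b c h h' h'' => ?_⟩
    · have := hst v
      rw [hH2n v hv] at this
      linarith
    · rw [Dh_shear]
      exact q1 a b c ⟨h, h', h''⟩
  · exfalso
    obtain ⟨a1, b1, c1, hf, hS⟩ := H.exS
    have hSP : PLike (-1) p a1 b1 c1 := plike_neg.mpr hS
    have hnotup : ∀ {a b c : Fin n}, Fc G p a b c → SLike p a b c → ¬ Up p a b c := by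
      intro a b c hf hS hu
      obtain ⟨w1, w2, w3⟩ := up_nonneg hun hf hu
      have := H.slike_south hf hS
      rw [Pool.Agent.Q198.Snk.Reg_pos (hsmall _ _ _ hf)] at this
      obtain ⟨α, β, γ, hα, hβ, hγ, e⟩ := this
      have e2 := congrFun e 2
      simp only [Pi.add_apply, Pi.smul_apply, smul_eq_mul, south, Matrix.cons_val] at e2
      have := mul_nonneg hα.le w1
      have := mul_nonneg hβ.le w2
      have := mul_nonneg hγ.le w3
      linarith
    -- `ρ` vanishes on the lower faces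
    have hTuniq : ∀ {a b c : Fin n}, ¬ Up p a b c → ρ a b c = 0 := by
      intro a b c hu
      apply q4 _ _ _ (fun h => hu h.2.2)
      · rintro ⟨rfl, rfl, rfl⟩; exact hu hTup
      · rintro ⟨rfl, rfl, rfl⟩; exact hu hTup.rot.rot
      · rintro ⟨rfl, rfl, rfl⟩; exact hu hTup.rot
    have hg0 : ∀ {a b c : Fin n}, Fc G p a b c → ¬ Up p a b c → Dh p g a b c = 0 := by
      intro a b c hf hu
      rw [q1 _ _ _ hf, hTuniq hu, zero_mul]
    obtain ⟨s, t, e1, e2, e3⟩ := fit0 hSP (hg0 hf (hnotup hf hS))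
    set k : Fin n → ℝ := fun v => g v + ((-s) * p v 0 + (-t) * p v 1) with hk
    have kA : k a1 = 0 := by simp only [hk]; linarith
    have kB : k b1 = 0 := by simp only [hk]; linarith
    have kC : k c1 = 0 := by simp only [hk]; linarith
    have hkD : ∀ a b c, Dh p k a b c = Dh p g a b c := fun a b c => by rw [hk, Dh_shear]
    obtain ⟨za, zb, zc⟩ := not_up (hnotup hf hS)
    -- test heights
    have htest : ∀ r : ℝ, ∃ h : Fin n → ℝ,
        (∀ a b c, Fc G p a b c → Side p a b c → 0 < Dh p h a b c) ∧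
        ∀ v, p v 2 ≤ 0 → h v = p v 2 + r * k v := by
      intro r
      set χ : Fin n → ℝ := fun v => if p v 2 ≤ 0 then 0 else p v 2 with hχ
      set ψ : Fin n → ℝ := fun v => if p v 2 ≤ 0 then p v 2 + r * k v else 0 with hψ
      have hχz : ∀ v, 0 ≤ p v 2 → χ v = p v 2 := by
        intro v hv
        simp only [hχ]
        split_ifs with h
        · linarith
        · rfl
      obtain ⟨K, hK, hKb⟩ := exists_big (ι := Fin n × Fin n × Fin n)
        (fun f => Dh p χ f.1 f.2.1 f.2.2) (fun f => Dh p ψ f.1 f.2.1 f.2.2)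
        (fun f => Fc G p f.1 f.2.1 f.2.2 ∧ Up p f.1 f.2.1 f.2.2) (by
          rintro ⟨a, b, c⟩ ⟨hf, hu⟩
          obtain ⟨w1, w2, w3⟩ := up_nonneg hun hf hu
          show 0 < Dh p χ a b c
          have : Dh p χ a b c = det3 (p a) (p b) (p c) := by
            unfold Dh det3
            rw [hχz _ w1, hχz _ w2, hχz _ w3]
          rw [this]
          exact hsmall _ _ _ hf)
      have hval : ∀ v, p v 2 ≤ 0 → K * χ v + 1 * ψ v = p v 2 + r * k v := by
        intro v hv
        simp only [hχ, hψ, if_pos hv]; ring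
      refine ⟨fun v => K * χ v + 1 * ψ v, fun a b c hf hs => ?_, hval⟩
      by_cases hu : Up p a b c
      · rw [Dh_comb, one_mul]
        exact hKb (a, b, c) ⟨hf, hu⟩
      · obtain ⟨w1, w2, w3⟩ := not_up hu
        have e : Dh p (fun v => K * χ v + 1 * ψ v) a b c =
            det3 (p a) (p b) (p c) + r * Dh p k a b c := by
          have v1 := hval _ w1; have v2 := hval _ w2; have v3 := hval _ w3
          unfold Dh det3
          beta_reduce
          rw [v1, v2, v3]; ring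
        rw [e, hkD, hg0 hf hu, mul_zero, add_zero]
        exact hsmall _ _ _ hf
    have hk0 : ∀ v, p v 2 ≤ 0 → k v = 0 := by
      intro v hv
      have go : ∀ {a b c : Fin n}, Fc G p a b c → PLike (-1) p a b c → k a = 0 → k b = 0 →
          p a 2 ≤ 0 → p b 2 ≤ 0 →
          (∃ s t : ℝ, 0 ≤ s ∧ 0 ≤ t ∧ p v 0 = s * p a 0 + t * p b 0 ∧
            p v 1 = s * p a 1 + t * p b 1) → k v = 0 := by
        rintro a b c hf hP ha hb hza hzb ⟨s', t', hs', ht', e0, e1⟩
        exact H.polar_free (Or.inr rfl) hf hP ha hb hs' ht' e0 e1 fun r => by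
          obtain ⟨h, hh, hv'⟩ := htest r
          exact ⟨h, hh, hv' _ hza, hv' _ hzb, hv' _ hv⟩
      rcases dir3 hSP.1 hSP.2.1 hSP.2.2 (p v 0) (p v 1) with q | q | q
      · exact go hf hSP kA kB za zb q
      · exact go hf.rot hSP.rot kB kC zb zc q
      · exact go hf.rot.rot hSP.rot.rot kC kA zc za q
    have key := H.ratio (k := k) (zz := fun v => p v 2) (ρ := ρ)
      (P := fun v => p v 2 ≤ 0) (s0 := 0) (t0 := 0) (fun v => by ring)
      (fun a b c h => by rw [hkD]; exact q1 a b c h)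
      (fun v hv => not_le.mp hv)
      (fun v w hv hvw hw => by
        refine ⟨(hk0 w hw).ge, ?_⟩
        exact nonneg_of_prod (hun v w hvw) (not_le.mp hv))
      (fun v a c hv h h' => q2 v a c ⟨h, h', Or.inl (not_le.mp hv)⟩)
      (fun v a c hv h h' => hnotup h h' (Or.inl (not_le.mp hv)))
    have hkall : ∀ v, 0 ≤ k v := by
      intro v
      by_cases hv : p v 2 ≤ 0
      · exact (hk0 v hv).ge
      · exact key v hv
    have e4 : 0 ≤ Dh p k aT bT cT :=
      add_nonneg (add_nonneg (mul_nonneg (hkall _) hTN.1.le) (mul_nonneg (hkall _) hTN.2.1.le))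
        (mul_nonneg (hkall _) hTN.2.2.le)
    rw [hkD, q1 _ _ _ hT] at e4
    have := mul_neg_of_neg_of_pos q3 (mul_pos (mul_pos hTN.1 hTN.2.1) hTN.2.2)
    linarith

end Pool.Agent.Q131.Snk
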