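import Pool.Agent.Q131.Snk.Circ
import Pool.Agent.Q198.Snk.J6

/-! A triangulation with an uncrossed great circle and the north pole off the skeleton is
sinkable. -/

namespace Pool.Agent.Q131.Snk

open Set Helper479.Sink

variable {n : ℕ} {G : SimpleGraph (Fin n)} {p : Fin n → Fin 3 → ℝ}

/-- inner product -/
def dt (w x : Fin 3 → ℝ) : ℝ := w 0 * x 0 + w 1 * x 1 + w 2 * x 2

lemma Stand.lag5 (J5 : Job5) (H : Stand G p) : LagProp G p := by
  obtain ⟨a, b, c, hf, hN⟩ := H.exN
  exact fun ρ h1 h2 h3 => J5 n G (Fc G p) (fun v => p v 0) (fun v => p v 1)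
    H.tri.four H.tri.card (fun _ _ _ h => h.rot) (fun _ _ _ h => h.ab)
    (Pool.Agent.Q198.Snk.job2a n G p H.tri) (Pool.Agent.Q198.Snk.job2b n G p H.tri)
    ⟨a, b, hN.2.2.ne'⟩ (fun h hh => H.ker hh) ρ h1 h2 h3

lemma sh_north (s t : ℝ) : sh s t north = north := by
  ext m; fin_cases m <;> simp [sh, north]

lemma PLs_north (d0 d1 : ℝ) : PLs d0 d1 north = north := by
  ext m; fin_cases m <;> simp [PLs, north]

lemma PLs_of_nonneg {d0 d1 : ℝ} {x : Fin 3 → ℝ} (hx : 0 ≤ x 2) : PLs d0 d1 x = x := by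
  ext m; fin_cases m <;> simp [PLs, min_eq_right hx]

lemma PLs_two {d0 d1 : ℝ} (x : Fin 3 → ℝ) : PLs d0 d1 x 2 = x 2 := rfl

lemma sk_smul {x : Fin 3 → ℝ} {c : ℝ} (hc : 0 < c) (hx : c • x ∈ SkC G p) : x ∈ SkC G p := by
  obtain ⟨h0, i, j, hij, s, t, hs, ht, e⟩ := hx
  refine ⟨fun h => h0 (by rw [h]; simp), i, j, hij, c⁻¹ * s, c⁻¹ * t,
    mul_nonneg (inv_pos.mpr hc).le hs, mul_nonneg (inv_pos.mpr hc).le ht, ?_⟩
  have := congrArg (fun y => c⁻¹ • y) e
  simp only [smul_smul, inv_mul_cancel₀ hc.ne', one_smul, smul_add] at this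
  exact this

/-- the main case: no large face and a circle that is not through the poles -/
lemma circ_small (J5 : Job5) (hT : TriC G p) (hdeg : ∀ i, ∃ j, G.Adj i j) (hsph : ∀ i, p i ∈ S2)
    (hu : ∀ i, ¬ (p i 0 = 0 ∧ p i 1 = 0)) (hN : north ∉ SkC G p)
    (hsmall : ∀ a b c, Fc G p a b c → 0 < det3 (p a) (p b) (p c)) (s t : ℝ)
    (hun : ∀ i j, G.Adj i j → 0 ≤ (p i 2 + (s * p i 0 + t * p i 1)) *
      (p j 2 + (s * p j 0 + t * p j 1))) : Sinkable G p := by
  classical
  set q : Fin n → Fin 3 → ℝ := fun i => sh s t (p i) with hq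
  have hq2 : ∀ i, q i 2 = p i 2 + (s * p i 0 + t * p i 1) := fun i => rfl
  have hTq : TriC G q := sh_tri s t hT
  have hsmallq : ∀ a b c, Fc G q a b c → 0 < det3 (q a) (q b) (q c) := by
    intro a b c hf
    show 0 < det3 (sh s t (p a)) (sh s t (p b)) (sh s t (p c))
    rw [sh_det]
    exact hsmall a b c (sh_Fc.mp hf)
  have hunq : ∀ i j, G.Adj i j → 0 ≤ q i 2 * q j 2 := hun
  have hNq : north ∉ SkC G q := by
    intro h
    apply hN
    rw [← sh_north s t] at h
    exact sh_Sk.mp h
  -- a point below the equator off the skeleton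
  obtain ⟨y, hy2, hysk⟩ : ∃ y : Fin 3 → ℝ, y 2 = -1 ∧ y ∉ SkC G q := by
    by_cases hS : south ∈ SkC G q
    · obtain ⟨-, i, j, hij, α, β, hα, hβ, e⟩ := hS
      obtain ⟨c, hc⟩ := Pool.Agent.Q198.Snk.job2a n G q hTq i j hij
      have e2 := congrFun e 2
      simp only [Pi.add_apply, Pi.smul_apply, smul_eq_mul, south, Matrix.cons_val] at e2
      have hnu : ¬ Up q i j c := by
        intro hup
        obtain ⟨w1, w2, -⟩ := up_nonneg hunq hc hup
        have := mul_nonneg hα w1
        have := mul_nonneg hβ w2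
        linarith
      obtain ⟨w1, w2, w3⟩ := not_up hnu
      have hneg : q i 2 + q j 2 + q c 2 < 0 := by
        rcases w1.eq_or_lt with h | h
        · rcases w2.eq_or_lt with h' | h'
          · rw [h, h'] at e2; simp at e2
          · linarith
        · linarith
      set x : Fin 3 → ℝ := q i + q j + q c with hx
      have hx2 : x 2 = q i 2 + q j 2 + q c 2 := rfl
      have hd := hsmallq i j c hc
      have hxO : x ∈ OC (q i) (q j) (q c) :=
        ⟨1, 1, 1, one_pos, one_pos, one_pos, by rw [hx]; simp⟩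
      have hx0 : x ≠ 0 := by
        intro h0
        have := congrFun h0 2
        rw [hx2] at this
        simp at this
        linarith
      have hxsk : x ∉ SkC G q := hc.empty x ⟨hx0, Or.inl ⟨hd, hxO⟩⟩
      have hpos : 0 < -(x 2) := by rw [hx2]; linarith
      have hx20 : x 2 ≠ 0 := by intro h; rw [h] at hpos; simp at hpos
      refine ⟨(-(x 2))⁻¹ • x, ?_, ?_⟩
      · simp only [Pi.smul_apply, smul_eq_mul]
        field_simp
      · intro h
        exact hxsk (sk_smul (inv_pos.mpr hpos) h)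
    · exact ⟨south, rfl, hS⟩
  -- the sheared drawing
  obtain ⟨hT', hFc', hdet', hSk'⟩ := Pool.Agent.Q198.Snk.job6 n G q hTq hunq hsmallq (y 0) (y 1)
  set q' : Fin n → Fin 3 → ℝ := fun i => PLs (y 0) (y 1) (q i) with hq'
  have hq'2 : ∀ i, q' i 2 = q i 2 := fun i => rfl
  have hsmall' : ∀ a b c, Fc G q' a b c → 0 < det3 (q' a) (q' b) (q' c) := by
    intro a b c hf
    have hf' := (hFc' a b c).mpr hf
    show 0 < det3 (PLs (y 0) (y 1) (q a)) (PLs (y 0) (y 1) (q b)) (PLs (y 0) (y 1) (q c))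
    rw [hdet' a b c hf']
    exact hsmallq a b c hf'
  have hN' : north ∉ SkC G q' := by
    intro h
    apply hNq
    rw [hSk' north, PLs_north]
    exact h
  have hS' : south ∉ SkC G q' := by
    intro h
    apply hysk
    rw [hSk' y]
    have : PLs (y 0) (y 1) y = south := by
      ext m; fin_cases m
      · simp [PLs, hy2, south]
      · simp [PLs, hy2, south]
      · simp [PLs, hy2, south]
    rw [this]
    exact h
  have H' : Stand G q' := by
    refine ⟨hT', hdeg, hN', hS', ?_⟩
    rintro a b c hf ⟨h1, h2⟩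
    have hd := hsmall' a b c hf
    rw [Pool.Agent.Q198.Snk.Reg_pos hd] at h1 h2
    obtain ⟨α, β, γ, hα, hβ, hγ, e⟩ := h1
    obtain ⟨α', β', γ', hα', hβ', hγ', e'⟩ := h2
    have : (α + α') • q' a + (β + β') • q' b + (γ + γ') • q' c =
        (0:ℝ) • q' a + (0:ℝ) • q' b + (0:ℝ) • q' c := by
      have h1 : (α + α') • q' a + (β + β') • q' b + (γ + γ') • q' c =
        (α • q' a + β • q' b + γ • q' c) + (α' • q' a + β' • q' b + γ' • q' c) := by
        simp only [add_smul]; abel
      rw [h1, ← e, ← e', south_eq]; simp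
    have := (indep3 hd.ne' this).1
    linarith
  obtain ⟨h, hneg, hD⟩ := H'.core2 (H'.lag5 J5) hsmall' hunq
  -- the heights
  have hsame : ∀ v, 0 ≤ q v 2 → q' v = q v := fun v hv => PLs_of_nonneg hv
  have hh0 : ∀ v, q v 0 = p v 0 := fun v => rfl
  have hh1 : ∀ v, q v 1 = p v 1 := fun v => rfl
  have hAq : ∀ a b, hA (q a) (q b) = hA (p a) (p b) := fun a b => sh_hA s t _ _
  set χ : Fin n → ℝ := fun v => if q v 2 < 0 then q v 2 else 0 with hχ
  set ψ : Fin n → ℝ := fun v => if q v 2 < 0 then 0 else h v with hψ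
  have hχz : ∀ v, q v 2 ≤ 0 → χ v = q v 2 := by
    intro v hv
    simp only [hχ]
    split_ifs with h
    · rfl
    · linarith
  obtain ⟨K, hK, hKb⟩ := exists_big (ι := Fin n × Fin n × Fin n)
    (fun f => Dh p χ f.1 f.2.1 f.2.2) (fun f => Dh p ψ f.1 f.2.1 f.2.2)
    (fun f => Fc G p f.1 f.2.1 f.2.2 ∧ ¬ Up q f.1 f.2.1 f.2.2) (by
      rintro ⟨a, b, c⟩ ⟨hf, hup⟩
      obtain ⟨w1, w2, w3⟩ := not_up hup
      show 0 < Dh p χ a b c
      have e : Dh p χ a b c = det3 (p a) (p b) (p c) := by
        have : Dh p χ a b c = Dh p (fun v => p v 2 + (s * p v 0 + t * p v 1)) a b c := by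
          unfold Dh
          rw [hχz _ w1, hχz _ w2, hχz _ w3]
          simp only [hq2]
        rw [this, Dh_shear]; rfl
      rw [e]
      exact hsmall _ _ _ hf)
  set H3 : Fin n → ℝ := fun v => K * χ v + 1 * ψ v with hH3
  have hH3n : ∀ v, 0 ≤ q v 2 → H3 v = h v := by
    intro v hv
    simp only [hH3, hχ, hψ, if_neg (not_lt.mpr hv)]; ring
  have hH3D : ∀ a b c, Fc G p a b c → Side p a b c → 0 < Dh p H3 a b c := by
    intro a b c hf hs
    by_cases hup : Up q a b c
    · have hfq : Fc G q a b c := sh_Fc.mpr hf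
      obtain ⟨w1, w2, w3⟩ := up_nonneg hunq hfq hup
      have e1 := hsame a w1
      have e2 := hsame b w2
      have e3 := hsame c w3
      have hs' : Side q' a b c := by
        refine ⟨fun h => hs.1 ?_, fun h => hs.2 ?_⟩
        · unfold NLike at h ⊢
          rw [e1, e2, e3, hAq, hAq, hAq] at h
          exact h
        · unfold SLike at h ⊢
          rw [e1, e2, e3, hAq, hAq, hAq] at h
          exact h
      have := hD a b c ((hFc' a b c).mp hfq) hs' hup
      unfold Dh at this ⊢
      rw [e1, e2, e3, hAq, hAq, hAq] at this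
      rw [hH3n _ w1, hH3n _ w2, hH3n _ w3]
      exact this
    · rw [hH3, Dh_comb, one_mul]
      exact hKb (a, b, c) ⟨hf, hup⟩
  have hH3neg : ∀ v, H3 v < 0 := by
    intro v
    rcases lt_or_ge (q v 2) 0 with hv | hv
    · simp only [hH3, hχ, hψ, if_pos hv]
      have := mul_neg_of_pos_of_neg hK hv
      linarith
    · rw [hH3n v hv]
      exact hneg v hv
  have HB : Base G p := ⟨hT, hdeg, fun a b c hf _ => hsmall a b c hf, hu⟩
  obtain ⟨γ', m1, m2, m3⟩ := HB.morph Pool.Agent.Q198.Snk.job2a Pool.Agent.Q198.Snk.job2c hsph hH3D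
  refine ⟨γ', m1, m2, fun i => ?_⟩
  obtain ⟨c', hc', e'⟩ := m3 i
  rw [e']
  exact mul_neg_of_pos_of_neg hc' (hH3neg i)

/-- THE CIRCLE THEOREM -/
theorem circ (J5 : Job5) (hT : TriC G p) (hdeg : ∀ i, ∃ j, G.Adj i j) (hsph : ∀ i, p i ∈ S2)
    (hu : ∀ i, ¬ (p i 0 = 0 ∧ p i 1 = 0)) (hN : north ∉ SkC G p) {w : Fin 3 → ℝ} (hw : w ≠ 0)
    (hun : ∀ i j, G.Adj i j → 0 ≤ dt w (p i) * dt w (p j)) : Sinkable G p := by
  have hE := hT.emb
  obtain ⟨a, b, c, hf, hR⟩ := hT.cover north north_ne hN
  rcases lt_or_gt_of_ne hf.det_ne with hd | hd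
  · -- large northern face
    rw [Pool.Agent.Q198.Snk.Reg_neg hd] at hR
    obtain ⟨s, t, hst⟩ := large_shear hE hdeg hf hd (σ := 1) (Or.inl rfl) (by rwa [one_smul])
    obtain ⟨γ', m1, m2, m3⟩ := shear_morph hE hsph hu s t
    refine ⟨γ', m1, m2, fun i => ?_⟩
    obtain ⟨c', hc', e'⟩ := m3 i
    rw [e']
    have h1 := hst i
    exact mul_neg_of_pos_of_neg hc' (by linarith)
  · have hnofb : ∀ a' b' c', Fc G p a' b' c' → north ∈ Reg (p a') (p b') (p c') →
        0 < det3 (p a') (p b') (p c') := by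
      intro a' b' c' hf' hR'
      rcases Pool.Agent.Q198.Snk.job2c n G p hT a b c a' b' c' north hf hf' hR hR' with
        ⟨rfl, rfl, rfl⟩ | ⟨rfl, rfl, rfl⟩ | ⟨rfl, rfl, rfl⟩
      · exact hd
      · rw [det3_rot]; exact hd
      · rw [← det3_rot] ; exact hd
    by_cases hex : ∃ a1 b1 c1, Fc G p a1 b1 c1 ∧ det3 (p a1) (p b1) (p c1) < 0
    · obtain ⟨a1, b1, c1, hf1, hd1⟩ := hex
      have hN1 : north ∉ Reg (p a1) (p b1) (p c1) := by
        intro h
        have := hnofb _ _ _ hf1 h
        linarith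
      have hS1 : SLike p a1 b1 c1 := by
        by_contra hno
        exact hN1 (north_large hN hf1 hd1 hno)
      have hNC : north ∈ OC (p a1) (p b1) (p c1) := by
        refine ⟨_, _, _, div_pos_of_neg_of_neg hS1.1 hd1, div_pos_of_neg_of_neg hS1.2.1 hd1,
          div_pos_of_neg_of_neg hS1.2.2 hd1, north_comb hd1.ne⟩
      have hS : south ∉ SkC G p := by
        intro hS
        have hSC : south ∈ CC (p a1) (p b1) (p c1) := by
          by_contra hno
          exact hf1.empty south ⟨south_ne, Or.inr ⟨hd1, hno⟩⟩ hS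
        obtain ⟨α, β, γ, hα, hβ, hγ, e⟩ := hNC
        obtain ⟨α', β', γ', hα', hβ', hγ', e'⟩ := hSC
        have : (α + α') • p a1 + (β + β') • p b1 + (γ + γ') • p c1 =
            (0:ℝ) • p a1 + (0:ℝ) • p b1 + (0:ℝ) • p c1 := by
          have h1 : (α + α') • p a1 + (β + β') • p b1 + (γ + γ') • p c1 =
            (α • p a1 + β • p b1 + γ • p c1) + (α' • p a1 + β' • p b1 + γ' • p c1) := by
            simp only [add_smul]; abel
          rw [h1, ← e, ← e', south_eq]; simp
        have := (indep3 hd1.ne this).1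
        linarith
      have H : Stand G p := by
        refine ⟨hT, hdeg, hN, hS, ?_⟩
        rintro a' b' c' hf' ⟨h1, h2⟩
        have hd' := hnofb a' b' c' hf' h1
        rw [Pool.Agent.Q198.Snk.Reg_pos hd'] at h1 h2
        obtain ⟨α, β, γ, hα, hβ, hγ, e⟩ := h1
        obtain ⟨α', β', γ', hα', hβ', hγ', e'⟩ := h2
        have : (α + α') • p a' + (β + β') • p b' + (γ + γ') • p c' =
            (0:ℝ) • p a' + (0:ℝ) • p b' + (0:ℝ) • p c' := by
          have h1 : (α + α') • p a' + (β + β') • p b' + (γ + γ') • p c' =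
            (α • p a' + β • p b' + γ • p c') + (α' • p a' + β' • p b' + γ' • p c') := by
            simp only [add_smul]; abel
          rw [h1, ← e, ← e', south_eq]; simp
        have := (indep3 hd'.ne' this).1
        linarith
      obtain ⟨h, hneg, hD⟩ := H.core1 (H.lag5 J5) hf1 hd1 hS1
      obtain ⟨γ', m1, m2, m3⟩ := H.morph Pool.Agent.Q198.Snk.job2a Pool.Agent.Q198.Snk.job2c
        hsph hD
      refine ⟨γ', m1, m2, fun i => ?_⟩
      obtain ⟨c', hc', e'⟩ := m3 i
      rw [e']
      exact mul_neg_of_pos_of_neg hc' (hneg i)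
    · push Not at hex
      have hsmall : ∀ a b c, Fc G p a b c → 0 < det3 (p a) (p b) (p c) := fun a b c hf =>
        lt_of_le_of_ne (hex a b c hf) hf.det_ne.symm
      have hw2 : w 2 ≠ 0 := by
        intro hw2
        rw [Pool.Agent.Q198.Snk.Reg_pos hd] at hR
        obtain ⟨α, β, γ, hα, hβ, hγ, e⟩ := hR
        have h0 : α * dt w (p a) + β * dt w (p b) + γ * dt w (p c) = 0 := by
          have : dt w north = α * dt w (p a) + β * dt w (p b) + γ * dt w (p c) := by
            rw [e]; unfold dt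
            simp only [Pi.add_apply, Pi.smul_apply, smul_eq_mul]; ring
          rw [← this]
          simp [dt, north, hw2]
        have hab := hun _ _ hf.ab
        have hbc := hun _ _ hf.bc
        have hca := hun _ _ hf.ca
        have hz : dt w (p a) = 0 ∧ dt w (p b) = 0 ∧ dt w (p c) = 0 := by
          set A := dt w (p a)
          set B := dt w (p b)
          set C := dt w (p c)
          have hA0 : A = 0 := by
            by_contra hne
            have : 0 < α * A ^ 2 := by positivity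
            have h1 : A * (α * A + β * B + γ * C) = 0 := by rw [h0, mul_zero]
            have h2 : 0 ≤ β * (A * B) := mul_nonneg hβ.le hab
            have h3 : 0 ≤ γ * (C * A) := mul_nonneg hγ.le hca
            nlinarith
          have hB0 : B = 0 := by
            by_contra hne
            have : 0 < β * B ^ 2 := by positivity
            have h1 : B * (α * A + β * B + γ * C) = 0 := by rw [h0, mul_zero]
            have h2 : 0 ≤ α * (A * B) := mul_nonneg hα.le hab
            have h3 : 0 ≤ γ * (B * C) := mul_nonneg hγ.le hbc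
            nlinarith
          refine ⟨hA0, hB0, ?_⟩
          rw [hA0, hB0] at h0
          simp at h0
          exact h0.resolve_left hγ.ne'
        apply hw
        -- `w` is orthogonal to a basis
        have hall : ∀ x : Fin 3 → ℝ, dt w x = 0 := by
          intro x
          rw [exists_comb hd.ne' x]
          have : ∀ (α β γ : ℝ), dt w (α • p a + β • p b + γ • p c) =
              α * dt w (p a) + β * dt w (p b) + γ * dt w (p c) := by
            intro α β γ; unfold dt
            simp only [Pi.add_apply, Pi.smul_apply, smul_eq_mul]; ring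
          rw [this, hz.1, hz.2.1, hz.2.2]; ring
        have := hall w
        unfold dt at this
        ext m
        have h0 : w 0 = 0 := by nlinarith [sq_nonneg (w 0), sq_nonneg (w 1), sq_nonneg (w 2)]
        have h1 : w 1 = 0 := by nlinarith [sq_nonneg (w 0), sq_nonneg (w 1), sq_nonneg (w 2)]
        fin_cases m
        · exact h0
        · exact h1
        · exact hw2
      apply circ_small J5 hT hdeg hsph hu hN hsmall (w 0 / w 2) (w 1 / w 2)
      intro i j hij
      have e : ∀ x : Fin 3 → ℝ, x 2 + (w 0 / w 2 * x 0 + w 1 / w 2 * x 1) = dt w x / w 2 := by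
        intro x; unfold dt; field_simp; ring
      rw [e, e, div_mul_div_comm]
      exact div_nonneg (hun i j hij) (mul_self_nonneg _)

/-- if an edge passes over the north pole the drawing is not sinkable -/
theorem not_sinkable (hu : ∀ i, ¬ (p i 0 = 0 ∧ p i 1 = 0)) (hN : north ∈ skeleton G p) :
    ¬ Sinkable G p := by
  rintro ⟨γ, hm, hγ, hneg⟩
  obtain ⟨i, j, hij, -, s, t, hs, ht, e⟩ := hN
  have a0 := congrFun e 0
  have a1 := congrFun e 1
  have a2 := congrFun e 2
  simp only [north, Pi.add_apply, Pi.smul_apply, smul_eq_mul, Matrix.cons_val] at a0 a1 a2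
  have hs0 : 0 < s := by
    rcases hs.eq_or_lt with h | h
    · exfalso
      rw [← h] at a0 a1 a2
      have ht0 : t ≠ 0 := by rintro rfl; simp at a2
      apply hu j
      constructor
      · have : t * p j 0 = 0 := by linarith
        exact (mul_eq_zero.mp this).resolve_left ht0
      · have : t * p j 1 = 0 := by linarith
        exact (mul_eq_zero.mp this).resolve_left ht0
    · exact h
  have ht0 : 0 < t := by
    rcases ht.eq_or_lt with h | h
    · exfalso
      rw [← h] at a0 a1
      apply hu i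
      constructor
      · have : s * p i 0 = 0 := by linarith
        exact (mul_eq_zero.mp this).resolve_left hs0.ne'
      · have : s * p i 1 = 0 := by linarith
        exact (mul_eq_zero.mp this).resolve_left hs0.ne'
    · exact h
  -- horizontal length
  set L : (Fin 3 → ℝ) → ℝ := fun x => Real.sqrt (x 0 ^ 2 + x 1 ^ 2) with hL
  have hLpos : ∀ τ ∈ Icc (0:ℝ) 1, ∀ i, ∃ c : ℝ, 0 < c ∧ γ τ i 0 = c * p i 0 ∧
      γ τ i 1 = c * p i 1 ∧ L (γ τ i) = c * L (p i) := by
    intro τ hτ i
    obtain ⟨-, c, hc, e0, e1⟩ := hm.stays τ hτ i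
    rw [hγ] at e0 e1
    refine ⟨c, hc, e0, e1, ?_⟩
    simp only [hL]
    rw [e0, e1]
    have : (c * p i 0) ^ 2 + (c * p i 1) ^ 2 = c ^ 2 * (p i 0 ^ 2 + p i 1 ^ 2) := by ring
    rw [this, Real.sqrt_mul (by positivity), Real.sqrt_sq hc.le]
  have hLp : ∀ i, 0 < L (p i) := by
    intro i
    apply Real.sqrt_pos.mpr
    by_contra hc
    apply hu i
    constructor
    · nlinarith [sq_nonneg (p i 0), sq_nonneg (p i 1)]
    · nlinarith [sq_nonneg (p i 0), sq_nonneg (p i 1)]
  -- the function that changes sign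
  set F : ℝ → ℝ := fun τ => L (γ τ j) * γ τ i 2 + L (γ τ i) * γ τ j 2 with hF
  have hcont : ContinuousOn F (Icc (0:ℝ) 1) := by
    have hc : ∀ (l : Fin n) (m : Fin 3), ContinuousOn (fun τ => γ τ l m) (Icc (0:ℝ) 1) :=
      fun l m => (continuous_apply m).comp_continuousOn (hm.cont l)
    have hcL : ∀ l, ContinuousOn (fun τ => L (γ τ l)) (Icc (0:ℝ) 1) := by
      intro l
      simp only [hL]
      exact ((((hc l 0).pow 2).add ((hc l 1).pow 2))).sqrt
    exact ((hcL j).mul (hc i 2)).add ((hcL i).mul (hc j 2))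
  -- `s L(p_i) = t L(p_j)`
  have hsL : s * L (p i) = t * L (p j) := by
    simp only [hL]
    rw [← Real.sqrt_sq hs0.le, ← Real.sqrt_mul (by positivity)]
    rw [← Real.sqrt_sq ht0.le, ← Real.sqrt_mul (by positivity)]
    congr 1
    have h0 : s * p i 0 = -(t * p j 0) := by linarith
    have h1 : s * p i 1 = -(t * p j 1) := by linarith
    have : s ^ 2 * (p i 0 ^ 2 + p i 1 ^ 2) = (s * p i 0) ^ 2 + (s * p i 1) ^ 2 := by ring
    rw [this, h0, h1]; ring
  have hF0 : 0 < F 0 := by
    simp only [hF]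
    rw [hγ]
    have h1 : t * (L (p j) * p i 2 + L (p i) * p j 2) = L (p i) := by
      have : t * (L (p j) * p i 2 + L (p i) * p j 2) = (t * L (p j)) * p i 2 + L (p i) * (t * p j 2) := by
        ring
      rw [this, ← hsL]
      have : s * L (p i) * p i 2 + L (p i) * (t * p j 2) = L (p i) * (s * p i 2 + t * p j 2) := by ring
      rw [this, ← a2, mul_one]
    have := hLp i
    rw [← h1] at this
    exact (pos_iff_pos_of_mul_pos this).mp ht0
  have hF1 : F 1 < 0 := by
    have h1 : (1:ℝ) ∈ Icc (0:ℝ) 1 := ⟨zero_le_one, le_rfl⟩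
    obtain ⟨c, hc, -, -, ec⟩ := hLpos 1 h1 i
    obtain ⟨d, hd, -, -, ed⟩ := hLpos 1 h1 j
    simp only [hF]
    rw [ec, ed]
    have := mul_neg_of_pos_of_neg (mul_pos hd (hLp j)) (hneg i)
    have := mul_neg_of_pos_of_neg (mul_pos hc (hLp i)) (hneg j)
    linarith
  obtain ⟨τ, hτ, hz⟩ : ∃ τ ∈ Icc (0:ℝ) 1, F τ = 0 := by
    have := intermediate_value_Icc' (zero_le_one (α := ℝ)) hcont
    obtain ⟨τ, hτ, h⟩ := this ⟨hF1.le, hF0.le⟩
    exact ⟨τ, hτ, h⟩
  obtain ⟨c, hc, c0, c1, ec⟩ := hLpos τ hτ i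
  obtain ⟨d, hd, d0, d1, ed⟩ := hLpos τ hτ j
  have hrel : (s * d) • γ τ i + (t * c) • γ τ j = 0 := by
    have hz' : L (γ τ j) * γ τ i 2 + L (γ τ i) * γ τ j 2 = 0 := hz
    rw [ec, ed] at hz'
    ext m
    fin_cases m
    · simp only [Fin.reduceFinMk, Pi.add_apply, Pi.smul_apply, smul_eq_mul, Pi.zero_apply]
      show s * d * γ τ i 0 + t * c * γ τ j 0 = 0
      rw [c0, d0]
      have : s * d * (c * p i 0) + t * c * (d * p j 0) = c * d * (s * p i 0 + t * p j 0) := by ring
      rw [this, ← a0, mul_zero]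
    · show s * d * γ τ i 1 + t * c * γ τ j 1 = 0
      rw [c1, d1]
      have : s * d * (c * p i 1) + t * c * (d * p j 1) = c * d * (s * p i 1 + t * p j 1) := by ring
      rw [this, ← a1, mul_zero]
    · show s * d * γ τ i 2 + t * c * γ τ j 2 = 0
      have h1 : L (p i) * (s * d * γ τ i 2 + t * c * γ τ j 2) = 0 := by
        have : L (p i) * (s * d * γ τ i 2 + t * c * γ τ j 2) =
          (s * L (p i)) * d * γ τ i 2 + t * (c * L (p i)) * γ τ j 2 := by ring
        rw [this, hsL]
        have : t * L (p j) * d * γ τ i 2 + t * (c * L (p i)) * γ τ j 2 =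
          t * (d * L (p j) * γ τ i 2 + c * L (p i) * γ τ j 2) := by ring
        rw [this, hz', mul_zero]
      exact (mul_eq_zero.mp h1).resolve_left (hLp i).ne'
  rcases parallel ((hm.emb τ hτ).mem_sphere i) ((hm.emb τ hτ).mem_sphere j) hrel
    (Or.inl (mul_pos hs0 hd).ne') with h | h
  · -- equal: impossible since the directions are opposite
    rw [h] at hrel
    have h2 : (s * d + t * c) • γ τ j = 0 := by rw [add_smul]; exact hrel
    have h3 : 0 < s * d + t * c := by positivity
    rw [smul_eq_zero] at h2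
    rcases h2 with h2 | h2
    · linarith
    · exact ne0_of_S2 ((hm.emb τ hτ).mem_sphere j) h2
  · exact (hm.emb τ hτ).not_antipodal i j hij h

end Pool.Agent.Q131.Snk
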