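import Pool.Agent.Q131.Snk.Defs
import Pool.Agent.Q131.Snk.Data

/-! Soundness of the integer checkers (MP_b37e0c_co; adapted from Pool/Agent/Helper479/Sink/Cone.lean). -/

namespace Pool.Agent.Q131.Snk

open Set Helper479.Sink

/-- real vector of an integer vector -/
def toR (w : Z3) : Fin 3 → ℝ := ![(w.x : ℝ), (w.y : ℝ), (w.z : ℝ)]

@[simp] lemma toR_0 (w : Z3) : toR w 0 = (w.x : ℝ) := rfl
@[simp] lemma toR_1 (w : Z3) : toR w 1 = (w.y : ℝ) := rfl
@[simp] lemma toR_2 (w : Z3) : toR w 2 = (w.z : ℝ) := rfl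

/-- pairing of an integer vector with a real vector -/
def dR (w : Z3) (M : Fin 3 → ℝ) : ℝ := w.x * M 0 + w.y * M 1 + w.z * M 2

lemma dR_toR (w c : Z3) : dR w (toR c) = ((Z3.dot w c : ℤ) : ℝ) := by
  simp [dR, Z3.dot]

lemma dR_comb (w : Z3) (α β γ : ℝ) (a b c : Fin 3 → ℝ) :
    dR w (α • a + β • b + γ • c) = α * dR w a + β * dR w b + γ * dR w c := by
  simp only [dR, Pi.add_apply, Pi.smul_apply, smul_eq_mul]; ring

lemma dR_smul (w : Z3) (α : ℝ) (a : Fin 3 → ℝ) : dR w (α • a) = α * dR w a := by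
  simp only [dR, Pi.smul_apply, smul_eq_mul]; ring

lemma dR_add_left (v w : Z3) (M : Fin 3 → ℝ) : dR (Z3.add v w) M = dR v M + dR w M := by
  simp only [dR, Z3.add]; push_cast; ring

lemma dR_smul_left (k : ℤ) (w : Z3) (M : Fin 3 → ℝ) : dR (Z3.smul k w) M = k * dR w M := by
  simp only [dR, Z3.smul]; push_cast; ring

lemma dR_zero_left (M : Fin 3 → ℝ) : dR ⟨0,0,0⟩ M = 0 := by simp [dR]

/-- `M` is a nonnegative combination of `a, b, c`. -/
def Cone3 (a b c M : Fin 3 → ℝ) : Prop :=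
  ∃ α β γ : ℝ, 0 ≤ α ∧ 0 ≤ β ∧ 0 ≤ γ ∧ M = α • a + β • b + γ • c

lemma toR_add (a b : Z3) : toR (Z3.add a b) = toR a + toR b := by
  ext i; fin_cases i <;> simp [Z3.add]

lemma toR_smul (k : ℤ) (a : Z3) : toR (Z3.smul k a) = (k:ℝ) • toR a := by
  ext i; fin_cases i <;> simp [Z3.smul]

/-- splitting a cone at a point `m` with `g m = s a + t b` -/
lemma cone_split {a b c m M : Fin 3 → ℝ} {s t g : ℝ} (hs : 0 < s) (ht : 0 < t) (hg : 0 < g)
    (hm : g • m = s • a + t • b) (hM : Cone3 a b c M) : Cone3 a m c M ∨ Cone3 m b c M := by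
  obtain ⟨α, β, γ, hα, hβ, hγ, rfl⟩ := hM
  rcases le_total (β * s) (α * t) with h | h
  · left
    refine ⟨α - β * s / t, β * g / t, γ, ?_, by positivity, hγ, ?_⟩
    · rw [sub_nonneg, div_le_iff₀ ht]; exact h
    · have h1 : (β * g / t) • m = (β * s / t) • a + β • b := by
        have : (β * g / t) • m = (β / t) • (g • m) := by rw [smul_smul]; congr 1; ring
        rw [this, hm, smul_add, smul_smul, smul_smul]
        congr 2 <;> field_simp
      rw [h1, sub_smul]; abel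
  · right
    refine ⟨α * g / s, β - α * t / s, γ, by positivity, ?_, hγ, ?_⟩
    · rw [sub_nonneg, div_le_iff₀ hs]; exact h
    · have h1 : (α * g / s) • m = α • a + (α * t / s) • b := by
        have : (α * g / s) • m = (α / s) • (g • m) := by rw [smul_smul]; congr 1; ring
        rw [this, hm, smul_add, smul_smul, smul_smul]
        congr 2 <;> field_simp
      rw [h1, sub_smul]; abel

lemma cone_rot {a b c M : Fin 3 → ℝ} (h : Cone3 a b c M) : Cone3 b c a M := by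
  obtain ⟨α, β, γ, hα, hβ, hγ, rfl⟩ := h
  exact ⟨β, γ, α, hβ, hγ, hα, by abel⟩

lemma split_mid {a b : Z3} {c M : Fin 3 → ℝ} (hM : Cone3 (toR a) (toR b) c M) :
    Cone3 (toR a) (toR (Z3.add a b)) c M ∨ Cone3 (toR (Z3.add a b)) (toR b) c M := by
  apply cone_split (s := 1) (t := 1) (g := 1) one_pos one_pos one_pos _ hM
  rw [toR_add]; simp

/-- `M` lies in the closed cone over face `f` -/
def InCone (f : ℕ) (M : Fin 3 → ℝ) : Prop :=
  0 ≤ dR (cv f (F f).1) M ∧ 0 ≤ dR (cv f (F f).2.1) M ∧ 0 ≤ dR (cv f (F f).2.2) M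

/-- `M` lies in the open cone over face `f` -/
def InOpen (f : ℕ) (M : Fin 3 → ℝ) : Prop :=
  0 < dR (cv f (F f).1) M ∧ 0 < dR (cv f (F f).2.1) M ∧ 0 < dR (cv f (F f).2.2) M

lemma inF_nonneg {f : ℕ} {c : Z3} (h : inF f c = true) : InCone f (toR c) := by
  simp only [inF, Bool.and_eq_true, decide_eq_true_eq] at h
  simp only [InCone, dR_toR]
  exact ⟨by exact_mod_cast h.1.1, by exact_mod_cast h.1.2, by exact_mod_cast h.2⟩

lemma inCone_comb {f : ℕ} {a b c : Fin 3 → ℝ} (ha : InCone f a) (hb : InCone f b)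
    (hc : InCone f c) {M : Fin 3 → ℝ} (hM : Cone3 a b c M) : InCone f M := by
  obtain ⟨α, β, γ, hα, hβ, hγ, rfl⟩ := hM
  obtain ⟨a1, a2, a3⟩ := ha
  obtain ⟨b1, b2, b3⟩ := hb
  obtain ⟨c1, c2, c3⟩ := hc
  refine ⟨?_, ?_, ?_⟩ <;> rw [dR_comb] <;> positivity

lemma split_gen {a b m : Z3} {s t g : ℕ} {c M : Fin 3 → ℝ} (hs : 0 < s) (ht : 0 < t) (hg : 0 < g)
    (hm : Z3.smul g m = Z3.add (Z3.smul s a) (Z3.smul t b))
    (hM : Cone3 (toR a) (toR b) c M) :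
    Cone3 (toR a) (toR m) c M ∨ Cone3 (toR m) (toR b) c M := by
  apply cone_split (s := s) (t := t) (g := g) (by exact_mod_cast hs) (by exact_mod_cast ht)
    (by exact_mod_cast hg) _ hM
  have := congrArg toR hm
  rw [toR_add, toR_smul, toR_smul, toR_smul] at this
  exact_mod_cast this

lemma check2_sound : ∀ (t : T2) (c0 c1 c2 : Z3), check2 t c0 c1 c2 = true →
    ∀ M, Cone3 (toR c0) (toR c1) (toR c2) M → ∃ f < 26, InCone f M := by
  intro t
  induction t with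
  | L f =>
    intro c0 c1 c2 h M hM
    simp only [check2, Bool.and_eq_true, decide_eq_true_eq] at h
    exact ⟨f, h.1.1.1, inCone_comb (inF_nonneg h.1.1.2) (inF_nonneg h.1.2) (inF_nonneg h.2) hM⟩
  | N e a b g m l r ihl ihr =>
    intro c0 c1 c2 h M hM
    rcases e with _ | _ | e
    · simp only [check2, Bool.and_eq_true, decide_eq_true_eq] at h
      obtain ⟨⟨⟨⟨⟨ha, hb⟩, hg⟩, hm⟩, h4⟩, h5⟩ := h
      rcases split_gen ha hb hg hm hM with h1 | h1
      · exact ihl _ _ _ h4 M h1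
      · exact ihr _ _ _ h5 M h1
    · change (decide (0 < a) && decide (0 < b) && decide (0 < g) &&
        decide (Z3.smul g m = Z3.add (Z3.smul a c1) (Z3.smul b c2)) && check2 l c0 c1 m &&
        check2 r c0 m c2) = true at h
      simp only [Bool.and_eq_true, decide_eq_true_eq] at h
      obtain ⟨⟨⟨⟨⟨ha, hb⟩, hg⟩, hm⟩, h4⟩, h5⟩ := h
      rcases split_gen ha hb hg hm (cone_rot hM) with h1 | h1
      · exact ihl _ _ _ h4 M (cone_rot (cone_rot h1))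
      · exact ihr _ _ _ h5 M (cone_rot (cone_rot h1))
    · change (decide (0 < a) && decide (0 < b) && decide (0 < g) &&
        decide (Z3.smul g m = Z3.add (Z3.smul a c2) (Z3.smul b c0)) && check2 l m c1 c2 &&
        check2 r c0 c1 m) = true at h
      simp only [Bool.and_eq_true, decide_eq_true_eq] at h
      obtain ⟨⟨⟨⟨⟨ha, hb⟩, hg⟩, hm⟩, h4⟩, h5⟩ := h
      rcases split_gen ha hb hg hm (cone_rot (cone_rot hM)) with h1 | h1
      · exact ihl _ _ _ h4 M (cone_rot h1)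
      · exact ihr _ _ _ h5 M (cone_rot h1)

/-- every vector lies in one of the twenty closed cones -/
lemma cover (M : Fin 3 → ℝ) : ∃ f < 26, InCone f M := by
  have key : ∀ (s0 s1 s2 : ℤ) (t : T2), check2 t ⟨s0,0,0⟩ ⟨0,s1,0⟩ ⟨0,0,s2⟩ = true →
      (∃ α : ℝ, 0 ≤ α ∧ M 0 = α * s0) → (∃ α : ℝ, 0 ≤ α ∧ M 1 = α * s1) →
      (∃ α : ℝ, 0 ≤ α ∧ M 2 = α * s2) → ∃ f < 26, InCone f M := by
    rintro s0 s1 s2 t ht ⟨α, hα, h0⟩ ⟨β, hβ, h1⟩ ⟨γ, hγ, h2⟩
    refine check2_sound t _ _ _ ht M ⟨α, β, γ, hα, hβ, hγ, ?_⟩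
    ext i; fin_cases i <;> simp [h0, h1, h2]
  have hp : ∀ x : ℝ, 0 ≤ x → ∃ α : ℝ, 0 ≤ α ∧ x = α * ((1:ℤ):ℝ) := fun x hx => ⟨x, hx, by simp⟩
  have hn : ∀ x : ℝ, x ≤ 0 → ∃ α : ℝ, 0 ≤ α ∧ x = α * ((-1:ℤ):ℝ) := fun x hx =>
    ⟨-x, by linarith, by simp⟩
  rcases le_total 0 (M 0) with h0 | h0 <;> rcases le_total 0 (M 1) with h1 | h1 <;>
    rcases le_total 0 (M 2) with h2 | h2
  · exact key 1 1 1 oc0 cho0 (hp _ h0) (hp _ h1) (hp _ h2)
  · exact key 1 1 (-1) oc1 cho1 (hp _ h0) (hp _ h1) (hn _ h2)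
  · exact key 1 (-1) 1 oc2 cho2 (hp _ h0) (hn _ h1) (hp _ h2)
  · exact key 1 (-1) (-1) oc3 cho3 (hp _ h0) (hn _ h1) (hn _ h2)
  · exact key (-1) 1 1 oc4 cho4 (hn _ h0) (hp _ h1) (hp _ h2)
  · exact key (-1) 1 (-1) oc5 cho5 (hn _ h0) (hp _ h1) (hn _ h2)
  · exact key (-1) (-1) 1 oc6 cho6 (hn _ h0) (hn _ h1) (hp _ h2)
  · exact key (-1) (-1) (-1) oc7 cho7 (hn _ h0) (hn _ h1) (hn _ h2)

/-- basic facts on the faces, checked by evaluation -/
lemma face_facts : ∀ f < 26, (F f).1 < 15 ∧ (F f).2.1 < 15 ∧ (F f).2.2 < 15 ∧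
    (F f).2.1 ≠ (F f).1 ∧ (F f).2.2 ≠ (F f).1 ∧ (F f).2.2 ≠ (F f).2.1 ∧
    0 < Z3.dot (Z3.cross (P (F f).2.1) (P (F f).2.2)) (P (F f).1) := by
  decide +kernel

lemma cv1 (f : ℕ) : cv f (F f).1 = Z3.cross (P (F f).2.1) (P (F f).2.2) := by
  simp [cv]

lemma cv2 {f : ℕ} (hf : f < 26) : cv f (F f).2.1 = Z3.cross (P (F f).2.2) (P (F f).1) := by
  simp [cv, (face_facts f hf).2.2.2.1]

lemma cv3 {f : ℕ} (hf : f < 26) : cv f (F f).2.2 = Z3.cross (P (F f).1) (P (F f).2.1) := by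
  simp [cv, (face_facts f hf).2.2.2.2.1, (face_facts f hf).2.2.2.2.2.1]

lemma cv_other {f i : ℕ} (h1 : i ≠ (F f).1) (h2 : i ≠ (F f).2.1) (h3 : i ≠ (F f).2.2) :
    cv f i = ⟨0,0,0⟩ := by
  simp [cv, h1, h2, h3]

/-- the (positive) determinant of face `f` -/
def Df (f : ℕ) : ℝ := ((Z3.dot (Z3.cross (P (F f).2.1) (P (F f).2.2)) (P (F f).1) : ℤ) : ℝ)

lemma Df_pos {f : ℕ} (hf : f < 26) : 0 < Df f := by
  unfold Df; exact_mod_cast (face_facts f hf).2.2.2.2.2.2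

/-- Cramer's rule -/
lemma cramer {f : ℕ} (hf : f < 26) (M : Fin 3 → ℝ) :
    Df f • M = dR (cv f (F f).1) M • toR (P (F f).1) + dR (cv f (F f).2.1) M • toR (P (F f).2.1)
      + dR (cv f (F f).2.2) M • toR (P (F f).2.2) := by
  rw [cv1, cv2 hf, cv3 hf]
  unfold Df
  generalize P (F f).1 = p
  generalize P (F f).2.1 = q
  generalize P (F f).2.2 = r
  ext i
  fin_cases i
  · simp only [dR, Z3.cross, Z3.dot, Pi.smul_apply, Pi.add_apply, smul_eq_mul, toR_0, Fin.zero_eta,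
      Fin.isValue]
    push_cast; ring
  · simp only [dR, Z3.cross, Z3.dot, Pi.smul_apply, Pi.add_apply, smul_eq_mul, toR_1, Fin.mk_one,
      Fin.isValue]
    push_cast; ring
  · simp only [dR, Z3.cross, Z3.dot, Pi.smul_apply, Pi.add_apply, smul_eq_mul, toR_2,
      Fin.reduceFinMk, Fin.isValue]
    push_cast; ring

end Pool.Agent.Q131.Snk
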