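import Pool.Agent.Helper479.Sink.Defs

/-!
Definitions for MP_b37e0c_co, MP_731b42_co and MP_e680c3_co (sinkable and floatable
shortest-path triangulations of the sphere).  The sphere `S2`, the arcs `arc`, the faces and the
notion `IsSPT` of a shortest-path triangulation are those of
`Pool/Agent/Helper479/Sink/Defs.lean` (starting material for the sibling problem MP_bf58c1_co).
Here morphs are families of shortest-path EMBEDDINGS of the graph; nothing is required of the faces
of the intermediate drawings.
-/

namespace Pool.Agent.Q131.Snk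

open Set Helper479.Sink

/-- `v` is a shortest-path embedding of the graph `G` in the unit sphere: the vertices are distinct
points of the sphere, adjacent vertices are not antipodal, each edge is drawn as the shorter
great-circle arc, distinct edges meet only at common endpoints, and no vertex lies on an edge that
does not end there. -/
structure IsEmb {n : ℕ} (G : SimpleGraph (Fin n)) (v : Fin n → Fin 3 → ℝ) : Prop where
  mem_sphere : ∀ i, v i ∈ S2
  injective : Function.Injective v
  not_antipodal : ∀ i j, G.Adj i j → v i ≠ - v j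
  edges_meet : ∀ i j k l, G.Adj i j → G.Adj k l → s(i, j) ≠ s(k, l) →
    ∀ x, x ∈ arc (v i) (v j) → x ∈ arc (v k) (v l) →
      ∃ m, m ∈ s(i, j) ∧ m ∈ s(k, l) ∧ x = v m
  vertex_edge : ∀ i j m, G.Adj i j → v m ∈ arc (v i) (v j) → m = i ∨ m = j

/-- A longitudinal morph: a continuous family `γ t`, `t ∈ [0,1]`, of shortest-path embeddings of
`G` in which every vertex stays on its own longitude. -/
structure IsLongMorph {n : ℕ} (G : SimpleGraph (Fin n)) (γ : ℝ → Fin n → Fin 3 → ℝ) : Prop where
  cont : ∀ i, ContinuousOn (fun t => γ t i) (Icc 0 1)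
  emb : ∀ t ∈ Icc (0 : ℝ) 1, IsEmb G (γ t)
  nonpolar : ∀ i, NonPolar (γ 0 i)
  stays : ∀ t ∈ Icc (0 : ℝ) 1, ∀ i, γ t i ∈ longitude (γ 0 i)

/-- `v` is sinkable: some longitudinal morph takes it to an embedding with all vertices in the open
southern hemisphere. -/
def Sinkable {n : ℕ} (G : SimpleGraph (Fin n)) (v : Fin n → Fin 3 → ℝ) : Prop :=
  ∃ γ : ℝ → Fin n → Fin 3 → ℝ, IsLongMorph G γ ∧ γ 0 = v ∧ ∀ i, γ 1 i 2 < 0

/-- `v` is floatable: some longitudinal morph takes it to an embedding with all vertices in the open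
northern hemisphere. -/
def Floatable {n : ℕ} (G : SimpleGraph (Fin n)) (v : Fin n → Fin 3 → ℝ) : Prop :=
  ∃ γ : ℝ → Fin n → Fin 3 → ℝ, IsLongMorph G γ ∧ γ 0 = v ∧ ∀ i, 0 < γ 1 i 2

/-- the north pole -/
def north : Fin 3 → ℝ := ![0, 0, 1]

/-- the south pole -/
def south : Fin 3 → ℝ := ![0, 0, -1]

end Pool.Agent.Q131.Snk
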