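import Pool.Agent.Q131.Snk.Large

/-! General position of the vertices of a drawing on the sphere. -/

namespace Pool.Agent.Q131.Snk

open Set Helper479.Sink

/-- the great circle with normal vector `w` -/
def greatCircle (w : Fin 3 → ℝ) : Set (Fin 3 → ℝ) :=
  {x | x ∈ S2 ∧ w 0 * x 0 + w 1 * x 1 + w 2 * x 2 = 0}

/-- the genericity convention: no great circle contains more than two vertices, and no great circle
through the poles contains more than one vertex -/
structure Generic {n : ℕ} (v : Fin n → Fin 3 → ℝ) : Prop where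
  two : ∀ w : Fin 3 → ℝ, w ≠ 0 → ∀ i j k, v i ∈ greatCircle w → v j ∈ greatCircle w →
    v k ∈ greatCircle w → i = j ∨ j = k ∨ k = i
  one : ∀ w : Fin 3 → ℝ, w ≠ 0 → north ∈ greatCircle w → ∀ i j, v i ∈ greatCircle w →
    v j ∈ greatCircle w → i = j

variable {n : ℕ} {v : Fin n → Fin 3 → ℝ}

lemma Generic.hA_ne (h : Generic v) (hs : ∀ i, v i ∈ S2) {i j : Fin n} (hij : i ≠ j) :
    hA (v i) (v j) ≠ 0 := by
  intro h0
  have hN : ∀ x y : ℝ, north ∈ greatCircle ![x, y, 0] := by
    intro x y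
    refine ⟨?_, ?_⟩
    · show (0:ℝ) ^ 2 + 0 ^ 2 + 1 ^ 2 = 1
      norm_num
    · simp [north]
  have hAe : v i 0 * v j 1 - v i 1 * v j 0 = 0 := h0
  by_cases hi : v i 0 = 0 ∧ v i 1 = 0
  · by_cases hj : v j 0 = 0 ∧ v j 1 = 0
    · apply hij
      refine h.one ![1, 0, 0] (fun h => by have := congrFun h 0; simp at this) (hN 1 0) i j
        ⟨hs i, ?_⟩ ⟨hs j, ?_⟩
      · simp [hi.1]
      · simp [hj.1]
    · apply hij
      refine h.one ![v j 1, -v j 0, 0] (fun h => hj ?_) (hN _ _) i j ⟨hs i, ?_⟩ ⟨hs j, ?_⟩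
      · have h1 := congrFun h 0
        have h2 := congrFun h 1
        simp at h1 h2
        exact ⟨h2, h1⟩
      · simp [hi.1, hi.2]
      · simp; ring
  · apply hij
    refine h.one ![v i 1, -v i 0, 0] (fun h => hi ?_) (hN _ _) i j ⟨hs i, ?_⟩ ⟨hs j, ?_⟩
    · have h1 := congrFun h 0
      have h2 := congrFun h 1
      simp at h1 h2
      exact ⟨h2, h1⟩
    · simp; ring
    · simp; linarith

lemma Generic.det_ne (h : Generic v) (hs : ∀ i, v i ∈ S2) {i j k : Fin n} (hij : i ≠ j)
    (hjk : j ≠ k) (hki : k ≠ i) : det3 (v i) (v j) (v k) ≠ 0 := by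
  intro h0
  have hA' := h.hA_ne hs hij
  set w : Fin 3 → ℝ := ![v i 1 * v j 2 - v i 2 * v j 1, v i 2 * v j 0 - v i 0 * v j 2,
    hA (v i) (v j)] with hw
  have hw0 : w ≠ 0 := fun h => hA' (by have := congrFun h 2; simpa [hw] using this)
  have e : ∀ x : Fin 3 → ℝ, w 0 * x 0 + w 1 * x 1 + w 2 * x 2 = det3 (v i) (v j) x := by
    intro x
    simp only [hw, Matrix.cons_val]
    unfold det3 hA
    ring
  have ei : v i ∈ greatCircle w := ⟨hs i, by rw [e]; unfold det3 hA; ring⟩
  have ej : v j ∈ greatCircle w := ⟨hs j, by rw [e]; unfold det3 hA; ring⟩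
  have ek : v k ∈ greatCircle w := ⟨hs k, by rw [e]; exact h0⟩
  rcases h.two w hw0 i j k ei ej ek with q | q | q
  · exact hij q
  · exact hjk q
  · exact hki q

/-- a generic shortest-path triangulation reaches one side if it reaches the other -/
theorem generic_opp {G : SimpleGraph (Fin n)} (hv : IsSPT G v) (hG : G.Connected)
    (hgen : Generic v) {σ : ℝ} (hσ : σ = 1 ∨ σ = -1) (hr : Reaches G v (-σ)) : Reaches G v σ := by
  have hn := hv.four_le
  have hdeg : ∀ i, ∃ j, G.Adj i j := by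
    intro i
    have : Nontrivial (Fin n) := Fin.nontrivial_iff_two_le.mpr (by omega)
    exact hG.preconnected.exists_adj_of_nontrivial i
  have hT : TriC G v := Pool.Agent.Q198.Snk.job1 n G v hv (by
    intro U hU
    obtain ⟨i, j, k, ht⟩ := hv.faces U hU
    exact ⟨i, j, k, ht, hgen.det_ne hv.mem_sphere ht.2.1.ne ht.2.2.1.ne ht.2.2.2.1.ne⟩)
  exact reach_opp hT hdeg hv.mem_sphere (fun a b hab => hgen.hA_ne hv.mem_sphere hab.ne) hσ hr

/-- a generic shortest-path triangulation is sinkable if and only if it is floatable -/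
theorem generic_iff {G : SimpleGraph (Fin n)} (hv : IsSPT G v) (hG : G.Connected)
    (hgen : Generic v) : Sinkable G v ↔ Floatable G v := by
  rw [sinkable_iff, floatable_iff]
  constructor
  · exact fun h => generic_opp hv hG hgen (Or.inl rfl) h
  · intro h
    exact generic_opp hv hG hgen (Or.inr rfl) (by simpa using h)

end Pool.Agent.Q131.Snk
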