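import Pool.Agent.Q61.Snk.Lagr
import Pool.Agent.Q131.Snk.Stm2

/-! JOB 5 of the project on MP_731b42_co and MP_e680c3_co: the Lagrangian lemma without the
hypothesis that no edge is vertical (by perturbation from job 3). -/

namespace Pool.Agent.Q131.Snk.J5

open Set Filter Topology Matrix Pool.Agent.Q131.Snk Pool.Agent.Q61.Snk
open scoped Classical

variable {n : ℕ}

/-- the diagonal matrix that picks two coordinates -/
noncomputable def EE (a0 b0 : Fin n) : Matrix (Fin n) (Fin n) ℝ :=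
  Matrix.diagonal fun v => if v = a0 ∨ v = b0 then 1 else 0

/-- the regularised normal matrix -/
noncomputable def MM {T : Type} [Fintype T] (D : Matrix T (Fin n) ℝ) (a0 b0 : Fin n) :
    Matrix (Fin n) (Fin n) ℝ := Dᵀ * D + EE a0 b0

lemma EE_mulVec (a0 b0 : Fin n) (u : Fin n → ℝ) (v : Fin n) :
    (EE a0 b0 *ᵥ u) v = if v = a0 ∨ v = b0 then u v else 0 := by
  unfold EE
  rw [Matrix.mulVec_diagonal]
  split_ifs <;> simp

lemma sum_two {a0 b0 : Fin n} (hab : a0 ≠ b0) (f : Fin n → ℝ) :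
    ∑ v, (if v = a0 ∨ v = b0 then f v else 0) = f a0 + f b0 := by
  have e : ∀ v, (if v = a0 ∨ v = b0 then f v else 0) =
      (if v = a0 then f v else 0) + (if v = b0 then f v else 0) := by
    intro v
    by_cases h1 : v = a0
    · have h2 : v ≠ b0 := fun h => hab (h1.symm.trans h)
      simp [h1, h1 ▸ h2, hab]
    · by_cases h2 : v = b0
      · simp [h2, Ne.symm hab]
      · simp [h1, h2]
  rw [Finset.sum_congr rfl fun v _ => e v, Finset.sum_add_distrib]
  simp

/-- the projection to the relations -/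
lemma proj_rel {T : Type} [Fintype T] (D : Matrix T (Fin n) ℝ) (x y : Fin n → ℝ) (a0 b0 : Fin n)
    (hx : D *ᵥ x = 0) (hy : D *ᵥ y = 0) (hc : x a0 * y b0 - y a0 * x b0 ≠ 0)
    (hM : (MM D a0 b0).det ≠ 0) (t : T → ℝ) :
    Dᵀ *ᵥ (t - D *ᵥ ((MM D a0 b0)⁻¹ *ᵥ (Dᵀ *ᵥ t))) = 0 := by
  have hab : a0 ≠ b0 := by rintro rfl; apply hc; ring
  set u := (MM D a0 b0)⁻¹ *ᵥ (Dᵀ *ᵥ t) with hu
  have h1 : MM D a0 b0 *ᵥ u = Dᵀ *ᵥ t := by
    rw [hu, Matrix.mulVec_mulVec, Matrix.mul_nonsing_inv _ (isUnit_iff_ne_zero.mpr hM),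
      Matrix.one_mulVec]
  have h2 : Dᵀ *ᵥ (t - D *ᵥ u) = EE a0 b0 *ᵥ u := by
    rw [Matrix.mulVec_sub, ← h1, MM, Matrix.add_mulVec, ← Matrix.mulVec_mulVec]
    abel
  have h3 : ∀ z : Fin n → ℝ, D *ᵥ z = 0 → z a0 * u a0 + z b0 * u b0 = 0 := by
    intro z hz
    have h4 : z ⬝ᵥ (Dᵀ *ᵥ (t - D *ᵥ u)) = 0 := by
      rw [Matrix.dotProduct_mulVec, Matrix.vecMul_transpose, hz, zero_dotProduct]
    rw [h2] at h4
    have h5 : z ⬝ᵥ (EE a0 b0 *ᵥ u) = ∑ v, (if v = a0 ∨ v = b0 then z v * u v else 0) := by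
      unfold dotProduct
      apply Finset.sum_congr rfl
      intro v _
      rw [EE_mulVec]
      split_ifs <;> simp
    rw [h5, sum_two hab] at h4
    exact h4
  have e1 := h3 x hx
  have e2 := h3 y hy
  have ua : u a0 = 0 := by
    have : (x a0 * y b0 - y a0 * x b0) * u a0 = 0 := by
      linear_combination y b0 * e1 - x b0 * e2
    exact (mul_eq_zero.mp this).resolve_left hc
  have ub : u b0 = 0 := by
    have : (x a0 * y b0 - y a0 * x b0) * u b0 = 0 := by
      linear_combination x a0 * e2 - y a0 * e1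
    exact (mul_eq_zero.mp this).resolve_left hc
  rw [h2]
  ext v
  rw [EE_mulVec]
  split_ifs with h
  · rcases h with h | h
    · rw [h, ua]; rfl
    · rw [h, ub]; rfl
  · rfl

/-- invertibility of the regularised matrix -/
lemma MM_det {T : Type} [Fintype T] (D : Matrix T (Fin n) ℝ) (x y : Fin n → ℝ) (a0 b0 : Fin n)
    (hc : x a0 * y b0 - y a0 * x b0 ≠ 0)
    (hker : ∀ h : Fin n → ℝ, D *ᵥ h = 0 → ∃ s t : ℝ, ∀ v, h v = s * x v + t * y v) :
    (MM D a0 b0).det ≠ 0 := by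
  have hab : a0 ≠ b0 := by rintro rfl; apply hc; ring
  intro hdet
  obtain ⟨h, hne, hh⟩ := Matrix.exists_mulVec_eq_zero_iff.mpr hdet
  have h1 : h ⬝ᵥ (MM D a0 b0 *ᵥ h) = 0 := by rw [hh, dotProduct_zero]
  have h2 : h ⬝ᵥ (MM D a0 b0 *ᵥ h) = (D *ᵥ h) ⬝ᵥ (D *ᵥ h) + (h a0 * h a0 + h b0 * h b0) := by
    rw [MM, Matrix.add_mulVec, dotProduct_add, ← Matrix.mulVec_mulVec, Matrix.dotProduct_mulVec,
      Matrix.vecMul_transpose]
    congr 1
    have h5 : h ⬝ᵥ (EE a0 b0 *ᵥ h) = ∑ v, (if v = a0 ∨ v = b0 then h v * h v else 0) := by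
      unfold dotProduct
      apply Finset.sum_congr rfl
      intro v _
      rw [EE_mulVec]
      split_ifs <;> simp
    rw [h5, sum_two hab]
  rw [h2] at h1
  have h3 : 0 ≤ (D *ᵥ h) ⬝ᵥ (D *ᵥ h) := by
    unfold dotProduct
    exact Finset.sum_nonneg fun i _ => mul_self_nonneg _
  have h4 : (D *ᵥ h) ⬝ᵥ (D *ᵥ h) = 0 := by nlinarith [mul_self_nonneg (h a0), mul_self_nonneg (h b0)]
  have ha : h a0 = 0 := by nlinarith [mul_self_nonneg (h a0), mul_self_nonneg (h b0)]
  have hb : h b0 = 0 := by nlinarith [mul_self_nonneg (h a0), mul_self_nonneg (h b0)]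
  have h5 : D *ᵥ h = 0 := dotProduct_self_eq_zero.mp h4
  obtain ⟨s, t, hst⟩ := hker h h5
  have ea := hst a0
  have eb := hst b0
  rw [ha] at ea
  rw [hb] at eb
  have hs : s = 0 := by
    have : (x a0 * y b0 - y a0 * x b0) * s = 0 := by
      linear_combination (-y b0) * ea + y a0 * eb
    exact (mul_eq_zero.mp this).resolve_left hc
  have ht : t = 0 := by
    have : (x a0 * y b0 - y a0 * x b0) * t = 0 := by
      linear_combination (-x a0) * eb + x b0 * ea
    exact (mul_eq_zero.mp this).resolve_left hc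
  apply hne
  ext v
  rw [hst v, hs, ht]; simp

/-- conversely -/
lemma ker_of_det {T : Type} [Fintype T] (D : Matrix T (Fin n) ℝ) (x y : Fin n → ℝ)
    (a0 b0 : Fin n) (hx : D *ᵥ x = 0) (hy : D *ᵥ y = 0) (hc : x a0 * y b0 - y a0 * x b0 ≠ 0)
    (hM : (MM D a0 b0).det ≠ 0) (h : Fin n → ℝ) (hh : D *ᵥ h = 0) :
    ∃ s t : ℝ, ∀ v, h v = s * x v + t * y v := by
  set c := x a0 * y b0 - y a0 * x b0 with hcd
  set s := (h a0 * y b0 - y a0 * h b0) / c with hs
  set t := (x a0 * h b0 - h a0 * x b0) / c with ht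
  set h' : Fin n → ℝ := h - (s • x + t • y) with hh'
  have hD : D *ᵥ h' = 0 := by
    rw [hh', Matrix.mulVec_sub, Matrix.mulVec_add, Matrix.mulVec_smul, Matrix.mulVec_smul, hx, hy,
      hh]
    simp
  have ha : h' a0 = 0 := by
    simp only [hh', Pi.sub_apply, Pi.add_apply, Pi.smul_apply, smul_eq_mul, hs, ht]
    field_simp
    rw [hcd]; ring
  have hb : h' b0 = 0 := by
    simp only [hh', Pi.sub_apply, Pi.add_apply, Pi.smul_apply, smul_eq_mul, hs, ht]
    field_simp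
    rw [hcd]; ring
  have hM0 : MM D a0 b0 *ᵥ h' = 0 := by
    rw [MM, Matrix.add_mulVec, ← Matrix.mulVec_mulVec, hD, Matrix.mulVec_zero, zero_add]
    ext v
    rw [EE_mulVec]
    split_ifs with h
    · rcases h with h | h
      · rw [h, ha]; rfl
      · rw [h, hb]; rfl
    · rfl
  have h0 : h' = 0 := by
    by_contra hne
    exact hM (Matrix.exists_mulVec_eq_zero_iff.mp ⟨h', hne, hM0⟩)
  refine ⟨s, t, fun v => ?_⟩
  have := congrFun h0 v
  simp only [hh', Pi.sub_apply, Pi.add_apply, Pi.smul_apply, smul_eq_mul, Pi.zero_apply] at this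
  linarith

/-- the determinant matrix -/
noncomputable def DM (F : Fin n → Fin n → Fin n → Prop) (x y : Fin n → ℝ) :
    Matrix (Fin n × Fin n × Fin n) (Fin n) ℝ := fun t v =>
  if F t.1 t.2.1 t.2.2 then
    (if v = t.1 then cr x y t.2.1 t.2.2 else 0) + (if v = t.2.1 then cr x y t.2.2 t.1 else 0) +
      (if v = t.2.2 then cr x y t.1 t.2.1 else 0)
  else 0

lemma DM_mulVec (F : Fin n → Fin n → Fin n → Prop) (x y h : Fin n → ℝ)
    (t : Fin n × Fin n × Fin n) : (DM F x y *ᵥ h) t =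
      if F t.1 t.2.1 t.2.2 then dd x y h t.1 t.2.1 t.2.2 else 0 := by
  by_cases hF : F t.1 t.2.1 t.2.2
  · simp only [DM, Matrix.mulVec, dotProduct, if_pos hF, add_mul, ite_mul, zero_mul,
      Finset.sum_add_distrib, Finset.sum_ite_eq', Finset.mem_univ, if_true]
    unfold dd; ring
  · simp only [DM, Matrix.mulVec, dotProduct, if_neg hF, zero_mul, Finset.sum_const_zero]

lemma dd_x (x y : Fin n → ℝ) (a b c : Fin n) : dd x y x a b c = 0 := by unfold dd cr; ring
lemma dd_y (x y : Fin n → ℝ) (a b c : Fin n) : dd x y y a b c = 0 := by unfold dd cr; ring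

lemma DM_x (F : Fin n → Fin n → Fin n → Prop) (x y : Fin n → ℝ) : DM F x y *ᵥ x = 0 := by
  ext t; rw [DM_mulVec, dd_x]; simp
lemma DM_y (F : Fin n → Fin n → Fin n → Prop) (x y : Fin n → ℝ) : DM F x y *ᵥ y = 0 := by
  ext t; rw [DM_mulVec, dd_y]; simp

/-- the product of the three crosses -/
def pp (x y : Fin n → ℝ) (t : Fin n × Fin n × Fin n) : ℝ :=
  cr x y t.2.1 t.2.2 * cr x y t.2.2 t.1 * cr x y t.1 t.2.1

/-- functions on the faces -/
def Good (F : Fin n → Fin n → Fin n → Prop) (r : Fin n × Fin n × Fin n → ℝ) : Prop :=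
  (∀ a b c, F a b c → r (a, b, c) = r (b, c, a)) ∧ ∀ a b c, ¬ F a b c → r (a, b, c) = 0

lemma Good_DM {F : Fin n → Fin n → Fin n → Prop} (hrot : ∀ a b c, F a b c → F b c a)
    (x y h : Fin n → ℝ) : Good F (DM F x y *ᵥ h) := by
  constructor
  · intro a b c hF
    rw [DM_mulVec, DM_mulVec]
    simp only
    rw [if_pos hF, if_pos (hrot _ _ _ hF)]
    exact (dd_rot x y h a b c).symm
  · intro a b c hF
    rw [DM_mulVec]
    simp only
    rw [if_neg hF]

lemma Good_sub {F : Fin n → Fin n → Fin n → Prop} {r s : Fin n × Fin n × Fin n → ℝ}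
    (hr : Good F r) (hs : Good F s) : Good F (r - s) := by
  constructor
  · intro a b c hF
    simp only [Pi.sub_apply, hr.1 a b c hF, hs.1 a b c hF]
  · intro a b c hF
    simp only [Pi.sub_apply, hr.2 a b c hF, hs.2 a b c hF, sub_zero]

/-- isotropy, when all crosses of edges are nonzero -/
lemma iso_generic {G : SimpleGraph (Fin n)} {F : Fin n → Fin n → Fin n → Prop} {x y : Fin n → ℝ}
    (hn : 4 ≤ n) (hE : Nat.card G.edgeSet = 3 * n - 6) (hrot : ∀ a b c, F a b c → F b c a)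
    (hadj : ∀ a b c, F a b c → G.Adj a b) (hex : ∀ a b, G.Adj a b → ∃ c, F a b c)
    (hun : ∀ a b c c', F a b c → F a b c' → c = c')
    (hne : ∀ a b, G.Adj a b → cr x y a b ≠ 0)
    (hker : ∀ h : Fin n → ℝ, DM F x y *ᵥ h = 0 → ∃ s t : ℝ, ∀ v, h v = s * x v + t * y v)
    (r s : Fin n × Fin n × Fin n → ℝ) (hr : (DM F x y)ᵀ *ᵥ r = 0)
    (hs : (DM F x y)ᵀ *ᵥ s = 0) (hsg : Good F s) (hrg : Good F r) :
    ∑ t, r t * s t * pp x y t = 0 := by
  have hrel : ∀ h : Fin n → ℝ, s ⬝ᵥ (DM F x y *ᵥ h) = 0 := by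
    intro h
    rw [Matrix.dotProduct_mulVec, ← Matrix.mulVec_transpose, hs, zero_dotProduct]
  obtain ⟨g, hg⟩ := job3 n G F x y hn hE hrot hadj hex hun hne (by
      intro h hh
      apply hker
      ext t
      rw [DM_mulVec]
      split_ifs with hF
      · exact hh _ _ _ hF
      · rfl)
    (fun a b c => s (a, b, c)) (fun a b c hF => hsg.1 a b c hF) (fun a b c hF => hsg.2 a b c hF) (by
      intro h
      have h1 := hrel h
      unfold dotProduct at h1
      rw [Fintype.sum_prod_type] at h1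
      simp only [Fintype.sum_prod_type, DM_mulVec] at h1
      rw [← h1]
      apply Finset.sum_congr rfl; intro a _
      apply Finset.sum_congr rfl; intro b _
      apply Finset.sum_congr rfl; intro c _
      by_cases hF : F a b c
      · rw [if_pos hF]; rfl
      · rw [if_neg hF, hsg.2 a b c hF]; ring)
  have h2 : r ⬝ᵥ (DM F x y *ᵥ g) = 0 := by
    rw [Matrix.dotProduct_mulVec, ← Matrix.mulVec_transpose, hr, zero_dotProduct]
  rw [← h2]
  unfold dotProduct
  apply Finset.sum_congr rfl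
  rintro ⟨a, b, c⟩ _
  rw [DM_mulVec]
  by_cases hF : F a b c
  · simp only
    rw [if_pos hF]
    have := hg a b c hF
    have e : dd x y g a b c = s (a, b, c) * pp x y (a, b, c) := this
    rw [e]; ring
  · rw [hrg.2 a b c hF]; ring

/-! ### the perturbation -/

/-- perturbed first coordinate -/
def xe (x : Fin n → ℝ) (e : ℝ) : Fin n → ℝ := fun a => x a + e * ((a : ℕ) + 1 : ℝ)
/-- perturbed second coordinate -/
def ye (y : Fin n → ℝ) (e : ℝ) : Fin n → ℝ := fun a => y a + e * ((a : ℕ) + 1 : ℝ) ^ 2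

lemma xe_zero (x : Fin n → ℝ) : xe x 0 = x := by ext a; simp [xe]
lemma ye_zero (y : Fin n → ℝ) : ye y 0 = y := by ext a; simp [ye]

lemma quad_ne (c0 c1 c2 : ℝ) (h2 : c2 ≠ 0) :
    ∀ᶠ e in 𝓝[≠] (0 : ℝ), c0 + e * c1 + e ^ 2 * c2 ≠ 0 := by
  by_cases h0 : c0 = 0
  · by_cases h1 : c1 = 0
    · filter_upwards [self_mem_nhdsWithin] with e he
      rw [h0, h1]
      have he' : e ≠ 0 := he
      have : e ^ 2 * c2 ≠ 0 := mul_ne_zero (pow_ne_zero 2 he') h2
      simpa using this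
    · have hc : Tendsto (fun e : ℝ => c1 + e * c2) (𝓝 0) (𝓝 (c1 + 0 * c2)) := by
        apply Continuous.tendsto; fun_prop
      have hev : ∀ᶠ e in 𝓝 (0 : ℝ), c1 + e * c2 ≠ 0 :=
        hc.eventually_ne (by simpa using h1)
      filter_upwards [self_mem_nhdsWithin, hev.filter_mono nhdsWithin_le_nhds] with e he h3
      have he' : e ≠ 0 := he
      have : c0 + e * c1 + e ^ 2 * c2 = e * (c1 + e * c2) := by rw [h0]; ring
      rw [this]
      exact mul_ne_zero he' h3
  · have hc : Tendsto (fun e : ℝ => c0 + e * c1 + e ^ 2 * c2) (𝓝 0)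
        (𝓝 (c0 + 0 * c1 + 0 ^ 2 * c2)) := by
      apply Continuous.tendsto; fun_prop
    exact (hc.eventually_ne (by simpa using h0)).filter_mono nhdsWithin_le_nhds

lemma cr_pert (x y : Fin n → ℝ) (e : ℝ) (a b : Fin n) : cr (xe x e) (ye y e) a b =
    cr x y a b + e * (x a * ((b : ℕ) + 1 : ℝ) ^ 2 + ((a : ℕ) + 1 : ℝ) * y b
      - y a * ((b : ℕ) + 1 : ℝ) - ((a : ℕ) + 1 : ℝ) ^ 2 * x b) +
    e ^ 2 * (((a : ℕ) + 1 : ℝ) * ((b : ℕ) + 1 : ℝ) * (((b : ℕ) : ℝ) - ((a : ℕ) : ℝ))) := by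
  unfold cr xe ye; ring

lemma cr_ne_ev (x y : Fin n → ℝ) :
    ∀ᶠ e in 𝓝[≠] (0 : ℝ), ∀ a b : Fin n, a ≠ b → cr (xe x e) (ye y e) a b ≠ 0 := by
  rw [Filter.eventually_all]
  intro a
  rw [Filter.eventually_all]
  intro b
  by_cases hab : a = b
  · exact Filter.Eventually.of_forall fun e h => absurd hab h
  · have h2 : ((a : ℕ) + 1 : ℝ) * ((b : ℕ) + 1 : ℝ) * (((b : ℕ) : ℝ) - ((a : ℕ) : ℝ)) ≠ 0 := by
      refine mul_ne_zero (mul_ne_zero (by positivity) (by positivity)) ?_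
      rw [sub_ne_zero]
      intro h
      apply hab
      exact Fin.ext (by exact_mod_cast h.symm)
    filter_upwards [quad_ne (cr x y a b) _ _ h2] with e he _
    rw [cr_pert]
    exact he

lemma cont_xe (x : Fin n → ℝ) (a : Fin n) : Continuous fun e => xe x e a := by
  unfold xe; fun_prop
lemma cont_ye (y : Fin n → ℝ) (a : Fin n) : Continuous fun e => ye y e a := by
  unfold ye; fun_prop

lemma cont_cr (x y : Fin n → ℝ) (a b : Fin n) :
    Continuous fun e => cr (xe x e) (ye y e) a b := by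
  unfold cr
  exact ((cont_xe x a).mul (cont_ye y b)).sub ((cont_ye y a).mul (cont_xe x b))

lemma cont_DM (F : Fin n → Fin n → Fin n → Prop) (x y : Fin n → ℝ) :
    Continuous fun e => DM F (xe x e) (ye y e) := by
  refine continuous_matrix fun t v => ?_
  unfold DM
  split_ifs <;> first
    | exact continuous_const
    | (refine Continuous.add (Continuous.add ?_ ?_) ?_ <;> first
        | exact cont_cr x y _ _
        | exact continuous_const)

lemma cont_MM (F : Fin n → Fin n → Fin n → Prop) (x y : Fin n → ℝ) (a0 b0 : Fin n) :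
    Continuous fun e => MM (DM F (xe x e) (ye y e)) a0 b0 := by
  unfold MM
  exact ((cont_DM F x y).matrix_transpose.matrix_mul (cont_DM F x y)).add continuous_const

/-- the projected relation -/
noncomputable def pr (F : Fin n → Fin n → Fin n → Prop) (x y : Fin n → ℝ) (a0 b0 : Fin n)
    (r : Fin n × Fin n × Fin n → ℝ) : Fin n × Fin n × Fin n → ℝ :=
  r - DM F x y *ᵥ ((MM (DM F x y) a0 b0)⁻¹ *ᵥ ((DM F x y)ᵀ *ᵥ r))

lemma pr_tendsto (F : Fin n → Fin n → Fin n → Prop) (x y : Fin n → ℝ) (a0 b0 : Fin n)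
    (hM : (MM (DM F x y) a0 b0).det ≠ 0) (r : Fin n × Fin n × Fin n → ℝ)
    (hr : (DM F x y)ᵀ *ᵥ r = 0) :
    Tendsto (fun e => pr F (xe x e) (ye y e) a0 b0 r) (𝓝 0) (𝓝 r) := by
  have hD := cont_DM F x y
  have hMc := cont_MM F x y a0 b0
  have h0 : MM (DM F (xe x 0) (ye y 0)) a0 b0 = MM (DM F x y) a0 b0 := by rw [xe_zero, ye_zero]
  have hinv : ContinuousAt (fun e => (MM (DM F (xe x e) (ye y e)) a0 b0)⁻¹) 0 := by
    have e1 : (fun e => (MM (DM F (xe x e) (ye y e)) a0 b0)⁻¹) = fun e =>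
        ((MM (DM F (xe x e) (ye y e)) a0 b0).det)⁻¹ •
          (MM (DM F (xe x e) (ye y e)) a0 b0).adjugate := by
      funext e
      rw [Matrix.inv_def, Ring.inverse_eq_inv']
    rw [e1]
    refine ContinuousAt.smul (ContinuousAt.inv₀ hMc.matrix_det.continuousAt ?_)
      hMc.matrix_adjugate.continuousAt
    rw [h0]; exact hM
  have h1 : ContinuousAt (fun e => pr F (xe x e) (ye y e) a0 b0 r) 0 := by
    unfold pr
    refine ContinuousAt.sub continuousAt_const ?_
    have h2 : ContinuousAt (fun e => (DM F (xe x e) (ye y e))ᵀ *ᵥ r) 0 :=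
      (hD.matrix_transpose.matrix_mulVec continuous_const).continuousAt
    have h3 : ContinuousAt (fun e => (MM (DM F (xe x e) (ye y e)) a0 b0)⁻¹ *ᵥ
        ((DM F (xe x e) (ye y e))ᵀ *ᵥ r)) 0 := by
      have hm : Continuous fun q : Matrix (Fin n) (Fin n) ℝ × (Fin n → ℝ) => q.1 *ᵥ q.2 :=
        continuous_fst.matrix_mulVec continuous_snd
      exact hm.continuousAt.comp (f := fun e => ((MM (DM F (xe x e) (ye y e)) a0 b0)⁻¹,
        (DM F (xe x e) (ye y e))ᵀ *ᵥ r)) (hinv.prodMk h2)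
    have hm : Continuous fun q : Matrix (Fin n × Fin n × Fin n) (Fin n) ℝ × (Fin n → ℝ) =>
        q.1 *ᵥ q.2 := continuous_fst.matrix_mulVec continuous_snd
    exact hm.continuousAt.comp (f := fun e => (DM F (xe x e) (ye y e),
        (MM (DM F (xe x e) (ye y e)) a0 b0)⁻¹ *ᵥ ((DM F (xe x e) (ye y e))ᵀ *ᵥ r)))
        (hD.continuousAt.prodMk h3)
  have h4 := h1.tendsto
  have h5 : pr F (xe x 0) (ye y 0) a0 b0 r = r := by
    rw [xe_zero, ye_zero, pr, hr]
    simp
  rwa [h5] at h4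

lemma Good_pr {F : Fin n → Fin n → Fin n → Prop} (hrot : ∀ a b c, F a b c → F b c a)
    (x y : Fin n → ℝ) (a0 b0 : Fin n) {r : Fin n × Fin n × Fin n → ℝ} (hr : Good F r) :
    Good F (pr F x y a0 b0 r) := Good_sub hr (Good_DM hrot _ _ _)

/-- isotropy in general -/
lemma iso_all {G : SimpleGraph (Fin n)} {F : Fin n → Fin n → Fin n → Prop} {x y : Fin n → ℝ}
    (hn : 4 ≤ n) (hE : Nat.card G.edgeSet = 3 * n - 6) (hrot : ∀ a b c, F a b c → F b c a)
    (hadj : ∀ a b c, F a b c → G.Adj a b) (hex : ∀ a b, G.Adj a b → ∃ c, F a b c)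
    (hun : ∀ a b c c', F a b c → F a b c' → c = c') {a0 b0 : Fin n}
    (hc : x a0 * y b0 - y a0 * x b0 ≠ 0) (hM : (MM (DM F x y) a0 b0).det ≠ 0)
    (r s : Fin n × Fin n × Fin n → ℝ) (hr : (DM F x y)ᵀ *ᵥ r = 0)
    (hs : (DM F x y)ᵀ *ᵥ s = 0) (hsg : Good F s) (hrg : Good F r) :
    ∑ t, r t * s t * pp x y t = 0 := by
  have hlim : Tendsto (fun e => ∑ t, pr F (xe x e) (ye y e) a0 b0 r t *
      pr F (xe x e) (ye y e) a0 b0 s t * pp (xe x e) (ye y e) t) (𝓝 0)
      (𝓝 (∑ t, r t * s t * pp x y t)) := by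
    refine tendsto_finset_sum _ fun t _ => ?_
    have h1 := (tendsto_pi_nhds.mp (pr_tendsto F x y a0 b0 hM r hr)) t
    have h2 := (tendsto_pi_nhds.mp (pr_tendsto F x y a0 b0 hM s hs)) t
    have h3 : Tendsto (fun e => pp (xe x e) (ye y e) t) (𝓝 0) (𝓝 (pp x y t)) := by
      have hcont : Continuous fun e => pp (xe x e) (ye y e) t := by
        unfold pp
        exact ((cont_cr x y _ _).mul (cont_cr x y _ _)).mul (cont_cr x y _ _)
      have := hcont.tendsto 0
      rwa [xe_zero, ye_zero] at this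
    exact (h1.mul h2).mul h3
  have hev : ∀ᶠ e in 𝓝[≠] (0 : ℝ), ∑ t, pr F (xe x e) (ye y e) a0 b0 r t *
      pr F (xe x e) (ye y e) a0 b0 s t * pp (xe x e) (ye y e) t = 0 := by
    have hc' : ∀ᶠ e in 𝓝 (0 : ℝ), cr (xe x e) (ye y e) a0 b0 ≠ 0 := by
      have := (cont_cr x y a0 b0).tendsto 0
      rw [xe_zero, ye_zero] at this
      exact this.eventually_ne hc
    have hM' : ∀ᶠ e in 𝓝 (0 : ℝ), (MM (DM F (xe x e) (ye y e)) a0 b0).det ≠ 0 := by
      have := (cont_MM F x y a0 b0).matrix_det.tendsto 0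
      rw [xe_zero, ye_zero] at this
      exact this.eventually_ne hM
    filter_upwards [cr_ne_ev x y, hc'.filter_mono nhdsWithin_le_nhds,
      hM'.filter_mono nhdsWithin_le_nhds] with e h1 h2 h3
    refine iso_generic hn hE hrot hadj hex hun (fun a b hab => h1 a b hab.ne) ?_ _ _ ?_ ?_ ?_ ?_
    · intro h hh
      exact ker_of_det _ _ _ a0 b0 (DM_x _ _ _) (DM_y _ _ _) h2 h3 h hh
    · exact proj_rel _ _ _ a0 b0 (DM_x _ _ _) (DM_y _ _ _) h2 h3 r
    · exact proj_rel _ _ _ a0 b0 (DM_x _ _ _) (DM_y _ _ _) h2 h3 s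
    · exact Good_pr hrot _ _ _ _ hsg
    · exact Good_pr hrot _ _ _ _ hrg
  have hlim' := hlim.mono_left (nhdsWithin_le_nhds (s := {0}ᶜ))
  have h0 : Tendsto (fun _ : ℝ => (0 : ℝ)) (𝓝[≠] 0) (𝓝 (∑ t, r t * s t * pp x y t)) :=
    hlim'.congr' hev
  exact (tendsto_nhds_unique h0 tendsto_const_nhds)

theorem job5 : Job5 := by
  intro n G F x y hn hE hrot hadj hex hun hcr hker ρ hρrot hρ0 hρ
  obtain ⟨a0, b0, hc⟩ := hcr
  have hker' : ∀ h : Fin n → ℝ, DM F x y *ᵥ h = 0 → ∃ s t : ℝ, ∀ v, h v = s * x v + t * y v := by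
    intro h hh
    apply hker
    intro a b c hF
    have := congrFun hh (a, b, c)
    rw [DM_mulVec] at this
    simp only at this
    rw [if_pos hF] at this
    exact this
  have hM := MM_det (DM F x y) x y a0 b0 hc hker'
  set R : Fin n × Fin n × Fin n → ℝ := fun t => ρ t.1 t.2.1 t.2.2 with hR
  have hRg : Good F R := ⟨fun a b c hF => hρrot a b c hF, fun a b c hF => hρ0 a b c hF⟩
  have hR0 : (DM F x y)ᵀ *ᵥ R = 0 := by
    have h1 : ∀ h : Fin n → ℝ, h ⬝ᵥ ((DM F x y)ᵀ *ᵥ R) = 0 := by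
      intro h
      rw [Matrix.dotProduct_mulVec, Matrix.vecMul_transpose, ← hρ h]
      unfold dotProduct
      rw [Fintype.sum_prod_type]
      apply Finset.sum_congr rfl; intro a _
      rw [Fintype.sum_prod_type]
      apply Finset.sum_congr rfl; intro b _
      apply Finset.sum_congr rfl; intro c _
      rw [DM_mulVec]
      simp only [hR]
      by_cases hF : F a b c
      · rw [if_pos hF, mul_comm]; rfl
      · rw [if_neg hF, hρ0 a b c hF]; ring
    exact dotProduct_self_eq_zero.mp (h1 _)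
  set T : Fin n × Fin n × Fin n → ℝ := fun t => R t * pp x y t with hT
  have hTg : Good F T := by
    constructor
    · intro a b c hF
      simp only [hT]
      rw [hRg.1 a b c hF]
      congr 1
      unfold pp
      simp only
      ring
    · intro a b c hF
      simp only [hT]
      rw [hRg.2 a b c hF, zero_mul]
  set u := (MM (DM F x y) a0 b0)⁻¹ *ᵥ ((DM F x y)ᵀ *ᵥ T) with hu
  set S : Fin n × Fin n × Fin n → ℝ := T - DM F x y *ᵥ u with hS
  have hSg : Good F S := Good_sub hTg (Good_DM hrot _ _ _)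
  have hS0 : (DM F x y)ᵀ *ᵥ S = 0 := proj_rel _ _ _ a0 b0 (DM_x _ _ _) (DM_y _ _ _) hc hM T
  have h1 : ∑ t, R t * S t * pp x y t = 0 :=
    iso_all hn hE hrot hadj hex hun hc hM R S hR0 hS0 hSg hRg
  have h2 : T ⬝ᵥ S = 0 := by
    rw [← h1]
    unfold dotProduct
    apply Finset.sum_congr rfl
    intro t _
    simp only [hT]
    ring
  have h3 : (DM F x y *ᵥ u) ⬝ᵥ S = 0 := by
    rw [dotProduct_comm, Matrix.dotProduct_mulVec, ← Matrix.mulVec_transpose, hS0,
      zero_dotProduct]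
  have h4 : S ⬝ᵥ S = 0 := by
    have : S ⬝ᵥ S = T ⬝ᵥ S - (DM F x y *ᵥ u) ⬝ᵥ S := by
      conv_lhs => rw [hS]
      rw [sub_dotProduct]
    rw [this, h2, h3, sub_zero]
  have h5 : S = 0 := dotProduct_self_eq_zero.mp h4
  refine ⟨u, fun a b c hF => ?_⟩
  have h6 := congrFun h5 (a, b, c)
  simp only [hS, Pi.sub_apply, Pi.zero_apply] at h6
  rw [DM_mulVec] at h6
  simp only at h6
  rw [if_pos hF] at h6
  have h7 : dd x y u a b c = T (a, b, c) := by linarith
  exact h7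

end Pool.Agent.Q131.Snk.J5
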