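import Pool.Agent.Q131.Snk.Stm2

/-! Statement on hemispherical faces for MP_e680c3_co. -/

namespace Pool.Agent.Q131.Snk

open Set Helper479.Sink

/-- the graph with one more vertex, adjacent to `i, j, k` -/
def extG {n : ℕ} (G : SimpleGraph (Fin n)) (i j k : Fin n) : SimpleGraph (Fin (n + 1)) where
  Adj a b := (∃ a' b', a = Fin.castSucc a' ∧ b = Fin.castSucc b' ∧ G.Adj a' b') ∨
    (a = Fin.last n ∧ (b = Fin.castSucc i ∨ b = Fin.castSucc j ∨ b = Fin.castSucc k)) ∨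
    (b = Fin.last n ∧ (a = Fin.castSucc i ∨ a = Fin.castSucc j ∨ a = Fin.castSucc k))
  symm := by
    constructor
    rintro a b (⟨a', b', h1, h2, h3⟩ | h | h)
    · exact Or.inl ⟨b', a', h2, h1, h3.symm⟩
    · exact Or.inr (Or.inr h)
    · exact Or.inr (Or.inl h)
  loopless := by
    constructor
    rintro a (⟨a', b', h1, h2, h3⟩ | ⟨h, h'⟩ | ⟨h, h'⟩)
    · rw [h1] at h2
      have := Fin.castSucc_injective n h2
      subst this
      exact G.irrefl h3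
    · rcases h' with h' | h' | h' <;> rw [h] at h' <;> exact (Fin.castSucc_ne_last _) h'.symm
    · rcases h' with h' | h' | h' <;> rw [h] at h' <;> exact (Fin.castSucc_ne_last _) h'.symm

/-- JOB 8: a hemispherical face can be subdivided by a new vertex -/
def Job8 : Prop := ∀ (n : ℕ) (G : SimpleGraph (Fin n)) (v : Fin n → Fin 3 → ℝ), IsSPT G v →
  (∀ i, ∃ j, G.Adj i j) → ∀ U i j k, IsTriangularFace G v U i j k →
  det3 (v i) (v j) (v k) = 0 →
  ∃ w : Fin 3 → ℝ, w ≠ 0 ∧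
    (∀ l, w 0 * v l 0 + w 1 * v l 1 + w 2 * v l 2 ≤ 0) ∧
    (w 0 * v i 0 + w 1 * v i 1 + w 2 * v i 2 = 0) ∧
    (w 0 * v j 0 + w 1 * v j 1 + w 2 * v j 2 = 0) ∧
    (w 0 * v k 0 + w 1 * v k 1 + w 2 * v k 2 = 0) ∧
    ∀ x : Fin 3 → ℝ, 0 < w 0 * x 0 + w 1 * x 1 + w 2 * x 2 →
      TriC (extG G i j k) (Fin.snoc v x)

end Pool.Agent.Q131.Snk
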