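import Pool.Agent.Q131.Snk.CircMain
import Pool.Agent.Q131.Snk.Stm3
import Pool.Agent.Q198.Snk.J1
import Pool.Agent.Q131.Snk.J5

/-! The final form of the circle theorem, with hemispherical faces. -/

namespace Pool.Agent.Q131.Snk

open Set Helper479.Sink

/-- the set `e` (an edge) crosses the great circle with normal vector `w`: it has points in both
open hemispheres bounded by the circle -/
def Crosses (w : Fin 3 → ℝ) (e : Set (Fin 3 → ℝ)) : Prop :=
  (∃ x ∈ e, dt w x < 0) ∧ ∃ x ∈ e, 0 < dt w x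

variable {n : ℕ} {G : SimpleGraph (Fin n)} {v : Fin n → Fin 3 → ℝ}

lemma north_S2 : north ∈ S2 := by
  show (0:ℝ) ^ 2 + 0 ^ 2 + 1 ^ 2 = 1
  norm_num

lemma north_sk : north ∈ SkC G v ↔ north ∈ skeleton G v := by
  constructor
  · rintro ⟨-, i, j, hij, s, t, hs, ht, e⟩
    exact ⟨i, j, hij, north_S2, s, t, hs, ht, e⟩
  · rintro ⟨i, j, hij, -, s, t, hs, ht, e⟩
    exact ⟨north_ne, i, j, hij, s, t, hs, ht, e⟩

lemma end_arc (hs : ∀ i, v i ∈ S2) (i j : Fin n) : v i ∈ arc (v i) (v j) ∧ v j ∈ arc (v i) (v j) :=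
  ⟨⟨hs i, 1, 0, zero_le_one, le_rfl, by simp⟩, ⟨hs j, 0, 1, le_rfl, zero_le_one, by simp⟩⟩

lemma prod_of_not_crosses (hs : ∀ i, v i ∈ S2) {w : Fin 3 → ℝ} {i j : Fin n}
    (h : ¬ Crosses w (arc (v i) (v j))) : 0 ≤ dt w (v i) * dt w (v j) := by
  obtain ⟨e1, e2⟩ := end_arc hs i j
  by_contra hc
  push Not at hc
  apply h
  rcases mul_neg_iff.mp hc with ⟨h1, h2⟩ | ⟨h1, h2⟩
  · exact ⟨⟨_, e2, h2⟩, ⟨_, e1, h1⟩⟩
  · exact ⟨⟨_, e1, h1⟩, ⟨_, e2, h2⟩⟩

/-! ### restriction of morphs -/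

lemma ext_adj {i j k a b : Fin n} (h : G.Adj a b) :
    (extG G i j k).Adj (Fin.castSucc a) (Fin.castSucc b) := Or.inl ⟨a, b, rfl, rfl, h⟩

lemma ext_adj' {i j k a b : Fin n} (h : (extG G i j k).Adj (Fin.castSucc a) (Fin.castSucc b)) :
    G.Adj a b := by
  rcases h with ⟨a', b', h1, h2, h3⟩ | ⟨h, -⟩ | ⟨h, -⟩
  · rw [Fin.castSucc_injective n h1, Fin.castSucc_injective n h2]; exact h3
  · exact absurd h (Fin.castSucc_ne_last _)
  · exact absurd h (Fin.castSucc_ne_last _)

lemma emb_restrict {i j k : Fin n} {q : Fin (n + 1) → Fin 3 → ℝ} (h : IsEmb (extG G i j k) q) :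
    IsEmb G (fun a => q (Fin.castSucc a)) := by
  constructor
  · exact fun a => h.mem_sphere _
  · intro a b hab
    exact Fin.castSucc_injective n (h.injective hab)
  · intro a b hab
    exact h.not_antipodal _ _ (ext_adj hab)
  · intro a b c d hab hcd hne x hx hx'
    obtain ⟨m, m1, m2, e⟩ := h.edges_meet _ _ _ _ (ext_adj (i := i) (j := j) (k := k) hab)
      (ext_adj hcd) (by
        intro he
        apply hne
        have : Sym2.map Fin.castSucc s(a, b) = Sym2.map Fin.castSucc s(c, d) := by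
          simpa using he
        exact Sym2.map.injective (Fin.castSucc_injective n) this) x hx hx'
    have h1 : ∃ m', m = Fin.castSucc m' ∧ m' ∈ s(a, b) := by
      rw [Sym2.mem_iff] at m1
      rcases m1 with h | h
      · exact ⟨a, h, by simp⟩
      · exact ⟨b, h, by simp⟩
    obtain ⟨m', rfl, hm'⟩ := h1
    refine ⟨m', hm', ?_, e⟩
    rw [Sym2.mem_iff] at m2 ⊢
    rcases m2 with h | h
    · exact Or.inl (Fin.castSucc_injective n h)
    · exact Or.inr (Fin.castSucc_injective n h)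
  · intro a b m hab hm
    rcases h.vertex_edge _ _ _ (ext_adj (i := i) (j := j) (k := k) hab) hm with h' | h'
    · exact Or.inl (Fin.castSucc_injective n h')
    · exact Or.inr (Fin.castSucc_injective n h')

lemma sink_restrict {i j k : Fin n} {x : Fin 3 → ℝ}
    (h : Sinkable (extG G i j k) (Fin.snoc (α := fun _ => Fin 3 → ℝ) v x)) : Sinkable G v := by
  obtain ⟨γ, hm, h0, hneg⟩ := h
  refine ⟨fun t a => γ t (Fin.castSucc a), ⟨fun a => hm.cont _, fun t ht =>
    emb_restrict (hm.emb t ht), fun a => hm.nonpolar _, fun t ht a => hm.stays t ht _⟩, ?_,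
    fun a => hneg _⟩
  funext a
  show γ 0 (Fin.castSucc a) = v a
  rw [h0]
  simp

/-! ### choice of the new vertex -/

lemma quad_finite {c0 c1 c2 : ℝ} (h : ¬ (c1 = 0 ∧ c2 = 0)) :
    {t : ℝ | c0 + t * c1 + t ^ 2 * c2 = 0}.Finite := by
  set P : Polynomial ℝ := Polynomial.C c0 + Polynomial.X * Polynomial.C c1 +
    Polynomial.X ^ 2 * Polynomial.C c2 with hP
  have hP0 : P ≠ 0 := by
    intro h0
    apply h
    constructor
    · have := congrArg (fun Q => Polynomial.coeff Q 1) h0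
      simpa [hP, Polynomial.coeff_X_pow, Polynomial.coeff_C] using this
    · have := congrArg (fun Q => Polynomial.coeff Q 2) h0
      simpa [hP, Polynomial.coeff_X, Polynomial.coeff_C] using this
  refine (Polynomial.finite_setOf_isRoot hP0).subset ?_
  intro t ht
  show Polynomial.eval t P = 0
  simp only [hP, Polynomial.eval_add, Polynomial.eval_mul, Polynomial.eval_C, Polynomial.eval_X,
    Polynomial.eval_pow]
  exact ht

lemma choose_x {w a b c : Fin 3 → ℝ} (hw : w ≠ 0) (ha : ¬ (a 0 = 0 ∧ a 1 = 0))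
    (hb : ¬ (b 0 = 0 ∧ b 1 = 0)) (hc : ¬ (c 0 = 0 ∧ c 1 = 0)) :
    ∃ x : Fin 3 → ℝ, x ∈ S2 ∧ 0 < dt w x ∧ hA x a ≠ 0 ∧ hA x b ≠ 0 ∧ hA x c ≠ 0 := by
  have hfin : ∀ u : Fin 3 → ℝ, ¬ (u 0 = 0 ∧ u 1 = 0) →
      {t : ℝ | hA ![w 0 + t, w 1 + t ^ 2, w 2] u = 0}.Finite := by
    intro u hu
    have := quad_finite (c0 := w 0 * u 1 - w 1 * u 0) (c1 := u 1) (c2 := -u 0)
      (fun h => hu ⟨by linarith [h.2], h.1⟩)
    refine this.subset ?_
    intro t ht
    have ht' : (w 0 + t) * u 1 - (w 1 + t ^ 2) * u 0 = 0 := ht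
    show w 0 * u 1 - w 1 * u 0 + t * u 1 + t ^ 2 * -u 0 = 0
    linarith
  have hpos : 0 < dt w ![w 0 + 0, w 1 + 0 ^ 2, w 2] := by
    have : dt w ![w 0 + 0, w 1 + 0 ^ 2, w 2] = w 0 ^ 2 + w 1 ^ 2 + w 2 ^ 2 := by
      simp [dt]; ring
    rw [this]
    exact sq_pos_of_ne hw
  have hcont : Continuous (fun t : ℝ => dt w ![w 0 + t, w 1 + t ^ 2, w 2]) := by
    unfold dt
    simp only [Matrix.cons_val]
    fun_prop
  have hopen : IsOpen {t : ℝ | 0 < dt w ![w 0 + t, w 1 + t ^ 2, w 2]} :=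
    isOpen_lt continuous_const hcont
  obtain ⟨ε, hε, hball⟩ := Metric.isOpen_iff.mp hopen 0 hpos
  have hinf : (Ioo (0:ℝ) ε).Infinite := Ioo_infinite hε
  obtain ⟨t, ht, hno⟩ := (hinf.diff (((hfin a ha).union (hfin b hb)).union (hfin c hc))).nonempty
  simp only [mem_union, not_or] at hno
  set y : Fin 3 → ℝ := ![w 0 + t, w 1 + t ^ 2, w 2] with hy
  have hyd : 0 < dt w y := by
    apply hball
    rw [Metric.mem_ball, dist_zero_right, Real.norm_eq_abs, abs_of_pos ht.1]
    exact ht.2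
  have hy0 : y ≠ 0 := by
    intro h
    rw [h] at hyd
    simp [dt] at hyd
  have hN := N3_pos hy0
  have hAn : ∀ u : Fin 3 → ℝ, hA y u ≠ 0 → hA (nz y) u ≠ 0 := by
    intro u hu
    have : hA (nz y) u = (N3 y)⁻¹ * hA y u := by
      unfold hA nz; simp; ring
    rw [this]
    exact mul_ne_zero (inv_ne_zero hN.ne') hu
  refine ⟨nz y, nz_mem hy0, ?_, hAn a hno.1.1, hAn b hno.1.2, hAn c hno.2⟩
  have : dt w (nz y) = (N3 y)⁻¹ * dt w y := by
    unfold dt nz; simp; ring
  rw [this]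
  exact mul_pos (inv_pos.mpr hN) hyd

/-- a triangulation with a hemispherical face and the north pole off the skeleton is sinkable -/
lemma hemi (J8 : Job8) (hv : IsSPT G v) (hdeg : ∀ i, ∃ j, G.Adj i j)
    (hu : ∀ i, ¬ (v i 0 = 0 ∧ v i 1 = 0)) (hN : north ∉ SkC G v) {U : Set (Fin 3 → ℝ)}
    {i j k : Fin n} (ht : IsTriangularFace G v U i j k) (hd : det3 (v i) (v j) (v k) = 0) :
    Sinkable G v := by
  obtain ⟨w, hw, hle, h1, h2, h3, hx⟩ := J8 n G v hv hdeg U i j k ht hd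
  obtain ⟨x, hxS, hxw, hxi, hxj, hxk⟩ := choose_x hw (hu i) (hu j) (hu k)
  have hT := hx x hxw
  apply sink_restrict (i := i) (j := j) (k := k) (x := x)
  set q : Fin (n + 1) → Fin 3 → ℝ := Fin.snoc (α := fun _ => Fin 3 → ℝ) v x with hq
  have hqc : ∀ a, q (Fin.castSucc a) = v a := fun a => by rw [hq]; simp
  have hql : q (Fin.last n) = x := by rw [hq]; simp
  have hxne : ¬ (x 0 = 0 ∧ x 1 = 0) := by
    rintro ⟨e0, e1⟩
    apply hxi
    unfold hA; rw [e0, e1]; ring
  have key : ∀ a : Fin n, hA x (v a) ≠ 0 → ∀ s t : ℝ, north ≠ s • x + t • v a := by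
    intro a ha s t e
    have a0 := congrFun e 0
    have a1 := congrFun e 1
    have a2 := congrFun e 2
    simp only [north, Pi.add_apply, Pi.smul_apply, smul_eq_mul, Matrix.cons_val] at a0 a1 a2
    have s0 : s * hA x (v a) = 0 := by
      unfold hA
      have : s * (x 0 * v a 1 - x 1 * v a 0) = (s * x 0 + t * v a 0) * v a 1 -
        (s * x 1 + t * v a 1) * v a 0 := by ring
      rw [this, ← a0, ← a1]; ring
    have t0 : t * hA x (v a) = 0 := by
      unfold hA
      have : t * (x 0 * v a 1 - x 1 * v a 0) = x 0 * (s * x 1 + t * v a 1) -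
        x 1 * (s * x 0 + t * v a 0) := by ring
      rw [this, ← a0, ← a1]; ring
    rw [(mul_eq_zero.mp s0).resolve_right ha, (mul_eq_zero.mp t0).resolve_right ha] at a2
    simp at a2
  apply circ J5.job5 hT (w := w) ?_ ?_ ?_ ?_ hw ?_
  · intro a
    refine Fin.lastCases ?_ (fun a => ?_) a
    · exact ⟨Fin.castSucc i, Or.inr (Or.inl ⟨rfl, Or.inl rfl⟩)⟩
    · obtain ⟨b, hb⟩ := hdeg a
      exact ⟨Fin.castSucc b, ext_adj hb⟩
  · intro a
    refine Fin.lastCases ?_ (fun a => ?_) a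
    · rw [hql]; exact hxS
    · rw [hqc]; exact hv.mem_sphere a
  · intro a
    refine Fin.lastCases ?_ (fun a => ?_) a
    · rw [hql]; exact hxne
    · rw [hqc]; exact hu a
  · rintro ⟨-, a, b, hab, s, t, hs, ht', e⟩
    rcases hab with ⟨a', b', rfl, rfl, h⟩ | ⟨rfl, h⟩ | ⟨rfl, h⟩
    · rw [hqc, hqc] at e
      exact hN ⟨north_ne, a', b', h, s, t, hs, ht', e⟩
    · rcases h with rfl | rfl | rfl <;> rw [hql, hqc] at e
      · exact key i hxi _ _ e
      · exact key j hxj _ _ e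
      · exact key k hxk _ _ e
    · rcases h with rfl | rfl | rfl <;> rw [hql, hqc, add_comm] at e
      · exact key i hxi _ _ e
      · exact key j hxj _ _ e
      · exact key k hxk _ _ e
  · intro a b hab
    rcases hab with ⟨a', b', rfl, rfl, -⟩ | ⟨rfl, h⟩ | ⟨rfl, h⟩
    · rw [hqc, hqc]
      exact mul_nonneg_of_nonpos_of_nonpos (hle a') (hle b')
    · rcases h with rfl | rfl | rfl <;> rw [hqc]
      · have : dt w (v i) = 0 := h1
        rw [this]; simp
      · have : dt w (v j) = 0 := h2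
        rw [this]; simp
      · have : dt w (v k) = 0 := h3
        rw [this]; simp
    · rcases h with rfl | rfl | rfl <;> rw [hqc]
      · have : dt w (v i) = 0 := h1
        rw [this]; simp
      · have : dt w (v j) = 0 := h2
        rw [this]; simp
      · have : dt w (v k) = 0 := h3
        rw [this]; simp

/-- the final theorem -/
theorem circle_sink (J8 : Job8) (hv : IsSPT G v) (hG : G.Connected) (hu : ∀ i, NonPolar (v i))
    {w : Fin 3 → ℝ} (hw : w ≠ 0)
    (hun : ∀ i j, G.Adj i j → ¬ Crosses w (arc (v i) (v j))) :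
    Sinkable G v ↔ north ∉ skeleton G v := by
  have hn := hv.four_le
  have hdeg : ∀ i, ∃ j, G.Adj i j := by
    intro i
    have : Nontrivial (Fin n) := Fin.nontrivial_iff_two_le.mpr (by omega)
    exact hG.preconnected.exists_adj_of_nontrivial i
  constructor
  · intro hs hN
    exact not_sinkable hu hN hs
  · intro hN
    rw [← north_sk] at hN
    by_cases hdet : ∃ U i j k, IsTriangularFace G v U i j k ∧ det3 (v i) (v j) (v k) = 0
    · obtain ⟨U, i, j, k, ht, hd⟩ := hdet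
      exact hemi J8 hv hdeg hu hN ht hd
    · push Not at hdet
      have hT : TriC G v := Pool.Agent.Q198.Snk.job1 n G v hv (by
        intro U hU
        obtain ⟨i, j, k, ht⟩ := hv.faces U hU
        exact ⟨i, j, k, ht, hdet U i j k ht⟩)
      exact circ J5.job5 hT hdeg hv.mem_sphere hu hN hw
        fun i j hij => prod_of_not_crosses hv.mem_sphere (hun i j hij)

end Pool.Agent.Q131.Snk
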