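import Pool.Agent.Q198.Snk.J2
import Pool.Agent.Q198.Snk.J1
import Pool.Agent.Q131.Snk.Stm3

/-! JOB 8 of the project on MP_731b42_co and MP_e680c3_co: a hemispherical face can be subdivided
by a new vertex. -/

namespace Pool.Agent.Q131.Snk.J8

open Set Filter Topology Helper479.Sink Pool.Agent.Q131.Snk Pool.Agent.Q198.Snk

/-- the inner product -/
def dt (w x : Fin 3 → ℝ) : ℝ := w 0 * x 0 + w 1 * x 1 + w 2 * x 2

lemma dt_lin (w x y : Fin 3 → ℝ) (s t : ℝ) : dt w (s • x + t • y) = s * dt w x + t * dt w y := by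
  simp only [dt, Pi.add_apply, Pi.smul_apply, smul_eq_mul]; ring

lemma dt_smul (w x : Fin 3 → ℝ) (s : ℝ) : dt w (s • x) = s * dt w x := by
  simp only [dt, Pi.smul_apply, smul_eq_mul]; ring

lemma dt_zero (w : Fin 3 → ℝ) : dt w 0 = 0 := by simp [dt]

lemma dt_cont (w : Fin 3 → ℝ) : Continuous (dt w) := by
  unfold dt; fun_prop

lemma det3_dt (a b x : Fin 3 → ℝ) : det3 a b x = dt (cr a b) x := by
  simp [det3, hA, dt, cr]; ring

/-- a linear dependence -/
lemma dep_of_det {a b c : Fin 3 → ℝ} (h : det3 a b c = 0) :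
    ∃ α β γ : ℝ, ¬ (α = 0 ∧ β = 0 ∧ γ = 0) ∧ α • a + β • b + γ • c = 0 := by
  have hdet : (Matrix.of ![a, b, c]).det = 0 := by
    rw [Matrix.det_fin_three]
    simp only [Matrix.of_apply, Matrix.cons_val_zero, Matrix.cons_val_one, Matrix.cons_val]
    unfold det3 hA at h
    linarith
  obtain ⟨u, hu, hu0⟩ := Matrix.exists_vecMul_eq_zero_iff.mpr hdet
  refine ⟨u 0, u 1, u 2, ?_, ?_⟩
  · rintro ⟨h0, h1, h2⟩
    apply hu
    ext m
    fin_cases m
    · exact h0
    · exact h1
    · exact h2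
  · ext m
    have := congrFun hu0 m
    simp only [Matrix.vecMul, dotProduct, Fin.sum_univ_three, Matrix.of_apply,
      Matrix.cons_val_zero, Matrix.cons_val_one, Matrix.cons_val, Pi.zero_apply] at this
    simp only [Pi.add_apply, Pi.smul_apply, smul_eq_mul, Pi.zero_apply]
    linarith

lemma EC_comm (a b : Fin 3 → ℝ) : EC a b = EC b a := by
  ext x
  constructor
  · rintro ⟨s, t, hs, ht, rfl⟩; exact ⟨t, s, ht, hs, by rw [add_comm]⟩
  · rintro ⟨s, t, hs, ht, rfl⟩; exact ⟨t, s, ht, hs, by rw [add_comm]⟩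

section emb

variable {n : ℕ} {G : SimpleGraph (Fin n)} {v : Fin n → Fin 3 → ℝ}

/-- the ends of an edge are linearly independent -/
lemma EmbC.indep (h : EmbC G v) {a b : Fin n} (hab : G.Adj a b) {s t : ℝ}
    (e : s • v a + t • v b = 0) : s = 0 ∧ t = 0 := by
  have hd := EmbC.det_pos h hab
  obtain ⟨h1, h2, -⟩ := k_comb hd.ne' s t 0
  obtain ⟨h1', h2', -⟩ := k_comb hd.ne' 0 0 0
  have e' : s • v a + t • v b + (0:ℝ) • cr (v a) (v b) =
      (0:ℝ) • v a + (0:ℝ) • v b + (0:ℝ) • cr (v a) (v b) := by rw [e]; simp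
  rw [e'] at h1 h2
  exact ⟨h1.symm.trans h1', h2.symm.trans h2'⟩

/-- the plane of three vertices on a great circle is covered by three cones -/
lemma plane_cov {a b c : Fin 3 → ℝ} (hd : 0 < det3 a b (cr a b)) {α β γ : ℝ} (hα : 0 < α)
    (hβ : 0 < β) (hγ : 0 < γ) (e : α • a + β • b + γ • c = 0) {x : Fin 3 → ℝ}
    (hx : det3 a b x = 0) : x ∈ EC a b ∨ x ∈ EC b c ∨ x ∈ EC c a := by
  have h3 : k3 a b (cr a b) x = 0 := by unfold k3; rw [hx, zero_div]
  have hc := cramer' hd.ne' x
  rw [h3, zero_smul, add_zero] at hc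
  set s := k1 a b (cr a b) x with hs
  set t := k2 a b (cr a b) x with ht
  by_cases hst : 0 ≤ s ∧ 0 ≤ t
  · left; exact ⟨s, t, hst.1, hst.2, hc⟩
  right
  have hadd : ∀ lam : ℝ, x = (s + lam * α) • a + (t + lam * β) • b + (lam * γ) • c := by
    intro lam
    have e2 : x = (s • a + t • b) + lam • (α • a + β • b + γ • c) := by rw [e, smul_zero, add_zero]; exact hc
    rw [e2]
    simp only [smul_add, smul_smul, add_smul]
    abel
  rcases le_total (-s / α) (-t / β) with h | h
  · -- lam = -t/β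
    right
    set lam := -t / β with hl
    have hl0 : 0 ≤ lam := by
      by_contra hneg
      push Not at hneg
      apply hst
      have h4 : -t < 0 := by
        by_contra h5; push Not at h5
        have := div_nonneg h5 hβ.le
        linarith
      have h6 : -s / α < 0 := lt_of_le_of_lt h hneg
      have h7 : -s < 0 := by
        by_contra h5; push Not at h5
        have := div_nonneg h5 hα.le
        linarith
      exact ⟨by linarith, by linarith⟩
    have e1 : t + lam * β = 0 := by rw [hl]; field_simp; ring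
    have e2 : 0 ≤ s + lam * α := by
      have := (div_le_iff₀ hα).mp h
      linarith
    refine ⟨lam * γ, s + lam * α, by positivity, e2, ?_⟩
    have := hadd lam
    rw [e1, zero_smul, add_zero] at this
    rw [add_comm]; exact this
  · left
    set lam := -s / α with hl
    have hl0 : 0 ≤ lam := by
      by_contra hneg
      push Not at hneg
      apply hst
      have h4 : -s < 0 := by
        by_contra h5; push Not at h5
        have := div_nonneg h5 hα.le
        linarith
      have h6 : -t / β < 0 := lt_of_le_of_lt h hneg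
      have h7 : -t < 0 := by
        by_contra h5; push Not at h5
        have := div_nonneg h5 hβ.le
        linarith
      exact ⟨by linarith, by linarith⟩
    have e1 : s + lam * α = 0 := by rw [hl]; field_simp; ring
    have e2 : 0 ≤ t + lam * β := by
      have := (div_le_iff₀ hβ).mp h
      linarith
    refine ⟨t + lam * β, lam * γ, e2, by positivity, ?_⟩
    have := hadd lam
    rw [e1, zero_smul, zero_add] at this
    exact this

/-- the data of a hemispherical face -/
structure Hemi (G : SimpleGraph (Fin n)) (v : Fin n → Fin 3 → ℝ) (i j k : Fin n)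
    (w : Fin 3 → ℝ) : Prop where
  ne0 : w ≠ 0
  ij : G.Adj i j
  jk : G.Adj j k
  ki : G.Adj k i
  zi : dt w (v i) = 0
  zj : dt w (v j) = 0
  zk : dt w (v k) = 0
  neg : ∀ l, dt w (v l) ≤ 0
  cov : ∀ x, dt w x = 0 → x ∈ EC (v i) (v j) ∨ x ∈ EC (v j) (v k) ∨ x ∈ EC (v k) (v i)

/-- a set of nonzero points avoiding the arcs of a triangular face and meeting its cone -/
lemma key_sub (hemb : EmbC G v) {U : Set (Fin 3 → ℝ)} {i j k : Fin n}
    (hU : IsTriangularFace G v U i j k) (R : Set (Fin 3 → ℝ)) (hR : IsPreconnected R)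
    (h0 : ∀ z ∈ R, z ≠ 0)
    (hno : ∀ z ∈ R, ¬ (nu z ∈ arc (v i) (v j) ∪ arc (v j) (v k) ∪ arc (v k) (v i)))
    (hne : (R ∩ {z | z ≠ 0 ∧ nu z ∈ U}).Nonempty) : R ⊆ {z | z ≠ 0 ∧ nu z ∈ U} := by
  obtain ⟨⟨y, hy, rfl⟩, hij, hjk, hki, hA⟩ := hU
  set U := connectedComponentIn (S2 \ skeleton G v) y with hU
  set V : Set (Fin 3 → ℝ) := {z | z ≠ 0 ∧ nu z ∈ U} with hV
  have hVo : IsOpen V := V_open hemb
  have hclos : ∀ z, z ≠ 0 → z ∈ closure V → z ∉ V →
      nu z ∈ arc (v i) (v j) ∪ arc (v j) (v k) ∪ arc (v k) (v i) := by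
    intro z hz hzc hzV
    rw [← hA]
    refine ⟨?_, fun hc => hzV ⟨hz, hc⟩⟩
    have := mem_closure_image (nu_cont hz) hzc
    apply closure_mono _ this
    rintro _ ⟨w, hw, rfl⟩
    exact hw.2
  apply hR.subset_left_of_subset_union hVo isClosed_closure.isOpen_compl
    (v := (closure V)ᶜ) _ _ hne
  · rw [Set.disjoint_left]
    intro z hz hz'
    exact hz' (subset_closure hz)
  · intro z hz
    by_cases hzV : z ∈ V
    · exact Or.inl hzV
    · right
      intro hc
      exact hno z hz (hclos z (h0 z hz) hc hzV)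

lemma hemi_of (h : IsSPT G v) (hnb : ∀ i, ∃ j, G.Adj i j) {U : Set (Fin 3 → ℝ)} {i j k : Fin n}
    (hU : IsTriangularFace G v U i j k) (hD : det3 (v i) (v j) (v k) = 0) :
    ∃ w : Fin 3 → ℝ, Hemi G v i j k w ∧ ∀ x, 0 < dt w x ↔ (x ≠ 0 ∧ nu x ∈ U) := by
  have hemb := embC_of h
  have hE : IsEmb G v := ⟨h.mem_sphere, h.injective, h.not_antipodal, h.edges_meet, h.vertex_edge⟩
  have hU' := hU
  obtain ⟨⟨y, hy, hUy⟩, hij, hjk, hki, hAr⟩ := hU
  obtain ⟨α, β, γ, hne, hrel⟩ : ∃ α β γ : ℝ, (0 < α ∧ 0 < β ∧ 0 < γ) ∧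
      α • v i + β • v j + γ • v k = 0 := by
    obtain ⟨α, β, γ, hne, hrel⟩ := dep_of_det hD
    rcases same_sign hE hij hjk hki hrel hne with h1 | ⟨h1, h2, h3⟩
    · exact ⟨α, β, γ, h1, hrel⟩
    · refine ⟨-α, -β, -γ, ⟨by linarith, by linarith, by linarith⟩, ?_⟩
      have : -(α • v i + β • v j + γ • v k) = 0 := by rw [hrel, neg_zero]
      rw [← this]
      simp only [neg_smul, neg_add]
  obtain ⟨hα, hβ, hγ⟩ := hne
  have hdp := EmbC.det_pos hemb hij
  have hUX : U ⊆ S2 \ skeleton G v := by rw [hUy]; exact connectedComponentIn_subset _ _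
  have hyU : y ∈ U := by rw [hUy]; exact mem_connectedComponentIn hy
  have hUp : IsPreconnected U := by rw [hUy]; exact isPreconnected_connectedComponentIn
  have hEsk : ∀ x, x ≠ 0 → (x ∈ EC (v i) (v j) ∨ x ∈ EC (v j) (v k) ∨ x ∈ EC (v k) (v i)) →
      x ∈ SkC G v := by
    intro x hx hh
    refine ⟨hx, ?_⟩
    rcases hh with h1 | h1 | h1
    · exact ⟨i, j, hij, h1⟩
    · exact ⟨j, k, hjk, h1⟩
    · exact ⟨k, i, hki, h1⟩
  -- zero set of the functional
  set w0 := cr (v i) (v j) with hw0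
  have z1 : dt w0 (v i) = 0 := by rw [hw0, ← det3_dt]; unfold det3 hA; ring
  have z2 : dt w0 (v j) = 0 := by rw [hw0, ← det3_dt]; unfold det3 hA; ring
  have z3 : dt w0 (v k) = 0 := by
    have h1 : dt w0 (α • v i + β • v j + γ • v k) = 0 := by rw [hrel, dt_zero]
    have h2 : dt w0 (α • v i + β • v j + γ • v k) = α * dt w0 (v i) + β * dt w0 (v j) +
        γ * dt w0 (v k) := by
      simp only [dt, Pi.add_apply, Pi.smul_apply, smul_eq_mul]; ring
    rw [h2, z1, z2] at h1
    have : γ * dt w0 (v k) = 0 := by linarith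
    exact (mul_eq_zero.mp this).resolve_left hγ.ne'
  have hcov : ∀ x, dt w0 x = 0 → x ∈ EC (v i) (v j) ∨ x ∈ EC (v j) (v k) ∨ x ∈ EC (v k) (v i) := by
    intro x hx
    rw [hw0, ← det3_dt] at hx
    exact plane_cov hdp hα hβ hγ hrel hx
  have hw0ne : w0 ≠ 0 := by
    intro h0
    rw [det3_dt, ← hw0, h0, dt_zero] at hdp
    exact lt_irrefl _ hdp
  have hUnz : ∀ x ∈ U, dt w0 x ≠ 0 := by
    intro x hx hx0
    obtain ⟨h1, h2⟩ := hUX hx
    apply h2
    have hx1 : x ≠ 0 := S2_ne0 h1
    have h3 := hEsk x hx1 (hcov x hx0)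
    obtain ⟨-, a, b, hab, h4⟩ := h3
    obtain ⟨s, t, hs, ht, e⟩ := h4
    exact ⟨a, b, hab, h1, s, t, hs, ht, e⟩
  obtain ⟨σ, hσ0, hσ⟩ : ∃ σ : ℝ, σ ≠ 0 ∧ ∀ x ∈ U, 0 < σ * dt w0 x := by
    have h1 : U ⊆ {x | 0 < dt w0 x} ∨ U ⊆ {x | dt w0 x < 0} := by
      apply IsPreconnected.subset_or_subset (isOpen_lt continuous_const (dt_cont _))
        (isOpen_lt (dt_cont _) continuous_const) _ _ hUp
      · rw [Set.disjoint_left]
        intro z hz hz'
        have h1 : 0 < dt w0 z := hz
        have h2 : dt w0 z < 0 := hz'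
        linarith
      · intro z hz
        rcases lt_or_gt_of_ne (hUnz z hz) with h1 | h1
        · exact Or.inr h1
        · exact Or.inl h1
    rcases h1 with h1 | h1
    · exact ⟨1, one_ne_zero, fun x hx => by have := h1 hx; simpa using this⟩
    · refine ⟨-1, by norm_num, fun x hx => ?_⟩
      have : dt w0 x < 0 := h1 hx
      linarith
  have hdts : ∀ x, dt (σ • w0) x = σ * dt w0 x := by
    intro x
    simp only [dt, Pi.smul_apply, smul_eq_mul]; ring
  have hiff : ∀ x, 0 < dt (σ • w0) x ↔ (x ≠ 0 ∧ nu x ∈ U) := by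
    have hsub : {x | 0 < dt (σ • w0) x} ⊆ {z | z ≠ 0 ∧ nu z ∈ U} := by
      apply key_sub hemb hU'
      · apply Convex.isPreconnected
        intro x hx y hy s t hs ht hst
        have hx' : 0 < dt (σ • w0) x := hx
        have hy' : 0 < dt (σ • w0) y := hy
        show 0 < dt (σ • w0) (s • x + t • y)
        rw [dt_lin]
        rcases hs.eq_or_lt with h1 | h1
        · have : t = 1 := by linarith
          rw [← h1, this]; linarith
        · have := mul_pos h1 hx'
          have := mul_nonneg ht hy'.le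
          linarith
      · rintro z hz rfl
        have : 0 < dt (σ • w0) 0 := hz
        rw [dt_zero] at this
        exact lt_irrefl _ this
      · intro z hz hc
        have hz' : 0 < dt (σ • w0) z := hz
        have hz0 : z ≠ 0 := by
          rintro rfl; rw [dt_zero] at hz'; exact lt_irrefl _ hz'
        have h1 : dt (σ • w0) (nu z) = 0 := by
          rw [hdts]
          rcases hc with (⟨-, s, t, -, -, e⟩ | ⟨-, s, t, -, -, e⟩) | ⟨-, s, t, -, -, e⟩
          · rw [e, dt_lin, z1, z2]; ring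
          · rw [e, dt_lin, z2, z3]; ring
          · rw [e, dt_lin, z3, z1]; ring
        rw [len_smul_nu hz0, dt_smul, h1] at hz'
        simp at hz'
      · refine ⟨y, ?_, S2_ne0 hy.1, ?_⟩
        · show 0 < dt (σ • w0) y
          rw [hdts]; exact hσ y hyU
        · have : nu y = y := by
            have h1 := len_smul_nu (S2_ne0 hy.1)
            have h2 : len y = 1 := S2_scale hy.1 (nu_mem (S2_ne0 hy.1)) (len_pos (S2_ne0 hy.1))
              (fun m => by conv_lhs => rw [h1]
                           simp)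
            rw [h2, one_smul] at h1
            exact h1.symm
          rw [this]; exact hyU
    intro x
    constructor
    · intro hx; exact hsub hx
    · rintro ⟨hx0, hxU⟩
      rw [len_smul_nu hx0, dt_smul, hdts]
      exact mul_pos (len_pos hx0) (hσ _ hxU)
  refine ⟨σ • w0, ⟨?_, hij, hjk, hki, ?_, ?_, ?_, ?_, ?_⟩, hiff⟩
  · intro hc
    rcases smul_eq_zero.mp hc with h1 | h1
    · exact hσ0 h1
    · exact hw0ne h1
  · rw [hdts, z1, mul_zero]
  · rw [hdts, z2, mul_zero]
  · rw [hdts, z3, mul_zero]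
  · intro l
    by_contra hc
    push Not at hc
    obtain ⟨h1, h2⟩ := (hiff (v l)).mp hc
    obtain ⟨m, hm⟩ := hnb l
    exact (hUX h2).2 ((nu_skel h1).mpr ⟨h1, l, m, hm, 1, 0, zero_le_one, le_rfl, by simp⟩)
  · intro x hx
    rw [hdts] at hx
    exact hcov x ((mul_eq_zero.mp hx).resolve_left hσ0)

lemma Hemi.cov_adj {i j k : Fin n} {w : Fin 3 → ℝ} (H : Hemi G v i j k w) {x : Fin 3 → ℝ}
    (hx : dt w x = 0) : ∃ a b, G.Adj a b ∧ (a = i ∨ a = j ∨ a = k) ∧ (b = i ∨ b = j ∨ b = k) ∧
      x ∈ EC (v a) (v b) := by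
  rcases H.cov x hx with h1 | h1 | h1
  · exact ⟨i, j, H.ij, by simp, by simp, h1⟩
  · exact ⟨j, k, H.jk, by simp, by simp, h1⟩
  · exact ⟨k, i, H.ki, by simp, by simp, h1⟩

lemma Hemi.zm {i j k : Fin n} {w : Fin 3 → ℝ} (H : Hemi G v i j k w) {m : Fin n}
    (hm : m = i ∨ m = j ∨ m = k) : dt w (v m) = 0 := by
  rcases hm with rfl | rfl | rfl
  · exact H.zi
  · exact H.zj
  · exact H.zk

/-- the other vertices are strictly on the negative side -/
lemma Hemi.neg' {i j k : Fin n} {w : Fin 3 → ℝ} (H : Hemi G v i j k w) (he : EmbC G v)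
    {l : Fin n} (hl : ¬ (l = i ∨ l = j ∨ l = k)) : dt w (v l) < 0 := by
  rcases (H.neg l).eq_or_lt with h1 | h1
  · exfalso
    obtain ⟨a, b, hab, ha, hb, h2⟩ := H.cov_adj h1
    rcases he.vert a b l hab h2 with h3 | h3
    · exact hl (h3 ▸ ha)
    · exact hl (h3 ▸ hb)
  · exact h1

lemma Hemi.EC_neg {i j k : Fin n} {w : Fin 3 → ℝ} (H : Hemi G v i j k w) {a b : Fin n}
    {x : Fin 3 → ℝ} (hx : x ∈ EC (v a) (v b)) : dt w x ≤ 0 := by
  obtain ⟨s, t, hs, ht, rfl⟩ := hx
  rw [dt_lin]
  have h1 := mul_nonneg hs (neg_nonneg.mpr (H.neg a))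
  have h2 := mul_nonneg ht (neg_nonneg.mpr (H.neg b))
  linarith

lemma ext_cases {i j k : Fin n} {a b : Fin (n + 1)} (h : (extG G i j k).Adj a b) :
    (∃ a' b', a = Fin.castSucc a' ∧ b = Fin.castSucc b' ∧ G.Adj a' b') ∨
    (∃ m, (m = i ∨ m = j ∨ m = k) ∧ a = Fin.last n ∧ b = Fin.castSucc m) ∨
    (∃ m, (m = i ∨ m = j ∨ m = k) ∧ b = Fin.last n ∧ a = Fin.castSucc m) := by
  rcases h with h | ⟨h1, h2⟩ | ⟨h1, h2⟩
  · exact Or.inl h
  · right; left
    rcases h2 with h2 | h2 | h2
    · exact ⟨i, by simp, h1, h2⟩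
    · exact ⟨j, by simp, h1, h2⟩
    · exact ⟨k, by simp, h1, h2⟩
  · right; right
    rcases h2 with h2 | h2 | h2
    · exact ⟨i, by simp, h1, h2⟩
    · exact ⟨j, by simp, h1, h2⟩
    · exact ⟨k, by simp, h1, h2⟩

lemma ext_old {i j k a b : Fin n} (h : G.Adj a b) :
    (extG G i j k).Adj (Fin.castSucc a) (Fin.castSucc b) := Or.inl ⟨a, b, rfl, rfl, h⟩

lemma ext_new {i j k m : Fin n} (h : m = i ∨ m = j ∨ m = k) :
    (extG G i j k).Adj (Fin.last n) (Fin.castSucc m) := by
  refine Or.inr (Or.inl ⟨rfl, ?_⟩)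
  rcases h with rfl | rfl | rfl <;> simp

/-- canonical form of an edge -/
lemma ext_canon {i j k : Fin n} {a b : Fin (n + 1)} (h : (extG G i j k).Adj a b)
    {P : Fin (n + 1) → Fin (n + 1) → Prop} (hsym : ∀ a b, P a b → P b a)
    (hold : ∀ a b, G.Adj a b → P (Fin.castSucc a) (Fin.castSucc b))
    (hnew : ∀ m, (m = i ∨ m = j ∨ m = k) → P (Fin.last n) (Fin.castSucc m)) : P a b := by
  rcases ext_cases h with ⟨a', b', rfl, rfl, h1⟩ | ⟨m, hm, rfl, rfl⟩ | ⟨m, hm, rfl, rfl⟩
  · exact hold _ _ h1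
  · exact hnew m hm
  · exact hsym _ _ (hnew m hm)

/-- points of a new edge -/
lemma Hemi.new_pt {i j k : Fin n} {w : Fin 3 → ℝ} (H : Hemi G v i j k w) {x : Fin 3 → ℝ}
    {m : Fin n} (hm : m = i ∨ m = j ∨ m = k) (s t : ℝ) :
    dt w (s • x + t • v m) = s * dt w x := by
  rw [dt_lin, H.zm hm]; ring

/-- a common point of an old and a new edge -/
lemma Hemi.old_new {i j k : Fin n} {w : Fin 3 → ℝ} (H : Hemi G v i j k w) {x : Fin 3 → ℝ}
    (hx : 0 < dt w x) {m : Fin n} (hm : m = i ∨ m = j ∨ m = k) {y : Fin 3 → ℝ} (hy : y ≠ 0)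
    (hle : dt w y ≤ 0) (hyn : y ∈ EC x (v m)) : ∃ t : ℝ, 0 < t ∧ y = t • v m := by
  obtain ⟨s, t, hs, ht, rfl⟩ := hyn
  rw [H.new_pt hm] at hle
  have hs0 : s = 0 := by
    rcases hs.eq_or_lt with h1 | h1
    · exact h1.symm
    · have := mul_pos h1 hx; linarith
  rw [hs0, zero_smul, zero_add] at hy ⊢
  refine ⟨t, ?_, rfl⟩
  rcases ht.eq_or_lt with h1 | h1
  · exfalso; apply hy; rw [← h1, zero_smul]
  · exact h1

lemma snoc_c (v : Fin n → Fin 3 → ℝ) (x : Fin 3 → ℝ) (l : Fin n) :
    (Fin.snoc v x : Fin (n + 1) → Fin 3 → ℝ) (Fin.castSucc l) = v l := by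
  simp
lemma snoc_l (v : Fin n → Fin 3 → ℝ) (x : Fin 3 → ℝ) :
    (Fin.snoc v x : Fin (n + 1) → Fin 3 → ℝ) (Fin.last n) = x := by
  simp

lemma ext_emb {i j k : Fin n} {w : Fin 3 → ℝ} (H : Hemi G v i j k w) (he : EmbC G v)
    {x : Fin 3 → ℝ} (hx : 0 < dt w x) : EmbC (extG G i j k) (Fin.snoc v x) where
  ne0 := by
    intro a
    refine Fin.lastCases ?_ (fun l => ?_) a
    · rw [snoc_l]
      rintro rfl
      rw [dt_zero] at hx; exact lt_irrefl _ hx
    · rw [snoc_c]; exact he.ne0 l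
  inj := by
    intro a b c hc
    refine Fin.lastCases ?_ (fun l => ?_) a <;> refine Fin.lastCases ?_ (fun l' => ?_) b
    · intro _; rfl
    · rw [snoc_l, snoc_c]
      intro e
      have h1 : dt w x = c * dt w (v l') := by rw [e, dt_smul]
      have := mul_nonneg hc.le (neg_nonneg.mpr (H.neg l'))
      linarith
    · rw [snoc_l, snoc_c]
      intro e
      have h1 : dt w (v l) = c * dt w x := by rw [e, dt_smul]
      have := mul_pos hc hx
      have := H.neg l
      linarith
    · rw [snoc_c, snoc_c]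
      intro e
      rw [he.inj l l' c hc e]
  anti := by
    intro a b c hab hc
    rcases ext_cases hab with ⟨a', b', rfl, rfl, h1⟩ | ⟨m, hm, rfl, rfl⟩ | ⟨m, hm, rfl, rfl⟩
    · rw [snoc_c, snoc_c]; exact he.anti _ _ _ h1 hc
    · rw [snoc_c, snoc_l]
      intro e
      have h1 : dt w x = (-c) * dt w (v m) := by rw [e, ← dt_smul, neg_smul]
      rw [H.zm hm] at h1; linarith
    · rw [snoc_c, snoc_l]
      intro e
      have h1 : dt w (v m) = (-c) * dt w x := by rw [e, ← dt_smul, neg_smul]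
      rw [H.zm hm] at h1
      have := mul_pos hc hx
      linarith
  meet := by
    intro a b c d y hab hcd
    refine ext_canon hab (P := fun a b => s(a, b) ≠ s(c, d) → y ≠ 0 →
      y ∈ EC ((Fin.snoc v x : Fin (n + 1) → Fin 3 → ℝ) a) ((Fin.snoc v x : Fin (n + 1) → Fin 3 → ℝ) b) →
      y ∈ EC ((Fin.snoc v x : Fin (n + 1) → Fin 3 → ℝ) c) ((Fin.snoc v x : Fin (n + 1) → Fin 3 → ℝ) d) →
      ∃ m, m ∈ s(a, b) ∧ m ∈ s(c, d) ∧ ∃ r : ℝ, 0 < r ∧ y = r • (Fin.snoc v x : Fin (n + 1) → Fin 3 → ℝ) m)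
      ?_ ?_ ?_
    · intro a b h; rw [Sym2.eq_swap (a := b), EC_comm]; exact h
    · intro a b h1
      refine ext_canon hcd (P := fun c d => s(Fin.castSucc a, Fin.castSucc b) ≠ s(c, d) → y ≠ 0 →
        y ∈ EC ((Fin.snoc v x : Fin (n + 1) → Fin 3 → ℝ) (Fin.castSucc a)) ((Fin.snoc v x : Fin (n + 1) → Fin 3 → ℝ) (Fin.castSucc b)) →
        y ∈ EC ((Fin.snoc v x : Fin (n + 1) → Fin 3 → ℝ) c) ((Fin.snoc v x : Fin (n + 1) → Fin 3 → ℝ) d) →
        ∃ m, m ∈ s(Fin.castSucc a, Fin.castSucc b) ∧ m ∈ s(c, d) ∧ ∃ r : ℝ, 0 < r ∧ y = r • (Fin.snoc v x : Fin (n + 1) → Fin 3 → ℝ) m)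
        ?_ ?_ ?_
      · intro c d h; rw [Sym2.eq_swap (a := d), EC_comm ((Fin.snoc v x : Fin (n + 1) → Fin 3 → ℝ) d)]; exact h
      · intro c d h2 hne hy
        rw [snoc_c, snoc_c, snoc_c, snoc_c]
        intro h3 h4
        obtain ⟨m, m1, m2, r, hr, e⟩ := he.meet a b c d y h1 h2 (by
          intro h5; apply hne
          have := congrArg (Sym2.map Fin.castSucc) h5
          simpa using this) hy h3 h4
        refine ⟨Fin.castSucc m, ?_, ?_, r, hr, by rw [snoc_c]; exact e⟩
        · rw [Sym2.mem_iff] at m1 ⊢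
          rcases m1 with rfl | rfl <;> simp
        · rw [Sym2.mem_iff] at m2 ⊢
          rcases m2 with rfl | rfl <;> simp
      · intro m hm hne hy
        rw [snoc_c, snoc_c, snoc_l, snoc_c]
        intro h3 h4
        obtain ⟨t, ht, e⟩ := H.old_new hx hm hy (H.EC_neg h3) h4
        have h5 : v m ∈ EC (v a) (v b) := by
          have : v m = t⁻¹ • y := by rw [e, smul_smul, inv_mul_cancel₀ ht.ne', one_smul]
          rw [this]; exact smul_EC (inv_pos.mpr ht).le h3
        refine ⟨Fin.castSucc m, ?_, ?_, t, ht, by rw [snoc_c]; exact e⟩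
        · rw [Sym2.mem_iff]
          rcases he.vert a b m h1 h5 with rfl | rfl <;> simp
        · rw [Sym2.mem_iff]; simp
    · intro m hm
      refine ext_canon hcd (P := fun c d => s(Fin.last n, Fin.castSucc m) ≠ s(c, d) → y ≠ 0 →
        y ∈ EC ((Fin.snoc v x : Fin (n + 1) → Fin 3 → ℝ) (Fin.last n)) ((Fin.snoc v x : Fin (n + 1) → Fin 3 → ℝ) (Fin.castSucc m)) →
        y ∈ EC ((Fin.snoc v x : Fin (n + 1) → Fin 3 → ℝ) c) ((Fin.snoc v x : Fin (n + 1) → Fin 3 → ℝ) d) →
        ∃ q, q ∈ s(Fin.last n, Fin.castSucc m) ∧ q ∈ s(c, d) ∧ ∃ r : ℝ, 0 < r ∧ y = r • (Fin.snoc v x : Fin (n + 1) → Fin 3 → ℝ) q)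
        ?_ ?_ ?_
      · intro c d h; rw [Sym2.eq_swap (a := d), EC_comm ((Fin.snoc v x : Fin (n + 1) → Fin 3 → ℝ) d)]; exact h
      · intro c d h2 hne hy
        rw [snoc_c, snoc_c, snoc_l, snoc_c]
        intro h4 h3
        obtain ⟨t, ht, e⟩ := H.old_new hx hm hy (H.EC_neg h3) h4
        have h5 : v m ∈ EC (v c) (v d) := by
          have : v m = t⁻¹ • y := by rw [e, smul_smul, inv_mul_cancel₀ ht.ne', one_smul]
          rw [this]; exact smul_EC (inv_pos.mpr ht).le h3
        refine ⟨Fin.castSucc m, ?_, ?_, t, ht, by rw [snoc_c]; exact e⟩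
        · rw [Sym2.mem_iff]; simp
        · rw [Sym2.mem_iff]
          rcases he.vert c d m h2 h5 with rfl | rfl <;> simp
      · intro m' hm' hne hy
        rw [snoc_l, snoc_c, snoc_c]
        intro h3 h4
        have hmm : m ≠ m' := by rintro rfl; exact hne rfl
        obtain ⟨s, t, hs, ht, e⟩ := h3
        obtain ⟨s', t', hs', ht', e'⟩ := h4
        have d1 : dt w y = s * dt w x := by rw [e, H.new_pt hm]
        have d2 : dt w y = s' * dt w x := by rw [e', H.new_pt hm']
        have hss : s = s' := by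
          have : s * dt w x = s' * dt w x := by rw [← d1, ← d2]
          exact mul_right_cancel₀ hx.ne' this
        have htt : t • v m = t' • v m' := by
          have : s • x + t • v m = s • x + t' • v m' := by rw [← e, e', hss]
          exact add_left_cancel this
        have ht0 : t = 0 := by
          by_contra hc
          have htp : 0 < t := lt_of_le_of_ne ht (Ne.symm hc)
          have htp' : 0 < t' := by
            rcases ht'.eq_or_lt with h5 | h5
            · exfalso
              rw [← h5, zero_smul] at htt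
              rcases smul_eq_zero.mp htt with h6 | h6
              · exact hc h6
              · exact he.ne0 m h6
            · exact h5
          apply hmm
          refine he.inj m m' (t⁻¹ * t') (mul_pos (inv_pos.mpr htp) htp') ?_
          rw [mul_smul, ← htt, smul_smul, inv_mul_cancel₀ hc, one_smul]
        rw [ht0, zero_smul, add_zero] at e
        refine ⟨Fin.last n, by simp, by simp, s, ?_, by rw [snoc_l]; exact e⟩
        rcases hs.eq_or_lt with h5 | h5
        · exfalso; apply hy; rw [e, ← h5, zero_smul]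
        · exact h5
  vert := by
    intro a b c hab
    refine ext_canon hab (P := fun a b =>
      (Fin.snoc v x : Fin (n + 1) → Fin 3 → ℝ) c ∈ EC ((Fin.snoc v x : Fin (n + 1) → Fin 3 → ℝ) a)
        ((Fin.snoc v x : Fin (n + 1) → Fin 3 → ℝ) b) → c = a ∨ c = b) ?_ ?_ ?_
    · intro a b h; rw [EC_comm, or_comm]; exact h
    · intro a b h1
      rw [snoc_c, snoc_c]
      refine Fin.lastCases ?_ (fun l => ?_) c
      · rw [snoc_l]
        intro h2
        have := H.EC_neg h2
        linarith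
      · rw [snoc_c]
        intro h2
        rcases he.vert a b l h1 h2 with rfl | rfl <;> simp
    · intro m hm
      rw [snoc_l, snoc_c]
      refine Fin.lastCases ?_ (fun l => ?_) c
      · intro _; left; rfl
      · rw [snoc_c]
        intro h2
        right
        obtain ⟨t, ht, e⟩ := H.old_new hx hm (he.ne0 l) (H.neg l) h2
        rw [he.inj l m t ht e]

lemma dt_lin3 (w a b c : Fin 3 → ℝ) (α β γ : ℝ) :
    dt w (α • a + β • b + γ • c) = α * dt w a + β * dt w b + γ * dt w c := by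
  simp only [dt, Pi.add_apply, Pi.smul_apply, smul_eq_mul]; ring

lemma Hemi.det_ne {i j k : Fin n} {w : Fin 3 → ℝ} (H : Hemi G v i j k w) (he : EmbC G v)
    {x : Fin 3 → ℝ} (hx : 0 < dt w x) {a b : Fin n} (hab : G.Adj a b) (ha : a = i ∨ a = j ∨ a = k)
    (hb : b = i ∨ b = j ∨ b = k) : det3 x (v a) (v b) ≠ 0 := by
  intro h0
  obtain ⟨α, β, γ, hne, e⟩ := dep_of_det h0
  have h1 := congrArg (dt w) e
  rw [dt_lin3, H.zm ha, H.zm hb, dt_zero] at h1
  have h2 : α = 0 := by
    have : α * dt w x = 0 := by linarith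
    exact (mul_eq_zero.mp this).resolve_right hx.ne'
  rw [h2, zero_smul, zero_add] at e
  obtain ⟨h3, h4⟩ := EmbC.indep he hab e
  exact hne ⟨h2, h3, h4⟩

lemma Hemi.new_fc {i j k : Fin n} {w : Fin 3 → ℝ} (H : Hemi G v i j k w) (he : EmbC G v)
    {x : Fin 3 → ℝ} (hx : 0 < dt w x) {a b : Fin n} (hab : G.Adj a b) (ha : a = i ∨ a = j ∨ a = k)
    (hb : b = i ∨ b = j ∨ b = k) (hd : 0 < det3 x (v a) (v b)) :
    Fc (extG G i j k) (Fin.snoc v x) (Fin.last n) (Fin.castSucc a) (Fin.castSucc b) where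
  ab := ext_new ha
  bc := ext_old hab
  ca := (ext_new hb).symm
  det_ne := by rw [snoc_l, snoc_c, snoc_c]; exact hd.ne'
  empty := by
    rw [snoc_l, snoc_c, snoc_c, Reg_pos hd]
    rintro z ⟨α, β, γ, hα, hβ, hγ, hz⟩ ⟨hz0, c, d, hcd, hzE⟩
    have hdz : dt w z = α * dt w x := by
      rw [hz, dt_lin3, H.zm ha, H.zm hb]; ring
    have hpos : 0 < dt w z := by rw [hdz]; exact mul_pos hα hx
    revert hzE
    refine ext_canon hcd (P := fun c d =>
      z ∈ EC ((Fin.snoc v x : Fin (n + 1) → Fin 3 → ℝ) c)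
        ((Fin.snoc v x : Fin (n + 1) → Fin 3 → ℝ) d) → False) ?_ ?_ ?_
    · intro c d h; rw [EC_comm]; exact h
    · intro c d _
      rw [snoc_c, snoc_c]
      intro h2
      have := H.EC_neg h2
      linarith
    · intro m hm
      rw [snoc_l, snoc_c]
      rintro ⟨s, t, hs, ht, e⟩
      have h1 : dt w z = s * dt w x := by rw [e, H.new_pt hm]
      have hsα : s = α := by
        have : s * dt w x = α * dt w x := by rw [← h1, ← hdz]
        exact mul_right_cancel₀ hx.ne' this
      have h2 : t • v m = β • v a + γ • v b := by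
        have : α • x + t • v m = α • x + (β • v a + γ • v b) := by
          rw [← add_assoc, ← hz, e, hsα]
        exact add_left_cancel this
      have ht0 : 0 < t := by
        rcases ht.eq_or_lt with h3 | h3
        · exfalso
          rw [← h3, zero_smul] at h2
          have := (EmbC.indep he hab h2.symm).1
          linarith
        · exact h3
      have h3 : v m ∈ EC (v a) (v b) := by
        refine ⟨t⁻¹ * β, t⁻¹ * γ, by positivity, by positivity, ?_⟩
        rw [mul_smul, mul_smul, ← smul_add, ← h2, smul_smul, inv_mul_cancel₀ ht0.ne', one_smul]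
      rcases he.vert a b m hab h3 with rfl | rfl
      · have h4 : (β - t) • v m + γ • v b = 0 := by
          rw [sub_smul, h2]; abel
        have := (EmbC.indep he hab h4).2
        linarith
      · have h4 : β • v a + (γ - t) • v m = 0 := by
          rw [sub_smul, h2]; abel
        have := (EmbC.indep he hab h4).1
        linarith

lemma fc_of_face (hemb : EmbC G v) {x : Fin 3 → ℝ} (hx0 : x ≠ 0) (hxS : x ∉ SkC G v)
    {i j k : Fin n}
    (hT : IsTriangularFace G v (connectedComponentIn (S2 \ skeleton G v) (nu x)) i j k)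
    (hD : det3 (v i) (v j) (v k) ≠ 0) : ∃ a b c, Fc G v a b c ∧ x ∈ Reg (v a) (v b) (v c) := by
  set U := connectedComponentIn (S2 \ skeleton G v) (nu x) with hU
  have hxX : nu x ∈ S2 \ skeleton G v := ⟨nu_mem hx0, fun hc => hxS ((nu_skel hx0).mp hc)⟩
  have hxU : nu x ∈ U := mem_connectedComponentIn hxX
  have hT' := hT
  obtain ⟨-, hij, hjk, hki, hAr⟩ := hT
  have hUX : U ⊆ S2 \ skeleton G v := connectedComponentIn_subset _ _
  have hab : ∀ y ∈ arc (v i) (v j) ∪ arc (v j) (v k) ∪ arc (v k) (v i),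
      y ∈ EC (v i) (v j) ∨ y ∈ EC (v j) (v k) ∨ y ∈ EC (v k) (v i) := by
    rintro y ((hy | hy) | hy)
    · exact Or.inl (arc_EC hy)
    · exact Or.inr (Or.inl (arc_EC hy))
    · exact Or.inr (Or.inr (arc_EC hy))
  set V : Set (Fin 3 → ℝ) := {z | z ≠ 0 ∧ nu z ∈ U} with hV
  have hkey := key_sub hemb hT'
  -- the component is on one side
  have hside : U ⊆ OC (v i) (v j) (v k) ∨ U ⊆ (CC (v i) (v j) (v k))ᶜ := by
    have hUp : IsPreconnected U := isPreconnected_connectedComponentIn
    apply IsPreconnected.subset_or_subset (OC_open hD) (CC_closed hD).isOpen_compl _ _ hUp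
    · rw [Set.disjoint_left]
      intro z hz hz'
      exact hz' (OC_sub_CC _ _ _ hz)
    · intro z hz
      by_cases h1 : z ∈ CC (v i) (v j) (v k)
      · left
        by_contra h2
        obtain ⟨hz1, hz2⟩ := hUX hz
        apply hz2
        rcases bdry hD h1 h2 with h3 | h3 | h3
        · obtain ⟨s, t, hs, ht, e⟩ := h3
          exact ⟨i, j, hij, hz1, s, t, hs, ht, e⟩
        · obtain ⟨s, t, hs, ht, e⟩ := h3
          exact ⟨j, k, hjk, hz1, s, t, hs, ht, e⟩
        · obtain ⟨s, t, hs, ht, e⟩ := h3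
          exact ⟨k, i, hki, hz1, s, t, hs, ht, e⟩
      · exact Or.inr h1
  have hxV : x ∈ V := ⟨hx0, hxU⟩
  have hVS : ∀ z ∈ V, z ∉ SkC G v := fun z hz hc => (hUX hz.2).2 ((nu_skel hz.1).mpr hc)
  rcases hside with hs | hs
  · -- inside
    have hxO : x ∈ OC (v i) (v j) (v k) := by
      rw [len_smul_nu hx0]; exact smul_OC (len_pos hx0) (hs hxU)
    have h0 : ∀ z ∈ OC (v i) (v j) (v k), z ≠ 0 := by
      rintro z hz rfl; exact zero_not_OC hD hz
    have hOV : OC (v i) (v j) (v k) ⊆ V := by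
      apply hkey _ (OC_convex _ _ _).isPreconnected h0 _ ⟨x, hxO, hxV⟩
      intro z hz hc
      apply EC_not_OC hD (hab _ hc)
      exact smul_OC (inv_pos.mpr (len_pos (h0 z hz))) hz
    rcases lt_or_gt_of_ne hD with hneg | hpos
    · refine ⟨i, k, j, ⟨hki.symm, hjk.symm, hij.symm, ?_, ?_⟩, hx0, Or.inl ⟨?_, ?_⟩⟩
      · rw [det3_swap]; simpa using hD
      · rintro z ⟨hz0, ⟨-, hz⟩ | ⟨hz, -⟩⟩
        · rw [OC_swap] at hz; exact hVS z (hOV hz)
        · rw [det3_swap] at hz; linarith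
      · rw [det3_swap]; linarith
      · rw [OC_swap]; exact hxO
    · refine ⟨i, j, k, ⟨hij, hjk, hki, hD, ?_⟩, hx0, Or.inl ⟨hpos, hxO⟩⟩
      rintro z ⟨hz0, ⟨-, hz⟩ | ⟨hz, -⟩⟩
      · exact hVS z (hOV hz)
      · linarith
  · -- outside
    have hxO : x ∉ CC (v i) (v j) (v k) := by
      intro hc
      exact hs hxU (smul_CC (inv_pos.mpr (len_pos hx0)).le hc)
    have h0 : ∀ z ∈ (CC (v i) (v j) (v k))ᶜ, z ≠ 0 := by
      rintro z hz rfl; exact hz (zero_mem_CC _ _ _)
    have hOV : (CC (v i) (v j) (v k))ᶜ ⊆ V := by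
      apply hkey _ (CCc_preconn hD) h0 _ ⟨x, hxO, hxV⟩
      intro z hz hc
      apply hz
      rw [len_smul_nu (h0 z hz)]
      exact smul_CC (len_pos (h0 z hz)).le (EC_sub (hab _ hc))
    rcases lt_or_gt_of_ne hD with hneg | hpos
    · refine ⟨i, j, k, ⟨hij, hjk, hki, hD, ?_⟩, hx0, Or.inr ⟨hneg, hxO⟩⟩
      rintro z ⟨hz0, ⟨hz, -⟩ | ⟨-, hz⟩⟩
      · linarith
      · exact hVS z (hOV hz)
    · refine ⟨i, k, j, ⟨hki.symm, hjk.symm, hij.symm, ?_, ?_⟩, hx0, Or.inr ⟨?_, ?_⟩⟩
      · rw [det3_swap]; simpa using hD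
      · rintro z ⟨hz0, ⟨hz, -⟩ | ⟨-, hz⟩⟩
        · rw [det3_swap] at hz; linarith
        · rw [CC_swap] at hz; exact hVS z (hOV hz)
      · rw [det3_swap]; linarith
      · rw [CC_swap]; exact hxO

/-- an old face stays a face -/
lemma Hemi.old_fc {i j k : Fin n} {w : Fin 3 → ℝ} (H : Hemi G v i j k w)
    {x : Fin 3 → ℝ} (hx : 0 < dt w x) {a b c : Fin n} (hF : Fc G v a b c) {y : Fin 3 → ℝ}
    (hy : y ∈ Reg (v a) (v b) (v c)) (hyw : dt w y < 0) :
    Fc (extG G i j k) (Fin.snoc v x) (Fin.castSucc a) (Fin.castSucc b) (Fin.castSucc c) where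
  ab := ext_old hF.ab
  bc := ext_old hF.bc
  ca := ext_old hF.ca
  det_ne := by rw [snoc_c, snoc_c, snoc_c]; exact hF.det_ne
  empty := by
    rw [snoc_c, snoc_c, snoc_c]
    have hneg : ∀ z ∈ Reg (v a) (v b) (v c), dt w z < 0 := by
      have hsub : Reg (v a) (v b) (v c) ⊆ {z | dt w z < 0} := by
        apply (Reg_preconn hF.det_ne).subset_left_of_subset_union
          (isOpen_lt (dt_cont _) continuous_const) (isOpen_lt continuous_const (dt_cont w))
          (v := {z | 0 < dt w z}) _ _ ⟨y, hy, hyw⟩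
        · rw [Set.disjoint_left]
          intro z hz hz'
          have h1 : dt w z < 0 := hz
          have h2 : 0 < dt w z := hz'
          linarith
        · intro z hz
          rcases lt_trichotomy (dt w z) 0 with h1 | h1 | h1
          · exact Or.inl h1
          · exfalso
            obtain ⟨a', b', hab, -, -, h2⟩ := H.cov_adj h1
            exact hF.empty z hz ⟨hz.1, a', b', hab, h2⟩
          · exact Or.inr h1
      intro z hz
      exact hsub hz
    rintro z hz ⟨hz0, c', d, hcd, hzE⟩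
    have hzn := hneg z hz
    revert hzE
    refine ext_canon hcd (P := fun c d =>
      z ∈ EC ((Fin.snoc v x : Fin (n + 1) → Fin 3 → ℝ) c)
        ((Fin.snoc v x : Fin (n + 1) → Fin 3 → ℝ) d) → False) ?_ ?_ ?_
    · intro c d h; rw [EC_comm]; exact h
    · intro c d hcd'
      rw [snoc_c, snoc_c]
      intro h2
      exact hF.empty z hz ⟨hz0, c, d, hcd', h2⟩
    · intro m hm
      rw [snoc_l, snoc_c]
      rintro ⟨s, t, hs, ht, e⟩
      have h1 : dt w z = s * dt w x := by rw [e, H.new_pt hm]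
      have := mul_nonneg hs hx.le
      linarith

lemma exists_other (hn : 4 ≤ n) (i j k : Fin n) : ∃ l, ¬ (l = i ∨ l = j ∨ l = k) := by
  by_contra hc
  push Not at hc
  have h1 : (Finset.univ : Finset (Fin n)) ⊆ {i, j, k} := by
    intro l _
    rcases hc l with h | h | h <;> simp [h]
  have h2 := Finset.card_le_card h1
  have h3 := Finset.card_le_three (a := i) (b := j) (c := k)
  rw [Finset.card_univ, Fintype.card_fin] at h2
  omega

/-- two hemispherical faces -/
lemma no_two (hn : 4 ≤ n) (he : EmbC G v) {i j k i' j' k' : Fin n} {w w' : Fin 3 → ℝ}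
    (H : Hemi G v i j k w) (H' : Hemi G v i' j' k' w')
    (hdis : ∀ z, 0 < dt w z → 0 < dt w' z → False) : False := by
  obtain ⟨l, hl⟩ := exists_other hn i j k
  have h1 := H.neg' he hl
  have h2 := H'.neg l
  have hww : 0 < dt w' w' := by
    have h3 : dt w' w' = w' 0 ^ 2 + w' 1 ^ 2 + w' 2 ^ 2 := by unfold dt; ring
    rcases (show 0 ≤ dt w' w' by rw [h3]; positivity).eq_or_lt with h4 | h4
    · exfalso
      rw [h3] at h4
      apply H'.ne0
      ext m
      have a0 := sq_nonneg (w' 0)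
      have a1 := sq_nonneg (w' 1)
      have a2 := sq_nonneg (w' 2)
      fin_cases m
      · exact pow_eq_zero_iff (two_ne_zero) |>.mp (show w' 0 ^ 2 = 0 by linarith)
      · exact pow_eq_zero_iff (two_ne_zero) |>.mp (show w' 1 ^ 2 = 0 by linarith)
      · exact pow_eq_zero_iff (two_ne_zero) |>.mp (show w' 2 ^ 2 = 0 by linarith)
    · exact h4
  set B := |dt w w'| + 1 with hB
  have hB0 : 0 < B := by positivity
  set ε := (- dt w (v l)) / (2 * B) with hε
  have hε0 : 0 < ε := div_pos (by linarith) (by positivity)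
  refine hdis ((-1 : ℝ) • v l + ε • w') ?_ ?_
  · rw [dt_lin]
    have h3 : ε * B = - dt w (v l) / 2 := by rw [hε]; field_simp
    have h4 : -(ε * B) ≤ ε * dt w w' := by
      rw [← mul_neg]
      apply mul_le_mul_of_nonneg_left _ hε0.le
      have := neg_abs_le (dt w w')
      linarith
    linarith
  · rw [dt_lin]
    have := mul_pos hε0 hww
    linarith

lemma ext_card {i j k : Fin n} (hn : 4 ≤ n) (hij : G.Adj i j) (hjk : G.Adj j k) (hki : G.Adj k i)
    (hG : Nat.card G.edgeSet = 3 * n - 6) :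
    Nat.card (extG G i j k).edgeSet = 3 * (n + 1) - 6 := by
  have e : (extG G i j k).edgeSet = Sym2.map Fin.castSucc '' G.edgeSet ∪
      {s(Fin.last n, Fin.castSucc i), s(Fin.last n, Fin.castSucc j),
        s(Fin.last n, Fin.castSucc k)} := by
    ext z
    induction z using Sym2.ind with
    | _ a b =>
      rw [SimpleGraph.mem_edgeSet]
      constructor
      · intro h
        rcases ext_cases h with ⟨a', b', rfl, rfl, h1⟩ | ⟨m, hm, rfl, rfl⟩ | ⟨m, hm, rfl, rfl⟩
        · left; exact ⟨s(a', b'), h1, by simp⟩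
        · right
          rcases hm with rfl | rfl | rfl <;> simp
        · right
          rw [Sym2.eq_swap]
          rcases hm with rfl | rfl | rfl <;> simp
      · rintro (⟨z, hz, e⟩ | h)
        · induction z using Sym2.ind with
          | _ c d =>
            rw [Sym2.map_mk] at e
            have h1 : G.Adj c d := hz
            have h2 : (extG G i j k).Adj (Fin.castSucc c) (Fin.castSucc d) := ext_old h1
            have h3 : s(a, b) ∈ (extG G i j k).edgeSet := by
              rw [← e]; exact h2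
            exact h3
        · have h3 : s(a, b) ∈ (extG G i j k).edgeSet := by
            rcases h with h | h | h
            · rw [h]; exact ext_new (by simp)
            · rw [h]; exact ext_new (by simp)
            · rw [h]; exact ext_new (by simp)
          exact h3
  have hdis : Disjoint (Sym2.map Fin.castSucc '' G.edgeSet)
      ({s(Fin.last n, Fin.castSucc i), s(Fin.last n, Fin.castSucc j),
        s(Fin.last n, Fin.castSucc k)} : Set (Sym2 (Fin (n + 1)))) := by
    rw [Set.disjoint_left]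
    rintro _ ⟨z, hz, rfl⟩ h
    have h1 : Fin.last n ∈ Sym2.map Fin.castSucc z := by
      rcases h with h | h | h <;> rw [h] <;> simp
    rw [Sym2.mem_map] at h1
    obtain ⟨a, -, ha⟩ := h1
    exact (Fin.castSucc_ne_last a) ha
  have hinj : Function.Injective (Sym2.map (Fin.castSucc : Fin n → Fin (n + 1))) :=
    Sym2.map.injective (Fin.castSucc_injective n)
  have h3 : ({s(Fin.last n, Fin.castSucc i), s(Fin.last n, Fin.castSucc j),
        s(Fin.last n, Fin.castSucc k)} : Set (Sym2 (Fin (n + 1)))).ncard = 3 := by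
    rw [Set.ncard_eq_three]
    refine ⟨_, _, _, ?_, ?_, ?_, rfl⟩
    · intro h
      have h4 := Sym2.congr_right.mp h
      exact hij.ne (Fin.castSucc_injective n h4)
    · intro h
      have h4 := Sym2.congr_right.mp h
      exact hki.ne (Fin.castSucc_injective n h4).symm
    · intro h
      have h4 := Sym2.congr_right.mp h
      exact hjk.ne (Fin.castSucc_injective n h4)
  rw [Nat.card_coe_set_eq, e, Set.ncard_union_eq hdis (Set.toFinite _) (Set.toFinite _), h3,
    Set.ncard_image_of_injective _ hinj, ← Nat.card_coe_set_eq, hG]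
  omega

end emb

theorem job8 : Job8 := by
  intro n G v hspt hnb U i j k hU hD
  have he := embC_of hspt
  obtain ⟨w, H, hiff⟩ := hemi_of hspt hnb hU hD
  refine ⟨w, H.ne0, H.neg, H.zi, H.zj, H.zk, fun x hx => ?_⟩
  have hx' : 0 < dt w x := hx
  have hemb := ext_emb H he hx'
  refine ⟨by have := hspt.four_le; omega, hemb, ?_, ext_card hspt.four_le H.ij H.jk H.ki hspt.maximal⟩
  intro y hy0 hyS
  have hold : ∀ a b, G.Adj a b → y ∉ EC (v a) (v b) := by
    intro a b hab hc
    exact hyS ⟨hy0, _, _, ext_old hab, by rw [snoc_c, snoc_c]; exact hc⟩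
  have hnew : ∀ m, (m = i ∨ m = j ∨ m = k) → y ∉ EC x (v m) := by
    intro m hm hc
    exact hyS ⟨hy0, _, _, ext_new hm, by rw [snoc_l, snoc_c]; exact hc⟩
  rcases lt_trichotomy (dt w y) 0 with hy | hy | hy
  · -- old side
    have hyS' : y ∉ SkC G v := by
      rintro ⟨-, a, b, hab, h1⟩; exact hold a b hab h1
    have hyX : nu y ∈ S2 \ skeleton G v := ⟨nu_mem hy0, fun hc => hyS' ((nu_skel hy0).mp hc)⟩
    obtain ⟨i', j', k', hT⟩ := hspt.faces _ ⟨nu y, hyX, rfl⟩
    have hyU : nu y ∈ connectedComponentIn (S2 \ skeleton G v) (nu y) :=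
      mem_connectedComponentIn hyX
    have hD' : det3 (v i') (v j') (v k') ≠ 0 := by
      intro h0
      obtain ⟨w', H', hiff'⟩ := hemi_of hspt hnb hT h0
      refine no_two hspt.four_le he H H' fun z hz hz' => ?_
      obtain ⟨hz0, hzU⟩ := (hiff z).mp hz
      obtain ⟨-, hzU'⟩ := (hiff' z).mp hz'
      obtain ⟨⟨u, hu, rfl⟩, -⟩ := hU
      have e1 := connectedComponentIn_eq hzU
      have e2 := connectedComponentIn_eq hzU'
      have h3 : 0 < dt w y := (hiff y).mpr ⟨hy0, by rw [e1, ← e2]; exact hyU⟩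
      linarith
    obtain ⟨a, b, c, hF, hR⟩ := fc_of_face he hy0 hyS' hT hD'
    refine ⟨_, _, _, H.old_fc hx' hF hR hy, ?_⟩
    rw [snoc_c, snoc_c, snoc_c]; exact hR
  · exfalso
    obtain ⟨a, b, hab, -, -, h1⟩ := H.cov_adj hy
    exact hold a b hab h1
  · -- new side
    set r := dt w y / dt w x with hr
    have hr0 : 0 < r := div_pos hy hx'
    set z := (1:ℝ) • y + (-r) • x with hz
    have hzw : dt w z = 0 := by
      rw [hz, dt_lin, hr]
      have := hx'.ne'
      field_simp
      ring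
    obtain ⟨a, b, hab, ha, hb, s, t, hs, ht, e⟩ := H.cov_adj hzw
    have hy' : y = r • x + s • v a + t • v b := by
      rw [add_assoc, ← e, hz, one_smul, neg_smul]; abel
    have hs0 : 0 < s := by
      rcases hs.eq_or_lt with h1 | h1
      · exfalso
        rw [← h1, zero_smul, add_zero] at hy'
        exact hnew b hb ⟨r, t, hr0.le, ht, hy'⟩
      · exact h1
    have ht0 : 0 < t := by
      rcases ht.eq_or_lt with h1 | h1
      · exfalso
        rw [← h1, zero_smul, add_zero] at hy'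
        exact hnew a ha ⟨r, s, hr0.le, hs, hy'⟩
      · exact h1
    rcases lt_or_gt_of_ne (H.det_ne he hx' hab ha hb) with hd | hd
    · have hd' : 0 < det3 x (v b) (v a) := by rw [det3_swap]; linarith
      refine ⟨_, _, _, H.new_fc he hx' hab.symm hb ha hd', ?_⟩
      rw [snoc_l, snoc_c, snoc_c, Reg_pos hd']
      exact ⟨r, t, s, hr0, ht0, hs0, by rw [hy']; abel⟩
    · refine ⟨_, _, _, H.new_fc he hx' hab ha hb hd, ?_⟩
      rw [snoc_l, snoc_c, snoc_c, Reg_pos hd]
      exact ⟨r, s, t, hr0, hs0, ht0, hy'⟩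

end Pool.Agent.Q131.Snk.J8
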