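import Pool.Agent.Q131.Snk.Morph
import Pool.Agent.Q198.Snk.J2

/-! The faces at the poles, the kernel lemma and the faces above and below a vertex. -/

namespace Pool.Agent.Q131.Snk

open Set Helper479.Sink Topology

variable {n : ℕ} {G : SimpleGraph (Fin n)} {p : Fin n → Fin 3 → ℝ}

lemma Fc.rot {a b c : Fin n} (h : Fc G p a b c) : Fc G p b c a := Pool.Agent.Q198.Snk.Fc_rot h

/-- all crosses have the sign of `σ` -/
def PLike (σ : ℝ) (p : Fin n → Fin 3 → ℝ) (a b c : Fin n) : Prop :=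
  0 < σ * hA (p b) (p c) ∧ 0 < σ * hA (p c) (p a) ∧ 0 < σ * hA (p a) (p b)

lemma PLike.rot {σ : ℝ} {a b c : Fin n} (h : PLike σ p a b c) : PLike σ p b c a :=
  ⟨h.2.1, h.2.2, h.1⟩

lemma plike_one {a b c : Fin n} : PLike 1 p a b c ↔ NLike p a b c := by
  simp [PLike, NLike]

lemma plike_neg {a b c : Fin n} : PLike (-1) p a b c ↔ SLike p a b c := by
  simp [PLike, SLike]

lemma Side.not_plike {σ : ℝ} (hσ : σ = 1 ∨ σ = -1) {a b c : Fin n} (h : Side p a b c) :
    ¬ PLike σ p a b c := by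
  rcases hσ with rfl | rfl
  · rw [plike_one]; exact h.1
  · rw [plike_neg]; exact h.2

lemma Side.rot {a b c : Fin n} (h : Side p a b c) : Side p b c a :=
  ⟨fun h' => h.1 ⟨h'.2.2, h'.1, h'.2.1⟩, fun h' => h.2 ⟨h'.2.2, h'.1, h'.2.1⟩⟩

/-- a face that is not a side face is `PLike 1` or `PLike (-1)` -/
lemma not_side {a b c : Fin n} (h : ¬ Side p a b c) : NLike p a b c ∨ SLike p a b c := by
  by_contra hc
  push Not at hc
  exact h ⟨hc.1, hc.2⟩

/-- the north-like faces contain the north pole -/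
lemma Stand.nlike_north (H : Stand G p) {a b c : Fin n} (hf : Fc G p a b c)
    (hN : NLike p a b c) : north ∈ Reg (p a) (p b) (p c) := by
  rcases lt_or_gt_of_ne hf.det_ne with hd | hd
  · apply north_large H.npol hf hd
    intro hS
    exact absurd hS.1 (not_lt.mpr hN.1.le)
  · exact ⟨north_ne, Or.inl ⟨hd, _, _, _, div_pos hN.1 hd, div_pos hN.2.1 hd, div_pos hN.2.2 hd,
      north_comb hd.ne'⟩⟩

/-- the south-like faces contain the south pole -/
lemma Stand.slike_south (H : Stand G p) {a b c : Fin n} (hf : Fc G p a b c)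
    (hS : SLike p a b c) : south ∈ Reg (p a) (p b) (p c) := by
  rcases lt_or_gt_of_ne hf.det_ne with hd | hd
  · apply south_large H.spol hf hd
    intro hN
    exact absurd hS.1 (not_lt.mpr hN.1.le)
  · refine ⟨south_ne, Or.inl ⟨hd, -(hA (p b) (p c) / det3 (p a) (p b) (p c)),
      -(hA (p c) (p a) / det3 (p a) (p b) (p c)), -(hA (p a) (p b) / det3 (p a) (p b) (p c)),
      ?_, ?_, ?_, ?_⟩⟩
    · have := div_neg_of_neg_of_pos hS.1 hd; linarith
    · have := div_neg_of_neg_of_pos hS.2.1 hd; linarith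
    · have := div_neg_of_neg_of_pos hS.2.2 hd; linarith
    · rw [south_eq, north_comb hd.ne', neg_add, neg_add, ← neg_smul, ← neg_smul, ← neg_smul]

lemma Stand.exN (H : Stand G p) : ∃ a b c, Fc G p a b c ∧ NLike p a b c := by
  obtain ⟨a, b, c, hf, hx⟩ := H.tri.cover north north_ne H.npol
  refine ⟨a, b, c, hf, ?_⟩
  by_contra hno
  rcases lt_or_gt_of_ne hf.det_ne with hd | hd
  · exact H.sep a b c hf ⟨hx, south_large H.spol hf hd hno⟩
  · obtain ⟨-, ⟨-, α, β, γ, hα, hβ, hγ, he⟩ | ⟨h, -⟩⟩ := hx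
    · rw [north_comb hd.ne'] at he
      obtain ⟨e1, e2, e3⟩ := indep3 hd.ne' he
      apply hno
      refine ⟨?_, ?_, ?_⟩
      · rw [div_eq_iff hd.ne'] at e1; rw [e1]; positivity
      · rw [div_eq_iff hd.ne'] at e2; rw [e2]; positivity
      · rw [div_eq_iff hd.ne'] at e3; rw [e3]; positivity
    · exact absurd hd (not_lt.mpr h.le)

lemma Stand.exS (H : Stand G p) : ∃ a b c, Fc G p a b c ∧ SLike p a b c := by
  obtain ⟨a, b, c, hf, hx⟩ := H.tri.cover south south_ne H.spol
  refine ⟨a, b, c, hf, ?_⟩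
  by_contra hno
  rcases lt_or_gt_of_ne hf.det_ne with hd | hd
  · exact H.sep a b c hf ⟨north_large H.npol hf hd hno, hx⟩
  · obtain ⟨-, ⟨-, α, β, γ, hα, hβ, hγ, he⟩ | ⟨h, -⟩⟩ := hx
    · rw [south_eq, north_comb hd.ne', neg_add, neg_add, ← neg_smul, ← neg_smul,
        ← neg_smul] at he
      obtain ⟨e1, e2, e3⟩ := indep3 hd.ne' he
      apply hno
      have key : ∀ {u v : ℝ}, -(u / det3 (p a) (p b) (p c)) = v → 0 < v → u < 0 := by
        intro u v huv hv
        rw [← huv] at hv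
        by_contra hc
        have := div_nonneg (not_lt.mp hc) hd.le
        linarith
      exact ⟨key e1 hα, key e2 hβ, key e3 hγ⟩
    · exact absurd hd (not_lt.mpr h.le)

lemma Stand.exP (H : Stand G p) {σ : ℝ} (hσ : σ = 1 ∨ σ = -1) :
    ∃ a b c, Fc G p a b c ∧ PLike σ p a b c := by
  rcases hσ with rfl | rfl
  · obtain ⟨a, b, c, h1, h2⟩ := H.exN
    exact ⟨a, b, c, h1, plike_one.mpr h2⟩
  · obtain ⟨a, b, c, h1, h2⟩ := H.exS
    exact ⟨a, b, c, h1, plike_neg.mpr h2⟩

/-- the polar faces are unique up to rotation -/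
lemma Stand.uniqP (H : Stand G p) {σ : ℝ} (hσ : σ = 1 ∨ σ = -1) {a b c a' b' c' : Fin n}
    (hf : Fc G p a b c) (hP : PLike σ p a b c) (hf' : Fc G p a' b' c')
    (hP' : PLike σ p a' b' c') :
    (a' = a ∧ b' = b ∧ c' = c) ∨ (a' = b ∧ b' = c ∧ c' = a) ∨ (a' = c ∧ b' = a ∧ c' = b) := by
  rcases hσ with rfl | rfl
  · exact Pool.Agent.Q198.Snk.job2c n G p H.tri a b c a' b' c' north hf hf'
      (H.nlike_north hf (plike_one.mp hP)) (H.nlike_north hf' (plike_one.mp hP'))
  · exact Pool.Agent.Q198.Snk.job2c n G p H.tri a b c a' b' c' south hf hf'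
      (H.slike_south hf (plike_neg.mp hP)) (H.slike_south hf' (plike_neg.mp hP'))

/-! ### the edges of a polar face -/

/-- a point beyond an edge of a polar face is inside the face -/
lemma shift_edge {a b c : Fin 3 → ℝ} (hd : det3 a b c ≠ 0) {s t τ : ℝ} (hs : 0 ≤ s) (ht : 0 ≤ t)
    (h1 : 0 < τ * hA b c) (h2 : 0 < τ * hA c a) (h3 : 0 < τ * hA a b) :
    s • a + t • b + τ • north ∈ Reg a b c := by
  have hN := north_comb hd
  have e : s • a + t • b + τ • north = (s + τ * hA b c / det3 a b c) • a +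
      (t + τ * hA c a / det3 a b c) • b + (τ * hA a b / det3 a b c) • c := by
    conv_lhs => rw [hN]
    rw [smul_add, smul_add, smul_smul, smul_smul, smul_smul, add_smul, add_smul]
    simp only [mul_div_assoc]
    abel
  have hx0 : s • a + t • b + τ • north ≠ 0 := by
    rw [e]
    intro h0
    have h0' : (s + τ * hA b c / det3 a b c) • a + (t + τ * hA c a / det3 a b c) • b +
        (τ * hA a b / det3 a b c) • c = (0:ℝ) • a + (0:ℝ) • b + (0:ℝ) • c := by rw [h0]; simp
    have := (indep3 hd h0').2.2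
    rw [div_eq_zero_iff] at this
    rcases this with h | h
    · linarith
    · exact hd h
  refine ⟨hx0, ?_⟩
  rcases lt_or_gt_of_ne hd with hd' | hd'
  · right
    refine ⟨hd', ?_⟩
    rintro ⟨α, β, γ, hα, hβ, hγ, he⟩
    rw [e] at he
    have := (indep3 hd he).2.2
    have h4 := div_neg_of_pos_of_neg h3 hd'
    linarith
  · left
    refine ⟨hd', _, _, _, ?_, ?_, ?_, e⟩
    · have := div_pos h1 hd'; linarith
    · have := div_pos h2 hd'; linarith
    · exact div_pos h3 hd'

lemma dir2 {A B : Fin 3 → ℝ} {σ : ℝ} (h3 : 0 < σ * hA A B) {w0 w1 : ℝ}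
    (hA' : 0 ≤ σ * (A 0 * w1 - A 1 * w0)) (hB' : σ * (B 0 * w1 - B 1 * w0) ≤ 0) :
    ∃ s t : ℝ, 0 ≤ s ∧ 0 ≤ t ∧ w0 = s * A 0 + t * B 0 ∧ w1 = s * A 1 + t * B 1 := by
  have hne : σ * hA A B ≠ 0 := h3.ne'
  refine ⟨-(σ * (B 0 * w1 - B 1 * w0)) / (σ * hA A B), (σ * (A 0 * w1 - A 1 * w0)) / (σ * hA A B),
    div_nonneg (by linarith) h3.le, div_nonneg hA' h3.le, ?_, ?_⟩
  · have : -(σ * (B 0 * w1 - B 1 * w0)) / (σ * hA A B) * A 0 +
        (σ * (A 0 * w1 - A 1 * w0)) / (σ * hA A B) * B 0 =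
        (-(σ * (B 0 * w1 - B 1 * w0)) * A 0 + (σ * (A 0 * w1 - A 1 * w0)) * B 0) / (σ * hA A B) := by
      ring
    rw [this, eq_div_iff hne]
    unfold hA; ring
  · have : -(σ * (B 0 * w1 - B 1 * w0)) / (σ * hA A B) * A 1 +
        (σ * (A 0 * w1 - A 1 * w0)) / (σ * hA A B) * B 1 =
        (-(σ * (B 0 * w1 - B 1 * w0)) * A 1 + (σ * (A 0 * w1 - A 1 * w0)) * B 1) / (σ * hA A B) := by
      ring
    rw [this, eq_div_iff hne]
    unfold hA; ring

lemma dir3 {A B C : Fin 3 → ℝ} {σ : ℝ} (h1 : 0 < σ * hA B C) (h2 : 0 < σ * hA C A)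
    (h3 : 0 < σ * hA A B) (w0 w1 : ℝ) :
    (∃ s t : ℝ, 0 ≤ s ∧ 0 ≤ t ∧ w0 = s * A 0 + t * B 0 ∧ w1 = s * A 1 + t * B 1) ∨
    (∃ s t : ℝ, 0 ≤ s ∧ 0 ≤ t ∧ w0 = s * B 0 + t * C 0 ∧ w1 = s * B 1 + t * C 1) ∨
    (∃ s t : ℝ, 0 ≤ s ∧ 0 ≤ t ∧ w0 = s * C 0 + t * A 0 ∧ w1 = s * C 1 + t * A 1) := by
  set fA := σ * (A 0 * w1 - A 1 * w0) with hfA
  set fB := σ * (B 0 * w1 - B 1 * w0) with hfB
  set fC := σ * (C 0 * w1 - C 1 * w0) with hfC
  have hrel : (σ * hA B C) * fA + (σ * hA C A) * fB + (σ * hA A B) * fC = 0 := by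
    rw [hfA, hfB, hfC]; unfold hA; ring
  rcases le_or_gt 0 fA with a | a
  · rcases le_or_gt fB 0 with b | b
    · exact Or.inl (dir2 h3 a b)
    · rcases le_or_gt fC 0 with c | c
      · exact Or.inr (Or.inl (dir2 h1 b.le c))
      · exfalso
        have := mul_nonneg h1.le a
        have := mul_pos h2 b
        have := mul_pos h3 c
        linarith
  · rcases le_or_gt 0 fC with c | c
    · exact Or.inr (Or.inr (dir2 h2 c a.le))
    · rcases le_or_gt 0 fB with b | b
      · exact Or.inr (Or.inl (dir2 h1 b c.le))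
      · exfalso
        have := mul_neg_of_pos_of_neg h1 a
        have := mul_neg_of_pos_of_neg h2 b
        have := mul_neg_of_pos_of_neg h3 c
        linarith

lemma Stand.vert_sk (H : Stand G p) (v : Fin n) : p v ∈ SkC G p := by
  obtain ⟨w, hw⟩ := H.deg v
  exact Pool.Agent.Q198.Snk.vertex_SkC H.tri.emb hw

/-- every vertex is on the right side of the edges of the polar face -/
lemma Stand.polar_le (H : Stand G p) {σ : ℝ} (hσ : σ = 1 ∨ σ = -1) {a b c : Fin n}
    (hf : Fc G p a b c) (hP : PLike σ p a b c) {s t : ℝ} (hs : 0 ≤ s) (ht : 0 ≤ t) {v : Fin n}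
    (e0 : p v 0 = s * p a 0 + t * p b 0) (e1 : p v 1 = s * p a 1 + t * p b 1) :
    σ * p v 2 ≤ σ * (s * p a 2 + t * p b 2) := by
  by_contra hcon
  push Not at hcon
  set τ := p v 2 - (s * p a 2 + t * p b 2) with hτ
  have hτσ : 0 < σ * τ := by rw [hτ]; linarith
  have hσ2 : σ * σ = 1 := by rcases hσ with rfl | rfl <;> norm_num
  have key : ∀ x : ℝ, 0 < σ * x → 0 < τ * x := by
    intro x hx
    have := mul_pos hτσ hx
    have h2 : σ * τ * (σ * x) = (σ * σ) * (τ * x) := by ring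
    rw [h2, hσ2, one_mul] at this
    exact this
  have hmem := shift_edge hf.det_ne hs ht (key _ hP.1) (key _ hP.2.1) (key _ hP.2.2)
  have e : s • p a + t • p b + τ • north = p v := by
    ext m; fin_cases m
    · simp [north]; linarith
    · simp [north]; linarith
    · simp [north, hτ]
  rw [e] at hmem
  exact hf.empty _ hmem (H.vert_sk v)

/-- value comparison of a vertex with the edge of the polar face over its direction -/
lemma Stand.polar_val (H : Stand G p) {σ : ℝ} (hσ : σ = 1 ∨ σ = -1) {a b c : Fin n}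
    (hf : Fc G p a b c) (hP : PLike σ p a b c) {h : Fin n → ℝ}
    (hh : ∀ a b c, Fc G p a b c → Side p a b c → 0 < Dh p h a b c)
    {s t : ℝ} (hs : 0 ≤ s) (ht : 0 ≤ t) {v : Fin n}
    (e0 : p v 0 = s * p a 0 + t * p b 0) (e1 : p v 1 = s * p a 1 + t * p b 1) :
    σ * h v ≤ σ * (s * h a + t * h b) := by
  have hle := H.polar_le hσ hf hP hs ht e0 e1
  obtain ⟨v', hv'⟩ := H.deg v
  have hum := H.u_ne v
  rcases eq_or_ne (p v 2) (s * p a 2 + t * p b 2) with heq | hne
  · have hpt : (1:ℝ) • p v + (0:ℝ) • p v' = s • p a + t • p b := by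
      ext m; fin_cases m
      · simp; linarith
      · simp; linarith
      · simp; linarith
    have := edge_val H.tri.emb hv' hf.ab zero_le_one le_rfl hs ht hpt (by
      simp only [one_smul, zero_smul, add_zero]
      exact H.tri.emb.ne0 v) h
    have h2 : h v = s * h a + t * h b := by linarith
    rw [h2]
  · rcases hσ with rfl | rfl
    · have hlt : p v 2 < s * p a 2 + t * p b 2 := lt_of_le_of_ne (by linarith) hne
      have := H.vml Pool.Agent.Q198.Snk.job2a Pool.Agent.Q198.Snk.job2c hh hv' hf.ab (s := 1)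
        (t := 0) zero_le_one le_rfl hs ht (by linarith) (by linarith) (by simpa using hum)
        (by linarith)
      linarith
    · have hlt : s * p a 2 + t * p b 2 < p v 2 := lt_of_le_of_ne (by linarith) (Ne.symm hne)
      have := H.vml Pool.Agent.Q198.Snk.job2a Pool.Agent.Q198.Snk.job2c hh hf.ab hv' hs ht
        (s' := 1) (t' := 0) zero_le_one le_rfl (by linarith) (by linarith) (by
          rw [← e0, ← e1]; exact hum) (by linarith)
      linarith

/-- strict version for vertices off the edge -/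
lemma Stand.polar_free (H : Stand G p) {σ : ℝ} (hσ : σ = 1 ∨ σ = -1) {a b c : Fin n}
    (hf : Fc G p a b c) (hP : PLike σ p a b c) {K : Fin n → ℝ} (ha : K a = 0) (hb : K b = 0)
    {s t : ℝ} (hs : 0 ≤ s) (ht : 0 ≤ t) {v : Fin n}
    (e0 : p v 0 = s * p a 0 + t * p b 0) (e1 : p v 1 = s * p a 1 + t * p b 1)
    (hK : ∀ r : ℝ, ∃ h : Fin n → ℝ, (∀ a b c, Fc G p a b c → Side p a b c → 0 < Dh p h a b c) ∧
      h a = p a 2 + r * K a ∧ h b = p b 2 + r * K b ∧ h v = p v 2 + r * K v) : K v = 0 := by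
  by_contra hne
  have hσ0 : σ ≠ 0 := by rcases hσ with rfl | rfl <;> norm_num
  have hσ2 : σ * σ = 1 := by rcases hσ with rfl | rfl <;> norm_num
  obtain ⟨h, hh, ea, eb, ev⟩ := hK ((s * p a 2 + t * p b 2 - p v 2 + σ) / K v)
  have := H.polar_val hσ hf hP hh hs ht e0 e1
  rw [ea, eb, ev, ha, hb] at this
  have e : (s * p a 2 + t * p b 2 - p v 2 + σ) / K v * K v = s * p a 2 + t * p b 2 - p v 2 + σ :=
    div_mul_cancel₀ _ hne
  rw [e] at this
  nlinarith

lemma Dh_lin (s t : ℝ) (a b c : Fin n) :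
    Dh p (fun v => s * p v 0 + t * p v 1) a b c = 0 := by
  unfold Dh hA; ring

/-- a linear function with given values at two vertices in different directions -/
lemma lin_fit {a b : Fin n} (hab : hA (p a) (p b) ≠ 0) (x y : ℝ) :
    ∃ s t : ℝ, s * p a 0 + t * p a 1 = x ∧ s * p b 0 + t * p b 1 = y := by
  refine ⟨(x * p b 1 - y * p a 1) / hA (p a) (p b), (y * p a 0 - x * p b 0) / hA (p a) (p b), ?_, ?_⟩
  · field_simp
    unfold hA; ring
  · field_simp
    unfold hA; ring

lemma PLike.ne {σ : ℝ} {a b c : Fin n} (hP : PLike σ p a b c) : hA (p a) (p b) ≠ 0 := by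
  intro h
  have := hP.2.2
  rw [h] at this
  simp at this

/-- shear a function so that it vanishes on a polar face with zero determinant -/
lemma fit0 {σ : ℝ} {a b c : Fin n} (hP : PLike σ p a b c) {K : Fin n → ℝ}
    (hK : Dh p K a b c = 0) : ∃ s t : ℝ, K a = s * p a 0 + t * p a 1 ∧
      K b = s * p b 0 + t * p b 1 ∧ K c = s * p c 0 + t * p c 1 := by
  obtain ⟨s, t, e1, e2⟩ := lin_fit hP.ne (K a) (K b)
  refine ⟨s, t, e1.symm, e2.symm, ?_⟩
  have h1 : Dh p (fun v => K v - (s * p v 0 + t * p v 1)) a b c = 0 := by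
    have h2 := Dh_lin (p := p) s t a b c
    unfold Dh at h2 hK ⊢
    linarith
  unfold Dh at h1
  simp only [e1, e2, sub_self, zero_mul, zero_add] at h1
  have := (mul_eq_zero.mp h1).resolve_right hP.ne
  linarith

/-- THE KERNEL LEMMA -/
lemma Stand.ker (H : Stand G p) {K : Fin n → ℝ} (hK : ∀ a b c, Fc G p a b c → Dh p K a b c = 0) :
    ∃ s t : ℝ, ∀ v, K v = s * p v 0 + t * p v 1 := by
  obtain ⟨a, b, c, hf, hP⟩ := H.exP (σ := 1) (Or.inl rfl)
  obtain ⟨s, t, ea, eb, ec⟩ := fit0 hP (hK a b c hf)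
  refine ⟨s, t, fun v => ?_⟩
  set K' : Fin n → ℝ := fun v => K v - (s * p v 0 + t * p v 1) with hK'
  have hfree : ∀ r : ℝ, ∀ a b c, Fc G p a b c → Side p a b c →
      0 < Dh p (fun v => p v 2 + r * K' v) a b c := by
    intro r a b c hf hs
    have h1 := H.side_pos hf hs
    have h2 := hK a b c hf
    have h3 := Dh_lin (p := p) s t a b c
    have h4 : Dh p (fun v => p v 2 + r * K' v) a b c = det3 (p a) (p b) (p c) +
        r * (Dh p K a b c - Dh p (fun v => s * p v 0 + t * p v 1) a b c) := by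
      unfold Dh det3; simp only [hK']; ring
    rw [h4, h2, h3]; simpa using h1
  have ha : K' a = 0 := by simp only [hK']; linarith
  have hb : K' b = 0 := by simp only [hK']; linarith
  have hc : K' c = 0 := by simp only [hK']; linarith
  have hv : K' v = 0 := by
    rcases dir3 hP.1 hP.2.1 hP.2.2 (p v 0) (p v 1) with ⟨s', t', hs', ht', e0, e1⟩ |
      ⟨s', t', hs', ht', e0, e1⟩ | ⟨s', t', hs', ht', e0, e1⟩
    · exact H.polar_free (Or.inl rfl) hf hP ha hb hs' ht' e0 e1
        fun r => ⟨_, hfree r, rfl, rfl, rfl⟩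
    · exact H.polar_free (Or.inl rfl) hf.rot hP.rot hb hc hs' ht' e0 e1
        fun r => ⟨_, hfree r, rfl, rfl, rfl⟩
    · exact H.polar_free (Or.inl rfl) hf.rot.rot hP.rot.rot hc ha hs' ht' e0 e1
        fun r => ⟨_, hfree r, rfl, rfl, rfl⟩
  have : K v - (s * p v 0 + t * p v 1) = 0 := hv
  linarith

/-- if a polar face gets negative determinant, all heights get the sign opposite to that of the
pole after a shear -/
lemma Stand.sign (H : Stand G p) {σ : ℝ} (hσ : σ = 1 ∨ σ = -1) {a b c : Fin n}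
    (hf : Fc G p a b c) (hP : PLike σ p a b c) {h : Fin n → ℝ}
    (hh : ∀ a b c, Fc G p a b c → Side p a b c → 0 < Dh p h a b c) (hneg : Dh p h a b c < 0) :
    ∃ s t : ℝ, ∀ v, σ * (h v + (s * p v 0 + t * p v 1)) < 0 := by
  have hσ2 : σ * σ = 1 := by rcases hσ with rfl | rfl <;> norm_num
  set Sg := hA (p b) (p c) + hA (p c) (p a) + hA (p a) (p b) with hSg
  have hSpos : 0 < σ * Sg := by
    rw [hSg]; have := hP.1; have := hP.2.1; have := hP.2.2; linarith
  have hS0 : Sg ≠ 0 := by intro h0; rw [h0] at hSpos; simp at hSpos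
  set H0 := Dh p h a b c / Sg with hH0
  have hH : σ * H0 < 0 := by
    have : σ * H0 = Dh p h a b c / (σ * Sg) := by
      rw [hH0]
      have hσ0 : σ ≠ 0 := by rcases hσ with rfl | rfl <;> norm_num
      field_simp
      rw [show σ ^ 2 = 1 from by rw [sq, hσ2]]; ring
    rw [this]
    exact div_neg_of_neg_of_pos hneg hSpos
  obtain ⟨s, t, e1, e2⟩ := lin_fit hP.ne (H0 - h a) (H0 - h b)
  set h' : Fin n → ℝ := fun v => h v + (s * p v 0 + t * p v 1) with hh'
  have hD : ∀ a b c, Dh p h' a b c = Dh p h a b c := by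
    intro a b c
    have := Dh_lin (p := p) s t a b c
    unfold Dh at this ⊢
    simp only [hh']
    linarith
  have ha : h' a = H0 := by simp only [hh']; linarith
  have hb : h' b = H0 := by simp only [hh']; linarith
  have hc : h' c = H0 := by
    have h1 := hD a b c
    have h2 : Dh p h a b c = H0 * Sg := by rw [hH0]; field_simp
    rw [h2] at h1
    have h3 : (h' c - H0) * hA (p a) (p b) = 0 := by
      have : Dh p h' a b c = h' a * hA (p b) (p c) + h' b * hA (p c) (p a) + h' c * hA (p a) (p b) :=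
        rfl
      rw [ha, hb, h1, hSg] at this
      linarith
    have := (mul_eq_zero.mp h3).resolve_right hP.ne
    linarith
  have hh'D : ∀ a b c, Fc G p a b c → Side p a b c → 0 < Dh p h' a b c := by
    intro a b c h1 h2; rw [hD]; exact hh a b c h1 h2
  refine ⟨s, t, fun v => ?_⟩
  have hum := H.u_ne v
  have fin : ∀ {a b c : Fin n}, Fc G p a b c → PLike σ p a b c → h' a = H0 → h' b = H0 →
      (∃ s t : ℝ, 0 ≤ s ∧ 0 ≤ t ∧ p v 0 = s * p a 0 + t * p b 0 ∧
        p v 1 = s * p a 1 + t * p b 1) → σ * h' v < 0 := by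
    rintro a b c hf hP ha hb ⟨s', t', hs', ht', e0, e1⟩
    have := H.polar_val hσ hf hP hh'D hs' ht' e0 e1
    rw [ha, hb] at this
    have hpos : 0 < s' + t' := by
      rcases hs'.eq_or_lt with q | q
      · rcases ht'.eq_or_lt with q' | q'
        · exfalso
          apply hum
          rw [e0, e1, ← q, ← q']; simp
        · linarith
      · linarith
    have h3 : σ * (s' * H0 + t' * H0) = (s' + t') * (σ * H0) := by ring
    rw [h3] at this
    have := mul_neg_of_pos_of_neg hpos hH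
    linarith
  show σ * h' v < 0
  rcases dir3 hP.1 hP.2.1 hP.2.2 (p v 0) (p v 1) with q | q | q
  · exact fin hf hP ha hb q
  · exact fin hf.rot hP.rot hb hc q
  · exact fin hf.rot.rot hP.rot.rot hc ha q

end Pool.Agent.Q131.Snk
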