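import Pool.Agent.Q131.Snk.Vml

/-! Heights that keep the orientation of the side faces give longitudinal morphs. -/

namespace Pool.Agent.Q131.Snk

open Set Helper479.Sink Topology

variable {n : ℕ} {G : SimpleGraph (Fin n)} {p : Fin n → Fin 3 → ℝ}

/-! ### normalisation -/

/-- euclidean norm -/
noncomputable def N3 (x : Fin 3 → ℝ) : ℝ := Real.sqrt (x 0 ^ 2 + x 1 ^ 2 + x 2 ^ 2)

/-- normalised vector -/
noncomputable def nz (x : Fin 3 → ℝ) : Fin 3 → ℝ := (N3 x)⁻¹ • x

lemma sq_pos_of_ne {x : Fin 3 → ℝ} (hx : x ≠ 0) : 0 < x 0 ^ 2 + x 1 ^ 2 + x 2 ^ 2 := by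
  by_contra hc
  apply hx
  have h0 : x 0 = 0 := by nlinarith [sq_nonneg (x 0), sq_nonneg (x 1), sq_nonneg (x 2)]
  have h1 : x 1 = 0 := by nlinarith [sq_nonneg (x 0), sq_nonneg (x 1), sq_nonneg (x 2)]
  have h2 : x 2 = 0 := by nlinarith [sq_nonneg (x 0), sq_nonneg (x 1), sq_nonneg (x 2)]
  ext m; fin_cases m <;> simp [h0, h1, h2]

lemma N3_pos {x : Fin 3 → ℝ} (hx : x ≠ 0) : 0 < N3 x := Real.sqrt_pos.mpr (sq_pos_of_ne hx)

lemma N3_sq (x : Fin 3 → ℝ) : N3 x ^ 2 = x 0 ^ 2 + x 1 ^ 2 + x 2 ^ 2 :=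
  Real.sq_sqrt (by positivity)

lemma nz_mem {x : Fin 3 → ℝ} (hx : x ≠ 0) : nz x ∈ S2 := by
  have h := N3_pos hx
  have h2 := N3_sq x
  show (nz x 0) ^ 2 + (nz x 1) ^ 2 + (nz x 2) ^ 2 = 1
  simp only [nz, Pi.smul_apply, smul_eq_mul]
  field_simp
  linarith

lemma ne0_of_S2 {x : Fin 3 → ℝ} (hx : x ∈ S2) : x ≠ 0 := by
  rintro rfl
  have : (0:ℝ) ^ 2 + 0 ^ 2 + 0 ^ 2 = 1 := hx
  norm_num at this

lemma N3_of_S2 {x : Fin 3 → ℝ} (hx : x ∈ S2) : N3 x = 1 := by
  unfold N3
  have : x 0 ^ 2 + x 1 ^ 2 + x 2 ^ 2 = 1 := hx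
  rw [this, Real.sqrt_one]

lemma nz_of_S2 {x : Fin 3 → ℝ} (hx : x ∈ S2) : nz x = x := by
  unfold nz; rw [N3_of_S2 hx]; simp

lemma eq_nz_of_S2 {x y : Fin 3 → ℝ} (hx : x ∈ S2) {c : ℝ} (hc : 0 < c) (h : x = c • y)
    (hy : y ≠ 0) : x = nz y := by
  have hN := N3_pos hy
  have hx' : x 0 ^ 2 + x 1 ^ 2 + x 2 ^ 2 = 1 := hx
  have h2 := N3_sq y
  rw [h] at hx'
  simp only [Pi.smul_apply, smul_eq_mul] at hx'
  have h3 : (c * N3 y) ^ 2 = 1 := by
    rw [mul_pow, h2]; nlinarith
  have h4 : c * N3 y = 1 := by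
    have h5 : 0 < c * N3 y := mul_pos hc hN
    nlinarith
  rw [h, nz]
  congr 1
  field_simp
  linarith

/-- the normalised drawing is a shortest-path embedding -/
lemma emb_nz {q : Fin n → Fin 3 → ℝ} (hq : EmbC G q) : IsEmb G (fun i => nz (q i)) := by
  have hN : ∀ i, 0 < N3 (q i) := fun i => N3_pos (hq.ne0 i)
  have hback : ∀ i, q i = N3 (q i) • nz (q i) := by
    intro i
    rw [nz, smul_smul, mul_inv_cancel₀ (hN i).ne', one_smul]
  have harc : ∀ i j x, x ∈ arc (nz (q i)) (nz (q j)) → x ∈ EC (q i) (q j) := by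
    rintro i j x ⟨-, a, b, ha, hb, e⟩
    refine ⟨a * (N3 (q i))⁻¹, b * (N3 (q j))⁻¹, mul_nonneg ha (inv_nonneg.mpr (hN i).le),
      mul_nonneg hb (inv_nonneg.mpr (hN j).le), ?_⟩
    rw [e, nz, nz, smul_smul, smul_smul]
  constructor
  · exact fun i => nz_mem (hq.ne0 i)
  · intro i j hij
    have hij' : nz (q i) = nz (q j) := hij
    apply hq.inj i j (N3 (q i) * (N3 (q j))⁻¹) (mul_pos (hN i) (inv_pos.mpr (hN j)))
    conv_lhs => rw [hback i, hij', nz, smul_smul]
  · intro i j hij h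
    have h' : nz (q i) = - nz (q j) := h
    apply hq.anti i j (N3 (q i) * (N3 (q j))⁻¹) hij (mul_pos (hN i) (inv_pos.mpr (hN j)))
    conv_lhs => rw [hback i, h', nz, smul_neg, smul_smul]
  · intro i j k l hij hkl hne x hx hx'
    have hxS : x ∈ S2 := hx.1
    obtain ⟨m, h1, h2, c, hc, he⟩ := hq.meet i j k l x hij hkl hne (ne0_of_S2 hxS)
      (harc i j x hx) (harc k l x hx')
    exact ⟨m, h1, h2, eq_nz_of_S2 hxS hc he (hq.ne0 m)⟩
  · intro i j m hij hm
    obtain ⟨a, b, ha, hb, e⟩ := harc i j _ hm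
    apply hq.vert i j m hij
    refine ⟨N3 (q m) * a, N3 (q m) * b, mul_nonneg (hN m).le ha, mul_nonneg (hN m).le hb, ?_⟩
    conv_lhs => rw [hback m, e]
    rw [smul_add, smul_smul, smul_smul]

/-! ### lifted drawings -/

/-- the drawing with the same longitudes and new heights -/
def lift (p : Fin n → Fin 3 → ℝ) (h : Fin n → ℝ) : Fin n → Fin 3 → ℝ :=
  fun i => ![p i 0, p i 1, h i]

@[simp] lemma lift0 (h : Fin n → ℝ) (i : Fin n) : lift p h i 0 = p i 0 := rfl
@[simp] lemma lift1 (h : Fin n → ℝ) (i : Fin n) : lift p h i 1 = p i 1 := rfl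
@[simp] lemma lift2 (h : Fin n → ℝ) (i : Fin n) : lift p h i 2 = h i := rfl

lemma Stand.horiz (H : Stand G p) {i j : Fin n} (hij : G.Adj i j) {s t : ℝ} (hs : 0 ≤ s)
    (ht : 0 ≤ t) (e0 : s * p i 0 + t * p j 0 = 0) (e1 : s * p i 1 + t * p j 1 = 0) :
    s = 0 ∧ t = 0 := by
  set z := s * p i 2 + t * p j 2 with hz
  rcases lt_trichotomy z 0 with h | h | h
  · exfalso
    apply H.spol
    refine ⟨south_ne, i, j, hij, s / (-z), t / (-z), div_nonneg hs (by linarith),
      div_nonneg ht (by linarith), ?_⟩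
    have hz0 : z ≠ 0 := h.ne
    have key : ∀ m, (s / (-z)) * p i m + (t / (-z)) * p j m = (s * p i m + t * p j m) / (-z) :=
      fun m => by ring
    ext m
    fin_cases m
    · show (0:ℝ) = (s / (-z)) * p i 0 + (t / (-z)) * p j 0
      rw [key, e0, zero_div]
    · show (0:ℝ) = (s / (-z)) * p i 1 + (t / (-z)) * p j 1
      rw [key, e1, zero_div]
    · show (-1:ℝ) = (s / (-z)) * p i 2 + (t / (-z)) * p j 2
      rw [key, ← hz, div_neg, div_self hz0]
  · apply lin_indep H.tri.emb hij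
    ext m
    fin_cases m
    · simpa using e0
    · simpa using e1
    · simpa [hz] using h
  · exfalso
    apply H.npol
    refine ⟨north_ne, i, j, hij, s / z, t / z, div_nonneg hs h.le,
      div_nonneg ht h.le, ?_⟩
    have hz0 : z ≠ 0 := h.ne'
    have key : ∀ m, (s / z) * p i m + (t / z) * p j m = (s * p i m + t * p j m) / z :=
      fun m => by ring
    ext m
    fin_cases m
    · show (0:ℝ) = (s / z) * p i 0 + (t / z) * p j 0
      rw [key, e0, zero_div]
    · show (0:ℝ) = (s / z) * p i 1 + (t / z) * p j 1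
      rw [key, e1, zero_div]
    · show (1:ℝ) = (s / z) * p i 2 + (t / z) * p j 2
      rw [key, ← hz, div_self hz0]

lemma Stand.u_ne (H : Stand G p) (i : Fin n) : ¬ (p i 0 = 0 ∧ p i 1 = 0) := by
  rintro ⟨h0, h1⟩
  obtain ⟨j, hij⟩ := H.deg i
  have := (H.horiz hij (s := 1) (t := 0) zero_le_one le_rfl (by simp [h0]) (by simp [h1])).1
  exact one_ne_zero this

/-- lifted drawings are embeddings -/
lemma Stand.lift_emb (J2a : Job2a) (J2c : Job2c) (H : Stand G p) {h : Fin n → ℝ}
    (hh : ∀ a b c, Fc G p a b c → Side p a b c → 0 < Dh p h a b c) : EmbC G (lift p h) := by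
  have hE := H.tri.emb
  constructor
  · intro i h0
    have a0 := congrFun h0 0
    have a1 := congrFun h0 1
    exact H.u_ne i ⟨a0, a1⟩
  · intro i j c hc he
    obtain ⟨i', hi'⟩ := H.deg i
    obtain ⟨j', hj'⟩ := H.deg j
    have a0 := congrFun he 0
    have a1 := congrFun he 1
    have a2 := congrFun he 2
    simp only [lift0, lift1, lift2, Pi.smul_apply, smul_eq_mul] at a0 a1 a2
    by_contra hne
    rcases lt_trichotomy (p i 2) (c * p j 2) with hz | hz | hz
    · have := H.vml J2a J2c hh hi' hj' (s := 1) (t := 0) (s' := c) (t' := 0) zero_le_one le_rfl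
        hc.le le_rfl (by linarith) (by linarith) (by
          simpa using H.u_ne i) (by linarith)
      linarith
    · apply hne
      apply hE.inj i j c hc
      ext m; fin_cases m
      · exact a0
      · exact a1
      · exact hz
    · have := H.vml J2a J2c hh hj' hi' (s := c) (t := 0) (s' := 1) (t' := 0) hc.le le_rfl
        zero_le_one le_rfl (by linarith) (by linarith) (by
          have := H.u_ne j
          rintro ⟨b0, b1⟩
          apply this
          constructor
          · have : c * p j 0 = 0 := by linarith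
            exact (mul_eq_zero.mp this).resolve_left hc.ne'
          · have : c * p j 1 = 0 := by linarith
            exact (mul_eq_zero.mp this).resolve_left hc.ne') (by linarith)
      linarith
  · intro i j c hij hc he
    have a0 := congrFun he 0
    have a1 := congrFun he 1
    simp only [lift0, lift1, Pi.neg_apply, Pi.smul_apply, smul_eq_mul] at a0 a1
    have := (H.horiz hij (s := 1) (t := c) zero_le_one hc.le (by linarith) (by linarith)).1
    exact one_ne_zero this
  · rintro i j k l x hij hkl hne hx0 ⟨s, t, hs, ht, e⟩ ⟨s', t', hs', ht', e'⟩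
    have a0 := congrFun e 0
    have a1 := congrFun e 1
    have a2 := congrFun e 2
    have b0 := congrFun e' 0
    have b1 := congrFun e' 1
    have b2 := congrFun e' 2
    simp only [Pi.add_apply, lift0, lift1, lift2, Pi.smul_apply, smul_eq_mul] at a0 a1 a2 b0 b1 b2
    have hw : ¬ (s * p i 0 + t * p j 0 = 0 ∧ s * p i 1 + t * p j 1 = 0) := by
      rintro ⟨w0, w1⟩
      obtain ⟨h1, h2⟩ := H.horiz hij hs ht w0 w1
      apply hx0
      rw [e, h1, h2]; simp
    have hw' : ¬ (s' * p k 0 + t' * p l 0 = 0 ∧ s' * p k 1 + t' * p l 1 = 0) := by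
      rw [← b0, ← b1, a0, a1]; exact hw
    rcases lt_trichotomy (s * p i 2 + t * p j 2) (s' * p k 2 + t' * p l 2) with hz | hz | hz
    · have := H.vml J2a J2c hh hij hkl hs ht hs' ht' (by linarith) (by linarith) hw hz
      linarith
    · have hpt : s • p i + t • p j = s' • p k + t' • p l := by
        ext m; fin_cases m
        · simp only [Fin.reduceFinMk, Pi.add_apply, Pi.smul_apply, smul_eq_mul]; 
          show s * p i 0 + t * p j 0 = s' * p k 0 + t' * p l 0
          linarith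
        · show s * p i 1 + t * p j 1 = s' * p k 1 + t' * p l 1
          linarith
        · exact hz
      have hne0 : s • p i + t • p j ≠ 0 := by
        intro h0
        apply hw
        exact ⟨by simpa using congrFun h0 0, by simpa using congrFun h0 1⟩
      obtain ⟨m, m1, m2, c, hc, hm⟩ := hE.meet i j k l _ hij hkl hne hne0
        ⟨s, t, hs, ht, rfl⟩ ⟨s', t', hs', ht', hpt⟩
      refine ⟨m, m1, m2, c, hc, ?_⟩
      have hv := edge_m hE hij m1 hm h
      have m0 := congrFun hm 0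
      have m1' := congrFun hm 1
      simp only [Pi.add_apply, Pi.smul_apply, smul_eq_mul] at m0 m1'
      ext r; fin_cases r
      · show x 0 = c * p m 0
        linarith
      · show x 1 = c * p m 1
        linarith
      · show x 2 = c * h m
        linarith
    · have := H.vml J2a J2c hh hkl hij hs' ht' hs ht (by linarith) (by linarith) hw' hz
      linarith
  · rintro i j m hij ⟨s, t, hs, ht, e⟩
    have a0 := congrFun e 0
    have a1 := congrFun e 1
    have a2 := congrFun e 2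
    simp only [Pi.add_apply, lift0, lift1, lift2, Pi.smul_apply, smul_eq_mul] at a0 a1 a2
    obtain ⟨m', hm'⟩ := H.deg m
    have hum := H.u_ne m
    have hw : ¬ (s * p i 0 + t * p j 0 = 0 ∧ s * p i 1 + t * p j 1 = 0) := by
      rw [← a0, ← a1]; exact hum
    have hw' : ¬ (1 * p m 0 + 0 * p m' 0 = 0 ∧ 1 * p m 1 + 0 * p m' 1 = 0) := by
      simpa using hum
    rcases lt_trichotomy (s * p i 2 + t * p j 2) (p m 2) with hz | hz | hz
    · have := H.vml J2a J2c hh hij hm' hs ht (s' := 1) (t' := 0) zero_le_one le_rfl (by linarith)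
        (by linarith) hw (by linarith)
      linarith
    · apply hE.vert i j m hij
      refine ⟨s, t, hs, ht, ?_⟩
      ext r; fin_cases r
      · exact a0
      · exact a1
      · exact hz.symm
    · have := H.vml J2a J2c hh hm' hij (s := 1) (t := 0) zero_le_one le_rfl hs ht (by linarith)
        (by linarith) hw' (by linarith)
      linarith

/-- the path of drawings that moves the heights linearly -/
noncomputable def hpath (p : Fin n → Fin 3 → ℝ) (h : Fin n → ℝ) (t : ℝ) : Fin n → Fin 3 → ℝ :=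
  fun i => nz (lift p (fun i => (1 - t) * p i 2 + t * h i) i)

lemma nz_cont {f : ℝ → Fin 3 → ℝ} (hf : Continuous f) (h0 : ∀ t, f t ≠ 0) :
    Continuous (fun t => nz (f t)) := by
  unfold nz
  refine Continuous.smul (Continuous.inv₀ ?_ fun t => (N3_pos (h0 t)).ne') hf
  unfold N3
  fun_prop

lemma morph_of_emb (hsph : ∀ i, p i ∈ S2) (hu : ∀ i, ¬ (p i 0 = 0 ∧ p i 1 = 0))
    {h : Fin n → ℝ} (hemb : ∀ t ∈ Icc (0:ℝ) 1, EmbC G (lift p fun i => (1 - t) * p i 2 + t * h i)) :
    IsLongMorph G (hpath p h) ∧ hpath p h 0 = p ∧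
      ∀ i, ∃ c : ℝ, 0 < c ∧ hpath p h 1 i 2 = c * h i := by
  have hne : ∀ t i, lift p (fun i => (1 - t) * p i 2 + t * h i) i ≠ 0 := by
    intro t i h0
    exact hu i ⟨congrFun h0 0, congrFun h0 1⟩
  have h0 : hpath p h 0 = p := by
    ext i m
    have : lift p (fun i => (1 - 0) * p i 2 + 0 * h i) i = p i := by
      ext m; fin_cases m
      · rfl
      · rfl
      · show (1 - 0) * p i 2 + 0 * h i = p i 2
        ring
    unfold hpath
    rw [this, nz_of_S2 (hsph i)]
  refine ⟨⟨?_, ?_, ?_, ?_⟩, h0, ?_⟩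
  · intro i
    apply Continuous.continuousOn
    unfold hpath
    apply nz_cont _ (fun t => hne t i)
    unfold lift
    refine continuous_pi fun m => ?_
    fin_cases m
    · exact continuous_const
    · exact continuous_const
    · simp only [Fin.reduceFinMk, Matrix.cons_val]
      fun_prop
  · intro t ht
    exact emb_nz (hemb t ht)
  · intro i
    rw [h0]
    exact hu i
  · intro t ht i
    rw [h0]
    refine ⟨nz_mem (hne t i), (N3 (lift p (fun i => (1 - t) * p i 2 + t * h i) i))⁻¹,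
      inv_pos.mpr (N3_pos (hne t i)), ?_, ?_⟩
    · simp [hpath, nz]
    · simp [hpath, nz]
  · intro i
    refine ⟨(N3 (lift p (fun i => (1 - 1) * p i 2 + 1 * h i) i))⁻¹, inv_pos.mpr (N3_pos (hne 1 i)),
      ?_⟩
    simp [hpath, nz]

lemma Dh_comb (h k : Fin n → ℝ) (s t : ℝ) (a b c : Fin n) :
    Dh p (fun i => s * h i + t * k i) a b c = s * Dh p h a b c + t * Dh p k a b c := by
  unfold Dh; ring

/-- heights that keep the side faces positive are reached by a longitudinal morph -/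
lemma Stand.morph (J2a : Job2a) (J2c : Job2c) (H : Stand G p) (hsph : ∀ i, p i ∈ S2)
    {h : Fin n → ℝ} (hh : ∀ a b c, Fc G p a b c → Side p a b c → 0 < Dh p h a b c) :
    ∃ γ : ℝ → Fin n → Fin 3 → ℝ, IsLongMorph G γ ∧ γ 0 = p ∧
      ∀ i, ∃ c : ℝ, 0 < c ∧ γ 1 i 2 = c * h i := by
  refine ⟨hpath p h, morph_of_emb hsph H.u_ne fun t ht => ?_⟩
  apply H.lift_emb J2a J2c
  intro a b c hf hs
  rw [Dh_comb]
  have h1 := H.side_pos hf hs
  have h2 := hh a b c hf hs
  have e : Dh p (fun i => p i 2) a b c = det3 (p a) (p b) (p c) := rfl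
  rw [e]
  rcases eq_or_lt_of_le ht.1 with h0 | h0
  · rw [← h0]; linarith
  · have := mul_pos h0 h2
    have := mul_nonneg (sub_nonneg.mpr ht.2) h1.le
    linarith

end Pool.Agent.Q131.Snk
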