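import Pool.Agent.Q131.Snk.Faces
import Pool.Agent.Q131.Snk.Flip

/-! The 15-vertex triangulation has short edges and is not sinkable (MP_b37e0c_co). -/

namespace Pool.Agent.Q131.Snk

open Set Helper479.Sink

/-- horizontal cross product of two of the integer vertices -/
def hz (i j : ℕ) : ℤ := (P i).x * (P j).y - (P i).y * (P j).x

lemma face_side : ∀ f < 24,
    ¬ (0 < hz (F f).2.1 (F f).2.2 ∧ 0 < hz (F f).2.2 (F f).1 ∧ 0 < hz (F f).1 (F f).2.1) ∧
    ¬ (hz (F f).2.1 (F f).2.2 < 0 ∧ hz (F f).2.2 (F f).1 < 0 ∧ hz (F f).1 (F f).2.1 < 0) := by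
  decide +kernel

lemma hA_v15 {i j : ℕ} (hi : i < 15) (hj : j < 15) :
    hA (v15 (ix i)) (v15 (ix j)) = c15 i * c15 j * (hz i j : ℝ) := by
  unfold hA v15 hz
  rw [ix_val hi, ix_val hj]
  simp only [Pi.smul_apply, smul_eq_mul, toR_0, toR_1]
  push_cast
  ring

lemma det3_v15 {i j k : ℕ} (hi : i < 15) (hj : j < 15) (hk : k < 15) :
    det3 (v15 (ix i)) (v15 (ix j)) (v15 (ix k)) =
      c15 i * c15 j * c15 k * ((Z3.dot (Z3.cross (P j) (P k)) (P i) : ℤ) : ℝ) := by
  unfold det3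
  rw [hA_v15 hj hk, hA_v15 hk hi, hA_v15 hi hj]
  unfold v15 hz Z3.dot Z3.cross
  rw [ix_val hi, ix_val hj, ix_val hk]
  simp only [Pi.smul_apply, smul_eq_mul, toR_2]
  push_cast
  ring

/-- the inequalities satisfied by the final heights of a longitudinal morph -/
lemma final_ineq {γ : ℝ → Fin 15 → Fin 3 → ℝ} (hm : IsLongMorph G15 γ) (h0 : γ 0 = v15) :
    ∃ ζ : ℕ → ℝ, (∀ i : Fin 15, ∃ C : ℝ, 0 < C ∧ γ 1 i 2 = C * ζ i.val) ∧
      ∀ f < 24, 0 < ζ (F f).1 * (hz (F f).2.1 (F f).2.2 : ℝ) +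
        ζ (F f).2.1 * (hz (F f).2.2 (F f).1 : ℝ) + ζ (F f).2.2 * (hz (F f).1 (F f).2.1 : ℝ) := by
  have key : ∀ i : Fin 15, ∃ C : ℝ, 0 < C ∧ γ 1 i 0 = C * ((P i.val).x : ℝ) ∧
      γ 1 i 1 = C * ((P i.val).y : ℝ) := by
    intro i
    obtain ⟨-, c, hc, h1, h2⟩ := hm.stays 1 (by simp) i
    have hp := c15_pos i.isLt
    refine ⟨c * c15 i.val, by positivity, ?_, ?_⟩
    · rw [h1, h0]; simp only [v15, Pi.smul_apply, smul_eq_mul, toR_0]; ring
    · rw [h2, h0]; simp only [v15, Pi.smul_apply, smul_eq_mul, toR_1]; ring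
  choose C hC hx hy using key
  refine ⟨fun i => γ 1 (ix i) 2 / C (ix i), ?_, ?_⟩
  · intro i
    have hi : ix i.val = i := Fin.ext (ix_val i.isLt)
    refine ⟨C i, hC i, ?_⟩
    simp only [hi]
    field_simp [(hC i).ne']
  · intro f hf
    have hf' : f < 26 := by omega
    obtain ⟨b1, b2, b3, -, -, -, hD⟩ := face_facts f hf'
    obtain ⟨a1, a2, a3⟩ := face_adj' hf'
    obtain ⟨s1, s2⟩ := face_side f hf
    have p1 := c15_pos b1
    have p2 := c15_pos b2
    have p3 := c15_pos b3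
    have hdet : 0 < det3 (γ 0 (ix (F f).1)) (γ 0 (ix (F f).2.1)) (γ 0 (ix (F f).2.2)) := by
      rw [h0, det3_v15 b1 b2 b3]
      have : (0:ℝ) < ((Z3.dot (Z3.cross (P (F f).2.1) (P (F f).2.2)) (P (F f).1) : ℤ) : ℝ) := by
        exact_mod_cast hD
      positivity
    have e : ∀ {u v : ℕ} (hu : u < 15) (hv : v < 15),
        hA (γ 0 (ix u)) (γ 0 (ix v)) = c15 u * c15 v * (hz u v : ℝ) := by
      intro u v hu hv
      rw [h0, hA_v15 hu hv]
    have epos : ∀ {u v : ℕ} (hu : u < 15) (hv : v < 15),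
        0 < hA (γ 0 (ix u)) (γ 0 (ix v)) → 0 < hz u v := by
      intro u v hu hv h
      rw [e hu hv] at h
      have := (pos_iff_pos_of_mul_pos h).mp (mul_pos (c15_pos hu) (c15_pos hv))
      exact_mod_cast this
    have eneg : ∀ {u v : ℕ} (hu : u < 15) (hv : v < 15),
        hA (γ 0 (ix u)) (γ 0 (ix v)) < 0 → hz u v < 0 := by
      intro u v hu hv h
      rw [e hu hv] at h
      have h1 := mul_pos (c15_pos hu) (c15_pos hv)
      by_contra hc
      push Not at hc
      have hc' : (0:ℝ) ≤ (hz u v : ℝ) := by exact_mod_cast hc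
      have := mul_nonneg h1.le hc'
      linarith
    have hfl := flip hm a1 a2 a3 hdet
      (fun h => s1 ⟨epos b2 b3 h.1, epos b3 b1 h.2.1, epos b1 b2 h.2.2⟩)
      (fun h => s2 ⟨eneg b2 b3 h.1, eneg b3 b1 h.2.1, eneg b1 b2 h.2.2⟩)
    have hh : ∀ {u v : ℕ} (hu : u < 15) (hv : v < 15),
        hA (γ 1 (ix u)) (γ 1 (ix v)) = C (ix u) * C (ix v) * (hz u v : ℝ) := by
      intro u v hu hv
      unfold hA hz
      rw [hx, hy, hx, hy, ix_val hu, ix_val hv]
      push_cast
      ring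
    unfold det3 at hfl
    rw [hh b2 b3, hh b3 b1, hh b1 b2] at hfl
    have q1 := hC (ix (F f).1)
    have q2 := hC (ix (F f).2.1)
    have q3 := hC (ix (F f).2.2)
    have hfin : γ 1 (ix (F f).1) 2 * (C (ix (F f).2.1) * C (ix (F f).2.2) *
        (hz (F f).2.1 (F f).2.2 : ℝ)) +
        γ 1 (ix (F f).2.1) 2 * (C (ix (F f).2.2) * C (ix (F f).1) * (hz (F f).2.2 (F f).1 : ℝ)) +
        γ 1 (ix (F f).2.2) 2 * (C (ix (F f).1) * C (ix (F f).2.1) * (hz (F f).1 (F f).2.1 : ℝ)) =
        (C (ix (F f).1) * C (ix (F f).2.1) * C (ix (F f).2.2)) *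
        (γ 1 (ix (F f).1) 2 / C (ix (F f).1) * (hz (F f).2.1 (F f).2.2 : ℝ) +
        γ 1 (ix (F f).2.1) 2 / C (ix (F f).2.1) * (hz (F f).2.2 (F f).1 : ℝ) +
        γ 1 (ix (F f).2.2) 2 / C (ix (F f).2.2) * (hz (F f).1 (F f).2.1 : ℝ)) := by
      field_simp
    rw [hfin] at hfl
    exact (pos_iff_pos_of_mul_pos hfl).mp (by positivity)

theorem not_sinkable : ¬ Sinkable G15 v15 := by
  rintro ⟨γ, hm, h0, hs⟩
  obtain ⟨ζ, hζ, H⟩ := final_ineq hm h0
  have hneg : ∀ i : Fin 15, ζ i.val < 0 := by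
    intro i
    obtain ⟨C, hC, h⟩ := hζ i
    have := hs i
    rw [h] at this
    by_contra hc
    push Not at hc
    have := mul_nonneg hC.le hc
    linarith
  have n0 := hneg 0
  have n1 := hneg 1
  have n2 := hneg 2
  have n3 := hneg 3
  have n4 := hneg 4
  have n5 := hneg 5
  have n6 := hneg 6
  have n7 := hneg 7
  have n8 := hneg 8
  have n9 := hneg 9
  have n10 := hneg 10
  have n11 := hneg 11
  have n12 := hneg 12
  have n13 := hneg 13
  have n14 := hneg 14
  have H0 := H 0 (by norm_num)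
  have H1 := H 1 (by norm_num)
  have H2 := H 2 (by norm_num)
  have H3 := H 3 (by norm_num)
  have H4 := H 4 (by norm_num)
  have H5 := H 5 (by norm_num)
  have H6 := H 6 (by norm_num)
  have H7 := H 7 (by norm_num)
  have H8 := H 8 (by norm_num)
  have H9 := H 9 (by norm_num)
  have H10 := H 10 (by norm_num)
  have H11 := H 11 (by norm_num)
  have H12 := H 12 (by norm_num)
  have H13 := H 13 (by norm_num)
  have H14 := H 14 (by norm_num)
  have H15 := H 15 (by norm_num)
  have H16 := H 16 (by norm_num)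
  have H17 := H 17 (by norm_num)
  have H18 := H 18 (by norm_num)
  have H19 := H 19 (by norm_num)
  have H20 := H 20 (by norm_num)
  have H21 := H 21 (by norm_num)
  have H22 := H 22 (by norm_num)
  have H23 := H 23 (by norm_num)
  clear H hζ hneg hs h0 hm
  norm_num [F, Fl, hz, P, Pl] at *
  linarith

theorem not_floatable : ¬ Floatable G15 v15 := by
  rintro ⟨γ, hm, h0, hs⟩
  obtain ⟨ζ, hζ, H⟩ := final_ineq hm h0
  have hneg : ∀ i : Fin 15, 0 < ζ i.val := by
    intro i
    obtain ⟨C, hC, h⟩ := hζ i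
    have := hs i
    rw [h] at this
    exact (pos_iff_pos_of_mul_pos this).mp hC
  have n0 := hneg 0
  have n1 := hneg 1
  have n2 := hneg 2
  have n3 := hneg 3
  have n4 := hneg 4
  have n5 := hneg 5
  have n6 := hneg 6
  have n7 := hneg 7
  have n8 := hneg 8
  have n9 := hneg 9
  have n10 := hneg 10
  have n11 := hneg 11
  have n12 := hneg 12
  have n13 := hneg 13
  have n14 := hneg 14
  have H0 := H 0 (by norm_num)
  have H1 := H 1 (by norm_num)
  have H2 := H 2 (by norm_num)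
  have H3 := H 3 (by norm_num)
  have H4 := H 4 (by norm_num)
  have H5 := H 5 (by norm_num)
  have H6 := H 6 (by norm_num)
  have H7 := H 7 (by norm_num)
  have H8 := H 8 (by norm_num)
  have H9 := H 9 (by norm_num)
  have H10 := H 10 (by norm_num)
  have H11 := H 11 (by norm_num)
  have H12 := H 12 (by norm_num)
  have H13 := H 13 (by norm_num)
  have H14 := H 14 (by norm_num)
  have H15 := H 15 (by norm_num)
  have H16 := H 16 (by norm_num)
  have H17 := H 17 (by norm_num)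
  have H18 := H 18 (by norm_num)
  have H19 := H 19 (by norm_num)
  have H20 := H 20 (by norm_num)
  have H21 := H 21 (by norm_num)
  have H22 := H 22 (by norm_num)
  have H23 := H 23 (by norm_num)
  clear H hζ hneg hs h0 hm
  norm_num [F, Fl, hz, P, Pl] at *
  linarith

lemma edge_dot : ∀ i j : Fin 15, adjB i.val j.val = true → 0 < Z3.dot (P i.val) (P j.val) := by
  decide +kernel

lemma edge_hz : ∀ i j : Fin 15, adjB i.val j.val = true → hz i.val j.val ≠ 0 := by
  decide +kernel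

theorem short {i j : Fin 15} (h : G15.Adj i j) :
    Real.arccos (dotProduct (v15 i) (v15 j)) < Real.pi / 2 := by
  rw [Real.arccos_lt_pi_div_two]
  have h1 : 0 < Z3.dot (P i.val) (P j.val) := edge_dot i j h
  have h1' : (0:ℝ) < ((Z3.dot (P i.val) (P j.val) : ℤ) : ℝ) := by exact_mod_cast h1
  have e : dotProduct (v15 i) (v15 j) =
      c15 i.val * c15 j.val * ((Z3.dot (P i.val) (P j.val) : ℤ) : ℝ) := by
    unfold dotProduct Z3.dot
    rw [Fin.sum_univ_three]
    simp only [v15, Pi.smul_apply, smul_eq_mul, toR_0, toR_1, toR_2]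
    push_cast
    ring
  rw [e]
  have := c15_pos i.isLt
  have := c15_pos j.isLt
  positivity

lemma pole_off {q : Fin 3 → ℝ} (h0 : q 0 = 0) (h1 : q 1 = 0) : q ∉ skeleton G15 v15 := by
  rintro ⟨i, j, hij, hx⟩
  have hne := edge_hz i j hij
  obtain ⟨hq, a, b, ha, hb, he⟩ := hx
  have e0 := congrFun he 0
  have e1 := congrFun he 1
  simp only [v15, Pi.add_apply, Pi.smul_apply, smul_eq_mul, toR_0, toR_1, h0, h1] at e0 e1
  have pi := c15_pos i.isLt
  have pj := c15_pos j.isLt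
  set A := a * c15 i.val with hA
  set B := b * c15 j.val with hB
  have f0 : A * ((P i.val).x : ℝ) + B * ((P j.val).x : ℝ) = 0 := by rw [hA, hB]; linarith
  have f1 : A * ((P i.val).y : ℝ) + B * ((P j.val).y : ℝ) = 0 := by rw [hA, hB]; linarith
  have hz' : ((hz i.val j.val : ℤ) : ℝ) ≠ 0 := by exact_mod_cast hne
  have ez : ((hz i.val j.val : ℤ) : ℝ) = ((P i.val).x : ℝ) * ((P j.val).y : ℝ) -
      ((P i.val).y : ℝ) * ((P j.val).x : ℝ) := by unfold hz; push_cast; ring
  have hA0 : A = 0 := by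
    have : A * ((hz i.val j.val : ℤ) : ℝ) = 0 := by
      rw [ez]
      have : A * (((P i.val).x : ℝ) * ((P j.val).y : ℝ) - ((P i.val).y : ℝ) * ((P j.val).x : ℝ)) =
        (A * ((P i.val).x : ℝ) + B * ((P j.val).x : ℝ)) * ((P j.val).y : ℝ) -
        (A * ((P i.val).y : ℝ) + B * ((P j.val).y : ℝ)) * ((P j.val).x : ℝ) := by ring
      rw [this, f0, f1]; ring
    rcases mul_eq_zero.mp this with h | h
    · exact h
    · exact absurd h hz'
  have hB0 : B = 0 := by
    have : B * ((hz i.val j.val : ℤ) : ℝ) = 0 := by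
      rw [ez]
      have : B * (((P i.val).x : ℝ) * ((P j.val).y : ℝ) - ((P i.val).y : ℝ) * ((P j.val).x : ℝ)) =
        (A * ((P i.val).y : ℝ) + B * ((P j.val).y : ℝ)) * ((P i.val).x : ℝ) -
        (A * ((P i.val).x : ℝ) + B * ((P j.val).x : ℝ)) * ((P i.val).y : ℝ) := by ring
      rw [this, f0, f1]; ring
    rcases mul_eq_zero.mp this with h | h
    · exact h
    · exact absurd h hz'
  have ha0 : a = 0 := by
    rcases mul_eq_zero.mp (hA.symm.trans hA0 : a * c15 i.val = 0) with h | h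
    · exact h
    · exact absurd h pi.ne'
  have hb0 : b = 0 := by
    rcases mul_eq_zero.mp (hB.symm.trans hB0 : b * c15 j.val = 0) with h | h
    · exact h
    · exact absurd h pj.ne'
  rw [ha0, hb0] at he
  simp only [zero_smul, add_zero] at he
  rw [he] at hq
  exact zero_not_S2 hq

end Pool.Agent.Q131.Snk
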