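import Pool.Agent.Q131.Snk.Hemi
import Pool.Agent.Q198.Snk.J7

/-! The octahedron with the north pole on an edge. -/

namespace Pool.Agent.Q131.Snk

open Set Helper479.Sink

/-- an octahedron with the north pole on an edge: an uncrossed great circle, not sinkable -/
theorem oct : ∃ (G : SimpleGraph (Fin 6)) (v : Fin 6 → Fin 3 → ℝ) (w : Fin 3 → ℝ), IsSPT G v ∧
    G.Connected ∧ (∀ i, NonPolar (v i)) ∧ w ≠ 0 ∧
    (∀ i j, G.Adj i j → ¬ Crosses w (arc (v i) (v j))) ∧ ¬ Sinkable G v := by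
  obtain ⟨G, v, hv, hG, hnp, -, hprod, i, j, hij, hN⟩ := Pool.Agent.Q198.Snk.job7
  refine ⟨G, v, ![1, 0, 0], hv, hG, hnp, fun h => by have := congrFun h 0; simp at this, ?_,
    not_sinkable hnp ⟨i, j, hij, hN⟩⟩
  rintro i j hij ⟨⟨x, ⟨-, a, b, ha, hb, e⟩, hx⟩, y, ⟨-, c, d, hc, hd, e'⟩, hy⟩
  have e0 : dt ![1, 0, 0] x = x 0 := by simp [dt]
  have e0' : dt ![1, 0, 0] y = y 0 := by simp [dt]
  rw [e0] at hx
  rw [e0'] at hy
  rw [e] at hx
  rw [e'] at hy
  simp only [Pi.add_apply, Pi.smul_apply, smul_eq_mul] at hx hy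
  have hp := hprod i j hij
  rcases le_or_gt 0 (v i 0) with h1 | h1
  · rcases le_or_gt 0 (v j 0) with h2 | h2
    · have := mul_nonneg ha h1
      have := mul_nonneg hb h2
      linarith
    · rcases h1.eq_or_lt with h3 | h3
      · rw [← h3] at hy
        have := mul_nonpos_of_nonneg_of_nonpos hd h2.le
        linarith
      · have := mul_neg_of_pos_of_neg h3 h2
        linarith
  · rcases le_or_gt (v j 0) 0 with h2 | h2
    · have := mul_nonpos_of_nonneg_of_nonpos hc h1.le
      have := mul_nonpos_of_nonneg_of_nonpos hd h2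
      linarith
    · have := mul_neg_of_neg_of_pos h1 h2
      linarith

end Pool.Agent.Q131.Snk
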