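import Pool.Agent.Q131.Snk.Ray
import Pool.Agent.Q61.Snk.Lagr
import Pool.Agent.Q61.Snk.Gordan

/-! Gordan duality for the faces and the theorem that heights of one sign can be replaced by
heights of the other sign. -/

namespace Pool.Agent.Q131.Snk

open Set Helper479.Sink

variable {n : ℕ} {G : SimpleGraph (Fin n)} {p : Fin n → Fin 3 → ℝ}

lemma gordan' {ι : Type} [Fintype ι] (A : ι → Fin n → ℝ) :
    (∃ h : Fin n → ℝ, ∀ i, 0 < ∑ v, A i v * h v) ∨
    (∃ lam : ι → ℝ, (∀ i, 0 ≤ lam i) ∧ (∃ i, lam i ≠ 0) ∧ ∀ v, ∑ i, lam i * A i v = 0) := by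
  classical
  let e := Fintype.equivFin ι
  rcases Pool.Agent.Q61.Snk.job4 n (Fintype.card ι) (fun k => A (e.symm k)) with
    ⟨h, hh⟩ | ⟨lam, h1, ⟨i, hi⟩, h3⟩
  · left
    refine ⟨h, fun i => ?_⟩
    have := hh (e i)
    simpa using this
  · right
    refine ⟨fun i => lam (e i), fun i => h1 _, ⟨e.symm i, by simpa using hi⟩, fun v => ?_⟩
    rw [← h3 v, ← Equiv.sum_comp e]
    simp

lemma Dh_sum (h : Fin n → ℝ) (a b c : Fin n) :
    ∑ v, Dh p (Pi.single v 1) a b c * h v = Dh p h a b c := by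
  classical
  unfold Dh
  simp only [Pi.single_apply, add_mul, Finset.sum_add_distrib, ite_mul, one_mul, zero_mul]
  simp only [Finset.sum_ite_eq, Finset.mem_univ, if_true]
  ring

/-- the Lagrangian property of the determinants of a drawing -/
def LagProp (G : SimpleGraph (Fin n)) (p : Fin n → Fin 3 → ℝ) : Prop :=
  ∀ ρ : Fin n → Fin n → Fin n → ℝ, (∀ a b c, Fc G p a b c → ρ a b c = ρ b c a) →
  (∀ a b c, ¬ Fc G p a b c → ρ a b c = 0) →
  (∀ h : Fin n → ℝ, ∑ a, ∑ b, ∑ c, ρ a b c * Dh p h a b c = 0) →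
  ∃ g : Fin n → ℝ, ∀ a b c, Fc G p a b c → Dh p g a b c =
    ρ a b c * (hA (p b) (p c) * hA (p c) (p a) * hA (p a) (p b))

lemma Stand.lag (H : Stand G p) (gen : ∀ a b, G.Adj a b → hA (p a) (p b) ≠ 0) : LagProp G p :=
  fun ρ h1 h2 h3 => Pool.Agent.Q61.Snk.job3 n G (Fc G p) (fun v => p v 0) (fun v => p v 1)
    H.tri.four H.tri.card (fun _ _ _ h => h.rot) (fun _ _ _ h => h.ab)
    (Pool.Agent.Q198.Snk.job2a n G p H.tri) (Pool.Agent.Q198.Snk.job2b n G p H.tri) gen
    (fun h hh => H.ker hh) ρ h1 h2 h3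

/-- duality -/
lemma dual (hL : LagProp G p) {F : Fin n → Fin n → Fin n → Prop}
    (hF : ∀ a b c, F a b c → Fc G p a b c) (hrot : ∀ a b c, F a b c → F b c a)
    {a0 b0 c0 : Fin n} (hT : Fc G p a0 b0 c0) (hTF : ¬ F a0 b0 c0) {h1 : Fin n → ℝ}
    (hh1 : ∀ a b c, F a b c → 0 < Dh p h1 a b c) :
    (∃ h2 : Fin n → ℝ, (∀ a b c, F a b c → 0 < Dh p h2 a b c) ∧ Dh p h2 a0 b0 c0 < 0) ∨
    (∃ (g : Fin n → ℝ) (ρ : Fin n → Fin n → Fin n → ℝ),
      (∀ a b c, Fc G p a b c → Dh p g a b c =
        ρ a b c * (hA (p b) (p c) * hA (p c) (p a) * hA (p a) (p b))) ∧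
      (∀ a b c, F a b c → 0 ≤ ρ a b c) ∧ ρ a0 b0 c0 < 0 ∧
      (∀ a b c, ¬ F a b c → ¬ (a = a0 ∧ b = b0 ∧ c = c0) → ¬ (b = a0 ∧ c = b0 ∧ a = c0) →
        ¬ (c = a0 ∧ a = b0 ∧ b = c0) → ρ a b c = 0)) := by
  classical
  rcases gordan' (ι := Fin n × Fin n × Fin n) (fun f v => if F f.1 f.2.1 f.2.2 then
    Dh p (Pi.single v 1) f.1 f.2.1 f.2.2 else - Dh p (Pi.single v 1) a0 b0 c0) with
    ⟨h, hh⟩ | ⟨lam, l1, ⟨i, hi⟩, l3⟩
  · left
    refine ⟨h, fun a b c hf => ?_, ?_⟩
    · have := hh (a, b, c)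
      simp only [hf, if_true] at this
      rwa [Dh_sum] at this
    · have := hh (a0, b0, c0)
      simp only [hTF, if_false, neg_mul, Finset.sum_neg_distrib] at this
      rw [Dh_sum] at this
      linarith
  · right
    set Lam : Fin n → Fin n → Fin n → ℝ := fun a b c => if F a b c then lam (a, b, c) else 0
      with hLam
    set μ : ℝ := ∑ f : Fin n × Fin n × Fin n, if F f.1 f.2.1 f.2.2 then 0 else lam f with hμ
    -- the relation
    have hrel : ∀ h : Fin n → ℝ, ∑ f : Fin n × Fin n × Fin n,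
        Lam f.1 f.2.1 f.2.2 * Dh p h f.1 f.2.1 f.2.2 = μ * Dh p h a0 b0 c0 := by
      intro h
      have e1 : ∑ v, (∑ f, lam f * (if F f.1 f.2.1 f.2.2 then
          Dh p (Pi.single v 1) f.1 f.2.1 f.2.2 else - Dh p (Pi.single v 1) a0 b0 c0)) * h v = 0 := by
        apply Finset.sum_eq_zero
        intro v _
        rw [l3 v, zero_mul]
      simp only [Finset.sum_mul] at e1
      rw [Finset.sum_comm] at e1
      have e2 : ∀ f : Fin n × Fin n × Fin n, ∑ v, lam f * (if F f.1 f.2.1 f.2.2 then
          Dh p (Pi.single v 1) f.1 f.2.1 f.2.2 else - Dh p (Pi.single v 1) a0 b0 c0) * h v =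
          Lam f.1 f.2.1 f.2.2 * Dh p h f.1 f.2.1 f.2.2 -
          (if F f.1 f.2.1 f.2.2 then 0 else lam f) * Dh p h a0 b0 c0 := by
        intro f
        by_cases hf : F f.1 f.2.1 f.2.2
        · simp only [hLam, hf, if_true, zero_mul, sub_zero, mul_assoc]
          rw [← Finset.mul_sum, Dh_sum]
        · simp only [hLam, hf, if_false, zero_mul, zero_sub, mul_assoc, neg_mul, mul_neg,
            Finset.sum_neg_distrib]
          rw [← Finset.mul_sum, Dh_sum]
      simp only [e2, Finset.sum_sub_distrib] at e1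
      rw [← Finset.sum_mul, ← hμ] at e1
      linarith
    have hμ0 : 0 ≤ μ := by
      apply Finset.sum_nonneg
      intro f _
      split_ifs
      · exact le_rfl
      · exact l1 f
    have hLam0 : ∀ a b c, 0 ≤ Lam a b c := by
      intro a b c
      simp only [hLam]
      split_ifs
      · exact l1 _
      · exact le_rfl
    have hμpos : 0 < μ := by
      rcases hμ0.eq_or_lt with h0 | h0
      · exfalso
        have h2 := hrel h1
        rw [← h0, zero_mul] at h2
        have hnn : ∀ f ∈ (Finset.univ : Finset (Fin n × Fin n × Fin n)),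
            0 ≤ Lam f.1 f.2.1 f.2.2 * Dh p h1 f.1 f.2.1 f.2.2 := by
          intro f _
          by_cases hf : F f.1 f.2.1 f.2.2
          · exact mul_nonneg (hLam0 _ _ _) (hh1 _ _ _ hf).le
          · simp [hLam, hf]
        have h3 := (Finset.sum_eq_zero_iff_of_nonneg hnn).mp h2 i (Finset.mem_univ _)
        have hnn2 : ∀ f ∈ (Finset.univ : Finset (Fin n × Fin n × Fin n)),
            0 ≤ (if F f.1 f.2.1 f.2.2 then 0 else lam f) := by
          intro f _
          split_ifs
          · exact le_rfl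
          · exact l1 f
        have h4 := (Finset.sum_eq_zero_iff_of_nonneg hnn2).mp (hμ.symm.trans h0.symm) i
          (Finset.mem_univ _)
        by_cases hf : F i.1 i.2.1 i.2.2
        · have h5 := hh1 _ _ _ hf
          have h6 := (mul_eq_zero.mp h3).resolve_right h5.ne'
          simp only [hLam, hf, if_true] at h6
          exact hi h6
        · simp only [hf, if_false] at h4
          exact hi h4
      · exact h0
    set τ : Fin n → Fin n → Fin n → ℝ := fun a b c => if a = a0 ∧ b = b0 ∧ c = c0 then 1 else 0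
      with hτ
    have hτ0 : ∀ a b c, 0 ≤ τ a b c := by
      intro a b c; simp only [hτ]; split_ifs <;> norm_num
    set ρ : Fin n → Fin n → Fin n → ℝ := fun a b c => Lam a b c + Lam b c a + Lam c a b -
      μ * (τ a b c + τ b c a + τ c a b) with hρ
    have hFrot : ∀ a b c, F b c a → F a b c := fun a b c h => hrot _ _ _ (hrot _ _ _ h)
    obtain ⟨g, hg⟩ := hL ρ (fun a b c _ => by simp only [hρ]; ring)
      (fun a b c hn => by
        have n1 : ¬ F a b c := fun h => hn (hF _ _ _ h)
        have n2 : ¬ F b c a := fun h => n1 (hFrot _ _ _ h)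
        have n3 : ¬ F c a b := fun h => n1 (hrot _ _ _ h)
        have m1 : ¬ (a = a0 ∧ b = b0 ∧ c = c0) := by
          rintro ⟨rfl, rfl, rfl⟩; exact hn hT
        have m2 : ¬ (b = a0 ∧ c = b0 ∧ a = c0) := by
          rintro ⟨rfl, rfl, rfl⟩; exact hn hT.rot.rot
        have m3 : ¬ (c = a0 ∧ a = b0 ∧ b = c0) := by
          rintro ⟨rfl, rfl, rfl⟩; exact hn hT.rot
        simp [hρ, hLam, hτ, n1, n2, n3, m1, m2, m3])
      (fun h => by
        have s1 : ∑ a, ∑ b, ∑ c, Lam a b c * Dh p h a b c = μ * Dh p h a0 b0 c0 := by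
          rw [← hrel h, Fintype.sum_prod_type]
          refine Finset.sum_congr rfl fun a _ => ?_
          rw [Fintype.sum_prod_type]
        have s2 : ∑ a, ∑ b, ∑ c, Lam b c a * Dh p h a b c = μ * Dh p h a0 b0 c0 := by
          rw [← s1, ← Pool.Agent.Q61.Snk.rot_sum (fun a b c => Lam a b c * Dh p h a b c)]
          simp only [Dh_rot]
        have s3 : ∑ a, ∑ b, ∑ c, Lam c a b * Dh p h a b c = μ * Dh p h a0 b0 c0 := by
          rw [← s1, ← Pool.Agent.Q61.Snk.rot_sum2 (fun a b c => Lam a b c * Dh p h a b c)]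
          simp only [Dh_rot]
        have t1 : ∑ a, ∑ b, ∑ c, τ a b c * Dh p h a b c = Dh p h a0 b0 c0 := by
          rw [Finset.sum_eq_single a0, Finset.sum_eq_single b0, Finset.sum_eq_single c0]
          · simp [hτ]
          · intro c _ hc; simp [hτ, hc]
          · intro h'; exact absurd (Finset.mem_univ _) h'
          · intro b _ hb; simp [hτ, hb]
          · intro h'; exact absurd (Finset.mem_univ _) h'
          · intro a _ ha; simp [hτ, ha]
          · intro h'; exact absurd (Finset.mem_univ _) h'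
        have t2 : ∑ a, ∑ b, ∑ c, τ b c a * Dh p h a b c = Dh p h a0 b0 c0 := by
          rw [← t1, ← Pool.Agent.Q61.Snk.rot_sum (fun a b c => τ a b c * Dh p h a b c)]
          simp only [Dh_rot]
        have t3 : ∑ a, ∑ b, ∑ c, τ c a b * Dh p h a b c = Dh p h a0 b0 c0 := by
          rw [← t1, ← Pool.Agent.Q61.Snk.rot_sum2 (fun a b c => τ a b c * Dh p h a b c)]
          simp only [Dh_rot]
        have expand : ∀ a b c, ρ a b c * Dh p h a b c =
            Lam a b c * Dh p h a b c + Lam b c a * Dh p h a b c + Lam c a b * Dh p h a b c -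
            μ * (τ a b c * Dh p h a b c) - μ * (τ b c a * Dh p h a b c) -
            μ * (τ c a b * Dh p h a b c) := by
          intro a b c; simp only [hρ]; ring
        simp only [expand, Finset.sum_add_distrib, Finset.sum_sub_distrib, ← Finset.mul_sum]
        rw [s1, s2, s3, t1, t2, t3]
        ring)
    refine ⟨g, ρ, hg, ?_, ?_, ?_⟩
    · intro a b c hf
      have m1 : ¬ (a = a0 ∧ b = b0 ∧ c = c0) := by
        rintro ⟨rfl, rfl, rfl⟩; exact hTF hf
      have m2 : ¬ (b = a0 ∧ c = b0 ∧ a = c0) := by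
        rintro ⟨rfl, rfl, rfl⟩; exact hTF (hrot _ _ _ hf)
      have m3 : ¬ (c = a0 ∧ a = b0 ∧ b = c0) := by
        rintro ⟨rfl, rfl, rfl⟩; exact hTF (hrot _ _ _ (hrot _ _ _ hf))
      have : ρ a b c = Lam a b c + Lam b c a + Lam c a b := by
        simp [hρ, hτ, m1, m2, m3]
      rw [this]
      have := hLam0 a b c
      have := hLam0 b c a
      have := hLam0 c a b
      linarith
    · have n1 : ¬ F a0 b0 c0 := hTF
      have n2 : ¬ F b0 c0 a0 := fun h => n1 (hFrot _ _ _ h)
      have n3 : ¬ F c0 a0 b0 := fun h => n1 (hrot _ _ _ h)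
      have e : ρ a0 b0 c0 = - (μ * (1 + τ b0 c0 a0 + τ c0 a0 b0)) := by
        simp [hρ, hLam, hτ, n1, n2, n3]
      rw [e]
      have := mul_pos hμpos (show 0 < 1 + τ b0 c0 a0 + τ c0 a0 b0 by
        have := hτ0 b0 c0 a0; have := hτ0 c0 a0 b0; linarith)
      linarith
    · intro a b c n1 m1 m2 m3
      have n2 : ¬ F b c a := fun h => n1 (hFrot _ _ _ h)
      have n3 : ¬ F c a b := fun h => n1 (hrot _ _ _ h)
      simp [hρ, hLam, hτ, n1, n2, n3, m1, m2, m3]

/-- heights of the sign opposite to `σ` can be replaced by heights of sign `σ` -/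
theorem Stand.opp (H : Stand G p) (gen : ∀ a b, G.Adj a b → hA (p a) (p b) ≠ 0) {σ : ℝ}
    (hσ : σ = 1 ∨ σ = -1) {h1 : Fin n → ℝ} (hneg : ∀ v, σ * h1 v < 0)
    (hh1 : ∀ a b c, Fc G p a b c → Side p a b c → 0 < Dh p h1 a b c) :
    ∃ h2 : Fin n → ℝ, (∀ v, 0 < σ * h2 v) ∧
      ∀ a b c, Fc G p a b c → Side p a b c → 0 < Dh p h2 a b c := by
  have hσ2 : σ * σ = 1 := by rcases hσ with rfl | rfl <;> norm_num
  have hσ' : -σ = 1 ∨ -σ = -1 := by rcases hσ with rfl | rfl <;> simp
  obtain ⟨aT, bT, cT, hT, hTP⟩ := H.exP hσ'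
  obtain ⟨aB, bB, cB, hB, hBP⟩ := H.exP hσ
  rcases dual (H.lag gen) (F := fun a b c => Fc G p a b c ∧ Side p a b c)
    (fun _ _ _ h => h.1) (fun _ _ _ h => ⟨h.1.rot, h.2.rot⟩) hT
    (fun h => h.2.not_plike hσ' hTP) (h1 := h1) (fun a b c h => hh1 a b c h.1 h.2) with
    ⟨h2, q1, q2⟩ | ⟨g, ρ, q1, q2, q3, q4⟩
  · obtain ⟨s, t, hst⟩ := H.sign hσ' hT hTP (fun a b c h h' => q1 a b c ⟨h, h'⟩) q2
    refine ⟨fun v => h2 v + (s * p v 0 + t * p v 1), fun v => ?_, fun a b c h h' => ?_⟩
    · have := hst v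
      linarith
    · have e1 := q1 a b c ⟨h, h'⟩
      have e2 := Dh_lin (p := p) s t a b c
      unfold Dh at e1 e2 ⊢
      linarith
  · exfalso
    -- the base face
    have hBnT : ∀ {a b c : Fin n}, PLike σ p a b c → PLike (-σ) p a b c → False := by
      intro a b c h h'
      have := h.1; have := h'.1
      linarith
    have hBF : ¬ (Fc G p aB bB cB ∧ Side p aB bB cB) := fun h => h.2.not_plike hσ hBP
    have hρB : ρ aB bB cB = 0 := by
      apply q4 _ _ _ hBF
      · rintro ⟨rfl, rfl, rfl⟩; exact hBnT hBP hTP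
      · rintro ⟨rfl, rfl, rfl⟩; exact hBnT hBP hTP.rot.rot
      · rintro ⟨rfl, rfl, rfl⟩; exact hBnT hBP hTP.rot
    have hgB : Dh p g aB bB cB = 0 := by rw [q1 _ _ _ hB, hρB, zero_mul]
    obtain ⟨s, t, e1, e2, e3⟩ := fit0 hBP hgB
    set k : Fin n → ℝ := fun v => -(g v - (s * p v 0 + t * p v 1)) with hk
    have hkD : ∀ a b c, Dh p k a b c = - Dh p g a b c := by
      intro a b c
      have := Dh_lin (p := p) s t a b c
      unfold Dh at this ⊢
      simp only [hk]
      linarith
    have kA : k aB = 0 := by simp only [hk]; linarith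
    have kB : k bB = 0 := by simp only [hk]; linarith
    have kC : k cB = 0 := by simp only [hk]; linarith
    set y : Fin n → ℝ := fun v => -(σ * h1 v) with hy
    have hypos : ∀ v, 0 < y v := fun v => by have := hneg v; simp only [hy]; linarith
    have hk0 : ∀ v, k v ≤ 0 := by
      by_contra hcon
      push Not at hcon
      obtain ⟨v0, hv0⟩ := hcon
      obtain ⟨v, -, hmax⟩ := Finset.exists_max_image Finset.univ (fun v => k v / y v)
        ⟨v0, Finset.mem_univ v0⟩
      set m := k v / y v with hm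
      have hm0 : 0 < m := lt_of_lt_of_le (div_pos hv0 (hypos v0)) (hmax v0 (Finset.mem_univ _))
      have hle : ∀ w, k w ≤ m * y w := by
        intro w
        have := hmax w (Finset.mem_univ _)
        rw [div_le_iff₀ (hypos w)] at this
        exact this
      have hkv : k v = m * y v := by rw [hm, div_mul_cancel₀ _ (hypos v).ne']
      have hkv0 : k v ≠ 0 := by rw [hkv]; exact (mul_pos hm0 (hypos v)).ne'
      rcases H.ray hσ v with ⟨a, c, hf, r1, r2⟩ | ⟨b, hvb, r, hr, b0, b1, -⟩
      · have r3 : σ * hA (p a) (p c) < 0 := by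
          rcases lt_trichotomy (σ * hA (p a) (p c)) 0 with h | h | h
          · exact h
          · exfalso
            rcases mul_eq_zero.mp h with h' | h'
            · rw [h'] at hσ2; norm_num at hσ2
            · exact gen _ _ hf.bc h'
          · exfalso
            rcases H.uniqP hσ hB hBP hf ⟨h, r1, r2⟩ with ⟨rfl, -, -⟩ | ⟨rfl, -, -⟩ | ⟨rfl, -, -⟩
            · exact hkv0 kA
            · exact hkv0 kB
            · exact hkv0 kC
        have hside : Side p v a c := by
          constructor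
          · rintro ⟨w1, w2, w3⟩
            rcases hσ with rfl | rfl
            · linarith
            · linarith
          · rintro ⟨w1, w2, w3⟩
            rcases hσ with rfl | rfl
            · linarith
            · linarith
        have d1 := hkD v a c
        rw [q1 _ _ _ hf] at d1
        have d2 := q2 v a c ⟨hf, hside⟩
        have d3 := hh1 v a c hf hside
        set A := σ * hA (p a) (p c) with hA'
        set B := σ * hA (p c) (p v) with hB'
        set C := σ * hA (p v) (p a) with hC'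
        have hprod : σ * (hA (p a) (p c) * hA (p c) (p v) * hA (p v) (p a)) = A * B * C := by
          rw [hA', hB', hC']
          have : σ * hA (p a) (p c) * (σ * hA (p c) (p v)) * (σ * hA (p v) (p a)) =
            (σ * σ) * (σ * (hA (p a) (p c) * hA (p c) (p v) * hA (p v) (p a))) := by ring
          rw [this, hσ2, one_mul]
        have hABC : A * B * C < 0 := mul_neg_of_neg_of_pos (mul_neg_of_neg_of_pos r3 r1) r2
        have f1 : σ * Dh p k v a c = -(ρ v a c * (A * B * C)) := by
          rw [d1, ← hprod]; ring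
        have f2 : 0 ≤ σ * Dh p k v a c := by
          rw [f1]
          have := mul_nonpos_of_nonneg_of_nonpos d2 hABC.le
          linarith
        have f3 : σ * Dh p k v a c = k v * A + k a * B + k c * C := by
          rw [hA', hB', hC']; unfold Dh; ring
        have f4 : y v * A + y a * B + y c * C = - Dh p h1 v a c := by
          simp only [hy]
          rw [hA', hB', hC']
          have : -(σ * h1 v) * (σ * hA (p a) (p c)) + -(σ * h1 a) * (σ * hA (p c) (p v)) +
            -(σ * h1 c) * (σ * hA (p v) (p a)) = -((σ * σ) * Dh p h1 v a c) := by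
            unfold Dh; ring
          rw [this, hσ2, one_mul]
        have f5 : k a * B ≤ m * y a * B := mul_le_mul_of_nonneg_right (hle a) r1.le
        have f6 : k c * C ≤ m * y c * C := mul_le_mul_of_nonneg_right (hle c) r2.le
        have f7 : k v * A + k a * B + k c * C ≤ m * (y v * A + y a * B + y c * C) := by
          rw [hkv]; nlinarith
        rw [f4] at f7
        have := mul_pos hm0 d3
        nlinarith
      · apply gen v b hvb
        unfold hA
        rw [b0, b1]; ring
    have d1 := hkD aT bT cT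
    rw [q1 _ _ _ hT] at d1
    obtain ⟨t1, t2, t3⟩ := hTP
    have e4 : σ * Dh p k aT bT cT = -(k aT * (-σ * hA (p bT) (p cT)) +
        k bT * (-σ * hA (p cT) (p aT)) + k cT * (-σ * hA (p aT) (p bT))) := by
      unfold Dh; ring
    have e5 : 0 ≤ σ * Dh p k aT bT cT := by
      rw [e4]
      have := mul_nonpos_of_nonpos_of_nonneg (hk0 aT) t1.le
      have := mul_nonpos_of_nonpos_of_nonneg (hk0 bT) t2.le
      have := mul_nonpos_of_nonpos_of_nonneg (hk0 cT) t3.le
      linarith
    have e6 : σ * Dh p k aT bT cT = ρ aT bT cT * ((-σ * hA (p bT) (p cT)) *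
        (-σ * hA (p cT) (p aT)) * (-σ * hA (p aT) (p bT))) := by
      rw [d1]
      have : ρ aT bT cT * ((-σ * hA (p bT) (p cT)) * (-σ * hA (p cT) (p aT)) *
        (-σ * hA (p aT) (p bT))) = -((σ * σ) * σ * (ρ aT bT cT * (hA (p bT) (p cT) *
          hA (p cT) (p aT) * hA (p aT) (p bT)))) := by ring
      rw [this, hσ2]; ring
    have e7 : ρ aT bT cT * ((-σ * hA (p bT) (p cT)) *
        (-σ * hA (p cT) (p aT)) * (-σ * hA (p aT) (p bT))) < 0 :=
      mul_neg_of_neg_of_pos q3 (mul_pos (mul_pos t1 t2) t3)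
    linarith

end Pool.Agent.Q131.Snk
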