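import Pool.Agent.Q131.Snk.Ker

/-! The face entered by the vertical ray at a vertex. -/

namespace Pool.Agent.Q131.Snk

open Set Helper479.Sink Topology Filter

variable {n : ℕ} {G : SimpleGraph (Fin n)} {p : Fin n → Fin 3 → ℝ}

lemma exists_frequently {ι : Type*} [Finite ι] {l : Filter ℝ} {P : ι → ℝ → Prop}
    (h : ∃ᶠ e in l, ∃ i, P i e) : ∃ i, ∃ᶠ e in l, P i e := by
  by_contra hno
  push Not at hno
  apply h
  have : ∀ᶠ e in l, ∀ i, ¬ P i e := by
    rw [eventually_all]
    exact hno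
  filter_upwards [this] with e he
  push Not
  exact he

lemma ray_tendsto (x : Fin 3 → ℝ) (σ : ℝ) :
    Tendsto (fun e : ℝ => x + (e * σ) • north) (𝓝[>] 0) (𝓝 x) := by
  have hc : Continuous (fun e : ℝ => x + (e * σ) • north) := by fun_prop
  have := hc.tendsto 0
  simp only [zero_mul, zero_smul, add_zero] at this
  exact this.mono_left nhdsWithin_le_nhds

/-- if the open ray of direction `σ` at the vertex `v` enters the face `v a c` -/
lemma Stand.ray_sign (H : Stand G p) {σ : ℝ} (hσ : σ = 1 ∨ σ = -1) {v a c : Fin n}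
    (hf : Fc G p v a c)
    (hx : ∃ᶠ e in 𝓝[>] (0:ℝ), p v + (e * σ) • north ∈ Reg (p v) (p a) (p c)) :
    0 < σ * hA (p c) (p v) ∧ 0 < σ * hA (p v) (p a) := by
  set d := det3 (p v) (p a) (p c) with hd
  have hd0 : d ≠ 0 := hf.det_ne
  have hcomb : ∀ e : ℝ, p v + (e * σ) • north = (1 + e * (σ * hA (p a) (p c)) / d) • p v +
      (e * (σ * hA (p c) (p v)) / d) • p a + (e * (σ * hA (p v) (p a)) / d) • p c := by
    intro e
    conv_lhs => rw [north_comb hf.det_ne]
    rw [smul_add, smul_add, smul_smul, smul_smul, smul_smul, add_smul, one_smul, ← hd]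
    have e1 : e * σ * (hA (p a) (p c) / d) = e * (σ * hA (p a) (p c)) / d := by ring
    have e2 : e * σ * (hA (p c) (p v) / d) = e * (σ * hA (p c) (p v)) / d := by ring
    have e3 : e * σ * (hA (p v) (p a) / d) = e * (σ * hA (p v) (p a)) / d := by ring
    rw [e1, e2, e3]; abel
  have hpos : ∀ᶠ e in 𝓝[>] (0:ℝ), 0 < e := eventually_mem_nhdsWithin
  rcases lt_or_gt_of_ne hd0 with hneg | hpos'
  · -- large face
    have hns : ¬ Side p v a c := by
      intro hs
      have := H.side_pos hf hs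
      linarith
    have hev : ∀ᶠ e in 𝓝[>] (0:ℝ), 0 ≤ 1 + e * (σ * hA (p a) (p c)) / d := by
      have hc : Continuous (fun e : ℝ => 1 + e * (σ * hA (p a) (p c)) / d) := by fun_prop
      have ht := hc.tendsto 0
      simp only [zero_mul, zero_div, add_zero] at ht
      have := ht.eventually (lt_mem_nhds (show (0:ℝ) < 1 by norm_num))
      exact (this.filter_mono nhdsWithin_le_nhds).mono fun e he => le_of_lt he
    obtain ⟨e, hxe, he1, he0⟩ := (hx.and_eventually (hev.and hpos)).exists
    have hnCC : p v + (e * σ) • north ∉ CC (p v) (p a) (p c) := by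
      obtain ⟨-, ⟨h, -⟩ | ⟨-, h⟩⟩ := hxe
      · exact absurd h (not_lt.mpr hneg.le)
      · exact h
    have hnot : ¬ (0 ≤ e * (σ * hA (p c) (p v)) / d ∧ 0 ≤ e * (σ * hA (p v) (p a)) / d) := by
      rintro ⟨h1, h2⟩
      exact hnCC ⟨_, _, _, he1, h1, h2, hcomb e⟩
    have key : ∀ x : ℝ, ¬ 0 ≤ e * x / d → 0 < x := by
      intro x hx
      by_contra hc
      apply hx
      exact div_nonneg_of_nonpos (mul_nonpos_of_nonneg_of_nonpos he0.le (not_lt.mp hc)) hneg.le
    rw [not_and_or] at hnot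
    rcases not_side hns with hN | hS
    · rcases hσ with rfl | rfl
      · exact ⟨by rw [one_mul]; exact hN.2.1, by rw [one_mul]; exact hN.2.2⟩
      · exfalso
        rcases hnot with h | h
        · have := key _ h; have := hN.2.1; linarith
        · have := key _ h; have := hN.2.2; linarith
    · rcases hσ with rfl | rfl
      · exfalso
        rcases hnot with h | h
        · have := key _ h; have := hS.2.1; linarith
        · have := key _ h; have := hS.2.2; linarith
      · exact ⟨by have := hS.2.1; linarith, by have := hS.2.2; linarith⟩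
  · obtain ⟨e, hxe, he0⟩ := (hx.and_eventually hpos).exists
    obtain ⟨-, ⟨-, α, β, γ, hα, hβ, hγ, he⟩ | ⟨h, -⟩⟩ := hxe
    · rw [hcomb e] at he
      obtain ⟨-, e2, e3⟩ := indep3 hf.det_ne he
      have key : ∀ {x y : ℝ}, e * x / d = y → 0 < y → 0 < x := by
        intro x y h hy
        rw [← h] at hy
        by_contra hc
        have := div_nonpos_of_nonpos_of_nonneg
          (mul_nonpos_of_nonneg_of_nonpos (le_of_lt he0) (not_lt.mp hc)) (le_of_lt hpos')
        linarith
      exact ⟨key e2 hβ, key e3 hγ⟩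
    · exact absurd h (not_lt.mpr hpos'.le)

/-- the vertical ray at a vertex enters a face at that vertex, or runs along a vertical edge -/
lemma Stand.ray (H : Stand G p) {σ : ℝ} (hσ : σ = 1 ∨ σ = -1) (v : Fin n) :
    (∃ a c, Fc G p v a c ∧ 0 < σ * hA (p c) (p v) ∧ 0 < σ * hA (p v) (p a)) ∨
    (∃ b, G.Adj v b ∧ ∃ r : ℝ, 0 < r ∧ p b 0 = r * p v 0 ∧ p b 1 = r * p v 1 ∧
      0 < σ * (p b 2 - r * p v 2)) := by
  have hE := H.tri.emb
  have hσ2 : σ * σ = 1 := by rcases hσ with rfl | rfl <;> norm_num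
  have hpos : ∀ᶠ e in 𝓝[>] (0:ℝ), 0 < e := eventually_mem_nhdsWithin
  have hum := H.u_ne v
  have hv0 := hE.ne0 v
  by_cases hfreq : ∃ᶠ e in 𝓝[>] (0:ℝ), p v + (e * σ) • north ∈ SkC G p
  · right
    have h1 : ∃ᶠ e in 𝓝[>] (0:ℝ), ∃ q : Fin n × Fin n, G.Adj q.1 q.2 ∧
        p v + (e * σ) • north ∈ EC (p q.1) (p q.2) := by
      refine hfreq.mono fun e he => ?_
      obtain ⟨-, i, j, hij, hx⟩ := he
      exact ⟨(i, j), hij, hx⟩
    obtain ⟨⟨i, j⟩, h2⟩ := exists_frequently h1
    obtain ⟨e0, hij, -⟩ := h2.exists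
    have h3 : ∃ᶠ e in 𝓝[>] (0:ℝ), p v + (e * σ) • north ∈ EC (p i) (p j) := h2.mono fun e he => he.2
    have hcl := Pool.Agent.Q198.Snk.EC_closed (Pool.Agent.Q198.Snk.EmbC.det_pos hE hij)
    have hmem : p v ∈ EC (p i) (p j) := hcl.mem_of_frequently_of_tendsto h3 (ray_tendsto _ _)
    obtain ⟨b, hvb, h4⟩ : ∃ b, G.Adj v b ∧ ∃ᶠ e in 𝓝[>] (0:ℝ),
        p v + (e * σ) • north ∈ EC (p v) (p b) := by
      rcases hE.vert i j v hij hmem with h | h
      · subst h; exact ⟨j, hij, h3⟩
      · subst h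
        refine ⟨i, hij.symm, h3.mono fun e he => ?_⟩
        obtain ⟨s, t, hs, ht, e'⟩ := he
        exact ⟨t, s, ht, hs, by rw [e', add_comm]⟩
    obtain ⟨e, ⟨s, t, hs, ht, he⟩, he0⟩ := (h4.and_eventually hpos).exists
    have a0 := congrFun he 0
    have a1 := congrFun he 1
    have a2 := congrFun he 2
    simp only [Pi.add_apply, Pi.smul_apply, smul_eq_mul, north, Matrix.cons_val, mul_zero,
      add_zero, mul_one] at a0 a1 a2
    have ht0 : t ≠ 0 := by
      intro h0
      rw [h0] at a0 a1 a2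
      have b0 : (1 - s) * p v 0 = 0 := by linarith
      have b1 : (1 - s) * p v 1 = 0 := by linarith
      have hs1 : 1 - s = 0 := by
        by_contra hne
        exact hum ⟨(mul_eq_zero.mp b0).resolve_left hne, (mul_eq_zero.mp b1).resolve_left hne⟩
      have hs2 : s = 1 := by linarith
      rw [hs2] at a2
      have : e * σ = 0 := by linarith
      rcases mul_eq_zero.mp this with h | h
      · linarith
      · rw [h] at hσ2; norm_num at hσ2
    have htp : 0 < t := lt_of_le_of_ne ht (Ne.symm ht0)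
    have c0 : p b 0 = (1 - s) / t * p v 0 := by field_simp; linarith
    have c1 : p b 1 = (1 - s) / t * p v 1 := by field_simp; linarith
    have hr : 0 < (1 - s) / t := by
      by_contra hc
      have hc' : 0 ≤ -((1 - s) / t) := by linarith
      have := (H.horiz hvb hc' zero_le_one (by rw [c0]; ring) (by rw [c1]; ring)).2
      exact one_ne_zero this
    refine ⟨b, hvb, (1 - s) / t, hr, c0, c1, ?_⟩
    have h5 : σ * (p b 2 - (1 - s) / t * p v 2) = e / t := by
      have : p b 2 - (1 - s) / t * p v 2 = (e * σ) / t := by field_simp; linarith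
      rw [this]
      have h6 : σ * (e * σ / t) = (σ * σ) * (e / t) := by ring
      rw [h6, hσ2, one_mul]
    rw [h5]
    exact div_pos he0 htp
  · left
    have hev : ∀ᶠ e in 𝓝[>] (0:ℝ), p v + (e * σ) • north ∉ SkC G p := not_frequently.mp hfreq
    have hne0 : ∀ᶠ e in 𝓝[>] (0:ℝ), p v + (e * σ) • north ≠ 0 := by
      have := (ray_tendsto (p v) σ).eventually (isOpen_ne.mem_nhds hv0)
      exact this
    have h1 : ∃ᶠ e in 𝓝[>] (0:ℝ), ∃ f : Fin n × Fin n × Fin n, Fc G p f.1 f.2.1 f.2.2 ∧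
        p v + (e * σ) • north ∈ Reg (p f.1) (p f.2.1) (p f.2.2) := by
      refine (hev.and hne0).frequently.mono fun e he => ?_
      obtain ⟨a, b, c, hf, hx⟩ := H.tri.cover _ he.2 he.1
      exact ⟨(a, b, c), hf, hx⟩
    obtain ⟨⟨a, b, c⟩, h2⟩ := exists_frequently h1
    obtain ⟨e0, hf, -⟩ := h2.exists
    have h3 : ∃ᶠ e in 𝓝[>] (0:ℝ), p v + (e * σ) • north ∈ Reg (p a) (p b) (p c) :=
      h2.mono fun e he => he.2
    have hvR : p v ∉ Reg (p a) (p b) (p c) := fun h => hf.empty _ h (H.vert_sk v)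
    have hd := hf.det_ne
    have hCC : p v ∈ CC (p a) (p b) (p c) ∧ p v ∉ OC (p a) (p b) (p c) := by
      rcases lt_or_gt_of_ne hd with hneg | hpos'
      · rw [Pool.Agent.Q198.Snk.Reg_neg hneg] at hvR h3
        constructor
        · by_contra hno
          exact hvR hno
        · intro hO
          have hop := Pool.Agent.Q198.Snk.OC_open hd
          have := (ray_tendsto (p v) σ).eventually (hop.mem_nhds hO)
          obtain ⟨e, he1, he2⟩ := (h3.and_eventually this).exists
          exact he1 (Pool.Agent.Q198.Snk.OC_sub_CC _ _ _ he2)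
      · rw [Pool.Agent.Q198.Snk.Reg_pos hpos'] at hvR h3
        exact ⟨(Pool.Agent.Q198.Snk.CC_closed hd).mem_of_frequently_of_tendsto
          (h3.mono fun e he => Pool.Agent.Q198.Snk.OC_sub_CC _ _ _ he) (ray_tendsto _ _), hvR⟩
    -- `v` is a corner
    have hcorner : v = a ∨ v = b ∨ v = c := by
      rcases CC_boundary hCC.1 hCC.2 with h | h | h
      · rcases hE.vert _ _ v hf.ab h with h | h
        · exact Or.inl h
        · exact Or.inr (Or.inl h)
      · rcases hE.vert _ _ v hf.bc h with h | h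
        · exact Or.inr (Or.inl h)
        · exact Or.inr (Or.inr h)
      · rcases hE.vert _ _ v hf.ca h with h | h
        · exact Or.inr (Or.inr h)
        · exact Or.inl h
    rcases hcorner with h | h | h
    · subst h
      obtain ⟨q1, q2⟩ := H.ray_sign hσ hf h3
      exact ⟨b, c, hf, q1, q2⟩
    · subst h
      rw [← Pool.Agent.Q198.Snk.Reg_rot] at h3
      obtain ⟨q1, q2⟩ := H.ray_sign hσ hf.rot h3
      exact ⟨c, a, hf.rot, q1, q2⟩
    · subst h
      rw [← Pool.Agent.Q198.Snk.Reg_rot, ← Pool.Agent.Q198.Snk.Reg_rot] at h3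
      obtain ⟨q1, q2⟩ := H.ray_sign hσ hf.rot.rot h3
      exact ⟨a, b, hf.rot.rot, q1, q2⟩

end Pool.Agent.Q131.Snk
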