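import Pool.Agent.Q131.Snk.Cone

/-! Graph and separation lemmas for the 15-vertex triangulation (MP_b37e0c_co; adapted from
`Pool/Agent/Helper479/Sink/NoSink2.lean`). -/

namespace Pool.Agent.Q131.Snk

open Set Helper479.Sink

def adjB (i j : ℕ) : Bool :=
  El.any (fun e => (decide (e.1 = i) && decide (e.2 = j)) || (decide (e.1 = j) && decide (e.2 = i)))

/-- The graph of the example . -/
def G15 : SimpleGraph (Fin 15) where
  Adj i j := adjB i.val j.val = true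
  symm := by
    have : ∀ i j : Fin 15, adjB i.val j.val = true → adjB j.val i.val = true := by decide +kernel
    exact ⟨fun i j h => this i j h⟩
  loopless := ⟨by
    have : ∀ i : Fin 15, ¬ (adjB i.val i.val = true) := by decide +kernel
    exact this⟩

instance : DecidableRel G15.Adj := fun i j => inferInstanceAs (Decidable (adjB i.val j.val = true))

/-- `s` weakly separates face `f` from face `g` -/
def SepF (s : Z3) (f g : ℕ) : Prop := cornersNonneg s f = true ∧ cornersNonpos s g = true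

lemma sepF_exists {f g : ℕ} (hf : f < 26) (hg : g < 26) (hne : f ≠ g) :
    ∃ s, SepF s f g ∨ SepF s g f := by
  have key : ∀ f g : ℕ, f < g → g < 26 → ∃ s, SepF s f g := by
    intro f g hfg hg
    have h := chkFF_true
    simp only [chkFF, List.all_eq_true, List.mem_range, Bool.and_eq_true] at h
    obtain ⟨k, rfl⟩ := Nat.exists_eq_add_of_lt hfg
    have h1 := h f (by omega) k (by omega)
    refine ⟨(FFl.getD f []).getD k ⟨0,0,0⟩, h1.1, ?_⟩
    have : f + k + 1 = f + 1 + k := by ring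
    rw [this]; exact h1.2
  rcases Nat.lt_or_gt_of_ne hne with h | h
  · obtain ⟨s, hs⟩ := key f g h hg; exact ⟨s, Or.inl hs⟩
  · obtain ⟨s, hs⟩ := key g f h hf; exact ⟨s, Or.inr hs⟩

lemma dR_nonneg_of {f : ℕ} (hf : f < 26) {M : Fin 3 → ℝ} (hM : InCone f M) {s : Z3}
    (h1 : 0 ≤ Z3.dot s (P (F f).1)) (h2 : 0 ≤ Z3.dot s (P (F f).2.1))
    (h3 : 0 ≤ Z3.dot s (P (F f).2.2)) : 0 ≤ dR s M := by
  have h := congrArg (dR s) (cramer hf M)
  rw [dR_smul, dR_comb, dR_toR, dR_toR, dR_toR] at h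
  have h1' : (0:ℝ) ≤ ((Z3.dot s (P (F f).1) : ℤ) : ℝ) := by exact_mod_cast h1
  have h2' : (0:ℝ) ≤ ((Z3.dot s (P (F f).2.1) : ℤ) : ℝ) := by exact_mod_cast h2
  have h3' : (0:ℝ) ≤ ((Z3.dot s (P (F f).2.2) : ℤ) : ℝ) := by exact_mod_cast h3
  obtain ⟨m1, m2, m3⟩ := hM
  have : 0 ≤ Df f * dR s M := by rw [h]; positivity
  exact nonneg_of_mul_nonneg_right this (Df_pos hf)

lemma dR_nonpos_of {f : ℕ} (hf : f < 26) {M : Fin 3 → ℝ} (hM : InCone f M) {s : Z3}
    (h1 : Z3.dot s (P (F f).1) ≤ 0) (h2 : Z3.dot s (P (F f).2.1) ≤ 0)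
    (h3 : Z3.dot s (P (F f).2.2) ≤ 0) : dR s M ≤ 0 := by
  have h := congrArg (dR s) (cramer hf M)
  rw [dR_smul, dR_comb, dR_toR, dR_toR, dR_toR] at h
  have h1' : ((Z3.dot s (P (F f).1) : ℤ) : ℝ) ≤ 0 := by exact_mod_cast h1
  have h2' : ((Z3.dot s (P (F f).2.1) : ℤ) : ℝ) ≤ 0 := by exact_mod_cast h2
  have h3' : ((Z3.dot s (P (F f).2.2) : ℤ) : ℝ) ≤ 0 := by exact_mod_cast h3
  obtain ⟨m1, m2, m3⟩ := hM
  have : Df f * dR s M ≤ 0 := by
    rw [h]
    have := mul_nonpos_of_nonneg_of_nonpos m1 h1'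
    have := mul_nonpos_of_nonneg_of_nonpos m2 h2'
    have := mul_nonpos_of_nonneg_of_nonpos m3 h3'
    linarith
  by_contra hc
  push Not at hc
  have := mul_pos (Df_pos hf) hc
  linarith

lemma InOpen.inCone {f : ℕ} {M : Fin 3 → ℝ} (h : InOpen f M) : InCone f M :=
  ⟨h.1.le, h.2.1.le, h.2.2.le⟩

lemma dR_pos_of {f : ℕ} (hf : f < 26) {M : Fin 3 → ℝ} (hM : InOpen f M) {s : Z3}
    (h : cornersNonneg s f = true) : 0 < dR s M := by
  simp only [cornersNonneg, Bool.and_eq_true, Bool.or_eq_true, decide_eq_true_eq] at h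
  obtain ⟨⟨⟨h1, h2⟩, h3⟩, h4⟩ := h
  have hh := congrArg (dR s) (cramer hf M)
  rw [dR_smul, dR_comb, dR_toR, dR_toR, dR_toR] at hh
  have h1' : (0:ℝ) ≤ ((Z3.dot s (P (F f).1) : ℤ) : ℝ) := by exact_mod_cast h1
  have h2' : (0:ℝ) ≤ ((Z3.dot s (P (F f).2.1) : ℤ) : ℝ) := by exact_mod_cast h2
  have h3' : (0:ℝ) ≤ ((Z3.dot s (P (F f).2.2) : ℤ) : ℝ) := by exact_mod_cast h3
  obtain ⟨m1, m2, m3⟩ := hM
  have a1 := mul_nonneg m1.le h1'
  have a2 := mul_nonneg m2.le h2'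
  have a3 := mul_nonneg m3.le h3'
  have : 0 < Df f * dR s M := by
    rw [hh]
    rcases h4 with (h4 | h4) | h4
    · have h4' : (0:ℝ) < ((Z3.dot s (P (F f).1) : ℤ) : ℝ) := by exact_mod_cast h4
      have := mul_pos m1 h4'
      linarith
    · have h4' : (0:ℝ) < ((Z3.dot s (P (F f).2.1) : ℤ) : ℝ) := by exact_mod_cast h4
      have := mul_pos m2 h4'
      linarith
    · have h4' : (0:ℝ) < ((Z3.dot s (P (F f).2.2) : ℤ) : ℝ) := by exact_mod_cast h4
      have := mul_pos m3 h4'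
      linarith
  exact (pos_iff_pos_of_mul_pos this).mp (Df_pos hf)

lemma dR_neg_of {f : ℕ} (hf : f < 26) {M : Fin 3 → ℝ} (hM : InOpen f M) {s : Z3}
    (h : cornersNonpos s f = true) : dR s M < 0 := by
  simp only [cornersNonpos, Bool.and_eq_true, Bool.or_eq_true, decide_eq_true_eq] at h
  obtain ⟨⟨⟨h1, h2⟩, h3⟩, h4⟩ := h
  have hh := congrArg (dR s) (cramer hf M)
  rw [dR_smul, dR_comb, dR_toR, dR_toR, dR_toR] at hh
  have h1' : ((Z3.dot s (P (F f).1) : ℤ) : ℝ) ≤ 0 := by exact_mod_cast h1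
  have h2' : ((Z3.dot s (P (F f).2.1) : ℤ) : ℝ) ≤ 0 := by exact_mod_cast h2
  have h3' : ((Z3.dot s (P (F f).2.2) : ℤ) : ℝ) ≤ 0 := by exact_mod_cast h3
  obtain ⟨m1, m2, m3⟩ := hM
  have a1 := mul_nonpos_of_nonneg_of_nonpos m1.le h1'
  have a2 := mul_nonpos_of_nonneg_of_nonpos m2.le h2'
  have a3 := mul_nonpos_of_nonneg_of_nonpos m3.le h3'
  have : Df f * dR s M < 0 := by
    rw [hh]
    rcases h4 with (h4 | h4) | h4
    · have h4' : ((Z3.dot s (P (F f).1) : ℤ) : ℝ) < 0 := by exact_mod_cast h4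
      have := mul_neg_of_pos_of_neg m1 h4'
      linarith
    · have h4' : ((Z3.dot s (P (F f).2.1) : ℤ) : ℝ) < 0 := by exact_mod_cast h4
      have := mul_neg_of_pos_of_neg m2 h4'
      linarith
    · have h4' : ((Z3.dot s (P (F f).2.2) : ℤ) : ℝ) < 0 := by exact_mod_cast h4
      have := mul_neg_of_pos_of_neg m3 h4'
      linarith
  by_contra hc
  push Not at hc
  have := mul_nonneg (Df_pos hf).le hc
  linarith

/-- a closed face cone does not meet the open cone of another face -/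
lemma disj {f g : ℕ} (hf : f < 26) (hg : g < 26) (hne : f ≠ g) {M : Fin 3 → ℝ}
    (h1 : InCone f M) (h2 : InOpen g M) : False := by
  obtain ⟨s, ⟨ha, hb⟩ | ⟨ha, hb⟩⟩ := sepF_exists hf hg hne
  · have := dR_neg_of hg h2 hb
    simp only [cornersNonneg, Bool.and_eq_true, Bool.or_eq_true, decide_eq_true_eq] at ha
    have := dR_nonneg_of hf h1 ha.1.1.1 ha.1.1.2 ha.1.2
    linarith
  · have := dR_pos_of hg h2 ha
    simp only [cornersNonpos, Bool.and_eq_true, Bool.or_eq_true, decide_eq_true_eq] at hb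
    have := dR_nonpos_of hf h1 hb.1.1.1 hb.1.1.2 hb.1.2
    linarith

lemma face_adj : ∀ f < 26, adjB (F f).1 (F f).2.1 = true ∧ adjB (F f).2.1 (F f).2.2 = true ∧
    adjB (F f).2.2 (F f).1 = true := by
  decide +kernel


end Pool.Agent.Q131.Snk
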