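import Pool.Agent.Q131.Snk.Flip

/-!
Definitions for the proofs of MP_731b42_co and MP_e680c3_co in terms of cones in `ℝ³`
(a drawing on the sphere is the same as a family of rays; the vectors `p i` need not be normalised).
-/

namespace Pool.Agent.Q131.Snk

open Set Helper479.Sink

/-- closed cone over an edge -/
def EC (p q : Fin 3 → ℝ) : Set (Fin 3 → ℝ) :=
  {x | ∃ s t : ℝ, 0 ≤ s ∧ 0 ≤ t ∧ x = s • p + t • q}

/-- open cone over a triangle -/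
def OC (p q r : Fin 3 → ℝ) : Set (Fin 3 → ℝ) :=
  {x | ∃ α β γ : ℝ, 0 < α ∧ 0 < β ∧ 0 < γ ∧ x = α • p + β • q + γ • r}

/-- closed cone over a triangle -/
def CC (p q r : Fin 3 → ℝ) : Set (Fin 3 → ℝ) :=
  {x | ∃ α β γ : ℝ, 0 ≤ α ∧ 0 ≤ β ∧ 0 ≤ γ ∧ x = α • p + β • q + γ • r}

/-- embedding, in the language of cones -/
structure EmbC {n : ℕ} (G : SimpleGraph (Fin n)) (p : Fin n → Fin 3 → ℝ) : Prop where
  ne0 : ∀ i, p i ≠ 0
  inj : ∀ i j (c : ℝ), 0 < c → p i = c • p j → i = j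
  anti : ∀ i j (c : ℝ), G.Adj i j → 0 < c → p i ≠ -(c • p j)
  meet : ∀ i j k l x, G.Adj i j → G.Adj k l → s(i, j) ≠ s(k, l) → x ≠ 0 →
    x ∈ EC (p i) (p j) → x ∈ EC (p k) (p l) →
      ∃ m, m ∈ s(i, j) ∧ m ∈ s(k, l) ∧ ∃ c : ℝ, 0 < c ∧ x = c • p m
  vert : ∀ i j m, G.Adj i j → p m ∈ EC (p i) (p j) → m = i ∨ m = j

/-- the cone over the union of the edges, without the origin -/
def SkC {n : ℕ} (G : SimpleGraph (Fin n)) (p : Fin n → Fin 3 → ℝ) : Set (Fin 3 → ℝ) :=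
  {x | x ≠ 0 ∧ ∃ i j, G.Adj i j ∧ x ∈ EC (p i) (p j)}

/-- the region to the left of an oriented triangle: the open cone over it if the determinant is
positive, the complement of the closed cone if it is negative -/
def Reg (p q r : Fin 3 → ℝ) : Set (Fin 3 → ℝ) :=
  {x | x ≠ 0 ∧ ((0 < det3 p q r ∧ x ∈ OC p q r) ∨ (det3 p q r < 0 ∧ x ∉ CC p q r))}

/-- `a b c` is an oriented face of the drawing -/
structure Fc {n : ℕ} (G : SimpleGraph (Fin n)) (p : Fin n → Fin 3 → ℝ) (a b c : Fin n) : Prop where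
  ab : G.Adj a b
  bc : G.Adj b c
  ca : G.Adj c a
  det_ne : det3 (p a) (p b) (p c) ≠ 0
  empty : ∀ x ∈ Reg (p a) (p b) (p c), x ∉ SkC G p

/-- triangulation, in the language of cones -/
structure TriC {n : ℕ} (G : SimpleGraph (Fin n)) (p : Fin n → Fin 3 → ℝ) : Prop where
  four : 4 ≤ n
  emb : EmbC G p
  cover : ∀ x, x ≠ 0 → x ∉ SkC G p → ∃ a b c, Fc G p a b c ∧ x ∈ Reg (p a) (p b) (p c)
  card : Nat.card G.edgeSet = 3 * n - 6

/-- JOB 1 -/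
def Job1 : Prop := ∀ (n : ℕ) (G : SimpleGraph (Fin n)) (v : Fin n → Fin 3 → ℝ), IsSPT G v →
  (∀ U, IsFace G v U → ∃ i j k, IsTriangularFace G v U i j k ∧ det3 (v i) (v j) (v k) ≠ 0) →
  TriC G v

/-- JOB 2 -/
def Job2a : Prop := ∀ (n : ℕ) (G : SimpleGraph (Fin n)) (p : Fin n → Fin 3 → ℝ), TriC G p →
  ∀ a b, G.Adj a b → ∃ c, Fc G p a b c

def Job2b : Prop := ∀ (n : ℕ) (G : SimpleGraph (Fin n)) (p : Fin n → Fin 3 → ℝ), TriC G p →
  ∀ a b c c', Fc G p a b c → Fc G p a b c' → c = c'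

def Job2c : Prop := ∀ (n : ℕ) (G : SimpleGraph (Fin n)) (p : Fin n → Fin 3 → ℝ), TriC G p →
  ∀ a b c a' b' c' x, Fc G p a b c → Fc G p a' b' c' → x ∈ Reg (p a) (p b) (p c) →
    x ∈ Reg (p a') (p b') (p c') →
      (a' = a ∧ b' = b ∧ c' = c) ∨ (a' = b ∧ b' = c ∧ c' = a) ∨ (a' = c ∧ b' = a ∧ c' = b)

/-- JOB 3: the Lagrangian lemma -/
def Job3 : Prop := ∀ (n : ℕ) (G : SimpleGraph (Fin n)) (F : Fin n → Fin n → Fin n → Prop)
  (x y : Fin n → ℝ), 4 ≤ n → Nat.card G.edgeSet = 3 * n - 6 →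
  (∀ a b c, F a b c → F b c a) → (∀ a b c, F a b c → G.Adj a b) →
  (∀ a b, G.Adj a b → ∃ c, F a b c) → (∀ a b c c', F a b c → F a b c' → c = c') →
  (∀ a b, G.Adj a b → x a * y b - y a * x b ≠ 0) →
  (∀ h : Fin n → ℝ, (∀ a b c, F a b c → h a * (x b * y c - y b * x c) +
      h b * (x c * y a - y c * x a) + h c * (x a * y b - y a * x b) = 0) →
    ∃ s t : ℝ, ∀ v, h v = s * x v + t * y v) →
  ∀ ρ : Fin n → Fin n → Fin n → ℝ, (∀ a b c, F a b c → ρ a b c = ρ b c a) →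
  (∀ a b c, ¬ F a b c → ρ a b c = 0) →
  (∀ h : Fin n → ℝ, ∑ a, ∑ b, ∑ c, ρ a b c * (h a * (x b * y c - y b * x c) +
      h b * (x c * y a - y c * x a) + h c * (x a * y b - y a * x b)) = 0) →
  ∃ g : Fin n → ℝ, ∀ a b c, F a b c → g a * (x b * y c - y b * x c) +
      g b * (x c * y a - y c * x a) + g c * (x a * y b - y a * x b) =
    ρ a b c * ((x b * y c - y b * x c) * (x c * y a - y c * x a) * (x a * y b - y a * x b))

/-- JOB 4: Gordan's theorem -/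
def Job4 : Prop := ∀ (n m : ℕ) (A : Fin m → Fin n → ℝ),
  (∃ h : Fin n → ℝ, ∀ i, 0 < ∑ v, A i v * h v) ∨
  (∃ lam : Fin m → ℝ, (∀ i, 0 ≤ lam i) ∧ (∃ i, lam i ≠ 0) ∧ ∀ v, ∑ i, lam i * A i v = 0)

end Pool.Agent.Q131.Snk
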