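import Pool.Agent.Q131.Snk.Stm

/-! The vertical monotonicity lemma: heights that keep the orientation of the side faces keep the
order of the edges along every longitude. -/

namespace Pool.Agent.Q131.Snk

open Set Helper479.Sink Topology

/-! ### determinants -/

lemma hA_smul (s t : ℝ) (a b : Fin 3 → ℝ) : hA (s • a) (t • b) = s * t * hA a b := by
  simp [hA]; ring

lemma hA_self (a : Fin 3 → ℝ) : hA a a = 0 := by simp [hA]; ring

lemma hA_swap (a b : Fin 3 → ℝ) : hA b a = - hA a b := by simp only [hA]; ring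

lemma det3_rot (a b c : Fin 3 → ℝ) : det3 b c a = det3 a b c := by simp [det3]; ring

lemma det3_swap (a b c : Fin 3 → ℝ) : det3 b a c = - det3 a b c := by simp [det3, hA]; ring

lemma det3_comb1 (α β γ : ℝ) (a b c : Fin 3 → ℝ) :
    det3 (α • a + β • b + γ • c) b c = α * det3 a b c := by
  simp [det3, hA]; ring

lemma det3_comb2 (α β γ : ℝ) (a b c : Fin 3 → ℝ) :
    det3 a (α • a + β • b + γ • c) c = β * det3 a b c := by
  simp [det3, hA]; ring

lemma det3_comb3 (α β γ : ℝ) (a b c : Fin 3 → ℝ) :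
    det3 a b (α • a + β • b + γ • c) = γ * det3 a b c := by
  simp [det3, hA]; ring

lemma cramer3 (a b c x : Fin 3 → ℝ) :
    det3 a b c • x = det3 x b c • a + det3 a x c • b + det3 a b x • c := by
  ext i
  fin_cases i <;> simp [det3, hA] <;> ring

lemma indep3 {a b c : Fin 3 → ℝ} (h : det3 a b c ≠ 0) {α β γ α' β' γ' : ℝ}
    (he : α • a + β • b + γ • c = α' • a + β' • b + γ' • c) : α = α' ∧ β = β' ∧ γ = γ' := by
  refine ⟨?_, ?_, ?_⟩
  · have := congrArg (fun x => det3 x b c) he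
    simp only [det3_comb1] at this
    exact mul_right_cancel₀ h this
  · have := congrArg (fun x => det3 a x c) he
    simp only [det3_comb2] at this
    exact mul_right_cancel₀ h this
  · have := congrArg (fun x => det3 a b x) he
    simp only [det3_comb3] at this
    exact mul_right_cancel₀ h this

lemma exists_comb {a b c : Fin 3 → ℝ} (h : det3 a b c ≠ 0) (x : Fin 3 → ℝ) :
    x = (det3 x b c / det3 a b c) • a + (det3 a x c / det3 a b c) • b +
      (det3 a b x / det3 a b c) • c := by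
  have := congrArg (fun y => (det3 a b c)⁻¹ • y) (cramer3 a b c x)
  simp only [smul_smul, inv_mul_cancel₀ h, one_smul, smul_add] at this
  simp only [div_eq_inv_mul]
  exact this

lemma north_comb {a b c : Fin 3 → ℝ} (h : det3 a b c ≠ 0) :
    north = (hA b c / det3 a b c) • a + (hA c a / det3 a b c) • b +
      (hA a b / det3 a b c) • c := by
  have := exists_comb h north
  have e1 : det3 north b c = hA b c := by simp [det3, hA, north]
  have e2 : det3 a north c = hA c a := by simp [det3, hA, north]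
  have e3 : det3 a b north = hA a b := by simp [det3, hA, north]
  rwa [e1, e2, e3] at this

lemma south_eq : south = -north := by
  ext i; fin_cases i <;> simp [north, south]

lemma mem_CC {a b c x : Fin 3 → ℝ} (h : det3 a b c ≠ 0) :
    x ∈ CC a b c ↔ 0 ≤ det3 x b c / det3 a b c ∧ 0 ≤ det3 a x c / det3 a b c ∧
      0 ≤ det3 a b x / det3 a b c := by
  constructor
  · rintro ⟨α, β, γ, hα, hβ, hγ, rfl⟩
    rw [det3_comb1, det3_comb2, det3_comb3]
    rw [mul_div_cancel_right₀ _ h, mul_div_cancel_right₀ _ h, mul_div_cancel_right₀ _ h]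
    exact ⟨hα, hβ, hγ⟩
  · rintro ⟨h1, h2, h3⟩
    exact ⟨_, _, _, h1, h2, h3, exists_comb h x⟩

/-- a point of the closed cone that is not in the open cone is on an edge cone -/
lemma CC_boundary {a b c x : Fin 3 → ℝ} (hx : x ∈ CC a b c) (ho : x ∉ OC a b c) :
    x ∈ EC a b ∨ x ∈ EC b c ∨ x ∈ EC c a := by
  obtain ⟨α, β, γ, hα, hβ, hγ, rfl⟩ := hx
  rcases hα.eq_or_lt with h | h
  · right; left
    refine ⟨β, γ, hβ, hγ, ?_⟩
    rw [← h]; simp
  rcases hβ.eq_or_lt with h' | h'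
  · right; right
    refine ⟨γ, α, hγ, hα, ?_⟩
    rw [← h']; simp [add_comm]
  rcases hγ.eq_or_lt with h'' | h''
  · left
    refine ⟨α, β, hα, hβ, ?_⟩
    rw [← h'']; simp
  exact absurd ⟨α, β, γ, h, h', h'', rfl⟩ ho

/-! ### side faces -/

variable {n : ℕ} {G : SimpleGraph (Fin n)} {p : Fin n → Fin 3 → ℝ}

/-- the determinant of a face for the heights `h` -/
def Dh (p : Fin n → Fin 3 → ℝ) (h : Fin n → ℝ) (a b c : Fin n) : ℝ :=
  h a * hA (p b) (p c) + h b * hA (p c) (p a) + h c * hA (p a) (p b)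

lemma Dh_rot (h : Fin n → ℝ) (a b c : Fin n) : Dh p h b c a = Dh p h a b c := by
  unfold Dh; ring

lemma Dh_z (a b c : Fin n) : Dh p (fun i => p i 2) a b c = det3 (p a) (p b) (p c) := rfl

/-- the three corners surround the north pole or the south pole, in the sense of directions -/
def NLike (p : Fin n → Fin 3 → ℝ) (a b c : Fin n) : Prop :=
  0 < hA (p b) (p c) ∧ 0 < hA (p c) (p a) ∧ 0 < hA (p a) (p b)

def SLike (p : Fin n → Fin 3 → ℝ) (a b c : Fin n) : Prop :=
  hA (p b) (p c) < 0 ∧ hA (p c) (p a) < 0 ∧ hA (p a) (p b) < 0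

def Side (p : Fin n → Fin 3 → ℝ) (a b c : Fin n) : Prop :=
  ¬ NLike p a b c ∧ ¬ SLike p a b c

lemma north_ne : north ≠ 0 := by
  intro h; have := congrFun h 2; simp [north] at this

lemma south_ne : south ≠ 0 := by
  intro h; have := congrFun h 2; simp [south] at this

/-- standing hypotheses: a triangulation with the poles off the skeleton, in which no face contains
both poles -/
structure Stand (G : SimpleGraph (Fin n)) (p : Fin n → Fin 3 → ℝ) : Prop where
  tri : TriC G p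
  deg : ∀ i, ∃ j, G.Adj i j
  npol : north ∉ SkC G p
  spol : south ∉ SkC G p
  sep : ∀ a b c, Fc G p a b c → ¬ (north ∈ Reg (p a) (p b) (p c) ∧ south ∈ Reg (p a) (p b) (p c))

lemma EC_sk {a b : Fin n} (hab : G.Adj a b) {x : Fin 3 → ℝ} (hx0 : x ≠ 0)
    (hx : x ∈ EC (p a) (p b)) : x ∈ SkC G p := ⟨hx0, a, b, hab, hx⟩

/-- if the north pole is off the skeleton, a large face contains it unless the face is S-like -/
lemma north_large (hN : north ∉ SkC G p) {a b c : Fin n} (hf : Fc G p a b c)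
    (hd : det3 (p a) (p b) (p c) < 0) (hS : ¬ SLike p a b c) :
    north ∈ Reg (p a) (p b) (p c) := by
  refine ⟨north_ne, Or.inr ⟨hd, ?_⟩⟩
  intro hCC
  have hO : north ∈ OC (p a) (p b) (p c) := by
    by_contra hno
    rcases CC_boundary hCC hno with h | h | h
    · exact hN (EC_sk hf.ab north_ne h)
    · exact hN (EC_sk hf.bc north_ne h)
    · exact hN (EC_sk hf.ca north_ne h)
  obtain ⟨α, β, γ, hα, hβ, hγ, he⟩ := hO
  rw [north_comb hf.det_ne] at he
  obtain ⟨e1, e2, e3⟩ := indep3 hf.det_ne he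
  apply hS
  have key : ∀ {u v : ℝ}, u / det3 (p a) (p b) (p c) = v → 0 < v → u < 0 := by
    intro u v huv hv
    rw [← huv] at hv
    by_contra hc
    have := div_nonpos_of_nonneg_of_nonpos (not_lt.mp hc) hd.le
    linarith
  exact ⟨key e1 hα, key e2 hβ, key e3 hγ⟩

/-- if the south pole is off the skeleton, a large face contains it unless the face is N-like -/
lemma south_large (hS : south ∉ SkC G p) {a b c : Fin n} (hf : Fc G p a b c)
    (hd : det3 (p a) (p b) (p c) < 0) (hN : ¬ NLike p a b c) :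
    south ∈ Reg (p a) (p b) (p c) := by
  refine ⟨south_ne, Or.inr ⟨hd, ?_⟩⟩
  intro hCC
  have hO : south ∈ OC (p a) (p b) (p c) := by
    by_contra hno
    rcases CC_boundary hCC hno with h | h | h
    · exact hS (EC_sk hf.ab south_ne h)
    · exact hS (EC_sk hf.bc south_ne h)
    · exact hS (EC_sk hf.ca south_ne h)
  obtain ⟨α, β, γ, hα, hβ, hγ, he⟩ := hO
  rw [south_eq, north_comb hf.det_ne, neg_add, neg_add, ← neg_smul, ← neg_smul,
    ← neg_smul] at he
  obtain ⟨e1, e2, e3⟩ := indep3 hf.det_ne he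
  apply hN
  have key : ∀ {u v : ℝ}, -(u / det3 (p a) (p b) (p c)) = v → 0 < v → 0 < u := by
    intro u v huv hv
    rw [← huv] at hv
    by_contra hc
    have := div_nonneg_of_nonpos (not_lt.mp hc) hd.le
    linarith
  exact ⟨key e1 hα, key e2 hβ, key e3 hγ⟩

lemma Stand.side_pos (H : Stand G p) {a b c : Fin n} (hf : Fc G p a b c) (hs : Side p a b c) :
    0 < det3 (p a) (p b) (p c) := by
  by_contra hcon
  have hneg : det3 (p a) (p b) (p c) < 0 := lt_of_le_of_ne (not_lt.mp hcon) hf.det_ne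
  exact H.sep a b c hf ⟨north_large H.npol hf hneg hs.2, south_large H.spol hf hneg hs.1⟩

/-- regions are star-shaped towards the poles they contain -/
lemma reg_shift {a b c x : Fin 3 → ℝ} {τ : ℝ} (h1 : 0 ≤ τ * hA b c) (h2 : 0 ≤ τ * hA c a)
    (h3 : 0 ≤ τ * hA a b) (hx : x ∈ Reg a b c) : x + τ • north ∈ Reg a b c := by
  obtain ⟨hx0, ⟨hd, hx⟩ | ⟨hd, hx⟩⟩ := hx
  · obtain ⟨α, β, γ, hα, hβ, hγ, rfl⟩ := hx
    have hN := north_comb hd.ne'
    have e : α • a + β • b + γ • c + τ • north = (α + τ * hA b c / det3 a b c) • a +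
        (β + τ * hA c a / det3 a b c) • b + (γ + τ * hA a b / det3 a b c) • c := by
      conv_lhs => rw [hN]
      rw [smul_add, smul_add, smul_smul, smul_smul, smul_smul, add_smul, add_smul, add_smul]
      simp only [mul_div_assoc]
      abel
    have q1 : 0 < α + τ * hA b c / det3 a b c := by have := div_nonneg h1 hd.le; linarith
    have q2 : 0 < β + τ * hA c a / det3 a b c := by have := div_nonneg h2 hd.le; linarith
    have q3 : 0 < γ + τ * hA a b / det3 a b c := by have := div_nonneg h3 hd.le; linarith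
    refine ⟨?_, Or.inl ⟨hd, ⟨_, _, _, q1, q2, q3, e⟩⟩⟩
    rw [e]
    intro h0
    have h0' : (α + τ * hA b c / det3 a b c) • a +
        (β + τ * hA c a / det3 a b c) • b + (γ + τ * hA a b / det3 a b c) • c =
        (0:ℝ) • a + (0:ℝ) • b + (0:ℝ) • c := by rw [h0]; simp
    have := (indep3 hd.ne' h0').1
    linarith
  · have key : x + τ • north ∉ CC a b c := by
      rintro ⟨α, β, γ, hα, hβ, hγ, he⟩
      apply hx
      have hN := north_comb hd.ne
      refine ⟨α - τ * hA b c / det3 a b c, β - τ * hA c a / det3 a b c,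
        γ - τ * hA a b / det3 a b c, ?_, ?_, ?_, ?_⟩
      · have := div_nonpos_of_nonneg_of_nonpos h1 hd.le; linarith
      · have := div_nonpos_of_nonneg_of_nonpos h2 hd.le; linarith
      · have := div_nonpos_of_nonneg_of_nonpos h3 hd.le; linarith
      · have : x = α • a + β • b + γ • c - τ • north := by rw [← he]; abel
        rw [this]
        conv_lhs => rw [hN]
        rw [smul_add, smul_add, smul_smul, smul_smul, smul_smul, sub_smul, sub_smul, sub_smul]
        simp only [mul_div_assoc]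
        abel
    refine ⟨?_, Or.inr ⟨hd, key⟩⟩
    intro h0
    apply key
    rw [h0]
    exact ⟨0, 0, 0, le_refl _, le_refl _, le_refl _, by simp⟩

/-- the point over the direction `w` at height `z` -/
def pt (w : ℝ × ℝ) (z : ℝ) : Fin 3 → ℝ := ![w.1, w.2, z]

lemma pt_add (w : ℝ × ℝ) (z τ : ℝ) : pt w z + τ • north = pt w (z + τ) := by
  ext i; fin_cases i <;> simp [pt, north]

lemma pt_ne {w : ℝ × ℝ} (hw : w ≠ 0) (z : ℝ) : pt w z ≠ 0 := by
  intro h
  apply hw
  have h0 := congrFun h 0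
  have h1 := congrFun h 1
  simp [pt] at h0 h1
  exact Prod.ext h0 h1

/-! ### a covering lemma on the line -/

open Filter Topology in
lemma mono_cover {ι : Type*} [DecidableEq ι] (I : ι → Set ℝ) (val : ι → ℝ → ℝ) :
    ∀ (N : ℕ) (s : Finset ι), s.card = N → (∀ i ∈ s, IsClosed (I i)) →
    (∀ i ∈ s, ∀ z ∈ I i, ∀ z' ∈ I i, z < z' → val i z < val i z') →
    (∀ i ∈ s, ∀ j ∈ s, ∀ z, z ∈ I i → z ∈ I j → val i z = val j z) →
    ∀ z1 z2 : ℝ, z1 < z2 → (∀ z ∈ Ioc z1 z2, ∃ i ∈ s, z ∈ I i) →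
    ∃ i ∈ s, z1 ∈ I i ∧ ∀ j ∈ s, z2 ∈ I j → val i z1 < val j z2 := by
  intro N
  induction N with
  | zero =>
    intro s hs _ _ _ z1 z2 h12 hcov
    rw [Finset.card_eq_zero] at hs
    subst hs
    obtain ⟨i, hi, -⟩ := hcov z2 ⟨h12, le_refl _⟩
    exact absurd hi (Finset.notMem_empty i)
  | succ N ih =>
    intro s hs hcl hinc hcons z1 z2 h12 hcov
    -- a set containing `z1` and a point to the right
    obtain ⟨i0, hi0, hz1, z', hz', hzz⟩ : ∃ i ∈ s, z1 ∈ I i ∧ ∃ z' ∈ I i, z' ∈ Ioc z1 z2 := by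
      by_contra hno
      push Not at hno
      have hev : ∀ i ∈ s, ∀ᶠ z in 𝓝[>] z1, z ∉ I i := by
        intro i hi
        by_cases h1 : z1 ∈ I i
        · have := hno i hi h1
          have h2 : ∀ᶠ z in 𝓝[>] z1, z ∈ Ioc z1 z2 := Ioc_mem_nhdsGT h12
          filter_upwards [h2] with z hz hzI
          exact this z hzI hz
        · have : (I i)ᶜ ∈ 𝓝 z1 := (hcl i hi).isOpen_compl.mem_nhds h1
          exact nhdsWithin_le_nhds this
      have hall : ∀ᶠ z in 𝓝[>] z1, ∀ i ∈ s, z ∉ I i := (Finset.eventually_all s).mpr hev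
      have h2 : ∀ᶠ z in 𝓝[>] z1, z ∈ Ioc z1 z2 := Ioc_mem_nhdsGT h12
      obtain ⟨z, hz1, hz2⟩ := (hall.and h2).exists
      obtain ⟨i, hi, hzI⟩ := hcov z hz2
      exact hz1 i hi hzI
    -- the last point of this set
    set K := I i0 ∩ Icc z1 z2 with hK
    have hKc : IsCompact K := (isCompact_Icc).inter_left (hcl i0 hi0)
    have hKn : K.Nonempty := ⟨z1, hz1, le_refl _, h12.le⟩
    obtain ⟨m, hmK, hmax⟩ := hKc.exists_isGreatest hKn
    have hmz : z1 < m := lt_of_lt_of_le hzz.1 (hmax ⟨hz', hzz.1.le, hzz.2⟩)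
    rcases hmK.2.2.eq_or_lt with hm2 | hm2
    · refine ⟨i0, hi0, hz1, fun j hj hzj => ?_⟩
      rw [← hcons i0 hi0 j hj z2 (hm2 ▸ hmK.1) hzj]
      exact hinc i0 hi0 z1 hz1 z2 (hm2 ▸ hmK.1) h12
    · have hafter : ∀ z ∈ Ioc m z2, z ∉ I i0 := by
        intro z hz hzI
        have := hmax ⟨hzI, hmz.le.trans hz.1.le, hz.2⟩
        exact absurd this (not_le.mpr hz.1)
      obtain ⟨i, hi, him, hlt⟩ := ih (s.erase i0) (by rw [Finset.card_erase_of_mem hi0, hs]; rfl)
        (fun i hi => hcl i (Finset.mem_of_mem_erase hi))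
        (fun i hi => hinc i (Finset.mem_of_mem_erase hi))
        (fun i hi j hj => hcons i (Finset.mem_of_mem_erase hi) j (Finset.mem_of_mem_erase hj))
        m z2 hm2 (by
          intro z hz
          obtain ⟨i, hi, hzI⟩ := hcov z ⟨hmz.trans hz.1, hz.2⟩
          refine ⟨i, Finset.mem_erase.mpr ⟨?_, hi⟩, hzI⟩
          rintro rfl
          exact hafter z hz hzI)
      refine ⟨i0, hi0, hz1, fun j hj hzj => ?_⟩
      have hji : j ≠ i0 := by
        rintro rfl
        exact hafter z2 ⟨hm2, le_refl _⟩ hzj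
      have h1 := hinc i0 hi0 z1 hz1 m hmK.1 hmz
      have h2 := hcons i0 hi0 i (Finset.mem_of_mem_erase hi) m hmK.1 him
      have h3 := hlt j (Finset.mem_erase.mpr ⟨hji, hj⟩) hzj
      linarith

/-! ### values on edges and faces -/

lemma lin_indep (hE : EmbC G p) {i j : Fin n} (hij : G.Adj i j) {s t : ℝ}
    (he : s • p i + t • p j = 0) : s = 0 ∧ t = 0 := by
  have hs : s = 0 := by
    by_contra hs
    have e : p i = (-(t / s)) • p j := by
      have := congrArg (fun x => s⁻¹ • x) he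
      simp only [smul_add, smul_smul, inv_mul_cancel₀ hs, one_smul, smul_zero] at this
      rw [eq_neg_of_add_eq_zero_left this, neg_smul]
      congr 2
      rw [div_eq_inv_mul]
    rcases lt_trichotomy (t / s) 0 with h | h | h
    · exact hij.ne (hE.inj i j _ (by linarith) e)
    · rw [h] at e
      exact hE.ne0 i (by simpa using e)
    · exact hE.anti i j _ hij h (by rw [e, neg_smul])
  refine ⟨hs, ?_⟩
  rw [hs] at he
  simp only [zero_smul, zero_add, smul_eq_zero] at he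
  exact he.resolve_right (hE.ne0 j)

lemma lin_indep' (hE : EmbC G p) {i j : Fin n} (hij : G.Adj i j) {s t s' t' : ℝ}
    (he : s • p i + t • p j = s' • p i + t' • p j) : s = s' ∧ t = t' := by
  have : (s - s') • p i + (t - t') • p j = 0 := by
    rw [sub_smul, sub_smul]
    have : s • p i - s' • p i + (t • p j - t' • p j) =
      (s • p i + t • p j) - (s' • p i + t' • p j) := by abel
    rw [this, he, sub_self]
  obtain ⟨h1, h2⟩ := lin_indep hE hij this
  exact ⟨by linarith, by linarith⟩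

lemma edge_m (hE : EmbC G p) {i j m : Fin n} (hij : G.Adj i j)
    (hm : m ∈ s(i, j)) {s t c : ℝ} (he : s • p i + t • p j = c • p m) (h : Fin n → ℝ) :
    s * h i + t * h j = c * h m := by
  rw [Sym2.mem_iff] at hm
  rcases hm with rfl | rfl
  · have : s • p m + t • p j = c • p m + (0:ℝ) • p j := by rw [he]; simp
    obtain ⟨rfl, rfl⟩ := lin_indep' hE hij this
    ring
  · have : s • p i + t • p m = (0:ℝ) • p i + c • p m := by rw [he]; simp
    obtain ⟨rfl, rfl⟩ := lin_indep' hE hij this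
    ring

lemma edge_val (hE : EmbC G p)
    {i j k l : Fin n} (hij : G.Adj i j)
    (hkl : G.Adj k l) {s t s' t' : ℝ} (hs : 0 ≤ s) (ht : 0 ≤ t) (hs' : 0 ≤ s') (ht' : 0 ≤ t')
    (he : s • p i + t • p j = s' • p k + t' • p l) (h0 : s • p i + t • p j ≠ 0) (h : Fin n → ℝ) :
    s * h i + t * h j = s' * h k + t' * h l := by
  by_cases hs2 : s(i, j) = s(k, l)
  · rw [Sym2.eq_iff] at hs2
    rcases hs2 with ⟨rfl, rfl⟩ | ⟨rfl, rfl⟩
    · obtain ⟨rfl, rfl⟩ := lin_indep' hE hij he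
      rfl
    · obtain ⟨rfl, rfl⟩ := lin_indep' hE hij (s := s) (t := t) (s' := t') (t' := s')
        (by rw [he]; abel)
      ring
  · obtain ⟨m, h1, h2, c, hc, hx⟩ := hE.meet i j k l _ hij hkl hs2 h0 ⟨s, t, hs, ht, rfl⟩
      ⟨s', t', hs', ht', he⟩
    rw [edge_m hE hij h1 hx h, edge_m hE hkl h2 (he ▸ hx) h]

/-- value of the piecewise linear map on a face -/
noncomputable def fval (p : Fin n → Fin 3 → ℝ) (h : Fin n → ℝ) (f : Fin n × Fin n × Fin n)
    (x : Fin 3 → ℝ) : ℝ :=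
  det3 x (p f.2.1) (p f.2.2) / det3 (p f.1) (p f.2.1) (p f.2.2) * h f.1 +
  det3 (p f.1) x (p f.2.2) / det3 (p f.1) (p f.2.1) (p f.2.2) * h f.2.1 +
  det3 (p f.1) (p f.2.1) x / det3 (p f.1) (p f.2.1) (p f.2.2) * h f.2.2

lemma fval_comb {h : Fin n → ℝ} {a b c : Fin n} (hd : det3 (p a) (p b) (p c) ≠ 0) (α β γ : ℝ) :
    fval p h (a, b, c) (α • p a + β • p b + γ • p c) = α * h a + β * h b + γ * h c := by
  unfold fval
  simp only [det3_comb1, det3_comb2, det3_comb3]
  rw [mul_div_cancel_right₀ _ hd, mul_div_cancel_right₀ _ hd, mul_div_cancel_right₀ _ hd]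

lemma fval_pt {h : Fin n → ℝ} {a b c : Fin n} (w : ℝ × ℝ)
    (z z' : ℝ) : fval p h (a, b, c) (pt w z') - fval p h (a, b, c) (pt w z) =
      (z' - z) * (Dh p h a b c / det3 (p a) (p b) (p c)) := by
  unfold fval Dh
  have e1 : det3 (pt w z') (p b) (p c) = det3 (pt w z) (p b) (p c) + (z' - z) * hA (p b) (p c) := by
    simp [det3, hA, pt]; ring
  have e2 : det3 (p a) (pt w z') (p c) = det3 (p a) (pt w z) (p c) + (z' - z) * hA (p c) (p a) := by
    simp [det3, hA, pt]; ring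
  have e3 : det3 (p a) (p b) (pt w z') = det3 (p a) (p b) (pt w z) + (z' - z) * hA (p a) (p b) := by
    simp [det3, hA, pt]; ring
  simp only [e1, e2, e3]
  ring

/-- a point of a closed face that is on the skeleton is on an edge of the face -/
lemma face_edge {a b c : Fin n} (hf : Fc G p a b c) (hd : 0 < det3 (p a) (p b) (p c))
    {x : Fin 3 → ℝ} (hx0 : x ≠ 0) (hx : x ∈ CC (p a) (p b) (p c)) (hs : x ∈ SkC G p) :
    x ∈ EC (p a) (p b) ∨ x ∈ EC (p b) (p c) ∨ x ∈ EC (p c) (p a) :=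
  CC_boundary hx fun ho => hf.empty x ⟨hx0, Or.inl ⟨hd, ho⟩⟩ hs

lemma face_val (hE : EmbC G p)
    {a b c : Fin n} (hf : Fc G p a b c) (hd : 0 < det3 (p a) (p b) (p c))
    {i j : Fin n} (hij : G.Adj i j) {s t : ℝ} (hs : 0 ≤ s) (ht : 0 ≤ t)
    (h0 : s • p i + t • p j ≠ 0) (hx : s • p i + t • p j ∈ CC (p a) (p b) (p c)) (h : Fin n → ℝ) :
    fval p h (a, b, c) (s • p i + t • p j) = s * h i + t * h j := by
  have hsk : s • p i + t • p j ∈ SkC G p := ⟨h0, i, j, hij, s, t, hs, ht, rfl⟩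
  rcases face_edge hf hd h0 hx hsk with ⟨s', t', hs', ht', e⟩ | ⟨s', t', hs', ht', e⟩ |
    ⟨s', t', hs', ht', e⟩
  · rw [edge_val hE hij hf.ab hs ht hs' ht' e h0 h, e]
    have : s' • p a + t' • p b = s' • p a + t' • p b + (0:ℝ) • p c := by simp
    rw [this, fval_comb hd.ne']; ring
  · rw [edge_val hE hij hf.bc hs ht hs' ht' e h0 h, e]
    have : s' • p b + t' • p c = (0:ℝ) • p a + s' • p b + t' • p c := by simp
    rw [this, fval_comb hd.ne']; ring
  · rw [edge_val hE hij hf.ca hs ht hs' ht' e h0 h, e]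
    have : s' • p c + t' • p a = t' • p a + (0:ℝ) • p b + s' • p c := by simp [add_comm]
    rw [this, fval_comb hd.ne']; ring

lemma fval_rot {h : Fin n → ℝ} {a b c : Fin n} (x : Fin 3 → ℝ) :
    fval p h (b, c, a) x = fval p h (a, b, c) x := by
  unfold fval
  have e0 : det3 (p b) (p c) (p a) = det3 (p a) (p b) (p c) := det3_rot _ _ _
  have e1 : det3 x (p c) (p a) = det3 (p a) x (p c) := det3_rot _ _ _
  have e2 : det3 (p b) x (p a) = det3 (p a) (p b) x := det3_rot _ _ _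
  have e3 : det3 (p b) (p c) x = det3 x (p b) (p c) := det3_rot _ _ _
  simp only [e0, e1, e2, e3]
  ring

/-! ### the skeleton over a direction -/

lemma sk_finite (G : SimpleGraph (Fin n)) (p : Fin n → Fin 3 → ℝ) (w : ℝ × ℝ) :
    {z : ℝ | ∃ i j, G.Adj i j ∧ hA (p i) (p j) ≠ 0 ∧ pt w z ∈ EC (p i) (p j)}.Finite := by
  have : {z : ℝ | ∃ i j, G.Adj i j ∧ hA (p i) (p j) ≠ 0 ∧ pt w z ∈ EC (p i) (p j)} ⊆
      ⋃ q : Fin n × Fin n, {z : ℝ | hA (p q.1) (p q.2) ≠ 0 ∧ pt w z ∈ EC (p q.1) (p q.2)} := by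
    rintro z ⟨i, j, -, h1, h2⟩
    exact mem_iUnion.mpr ⟨(i, j), h1, h2⟩
  refine Set.Finite.subset (Set.finite_iUnion fun q => ?_) this
  apply Set.Subsingleton.finite
  rintro z ⟨hne, s, t, hs, ht, e⟩ z' ⟨-, s', t', hs', ht', e'⟩
  have a0 := congrFun e 0
  have a1 := congrFun e 1
  have a2 := congrFun e 2
  have b0 := congrFun e' 0
  have b1 := congrFun e' 1
  have b2 := congrFun e' 2
  simp only [pt, Matrix.cons_val, Pi.add_apply, Pi.smul_apply, smul_eq_mul] at a0 a1 a2 b0 b1 b2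
  have hAe : hA (p q.1) (p q.2) = p q.1 0 * p q.2 1 - p q.1 1 * p q.2 0 := rfl
  have c0 : (s - s') * p q.1 0 + (t - t') * p q.2 0 = 0 := by linarith
  have c1 : (s - s') * p q.1 1 + (t - t') * p q.2 1 = 0 := by linarith
  have h1 : (s - s') * hA (p q.1) (p q.2) = 0 := by
    rw [hAe]
    have : (s - s') * (p q.1 0 * p q.2 1 - p q.1 1 * p q.2 0) =
      ((s - s') * p q.1 0 + (t - t') * p q.2 0) * p q.2 1 -
      ((s - s') * p q.1 1 + (t - t') * p q.2 1) * p q.2 0 := by ring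
    rw [this, c0, c1]; ring
  have h2 : (t - t') * hA (p q.1) (p q.2) = 0 := by
    rw [hAe]
    have : (t - t') * (p q.1 0 * p q.2 1 - p q.1 1 * p q.2 0) =
      p q.1 0 * ((s - s') * p q.1 1 + (t - t') * p q.2 1) -
      p q.1 1 * ((s - s') * p q.1 0 + (t - t') * p q.2 0) := by ring
    rw [this, c0, c1]; ring
  have h1' := (mul_eq_zero.mp h1).resolve_right hne
  have h2' := (mul_eq_zero.mp h2).resolve_right hne
  have hs' : s = s' := by linarith
  have ht' : t = t' := by linarith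
  rw [a2, b2, hs', ht']

lemma CC_closed {a b c : Fin 3 → ℝ} (hd : det3 a b c ≠ 0) (w : ℝ × ℝ) :
    IsClosed {z : ℝ | pt w z ∈ CC a b c} := by
  have : {z : ℝ | pt w z ∈ CC a b c} =
      {z : ℝ | 0 ≤ det3 (pt w z) b c / det3 a b c} ∩ ({z : ℝ | 0 ≤ det3 a (pt w z) c / det3 a b c} ∩
      {z : ℝ | 0 ≤ det3 a b (pt w z) / det3 a b c}) := by
    ext z
    simp only [mem_ofPred_eq, mem_inter_iff]
    exact mem_CC hd
  rw [this]
  refine IsClosed.inter ?_ (IsClosed.inter ?_ ?_)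
  · apply isClosed_le continuous_const
    unfold det3 hA pt
    simp only [Matrix.cons_val]
    fun_prop
  · apply isClosed_le continuous_const
    unfold det3 hA pt
    simp only [Matrix.cons_val]
    fun_prop
  · apply isClosed_le continuous_const
    unfold det3 hA pt
    simp only [Matrix.cons_val]
    fun_prop

/-- between two points of the skeleton on the same longitude, everything is covered by the closed
side faces -/
lemma Stand.cover (J2a : Job2a) (H : Stand G p) {w : ℝ × ℝ} (hw : w ≠ 0) {z1 z2 : ℝ}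
    (h1 : pt w z1 ∈ SkC G p) (h2 : pt w z2 ∈ SkC G p) :
    ∀ z ∈ Ioc z1 z2, ∃ a b c, Fc G p a b c ∧ Side p a b c ∧ pt w z ∈ CC (p a) (p b) (p c) := by
  classical
  -- the union of the closed side faces
  set T : Set ℝ := ⋃ f : {f : Fin n × Fin n × Fin n // Fc G p f.1 f.2.1 f.2.2 ∧
    Side p f.1 f.2.1 f.2.2}, {z : ℝ | pt w z ∈ CC (p f.1.1) (p f.1.2.1) (p f.1.2.2)} with hT
  have hTc : IsClosed T := isClosed_iUnion_of_finite fun f => CC_closed f.2.1.det_ne w
  have hmem : ∀ z, z ∈ T → ∃ a b c, Fc G p a b c ∧ Side p a b c ∧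
      pt w z ∈ CC (p a) (p b) (p c) := by
    intro z hz
    obtain ⟨f, hf⟩ := mem_iUnion.mp hz
    exact ⟨_, _, _, f.2.1, f.2.2, hf⟩
  have hmem' : ∀ z a b c, Fc G p a b c → Side p a b c → pt w z ∈ CC (p a) (p b) (p c) →
      z ∈ T := by
    intro z a b c h1 h2 h3
    exact mem_iUnion.mpr ⟨⟨(a, b, c), h1, h2⟩, h3⟩
  have hopen : ∀ z ∈ Ioo z1 z2,
      z ∉ {z : ℝ | ∃ i j, G.Adj i j ∧ hA (p i) (p j) ≠ 0 ∧ pt w z ∈ EC (p i) (p j)} → z ∈ T := by
    intro z hz hzS
    by_cases hsk : pt w z ∈ SkC G p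
    · obtain ⟨-, i, j, hij, hE⟩ := hsk
      have h0 : hA (p i) (p j) = 0 := by
        by_contra hne
        exact hzS ⟨i, j, hij, hne, hE⟩
      obtain ⟨c, hc⟩ := J2a n G p H.tri i j hij
      refine hmem' z i j c hc ⟨fun h => ?_, fun h => ?_⟩ ?_
      · exact absurd h.2.2 (by rw [h0]; exact lt_irrefl _)
      · exact absurd h.2.2 (by rw [h0]; exact lt_irrefl _)
      · obtain ⟨s, t, hs, ht, e⟩ := hE
        exact ⟨s, t, 0, hs, ht, le_refl _, by rw [e]; simp⟩
    · obtain ⟨a, b, c, hf, hx⟩ := H.tri.cover _ (pt_ne hw z) hsk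
      have hside : Side p a b c := by
        constructor
        · rintro ⟨q1, q2, q3⟩
          have hz2 : 0 ≤ z2 - z := by linarith [hz.2]
          have := reg_shift (τ := z2 - z) (mul_nonneg hz2 q1.le) (mul_nonneg hz2 q2.le)
            (mul_nonneg hz2 q3.le) hx
          rw [pt_add] at this
          have e : z + (z2 - z) = z2 := by ring
          rw [e] at this
          exact hf.empty _ this h2
        · rintro ⟨q1, q2, q3⟩
          have hz2 : z1 - z ≤ 0 := by linarith [hz.1]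
          have := reg_shift (τ := z1 - z) (mul_nonneg_of_nonpos_of_nonpos hz2 q1.le)
            (mul_nonneg_of_nonpos_of_nonpos hz2 q2.le)
            (mul_nonneg_of_nonpos_of_nonpos hz2 q3.le) hx
          rw [pt_add] at this
          have e : z + (z1 - z) = z1 := by ring
          rw [e] at this
          exact hf.empty _ this h1
      have hd := H.side_pos hf hside
      apply hmem' z a b c hf hside
      obtain ⟨-, ⟨-, α, β, γ, hα, hβ, hγ, e⟩ | ⟨h, -⟩⟩ := hx
      · exact ⟨α, β, γ, hα.le, hβ.le, hγ.le, e⟩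
      · exact absurd hd (not_lt.mpr h.le)
  intro z hz
  apply hmem
  by_contra hzT
  have hev : Tᶜ ∈ 𝓝 z := hTc.isOpen_compl.mem_nhds hzT
  have hev2 : Tᶜ ∩ Ioo z1 z ∈ 𝓝[<] z :=
    Filter.inter_mem (nhdsWithin_le_nhds hev) (Ioo_mem_nhdsLT hz.1)
  obtain ⟨l, hl, hsub⟩ := mem_nhdsLT_iff_exists_Ioo_subset.mp hev2
  have hinf : (Ioo l z).Infinite := Ioo_infinite hl
  apply hinf
  apply (sk_finite G p w).subset
  intro y hy
  by_contra hyS
  have h3 := hsub hy
  exact h3.1 (hopen y ⟨h3.2.1, h3.2.2.trans_le hz.2⟩ hyS)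

/-- two representations of the value agree -/
lemma Stand.fval_eq (J2c : Job2c) (H : Stand G p) {a b c a' b' c' : Fin n}
    (hf : Fc G p a b c) (hs : Side p a b c) (hf' : Fc G p a' b' c') (hs' : Side p a' b' c')
    {x : Fin 3 → ℝ} (hx0 : x ≠ 0) (hx : x ∈ CC (p a) (p b) (p c))
    (hx' : x ∈ CC (p a') (p b') (p c')) (h : Fin n → ℝ) :
    fval p h (a, b, c) x = fval p h (a', b', c') x := by
  have hd := H.side_pos hf hs
  have hd' := H.side_pos hf' hs'
  by_cases hsk : x ∈ SkC G p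
  · obtain ⟨-, i, j, hij, s, t, hs, ht, rfl⟩ := hsk
    rw [face_val H.tri.emb hf hd hij hs ht hx0 hx h, face_val H.tri.emb hf' hd' hij hs ht hx0 hx' h]
  · have key : ∀ {a b c : Fin n}, Fc G p a b c → 0 < det3 (p a) (p b) (p c) →
        x ∈ CC (p a) (p b) (p c) → x ∈ Reg (p a) (p b) (p c) := by
      intro a b c hf hd hx
      refine ⟨hx0, Or.inl ⟨hd, ?_⟩⟩
      by_contra hno
      rcases CC_boundary hx hno with h | h | h
      · exact hsk (EC_sk hf.ab hx0 h)
      · exact hsk (EC_sk hf.bc hx0 h)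
      · exact hsk (EC_sk hf.ca hx0 h)
    rcases J2c n G p H.tri a b c a' b' c' x hf hf' (key hf hd hx) (key hf' hd' hx') with
      ⟨rfl, rfl, rfl⟩ | ⟨rfl, rfl, rfl⟩ | ⟨rfl, rfl, rfl⟩
    · rfl
    · exact (fval_rot x).symm
    · exact fval_rot x

/-- THE VERTICAL MONOTONICITY LEMMA -/
lemma Stand.vml (J2a : Job2a) (J2c : Job2c) (H : Stand G p) {h : Fin n → ℝ}
    (hh : ∀ a b c, Fc G p a b c → Side p a b c → 0 < Dh p h a b c)
    {i j k l : Fin n} (hij : G.Adj i j) (hkl : G.Adj k l) {s t s' t' : ℝ} (hs : 0 ≤ s)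
    (ht : 0 ≤ t) (hs' : 0 ≤ s') (ht' : 0 ≤ t')
    (e0 : s * p i 0 + t * p j 0 = s' * p k 0 + t' * p l 0)
    (e1 : s * p i 1 + t * p j 1 = s' * p k 1 + t' * p l 1)
    (hw : ¬ (s * p i 0 + t * p j 0 = 0 ∧ s * p i 1 + t * p j 1 = 0))
    (hz : s * p i 2 + t * p j 2 < s' * p k 2 + t' * p l 2) :
    s * h i + t * h j < s' * h k + t' * h l := by
  classical
  set w : ℝ × ℝ := (s * p i 0 + t * p j 0, s * p i 1 + t * p j 1) with hwdef
  have hw0 : w ≠ 0 := by
    intro h0
    apply hw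
    exact ⟨congrArg Prod.fst h0, congrArg Prod.snd h0⟩
  set z1 := s * p i 2 + t * p j 2 with hz1
  set z2 := s' * p k 2 + t' * p l 2 with hz2
  have E1 : pt w z1 = s • p i + t • p j := by
    ext m; fin_cases m <;> simp [pt, hwdef, hz1]
  have E2 : pt w z2 = s' • p k + t' • p l := by
    ext m; fin_cases m <;> simp [pt, hwdef, hz2, e0, e1]
  have S1 : pt w z1 ∈ SkC G p := ⟨pt_ne hw0 _, i, j, hij, s, t, hs, ht, E1⟩
  have S2' : pt w z2 ∈ SkC G p := ⟨pt_ne hw0 _, k, l, hkl, s', t', hs', ht', E2⟩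
  have hcov := H.cover J2a hw0 S1 S2'
  let F : Finset (Fin n × Fin n × Fin n) :=
    Finset.univ.filter fun f => Fc G p f.1 f.2.1 f.2.2 ∧ Side p f.1 f.2.1 f.2.2
  have hF : ∀ f, f ∈ F ↔ Fc G p f.1 f.2.1 f.2.2 ∧ Side p f.1 f.2.1 f.2.2 := fun f => by
    simp [F]
  obtain ⟨f, hfF, hf1, hf2⟩ := mono_cover
    (fun f : Fin n × Fin n × Fin n => {z : ℝ | pt w z ∈ CC (p f.1) (p f.2.1) (p f.2.2)})
    (fun f z => fval p h f (pt w z)) F.card F rfl
    (fun f hf => CC_closed ((hF f).mp hf).1.det_ne w)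
    (fun f hf z _ z' _ hlt => by
      obtain ⟨q1, q2⟩ := (hF f).mp hf
      have hd := H.side_pos q1 q2
      have hD := hh _ _ _ q1 q2
      have := fval_pt (p := p) (h := h) (a := f.1) (b := f.2.1) (c := f.2.2) w z z'
      have h3 : 0 < (z' - z) * (Dh p h f.1 f.2.1 f.2.2 / det3 (p f.1) (p f.2.1) (p f.2.2)) :=
        mul_pos (by linarith) (div_pos hD hd)
      show fval p h (f.1, f.2.1, f.2.2) (pt w z) < fval p h (f.1, f.2.1, f.2.2) (pt w z')
      linarith)
    (fun f hf g hg z hz hz' => by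
      obtain ⟨q1, q2⟩ := (hF f).mp hf
      obtain ⟨r1, r2⟩ := (hF g).mp hg
      exact H.fval_eq J2c q1 q2 r1 r2 (pt_ne hw0 z) hz hz' h)
    z1 z2 hz (by
      intro z hz
      obtain ⟨a, b, c, q1, q2, q3⟩ := hcov z hz
      exact ⟨(a, b, c), (hF _).mpr ⟨q1, q2⟩, q3⟩)
  obtain ⟨a, b, c, q1, q2, q3⟩ := hcov z2 ⟨hz, le_refl _⟩
  have hlt := hf2 (a, b, c) ((hF _).mpr ⟨q1, q2⟩) q3
  obtain ⟨r1, r2⟩ := (hF f).mp hfF
  have v1 : fval p h f (pt w z1) = s * h i + t * h j := by
    rw [E1]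
    apply face_val H.tri.emb r1 (H.side_pos r1 r2) hij hs ht
    · rw [← E1]; exact pt_ne hw0 _
    · rw [← E1]; exact hf1
  have v2 : fval p h (a, b, c) (pt w z2) = s' * h k + t' * h l := by
    rw [E2]
    apply face_val H.tri.emb q1 (H.side_pos q1 q2) hkl hs' ht'
    · rw [← E2]; exact pt_ne hw0 _
    · rw [← E2]; exact q3
  rw [v1, v2] at hlt
  exact hlt

end Pool.Agent.Q131.Snk
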